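import Mathlib

set_option autoImplicit false
open Finset

/-! Discrete Hopf lemma: the total turning of self-avoiding lattice paths. Directions of nonzero
lattice vectors are recorded by an integer class between 0 and 7. -/

namespace Pool.Agent.H75.Perc

/-- Direction class of a nonzero lattice vector: 0 = E, 1 = open first quadrant, 2 = N, ..., 7. -/
def cl (z : ℤ × ℤ) : ℤ :=
  if z.2 = 0 then (if 0 < z.1 then 0 else 4)
  else if z.1 = 0 then (if 0 < z.2 then 2 else 6)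
  else if 0 < z.2 then (if 0 < z.1 then 1 else 3)
  else (if z.1 < 0 then 5 else 7)

/-- Signed change of direction class between neighbouring lattice vectors. -/
def Dl (z z' : ℤ × ℤ) : ℤ :=
  if cl z' - cl z = 7 then -1 else if cl z' - cl z = -7 then 1 else cl z' - cl z

/-- Lattice direction number `s` (mod 4): E, N, W, S. -/
def dir (s : ℤ) : ℤ × ℤ :=
  if s % 4 = 0 then (1, 0) else if s % 4 = 1 then (0, 1) else if s % 4 = 2 then (-1, 0)
  else (0, -1)

lemma dir_cases (s : ℤ) : (s % 4 = 0 ∧ dir s = (1, 0)) ∨ (s % 4 = 1 ∧ dir s = (0, 1)) ∨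
    (s % 4 = 2 ∧ dir s = (-1, 0)) ∨ (s % 4 = 3 ∧ dir s = (0, -1)) := by
  unfold dir
  have h1 := Int.emod_nonneg s (by norm_num : (4 : ℤ) ≠ 0)
  have h2 := Int.emod_lt_of_pos s (by norm_num : (0 : ℤ) < 4)
  have h : s % 4 = 0 ∨ s % 4 = 1 ∨ s % 4 = 2 ∨ s % 4 = 3 := by omega
  rcases h with h | h | h | h <;> simp [h]

/-- Unit-distance vectors. -/
def IsUnit4 (u : ℤ × ℤ) : Prop := u = (1, 0) ∨ u = (0, 1) ∨ u = (-1, 0) ∨ u = (0, -1)

lemma isUnit4_dir (s : ℤ) : IsUnit4 (dir s) := by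
  rcases dir_cases s with h | h | h | h <;> simp [IsUnit4, h.2]

lemma isUnit4_neg {u : ℤ × ℤ} (h : IsUnit4 u) : IsUnit4 (-u) := by
  rcases h with h | h | h | h <;> subst h <;> simp [IsUnit4]

lemma cl_cases (z : ℤ × ℤ) (hz : z ≠ 0) :
    (cl z = 0 ∧ z.2 = 0 ∧ 0 < z.1) ∨ (cl z = 1 ∧ 0 < z.2 ∧ 0 < z.1) ∨
    (cl z = 2 ∧ 0 < z.2 ∧ z.1 = 0) ∨ (cl z = 3 ∧ 0 < z.2 ∧ z.1 < 0) ∨
    (cl z = 4 ∧ z.2 = 0 ∧ z.1 < 0) ∨ (cl z = 5 ∧ z.2 < 0 ∧ z.1 < 0) ∨
    (cl z = 6 ∧ z.2 < 0 ∧ z.1 = 0) ∨ (cl z = 7 ∧ z.2 < 0 ∧ 0 < z.1) := by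
  obtain ⟨x, y⟩ := z
  have hz1 : ¬ (x = 0 ∧ y = 0) := by
    intro h; apply hz; simp [h.1, h.2]
  unfold cl
  simp only
  split_ifs <;> simp <;> omega

lemma Dl_of (z z' : ℤ × ℤ) (a b c : ℤ) (ha : cl z = a) (hb : cl z' = b)
    (h : (b - a = 7 ∧ c = -1) ∨ (b - a = -7 ∧ c = 1) ∨ (b - a ≠ 7 ∧ b - a ≠ -7 ∧ c = b - a)) :
    Dl z z' = c := by
  unfold Dl
  rw [ha, hb]
  split_ifs <;> omega

/-- The class changes by at most one along a unit step, modulo 8. -/
lemma Dl_spec (z z' : ℤ × ℤ) (hu : IsUnit4 (z' - z)) (hz : z ≠ 0) (hz' : z' ≠ 0) :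
    (-1 ≤ Dl z z' ∧ Dl z z' ≤ 1) ∧ ∃ m : ℤ, Dl z z' - (cl z' - cl z) = 8 * m := by
  have hu' : (z'.1 - z.1 = 1 ∧ z'.2 - z.2 = 0) ∨ (z'.1 - z.1 = 0 ∧ z'.2 - z.2 = 1) ∨
      (z'.1 - z.1 = -1 ∧ z'.2 - z.2 = 0) ∨ (z'.1 - z.1 = 0 ∧ z'.2 - z.2 = -1) := by
    rcases hu with h | h | h | h
    · left; exact ⟨by simpa using congrArg Prod.fst h, by simpa using congrArg Prod.snd h⟩
    · right; left; exact ⟨by simpa using congrArg Prod.fst h, by simpa using congrArg Prod.snd h⟩
    · right; right; left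
      exact ⟨by simpa using congrArg Prod.fst h, by simpa using congrArg Prod.snd h⟩
    · right; right; right
      exact ⟨by simpa using congrArg Prod.fst h, by simpa using congrArg Prod.snd h⟩
  have hd : Dl z z' = (if cl z' - cl z = 7 then -1 else if cl z' - cl z = -7 then 1
      else cl z' - cl z) := rfl
  have c1 := cl_cases z hz
  have c2 := cl_cases z' hz'
  by_cases h7 : cl z' - cl z = 7
  · rw [if_pos h7] at hd
    rw [hd, h7]; exact ⟨by norm_num, ⟨-1, by norm_num⟩⟩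
  · rw [if_neg h7] at hd
    by_cases h8 : cl z' - cl z = -7
    · rw [if_pos h8] at hd
      rw [hd, h8]; exact ⟨by norm_num, ⟨1, by norm_num⟩⟩
    · rw [if_neg h8] at hd
      rw [hd]
      refine ⟨?_, ⟨0, by ring⟩⟩
      rcases c1 with c1 | c1 | c1 | c1 | c1 | c1 | c1 | c1 <;>
      rcases c2 with c2 | c2 | c2 | c2 | c2 | c2 | c2 | c2 <;>
      omega

/-- The square relation. -/
lemma square (a b c d : ℤ × ℤ) (ha : a ≠ 0) (hb : b ≠ 0) (hc : c ≠ 0) (hd : d ≠ 0)
    (hab : IsUnit4 (b - a)) (hbd : IsUnit4 (d - b)) (hac : IsUnit4 (c - a))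
    (hcd : IsUnit4 (d - c)) : Dl a b + Dl b d = Dl a c + Dl c d := by
  obtain ⟨h1, m1, e1⟩ := Dl_spec a b hab ha hb
  obtain ⟨h2, m2, e2⟩ := Dl_spec b d hbd hb hd
  obtain ⟨h3, m3, e3⟩ := Dl_spec a c hac ha hc
  obtain ⟨h4, m4, e4⟩ := Dl_spec c d hcd hc hd
  omega

/-- The triangle relation at the diagonal. -/
lemma triangle (s s' : ℤ) (h1 : -1 ≤ s' - s) (h2 : s' - s ≤ 1) :
    Dl (dir s) (dir s + dir s') + Dl (dir s + dir s') (dir s') = 2 * (s' - s) := by
  have h : s' = s - 1 ∨ s' = s ∨ s' = s + 1 := by omega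
  rcases dir_cases s with ⟨e, f⟩ | ⟨e, f⟩ | ⟨e, f⟩ | ⟨e, f⟩ <;>
  rcases dir_cases s' with ⟨e', f'⟩ | ⟨e', f'⟩ | ⟨e', f'⟩ | ⟨e', f'⟩ <;>
  first
  | (exfalso; omega)
  | (rw [f, f']
     first
     | (have hs : s' - s = 0 := by omega
        rw [hs]; decide)
     | (have hs : s' - s = 1 := by omega
        rw [hs]; decide)
     | (have hs : s' - s = -1 := by omega
        rw [hs]; decide))

/-- A lattice path with step directions `σ`. -/
structure IsPath (p : ℕ → ℤ × ℤ) (σ : ℕ → ℤ) : Prop where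
  step : ∀ i, p (i + 1) = p i + dir (σ i)
  turn : ∀ i, -1 ≤ σ (i + 1) - σ i ∧ σ (i + 1) - σ i ≤ 1

/-- Lifted direction class of `p j - p i`. -/
def GG (p : ℕ → ℤ × ℤ) (σ : ℕ → ℤ) (i j : ℕ) : ℤ :=
  2 * σ i + ∑ m ∈ Ico (i + 1) j, Dl (p m - p i) (p (m + 1) - p i)

lemma GG_diag (p : ℕ → ℤ × ℤ) (σ : ℕ → ℤ) (i : ℕ) : GG p σ i (i + 1) = 2 * σ i := by
  simp [GG]

lemma GG_succ (p : ℕ → ℤ × ℤ) (σ : ℕ → ℤ) (i j : ℕ) (h : i + 1 ≤ j) :
    GG p σ i (j + 1) = GG p σ i j + Dl (p j - p i) (p (j + 1) - p i) := by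
  unfold GG
  rw [Finset.sum_Ico_succ_top h]; ring

/-- Column increments of the lift. -/
lemma GG_col (p : ℕ → ℤ × ℤ) (σ : ℕ → ℤ) (hp : IsPath p σ) (i : ℕ) :
    ∀ j, i + 2 ≤ j → (∀ a, (a = i ∨ a = i + 1) → ∀ b, a < b → b ≤ j → p a ≠ p b) →
    GG p σ (i + 1) j - GG p σ i j = Dl (p j - p i) (p j - p (i + 1)) := by
  intro j hj
  induction j, hj using Nat.le_induction with
  | base =>
    intro hne
    rw [GG_diag p σ (i + 1), GG_succ p σ i (i + 1) (by omega), GG_diag]
    have e1 : p (i + 1) - p i = dir (σ i) := by rw [hp.step i]; abel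
    have e2 : p (i + 1 + 1) - p i = dir (σ i) + dir (σ (i + 1)) := by
      rw [hp.step (i + 1), hp.step i]; abel
    have e4 : p (i + 2) - p (i + 1) = dir (σ (i + 1)) := by
      have := hp.step (i + 1)
      rw [show i + 2 = i + 1 + 1 from rfl, this]; abel
    rw [e1, e2, e4]
    have := triangle (σ i) (σ (i + 1)) (hp.turn i).1 (hp.turn i).2
    linarith
  | succ j hj ih =>
    intro hne
    have ih' := ih (fun a ha b hab hb => hne a ha b hab (by omega))
    rw [GG_succ p σ (i + 1) j (by omega), GG_succ p σ i j (by omega)]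
    have hz : ∀ a, (a = i ∨ a = i + 1) → ∀ b, a < b → b ≤ j + 1 → p b - p a ≠ 0 := by
      intro a ha b hab hb h0
      exact hne a ha b hab hb (sub_eq_zero.1 h0).symm
    have sq := square (p j - p i) (p j - p (i + 1)) (p (j + 1) - p i) (p (j + 1) - p (i + 1))
      (hz i (Or.inl rfl) j (by omega) (by omega)) (hz (i + 1) (Or.inr rfl) j (by omega) (by omega))
      (hz i (Or.inl rfl) (j + 1) (by omega) (by omega))
      (hz (i + 1) (Or.inr rfl) (j + 1) (by omega) (by omega))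
      (by
        have : p j - p (i + 1) - (p j - p i) = - dir (σ i) := by rw [hp.step i]; abel
        rw [this]; exact isUnit4_neg (isUnit4_dir _))
      (by
        have : p (j + 1) - p (i + 1) - (p j - p (i + 1)) = dir (σ j) := by rw [hp.step j]; abel
        rw [this]; exact isUnit4_dir _)
      (by
        have : p (j + 1) - p i - (p j - p i) = dir (σ j) := by rw [hp.step j]; abel
        rw [this]; exact isUnit4_dir _)
      (by
        have : p (j + 1) - p (i + 1) - (p (j + 1) - p i) = - dir (σ i) := by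
          rw [hp.step i]; abel
        rw [this]; exact isUnit4_neg (isUnit4_dir _))
    linarith

/-- A region of the plane with a consistent lift of the direction class. -/
def Window (H : ℤ × ℤ → Prop) (lam : ℤ × ℤ → ℤ) : Prop :=
  ∀ z z' : ℤ × ℤ, z ≠ 0 → z' ≠ 0 → H z → H z' → Dl z z' = lam z' - lam z

lemma window_N : Window (fun z => 0 ≤ z.2) cl := by
  intro z z' hz hz' h h'
  rcases cl_cases z hz with c1 | c1 | c1 | c1 | c1 | c1 | c1 | c1 <;>
  rcases cl_cases z' hz' with c2 | c2 | c2 | c2 | c2 | c2 | c2 | c2 <;>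
  first
  | (exfalso; omega)
  | (refine Dl_of z z' _ _ _ rfl rfl ?_; omega)

lemma window_W : Window (fun z => z.1 ≤ 0) cl := by
  intro z z' hz hz' h h'
  rcases cl_cases z hz with c1 | c1 | c1 | c1 | c1 | c1 | c1 | c1 <;>
  rcases cl_cases z' hz' with c2 | c2 | c2 | c2 | c2 | c2 | c2 | c2 <;>
  first
  | (exfalso; omega)
  | (refine Dl_of z z' _ _ _ rfl rfl ?_; omega)

/-- Lift used in the right half-plane. -/
def lamE (z : ℤ × ℤ) : ℤ := if 6 ≤ cl z then cl z - 8 else cl z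

/-- Lift used in the lower half-plane. -/
def lamS (z : ℤ × ℤ) : ℤ := if 4 ≤ cl z then cl z - 8 else cl z

/-- Lattice neighbours version of a window. -/
def WindowA (H : ℤ × ℤ → Prop) (lam : ℤ × ℤ → ℤ) : Prop :=
  ∀ z z' : ℤ × ℤ, z ≠ 0 → z' ≠ 0 → IsUnit4 (z' - z) → H z → H z' → Dl z z' = lam z' - lam z

lemma Window.toA {H : ℤ × ℤ → Prop} {lam : ℤ × ℤ → ℤ} (h : Window H lam) : WindowA H lam :=
  fun z z' h1 h2 _ h3 h4 => h z z' h1 h2 h3 h4

lemma isUnit4_iff {u : ℤ × ℤ} (h : IsUnit4 u) : (u.1 = 1 ∧ u.2 = 0) ∨ (u.1 = 0 ∧ u.2 = 1) ∨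
    (u.1 = -1 ∧ u.2 = 0) ∨ (u.1 = 0 ∧ u.2 = -1) := by
  rcases h with h | h | h | h <;> subst h <;> simp

lemma window_E : WindowA (fun z => 0 ≤ z.1) lamE := by
  intro z z' hz hz' hu h h'
  have hu' := isUnit4_iff hu
  simp only [Prod.fst_sub, Prod.snd_sub] at hu'
  unfold lamE
  rcases cl_cases z hz with c1 | c1 | c1 | c1 | c1 | c1 | c1 | c1 <;>
  rcases cl_cases z' hz' with c2 | c2 | c2 | c2 | c2 | c2 | c2 | c2 <;>
  first
  | (exfalso; omega)
  | (refine Dl_of z z' _ _ _ rfl rfl ?_; split_ifs <;> omega)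

lemma window_S : WindowA (fun z => z.2 ≤ 0) lamS := by
  intro z z' hz hz' hu h h'
  have hu' := isUnit4_iff hu
  simp only [Prod.fst_sub, Prod.snd_sub] at hu'
  unfold lamS
  rcases cl_cases z hz with c1 | c1 | c1 | c1 | c1 | c1 | c1 | c1 <;>
  rcases cl_cases z' hz' with c2 | c2 | c2 | c2 | c2 | c2 | c2 | c2 <;>
  first
  | (exfalso; omega)
  | (refine Dl_of z z' _ _ _ rfl rfl ?_; split_ifs <;> omega)

/-- Row lift inside a window. -/
lemma GG_row_window (p : ℕ → ℤ × ℤ) (σ : ℕ → ℤ) (hp : IsPath p σ) (H : ℤ × ℤ → Prop)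
    (lam : ℤ × ℤ → ℤ) (hW : WindowA H lam) (i : ℕ) :
    ∀ j, i + 1 ≤ j → (∀ b, i < b → b ≤ j → p i ≠ p b) → (∀ b, i < b → b ≤ j → H (p b - p i)) →
    GG p σ i j - 2 * σ i = lam (p j - p i) - lam (p (i + 1) - p i) := by
  intro j hj
  induction j, hj using Nat.le_induction with
  | base => intro _ _; rw [GG_diag]; ring
  | succ j hj ih =>
    intro hne hH
    have ih' := ih (fun b h1 h2 => hne b h1 (by omega)) (fun b h1 h2 => hH b h1 (by omega))
    rw [GG_succ p σ i j hj]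
    have := hW (p j - p i) (p (j + 1) - p i)
      (fun h0 => hne j (by omega) (by omega) (sub_eq_zero.1 h0).symm)
      (fun h0 => hne (j + 1) (by omega) (by omega) (sub_eq_zero.1 h0).symm)
      (by
        have : p (j + 1) - p i - (p j - p i) = dir (σ j) := by rw [hp.step j]; abel
        rw [this]; exact isUnit4_dir _)
      (hH j (by omega) (by omega)) (hH (j + 1) (by omega) (by omega))
    linarith

/-- Column lift inside a window. -/
lemma GG_col_window (p : ℕ → ℤ × ℤ) (σ : ℕ → ℤ) (hp : IsPath p σ) (H : ℤ × ℤ → Prop)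
    (lam : ℤ × ℤ → ℤ) (hW : WindowA H lam) (j : ℕ)
    (hne : ∀ a b, a < b → b ≤ j → p a ≠ p b) (hH : ∀ a, a < j → H (p j - p a)) :
    ∀ i, i + 1 ≤ j → GG p σ i j - GG p σ 0 j = lam (p j - p i) - lam (p j - p 0) := by
  intro i
  induction i with
  | zero => intro _; ring
  | succ i ih =>
    intro hi
    have ih' := ih (by omega)
    have hc := GG_col p σ hp i j (by omega) (fun a _ b hab hb => hne a b hab hb)
    have := hW (p j - p i) (p j - p (i + 1))
      (fun h0 => hne i j (by omega) le_rfl (sub_eq_zero.1 h0).symm)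
      (fun h0 => hne (i + 1) j (by omega) le_rfl (sub_eq_zero.1 h0).symm)
      (by
        have : p j - p (i + 1) - (p j - p i) = - dir (σ i) := by rw [hp.step i]; abel
        rw [this]; exact isUnit4_neg (isUnit4_dir _))
      (hH i (by omega)) (hH (i + 1) (by omega))
    linarith

lemma cl_neg (z : ℤ × ℤ) (hz : z ≠ 0) : cl (-z) = cl z + 4 ∨ cl (-z) = cl z - 4 := by
  have hz' : -z ≠ 0 := by simpa using hz
  have c1 := cl_cases z hz
  have c2 := cl_cases (-z) hz'
  simp only [Prod.fst_neg, Prod.snd_neg] at c2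
  rcases c1 with c1 | c1 | c1 | c1 | c1 | c1 | c1 | c1 <;>
  rcases c2 with c2 | c2 | c2 | c2 | c2 | c2 | c2 | c2 <;>
  omega

lemma Dl_neg (z z' : ℤ × ℤ) (hu : IsUnit4 (z' - z)) (hz : z ≠ 0) (hz' : z' ≠ 0) :
    Dl (-z) (-z') = Dl z z' := by
  obtain ⟨h1, m1, e1⟩ := Dl_spec z z' hu hz hz'
  obtain ⟨h2, m2, e2⟩ := Dl_spec (-z) (-z') (by
    have : -z' - -z = -(z' - z) := by abel
    rw [this]; exact isUnit4_neg hu) (by simpa using hz) (by simpa using hz')
  have a1 := cl_neg z hz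
  have a2 := cl_neg z' hz'
  omega

/-- Total turning of a closed simple path, in terms of the winding seen from its base point. -/
lemma closed_turning (p : ℕ → ℤ × ℤ) (σ : ℕ → ℤ) (hp : IsPath p σ) (L : ℕ) (hL : 3 ≤ L)
    (hper : ∀ i, p (i + L) = p i) (hdist : ∀ a b, a < b → b < L → p a ≠ p b)
    (hdir : dir (σ L) = dir (σ 0)) :
    σ L - σ 0 = GG p σ 0 (L - 1) - 2 * σ 0 + 2 * (σ L - σ (L - 1)) := by
  obtain ⟨M, rfl⟩ : ∃ M, L = M + 1 := ⟨L - 1, by omega⟩
  simp only [Nat.add_sub_cancel]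
  have hp0 : p (M + 1) = p 0 := by have := hper 0; simpa using this
  have hp1 : p (M + 2) = p 1 := by
    have := hper 1
    rw [show 1 + (M + 1) = M + 2 by ring] at this; exact this
  have hne : ∀ a b, a < b → b ≤ M → p a ≠ p b := fun a b h1 h2 => hdist a b h1 (by omega)
  have hneL : ∀ a, 1 ≤ a → a ≤ M → p a ≠ p (M + 1) := by
    intro a h1 h2 h; rw [hp0] at h
    exact hdist 0 a (by omega) (by omega) h.symm
  -- first column step at M
  have c1 := GG_col p σ hp 0 M (by omega) (fun a _ b hab hb => hne a b hab hb)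
  have c2 := GG_succ p σ 1 M (by omega)
  simp only [zero_add] at c1
  -- the two steps around the base point
  have z0M : p M - p 0 = - dir (σ M) := by
    rw [← hp0, hp.step M]; abel
  have z1M : p M - p 1 = -(dir (σ M) + dir (σ (M + 1))) := by
    have h1 : p 1 = p 0 + dir (σ 0) := hp.step 0
    rw [h1, ← hp0, hp.step M, hdir]; abel
  have z1L : p (M + 1) - p 1 = - dir (σ (M + 1)) := by
    have h1 : p 1 = p 0 + dir (σ 0) := hp.step 0
    rw [h1, hp0, hdir]; abel
  have hs0 : dir (σ M) ≠ 0 := by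
    intro h
    have := hne 0 M (by omega) le_rfl
    apply this
    have h2 := z0M
    rw [h, neg_zero] at h2
    exact (sub_eq_zero.1 h2).symm
  have hs1 : dir (σ (M + 1)) ≠ 0 := by
    intro h
    have := hneL 1 le_rfl (by omega)
    apply this
    rw [h, neg_zero] at z1L
    exact (sub_eq_zero.1 z1L).symm
  have hs2 : dir (σ M) + dir (σ (M + 1)) ≠ 0 := by
    intro h
    have := hne 1 M (by omega) le_rfl
    apply this
    rw [h, neg_zero] at z1M
    exact (sub_eq_zero.1 z1M).symm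
  have t := triangle (σ M) (σ (M + 1)) (hp.turn M).1 (hp.turn M).2
  have n1 : Dl (p M - p 0) (p M - p 1) = Dl (dir (σ M)) (dir (σ M) + dir (σ (M + 1))) := by
    rw [z0M, z1M]
    exact Dl_neg _ _ (by rw [add_sub_cancel_left]; exact isUnit4_dir _) hs0 hs2
  have n2 : Dl (p M - p 1) (p (M + 1) - p 1) =
      Dl (dir (σ M) + dir (σ (M + 1))) (dir (σ (M + 1))) := by
    rw [z1M, z1L]
    exact Dl_neg _ _ (by
      have : dir (σ (M + 1)) - (dir (σ M) + dir (σ (M + 1))) = - dir (σ M) := by abel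
      rw [this]; exact isUnit4_neg (isUnit4_dir _)) hs2 hs1
  -- last column equals first row
  have key : ∀ i, i + 1 ≤ M → GG p σ (i + 1) (M + 1) - GG p σ 1 (M + 1)
      = GG p σ 0 (i + 1) - GG p σ 0 1 := by
    intro i
    induction i with
    | zero => intro _; ring
    | succ i ih =>
      intro hi
      have ih' := ih (by omega)
      have hc := GG_col p σ hp (i + 1) (M + 1) (by omega) (by
        intro a ha b hab hb
        rcases Nat.lt_or_ge b (M + 1) with h | h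
        · exact hne a b hab (by omega)
        · have : b = M + 1 := by omega
          subst this
          rcases ha with ha | ha
          · exact hneL a (by omega) (by omega)
          · exact hneL a (by omega) (by omega))
      have hr := GG_succ p σ 0 (i + 1) (by omega)
      have hd : Dl (p (M + 1) - p (i + 1)) (p (M + 1) - p (i + 1 + 1))
          = Dl (p (i + 1) - p 0) (p (i + 1 + 1) - p 0) := by
        rw [hp0, ← neg_sub (p (i + 1)) (p 0), ← neg_sub (p (i + 1 + 1)) (p 0)]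
        apply Dl_neg
        · have : p (i + 1 + 1) - p 0 - (p (i + 1) - p 0) = dir (σ (i + 1)) := by
            rw [hp.step (i + 1)]; abel
          rw [this]; exact isUnit4_dir _
        · intro h0
          exact hne 0 (i + 1) (by omega) (by omega) (sub_eq_zero.1 h0).symm
        · intro h0
          exact hne 0 (i + 1 + 1) (by omega) (by omega) (sub_eq_zero.1 h0).symm
      rw [hd] at hc
      linarith
  have k1 := key (M - 1) (by omega)
  have e : M - 1 + 1 = M := by omega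
  rw [e, GG_diag p σ M] at k1
  have k2 : GG p σ 0 1 = 2 * σ 0 := GG_diag p σ 0
  rw [n1] at c1
  rw [n2] at c2
  linarith

end Pool.Agent.H75.Perc
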