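import Mathlib
import Pool.Agent.H75.Perc.Hopf

set_option autoImplicit false
open Finset

/-! The exploration map on the corner lattice. A vertex `(x,y)` of `ℤ²` has the four corners
`(2x,2y)` (SW), `(2x+1,2y)` (SE), `(2x+1,2y+1)` (NE), `(2x,2y+1)` (NW). The horizontal edge from
`(x,y)` to `(x+1,y)` has the label `(2x+1,2y)` and the vertical edge from `(x,y)` to `(x,y+1)` has
the label `(2x,2y+1)`. -/

namespace Pool.Agent.H75.Perc

/-- Type of a corner: SW 0, SE 1, NE 2, NW 3. -/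
def ty (c : ℤ × ℤ) : ℤ :=
  if c.2 % 2 = 0 then (if c.1 % 2 = 0 then 0 else 1) else (if c.1 % 2 = 0 then 3 else 2)

/-- Label of the edge met at the next step from the corner `c`. -/
def lab (c : ℤ × ℤ) : ℤ × ℤ :=
  if c.2 % 2 = 0 then (if c.1 % 2 = 0 then (c.1, c.2 - 1) else (c.1, c.2))
  else (if c.1 % 2 = 0 then (c.1 - 1, c.2 - 1) else (c.1 - 1, c.2))

/-- Next corner when the edge met is closed (turn left around the vertex). -/
def nxC (c : ℤ × ℤ) : ℤ × ℤ :=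
  if c.2 % 2 = 0 then (if c.1 % 2 = 0 then (c.1 + 1, c.2) else (c.1, c.2 + 1))
  else (if c.1 % 2 = 0 then (c.1, c.2 - 1) else (c.1 - 1, c.2))

/-- Next corner when the edge met is open (cross to the other end of the edge). -/
def nxO (c : ℤ × ℤ) : ℤ × ℤ :=
  if c.2 % 2 = 0 then (if c.1 % 2 = 0 then (c.1, c.2 - 1) else (c.1 + 1, c.2))
  else (if c.1 % 2 = 0 then (c.1 - 1, c.2) else (c.1, c.2 + 1))

/-- The exploration map for the set `w` of (labels of) open edges. -/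
def nx (w : Finset (ℤ × ℤ)) (c : ℤ × ℤ) : ℤ × ℤ := if lab c ∈ w then nxO c else nxC c

/-- Turning at a step: `1` if closed, `-1` if open. -/
def del (w : Finset (ℤ × ℤ)) (c : ℤ × ℤ) : ℤ := if lab c ∈ w then -1 else 1

lemma ty_cases (c : ℤ × ℤ) :
    (ty c = 0 ∧ c.1 % 2 = 0 ∧ c.2 % 2 = 0 ∧ lab c = (c.1, c.2 - 1) ∧ nxC c = (c.1 + 1, c.2) ∧
      nxO c = (c.1, c.2 - 1)) ∨
    (ty c = 1 ∧ c.1 % 2 = 1 ∧ c.2 % 2 = 0 ∧ lab c = (c.1, c.2) ∧ nxC c = (c.1, c.2 + 1) ∧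
      nxO c = (c.1 + 1, c.2)) ∨
    (ty c = 2 ∧ c.1 % 2 = 1 ∧ c.2 % 2 = 1 ∧ lab c = (c.1 - 1, c.2) ∧ nxC c = (c.1 - 1, c.2) ∧
      nxO c = (c.1, c.2 + 1)) ∨
    (ty c = 3 ∧ c.1 % 2 = 0 ∧ c.2 % 2 = 1 ∧ lab c = (c.1 - 1, c.2 - 1) ∧ nxC c = (c.1, c.2 - 1) ∧
      nxO c = (c.1 - 1, c.2)) := by
  unfold ty lab nxC nxO
  have h1 : c.1 % 2 = 0 ∨ c.1 % 2 = 1 := by omega
  have h2 : c.2 % 2 = 0 ∨ c.2 % 2 = 1 := by omega
  rcases h1 with h1 | h1 <;> rcases h2 with h2 | h2 <;> simp [h1, h2]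

/-- The previous corner. -/
def pv (w : Finset (ℤ × ℤ)) (c : ℤ × ℤ) : ℤ × ℤ :=
  if c.2 % 2 = 0 then
    (if c.1 % 2 = 0 then (if (c.1 - 1, c.2) ∈ w then (c.1 - 1, c.2) else (c.1, c.2 + 1))
     else (if (c.1 - 1, c.2 - 1) ∈ w then (c.1, c.2 - 1) else (c.1 - 1, c.2)))
  else
    (if c.1 % 2 = 0 then (if (c.1, c.2) ∈ w then (c.1, c.2 + 1) else (c.1 + 1, c.2))
     else (if (c.1, c.2 - 1) ∈ w then (c.1 + 1, c.2) else (c.1, c.2 - 1)))

lemma pv_nx (w : Finset (ℤ × ℤ)) (c : ℤ × ℤ) : pv w (nx w c) = c := by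
  obtain ⟨a, b⟩ := c
  unfold nx
  rcases ty_cases (a, b) with ⟨-, h1, h2, h3, h4, h5⟩ | ⟨-, h1, h2, h3, h4, h5⟩ |
      ⟨-, h1, h2, h3, h4, h5⟩ | ⟨-, h1, h2, h3, h4, h5⟩ <;>
  simp only at h1 h2 h3 h4 h5 <;> rw [h3, h4, h5]
  · have e1 : (b - 1) % 2 = 1 := by omega
    have e2 : (a + 1) % 2 = 1 := by omega
    by_cases hw : (a, b - 1) ∈ w
    · simp [hw, pv, e1, h1]
    · simp [hw, pv, e2, h2]
  · have e1 : (b + 1) % 2 = 1 := by omega
    have e2 : (a + 1) % 2 = 0 := by omega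
    by_cases hw : (a, b) ∈ w
    · simp [hw, pv, e2, h2]
    · simp [hw, pv, e1, h1]
  · have e1 : (b + 1) % 2 = 0 := by omega
    have e2 : (a - 1) % 2 = 0 := by omega
    by_cases hw : (a - 1, b) ∈ w
    · simp [hw, pv, e1, h1]
    · simp [hw, pv, e2, h2]
  · have e1 : (b - 1) % 2 = 0 := by omega
    have e2 : (a - 1) % 2 = 1 := by omega
    by_cases hw : (a - 1, b - 1) ∈ w
    · simp [hw, pv, e2, h2]
    · simp [hw, pv, e1, h1]

lemma nx_injective (w : Finset (ℤ × ℤ)) : Function.Injective (nx w) :=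
  Function.LeftInverse.injective (pv_nx w)

/-- Step directions. -/
lemma nx_eq (w : Finset (ℤ × ℤ)) (c : ℤ × ℤ) (k : ℤ) (hk : k % 4 = ty c) :
    nx w c = c + dir (if lab c ∈ w then k - 1 else k) := by
  obtain ⟨a, b⟩ := c
  unfold nx
  rcases ty_cases (a, b) with ⟨h0, h1, h2, h3, h4, h5⟩ | ⟨h0, h1, h2, h3, h4, h5⟩ |
      ⟨h0, h1, h2, h3, h4, h5⟩ | ⟨h0, h1, h2, h3, h4, h5⟩ <;>
  simp only at h1 h2 h3 h4 h5 <;> rw [h3, h4, h5] <;> rw [h0] at hk <;>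
  split_ifs <;> unfold dir <;> split_ifs <;> first | (exfalso; omega) | simp [sub_eq_add_neg]

lemma ty_nx (w : Finset (ℤ × ℤ)) (c : ℤ × ℤ) (k : ℤ) (hk : k % 4 = ty c) :
    (k + del w c) % 4 = ty (nx w c) := by
  obtain ⟨a, b⟩ := c
  unfold nx del
  rcases ty_cases (a, b) with ⟨h0, h1, h2, h3, h4, h5⟩ | ⟨h0, h1, h2, h3, h4, h5⟩ |
      ⟨h0, h1, h2, h3, h4, h5⟩ | ⟨h0, h1, h2, h3, h4, h5⟩ <;>
  simp only at h1 h2 h3 h4 h5 <;> rw [h3, h4, h5] <;> rw [h0] at hk <;>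
  split_ifs <;> unfold ty <;> simp only <;> split_ifs <;> omega

/-- Turning index along the exploration path from `c` with initial index `k0`. -/
def kk (w : Finset (ℤ × ℤ)) (c : ℤ × ℤ) (k0 : ℤ) : ℕ → ℤ
  | 0 => k0
  | i + 1 => kk w c k0 i + del w ((nx w)^[i] c)

lemma kk_mod (w : Finset (ℤ × ℤ)) (c : ℤ × ℤ) (k0 : ℤ) (h0 : k0 % 4 = ty c) (i : ℕ) :
    kk w c k0 i % 4 = ty ((nx w)^[i] c) := by
  induction i with
  | zero => simpa [kk] using h0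
  | succ i ih =>
    simp only [kk]
    rw [Function.iterate_succ_apply']
    exact ty_nx w _ _ ih

/-- Step direction numbers along the path. -/
def sg (w : Finset (ℤ × ℤ)) (c : ℤ × ℤ) (k0 : ℤ) (i : ℕ) : ℤ :=
  if lab ((nx w)^[i] c) ∈ w then kk w c k0 i - 1 else kk w c k0 i

lemma isPath_explore (w : Finset (ℤ × ℤ)) (c : ℤ × ℤ) (k0 : ℤ) (h0 : k0 % 4 = ty c) :
    IsPath (fun i => (nx w)^[i] c) (sg w c k0) := by
  constructor
  · intro i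
    rw [Function.iterate_succ_apply']
    exact nx_eq w _ _ (kk_mod w c k0 h0 i)
  · intro i
    unfold sg
    simp only [kk, del]
    split_ifs <;> constructor <;> omega

end Pool.Agent.H75.Perc
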