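import Mathlib

set_option autoImplicit false
open Finset

/-! Orbits of injective maps, and the effect of exchanging two values of the map. -/

namespace Pool.Agent.H75.Perc

variable {α : Type*}

/-- `L` is the exact period of `c` under `f`. -/
structure Orb (f : α → α) (c : α) (L : ℕ) : Prop where
  pos : 0 < L
  per : f^[L] c = c
  inj : ∀ i j, i < j → j < L → f^[i] c ≠ f^[j] c

lemma Orb.unique {f : α → α} {c : α} {L L' : ℕ} (h : Orb f c L) (h' : Orb f c L') : L = L' := by
  rcases lt_trichotomy L L' with hlt | heq | hgt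
  · exact absurd h.per.symm (h'.inj 0 L h.pos hlt)
  · exact heq
  · exact absurd h'.per.symm (h.inj 0 L' h'.pos hgt)

lemma Orb.mod {f : α → α} {c : α} {L : ℕ} (h : Orb f c L) (i : ℕ) : f^[i % L] c = f^[i] c := by
  have hp : Function.IsPeriodicPt f L c := h.per
  exact hp.iterate_mod_apply i

lemma Orb.add {f : α → α} {c : α} {L : ℕ} (h : Orb f c L) (i : ℕ) : f^[i + L] c = f^[i] c := by
  rw [Function.iterate_add_apply, h.per]

/-- Membership in the orbit. -/
def InOrb (f : α → α) (c x : α) : Prop := ∃ i, f^[i] c = x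

lemma Orb.inOrb_iff {f : α → α} {c : α} {L : ℕ} (h : Orb f c L) (x : α) :
    InOrb f c x ↔ ∃ i, i < L ∧ f^[i] c = x := by
  constructor
  · rintro ⟨i, hi⟩
    exact ⟨i % L, Nat.mod_lt _ h.pos, by rw [h.mod, hi]⟩
  · rintro ⟨i, _, hi⟩
    exact ⟨i, hi⟩

lemma exists_orb (f : α → α) (hf : Function.Injective f) (S : Finset α)
    (hS : ∀ x ∈ S, f x ∈ S) (c : α) (hc : c ∈ S) : ∃ L, Orb f c L := by
  classical
  have hmem : ∀ i, f^[i] c ∈ S := by
    intro i
    induction i with
    | zero => simpa using hc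
    | succ i ih => rw [Function.iterate_succ_apply']; exact hS _ ih
  have hex : ∃ L, 0 < L ∧ f^[L] c = c := by
    obtain ⟨i, hi, j, hj, hij, he⟩ := Finset.exists_ne_map_eq_of_card_lt_of_maps_to
      (s := Finset.range (S.card + 1)) (t := S) (by simp) (f := fun i => f^[i] c)
      (fun i _ => hmem i)
    have key : ∀ i j : ℕ, i < j → f^[i] c = f^[j] c → ∃ L, 0 < L ∧ f^[L] c = c := by
      intro i j hij he
      refine ⟨j - i, by omega, ?_⟩
      have : j = i + (j - i) := by omega
      rw [this, Function.iterate_add_apply] at he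
      exact (hf.iterate i he).symm
    rcases lt_or_gt_of_ne hij with h | h
    · exact key i j h he
    · exact key j i h he.symm
  refine ⟨Nat.find hex, (Nat.find_spec hex).1, (Nat.find_spec hex).2, ?_⟩
  intro i j hij hj he
  have hlt : j - i < Nat.find hex := by omega
  have hmin := Nat.find_min hex hlt
  apply hmin
  refine ⟨by omega, ?_⟩
  have : j = i + (j - i) := by omega
  rw [this, Function.iterate_add_apply] at he
  exact (hf.iterate i he).symm

/-- `f'` is `f` with the values at `p` and `q` exchanged. -/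
structure Swapped (f f' : α → α) (p q : α) : Prop where
  atp : f' p = f q
  atq : f' q = f p
  off : ∀ x, x ≠ p → x ≠ q → f' x = f x

lemma Swapped.symm {f f' : α → α} {p q : α} (h : Swapped f f' p q) : Swapped f' f p q :=
  ⟨h.atq.symm, h.atp.symm, fun x hx hy => (h.off x hx hy).symm⟩

lemma Swapped.comm {f f' : α → α} {p q : α} (h : Swapped f f' p q) : Swapped f f' q p :=
  ⟨h.atq, h.atp, fun x hx hy => h.off x hy hx⟩

lemma Swapped.agree {f f' : α → α} {p q : α} (h : Swapped f f' p q) (c : α) (n : ℕ)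
    (hn : ∀ i < n, f^[i] c ≠ p ∧ f^[i] c ≠ q) : ∀ i ≤ n, f'^[i] c = f^[i] c := by
  intro i
  induction i with
  | zero => intro _; rfl
  | succ i ih =>
    intro hi
    rw [Function.iterate_succ_apply', Function.iterate_succ_apply', ih (by omega)]
    exact h.off _ (hn i (by omega)).1 (hn i (by omega)).2

/-- Splitting an orbit. -/
lemma Swapped.split {f f' : α → α} {p q : α} (h : Swapped f f' p q) {c : α} {L : ℕ}
    (hO : Orb f c L) {a b : ℕ} (hab : a < b) (hbL : b < L) (ha : f^[a] c = p)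
    (hb : f^[b] c = q) :
    (∀ i ≤ a, f'^[i] c = f^[i] c) ∧ (∀ j, j ≤ L - 1 - b → f'^[a + 1 + j] c = f^[b + 1 + j] c) ∧
      Orb f' c (L - (b - a)) := by
  have h1 : ∀ i ≤ a, f'^[i] c = f^[i] c := by
    apply h.agree
    intro i hi
    constructor
    · rw [← ha]; exact hO.inj i a hi (by omega)
    · rw [← hb]; exact hO.inj i b (by omega) hbL
  have h2 : ∀ j, j ≤ L - 1 - b → f'^[a + 1 + j] c = f^[b + 1 + j] c := by
    intro j
    induction j with
    | zero =>
      intro _
      simp only [add_zero]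
      rw [Function.iterate_succ_apply', Function.iterate_succ_apply', h1 a le_rfl, ha, hb, h.atp]
    | succ j ih =>
      intro hj
      have e := ih (by omega)
      have e1 : a + 1 + (j + 1) = (a + 1 + j) + 1 := by ring
      have e2 : b + 1 + (j + 1) = (b + 1 + j) + 1 := by ring
      rw [e1, e2, Function.iterate_succ_apply', Function.iterate_succ_apply', e]
      apply h.off
      · rw [← ha]; exact (hO.inj a (b + 1 + j) (by omega) (by omega)).symm
      · rw [← hb]; exact (hO.inj b (b + 1 + j) (by omega) (by omega)).symm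
  refine ⟨h1, h2, ⟨by omega, ?_, ?_⟩⟩
  · have e : L - (b - a) = a + 1 + (L - 1 - b) := by omega
    rw [e, h2 _ le_rfl]
    have e' : b + 1 + (L - 1 - b) = L := by omega
    rw [e', hO.per]
  · -- injectivity
    have idx : ∀ i, i < L - (b - a) →
        ∃ m, m < L ∧ f'^[i] c = f^[m] c ∧ (m = i ∧ i ≤ a ∨ m = i + (b - a) ∧ a < i) := by
      intro i hi
      by_cases hia : i ≤ a
      · exact ⟨i, by omega, h1 i hia, Or.inl ⟨rfl, hia⟩⟩
      · refine ⟨i + (b - a), by omega, ?_, Or.inr ⟨rfl, by omega⟩⟩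
        have e : i = a + 1 + (i - a - 1) := by omega
        have e2 : i + (b - a) = b + 1 + (i - a - 1) := by omega
        rw [e2]
        conv_lhs => rw [e]
        exact h2 _ (by omega)
    intro i j hij hj
    obtain ⟨m, hm, em, cm⟩ := idx i (by omega)
    obtain ⟨n, hn, en, cn⟩ := idx j hj
    rw [em, en]
    exact hO.inj m n (by omega) hn

/-- Merging: if `p` is in the orbit of `c` and `q` is not, both are in the new orbit. -/
lemma Swapped.merge {f f' : α → α} {p q : α} (h : Swapped f f' p q)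
    {c : α} {L M : ℕ} (hO : Orb f c L) (hQ : Orb f q M) (hp : InOrb f c p)
    (hq : ¬ InOrb f c q) : InOrb f' c p ∧ InOrb f' c q ∧
      (∀ x, InOrb f c x → InOrb f' c x) ∧ (∀ x, InOrb f q x → InOrb f' c x) := by
  obtain ⟨a, haL, ha⟩ := (hO.inOrb_iff p).1 hp
  have h1 : ∀ i ≤ a, f'^[i] c = f^[i] c := by
    apply h.agree
    intro i hi
    constructor
    · rw [← ha]; exact hO.inj i a hi haL
    · intro e; exact hq ⟨i, e⟩
  -- the orbit of q avoids p
  have hqp : ∀ m, f^[m] q ≠ p := by
    intro m hm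
    apply hq
    have e1 : f^[m % M] q = p := by rw [hQ.mod, hm]
    refine ⟨M - m % M + a, ?_⟩
    rw [Function.iterate_add_apply, ha, ← e1, ← Function.iterate_add_apply]
    have : M - m % M + m % M = M := by have := Nat.mod_lt m hQ.pos; omega
    rw [this, hQ.per]
  have h2 : ∀ j ≤ M - 1, f'^[j] (f q) = f^[j] (f q) := by
    apply h.agree
    intro j hj
    rw [← Function.iterate_succ_apply]
    refine ⟨hqp _, ?_⟩
    have := hQ.inj 0 (j + 1) (by omega) (by omega)
    simpa using this.symm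
  have hMpos := hQ.pos
  have h3 : ∀ j ≤ M - 1, f'^[a + 1 + j] c = f^[j + 1] q := by
    intro j hj
    have e1 : f'^[a + 1] c = f q := by
      rw [Function.iterate_succ_apply', h1 a le_rfl, ha, h.atp]
    rw [show a + 1 + j = j + (a + 1) by ring, Function.iterate_add_apply, e1, h2 j hj,
      ← Function.iterate_succ_apply]
  have h4 : f'^[a + M] c = q := by
    have := h3 (M - 1) le_rfl
    have e1 : a + 1 + (M - 1) = a + M := by omega
    have e2 : M - 1 + 1 = M := by omega
    rw [e1, e2, hQ.per] at this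
    exact this
  -- after q, the path goes on as after p
  have h5 : ∀ j ≤ L - 1 - a, f'^[a + M + 1 + j] c = f^[a + 1 + j] c := by
    intro j
    induction j with
    | zero =>
      intro _
      simp only [add_zero]
      rw [Function.iterate_succ_apply', h4, h.atq, Function.iterate_succ_apply', ha]
    | succ j ih =>
      intro hj
      have e := ih (by omega)
      have e1 : a + M + 1 + (j + 1) = (a + M + 1 + j) + 1 := by ring
      have e2 : a + 1 + (j + 1) = (a + 1 + j) + 1 := by ring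
      rw [e1, e2, Function.iterate_succ_apply', Function.iterate_succ_apply', e]
      apply h.off
      · rw [← ha]; exact (hO.inj a (a + 1 + j) (by omega) (by omega)).symm
      · intro e3; exact hq ⟨_, e3⟩
  refine ⟨⟨a, by rw [h1 a le_rfl, ha]⟩, ⟨a + M, h4⟩, ?_, ?_⟩
  · intro x hx
    obtain ⟨i, hiL, hi⟩ := (hO.inOrb_iff x).1 hx
    by_cases hia : i ≤ a
    · exact ⟨i, by rw [h1 i hia, hi]⟩
    · refine ⟨a + M + 1 + (i - a - 1), ?_⟩
      rw [h5 _ (by omega)]
      have e : a + 1 + (i - a - 1) = i := by omega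
      rw [e, hi]
  · intro x hx
    obtain ⟨i, hiM, hi⟩ := (hQ.inOrb_iff x).1 hx
    rcases Nat.eq_zero_or_pos i with h0 | h0
    · subst h0
      refine ⟨a + M, ?_⟩
      rw [h4, ← hi]; rfl
    · refine ⟨a + 1 + (i - 1), ?_⟩
      rw [h3 _ (by omega)]
      have e : i - 1 + 1 = i := by omega
      rw [e, hi]

/-- Accumulated turning. -/
def KK (f : α → α) (δ : α → ℤ) (c : α) (k0 : ℤ) (n : ℕ) : ℤ :=
  k0 + ∑ j ∈ range n, δ (f^[j] c)

lemma KK_succ (f : α → α) (δ : α → ℤ) (c : α) (k0 : ℤ) (n : ℕ) :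
    KK f δ c k0 (n + 1) = KK f δ c k0 n + δ (f^[n] c) := by
  unfold KK; rw [Finset.sum_range_succ]; ring

/-- Turning comparison for a split. -/
lemma Swapped.split_KK {f f' : α → α} {p q : α} (h : Swapped f f' p q) {δ δ' : α → ℤ} {e : ℤ}
    (hδ : ∀ x, x ≠ p → x ≠ q → δ' x = δ x) (hq1 : δ q = e) (hp2 : δ' p = -e)
    {c : α} {L : ℕ} (k0 : ℤ)
    (hO : Orb f c L) {a b : ℕ} (hab : a < b) (hbL : b < L) (ha : f^[a] c = p)
    (hb : f^[b] c = q) :
    (∀ i ≤ a, KK f' δ' c k0 i = KK f δ c k0 i) ∧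
    KK f' δ' c k0 (L - (b - a)) =
      KK f δ c k0 a - e + (KK f δ c k0 L - KK f δ c k0 b - e) := by
  obtain ⟨h1, h2, h3⟩ := h.split hO hab hbL ha hb
  have k1 : ∀ i ≤ a, KK f' δ' c k0 i = KK f δ c k0 i := by
    intro i
    induction i with
    | zero => intro _; simp [KK]
    | succ i ih =>
      intro hi
      rw [KK_succ, KK_succ, ih (by omega), h1 i (by omega)]
      congr 1
      apply hδ
      · rw [← ha]; exact hO.inj i a (by omega) (by omega)
      · rw [← hb]; exact hO.inj i b (by omega) hbL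
  refine ⟨k1, ?_⟩
  have k2 : ∀ j, j ≤ L - 1 - b → KK f' δ' c k0 (a + 1 + j) - KK f' δ' c k0 (a + 1)
      = KK f δ c k0 (b + 1 + j) - KK f δ c k0 (b + 1) := by
    intro j
    induction j with
    | zero => intro _; simp
    | succ j ih =>
      intro hj
      have e1 : a + 1 + (j + 1) = (a + 1 + j) + 1 := by ring
      have e2 : b + 1 + (j + 1) = (b + 1 + j) + 1 := by ring
      rw [e1, e2, KK_succ f' δ' c k0 (a + 1 + j), KK_succ f δ c k0 (b + 1 + j), h2 j (by omega)]
      have := ih (by omega)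
      have e3 : δ' (f^[b + 1 + j] c) = δ (f^[b + 1 + j] c) := by
        apply hδ
        · rw [← ha]; exact (hO.inj a (b + 1 + j) (by omega) (by omega)).symm
        · rw [← hb]; exact (hO.inj b (b + 1 + j) (by omega) (by omega)).symm
      rw [e3]; linarith
  have k3 := k2 (L - 1 - b) le_rfl
  have e1 : a + 1 + (L - 1 - b) = L - (b - a) := by omega
  have e2 : b + 1 + (L - 1 - b) = L := by omega
  rw [e1, e2] at k3
  rw [KK_succ f' δ' c k0 a, KK_succ f δ c k0 b, h1 a le_rfl, k1 a le_rfl, ha, hb, hp2, hq1] at k3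
  linarith

/-- The contribution of the pair `p, q` to the sum along the orbit. -/
def contrib [DecidableEq α] (θ : ℤ → ℤ) (f : α → α) (δ : α → ℤ) (c : α) (k0 : ℤ) (L : ℕ)
    (p q : α) : ℤ :=
  ∑ i ∈ range L, if f^[i] c = p ∨ f^[i] c = q then
    θ (KK f δ c k0 i) - θ (KK f δ c k0 i + δ (f^[i] c)) else 0

lemma contrib_comm [DecidableEq α] (θ : ℤ → ℤ) (f : α → α) (δ : α → ℤ) (c : α) (k0 : ℤ) (L : ℕ)
    (p q : α) : contrib θ f δ c k0 L p q = contrib θ f δ c k0 L q p := by
  unfold contrib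
  apply Finset.sum_congr rfl
  intro i _
  simp only [or_comm]

lemma contrib_none [DecidableEq α] (θ : ℤ → ℤ) (f : α → α) (δ : α → ℤ) (c : α) (k0 : ℤ) (L : ℕ)
    (p q : α) (hp : ¬ InOrb f c p) (hq : ¬ InOrb f c q) : contrib θ f δ c k0 L p q = 0 := by
  unfold contrib
  apply Finset.sum_eq_zero
  intro i _
  rw [if_neg]
  rintro (h | h)
  · exact hp ⟨i, h⟩
  · exact hq ⟨i, h⟩

/-- Local cancellation when both `p` and `q` lie on the orbit of `c` under `f`. -/
lemma contrib_both [DecidableEq α] (θ : ℤ → ℤ) (hθ : ∀ k, θ (k + 2) = θ (k + 1) - θ k)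
    {f f' : α → α} {p q : α} (h : Swapped f f' p q) (hpq : p ≠ q) {δ δ' : α → ℤ} {e : ℤ}
    (he : e = 1 ∨ e = -1)
    (hδ : ∀ x, x ≠ p → x ≠ q → δ' x = δ x) (hp1 : δ p = e) (hq1 : δ q = e) (hp2 : δ' p = -e)
    {c : α} {L L' : ℕ} (k0 : ℤ)
    (hO : Orb f c L) (hO' : Orb f' c L') {a b : ℕ} (hab : a < b) (hbL : b < L)
    (ha : f^[a] c = p) (hb : f^[b] c = q)
    (hT : KK f δ c k0 L = k0 + 4) (hT' : KK f' δ' c k0 L' = k0 + 4) :
    contrib θ f δ c k0 L p q + contrib θ f' δ' c k0 L' p q = 0 := by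
  obtain ⟨h1, h2, h3⟩ := h.split hO hab hbL ha hb
  obtain ⟨k1, k2⟩ := h.split_KK hδ hq1 hp2 k0 hO hab hbL ha hb
  have hL' : L' = L - (b - a) := hO'.unique h3
  rw [← hL', hT', hT] at k2
  have kb : KK f δ c k0 b = KK f δ c k0 a - 2 * e := by linarith
  have c1 : contrib θ f δ c k0 L p q =
      (θ (KK f δ c k0 a) - θ (KK f δ c k0 a + e)) + (θ (KK f δ c k0 b) - θ (KK f δ c k0 b + e)) := by
    unfold contrib
    rw [Finset.sum_eq_add a b (by omega)]
    · rw [if_pos (Or.inl ha), if_pos (Or.inr hb), ha, hb, hp1, hq1]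
    · intro i hi hne
      have hiL := Finset.mem_range.1 hi
      rw [if_neg]
      rintro (h' | h')
      · rw [← ha] at h'
        rcases lt_or_gt_of_ne hne.1 with hlt | hgt
        · exact hO.inj i a hlt (by omega) h'
        · exact hO.inj a i hgt hiL h'.symm
      · rw [← hb] at h'
        rcases lt_or_gt_of_ne hne.2 with hlt | hgt
        · exact hO.inj i b hlt (by omega) h'
        · exact hO.inj b i hgt hiL h'.symm
    · intro hn; exact absurd (Finset.mem_range.2 (by omega)) hn
    · intro hn; exact absurd (Finset.mem_range.2 (by omega)) hn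
  have c2 : contrib θ f' δ' c k0 L' p q = θ (KK f δ c k0 a) - θ (KK f δ c k0 a - e) := by
    unfold contrib
    rw [Finset.sum_eq_single a]
    · rw [h1 a le_rfl, if_pos (Or.inl ha), ha, hp2, k1 a le_rfl]; rfl
    · intro i hi hne
      have hiL := Finset.mem_range.1 hi
      rw [if_neg]
      rintro (h' | h')
      · rw [← ha, ← h1 a le_rfl] at h'
        rcases lt_or_gt_of_ne hne with hlt | hgt
        · exact hO'.inj i a hlt (by omega) h'
        · exact hO'.inj a i hgt hiL h'.symm
      · -- q is not on the new orbit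
        by_cases hia : i ≤ a
        · rw [h1 i hia, ← hb] at h'
          exact hO.inj i b (by omega) hbL h'
        · have e1 : i = a + 1 + (i - a - 1) := by omega
          rw [e1, h2 _ (by omega), ← hb] at h'
          exact hO.inj b _ (by omega) (by omega) h'.symm
    · intro hn; exact absurd (Finset.mem_range.2 (by omega)) hn
  rw [c1, c2, kb]
  set x := KK f δ c k0 a
  rcases he with he | he
  · subst he
    have a1 := hθ (x - 2)
    have a2 := hθ (x - 1)
    have e1 : x - 2 + 2 = x := by ring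
    have e2 : x - 2 + 1 = x - 1 := by ring
    have e3 : x - 1 + 2 = x + 1 := by ring
    have e4 : x - 1 + 1 = x := by ring
    have e5 : x - 2 * 1 = x - 2 := by ring
    have e6 : x - 2 * 1 + 1 = x - 1 := by ring
    rw [e1, e2] at a1
    rw [e3, e4] at a2
    rw [e6, e5]
    linarith
  · subst he
    have a1 := hθ x
    have a2 := hθ (x - 1)
    have e3 : x - 1 + 2 = x + 1 := by ring
    have e4 : x - 1 + 1 = x := by ring
    have e5 : x - 2 * -1 = x + 2 := by ring
    have e6 : x - 2 * -1 + -1 = x + 1 := by ring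
    have e7 : x + -1 = x - 1 := by ring
    have e8 : x - -1 = x + 1 := by ring
    rw [e3, e4] at a2
    rw [e6, e5, e7, e8]
    linarith

/-- Local cancellation, general case. -/
lemma contrib_pair [DecidableEq α] (θ : ℤ → ℤ) (hθ : ∀ k, θ (k + 2) = θ (k + 1) - θ k)
    {f f' : α → α} {p q : α} (h : Swapped f f' p q) (hpq : p ≠ q) {δ δ' : α → ℤ} {e : ℤ}
    (he : e = 1 ∨ e = -1)
    (hδ : ∀ x, x ≠ p → x ≠ q → δ' x = δ x) (hp1 : δ p = e) (hq1 : δ q = e) (hp2 : δ' p = -e)
    (hq2 : δ' q = -e)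
    {c : α} {L L' Mp Mq : ℕ} (k0 : ℤ)
    (hO : Orb f c L) (hO' : Orb f' c L') (hMp : Orb f p Mp) (hMq : Orb f q Mq)
    (hT : KK f δ c k0 L = k0 + 4) (hT' : KK f' δ' c k0 L' = k0 + 4) :
    contrib θ f δ c k0 L p q + contrib θ f' δ' c k0 L' p q = 0 := by
  -- reduction to both on the orbit of f
  have main : ∀ (f f' : α → α) (δ δ' : α → ℤ) (e : ℤ) (L L' : ℕ), Swapped f f' p q →
      (e = 1 ∨ e = -1) → (∀ x, x ≠ p → x ≠ q → δ' x = δ x) → δ p = e → δ q = e → δ' p = -e →
      δ' q = -e → Orb f c L → Orb f' c L' → KK f δ c k0 L = k0 + 4 → KK f' δ' c k0 L' = k0 + 4 →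
      InOrb f c p → InOrb f c q →
      contrib θ f δ c k0 L p q + contrib θ f' δ' c k0 L' p q = 0 := by
    intro f f' δ δ' e L L' h he hδ hp1 hq1 hp2 hq2 hO hO' hT hT' hp hq
    obtain ⟨a, haL, ha⟩ := (hO.inOrb_iff p).1 hp
    obtain ⟨b, hbL, hb⟩ := (hO.inOrb_iff q).1 hq
    rcases lt_trichotomy a b with hlt | heq | hgt
    · exact contrib_both θ hθ h hpq he hδ hp1 hq1 hp2 k0 hO hO' hlt hbL ha hb hT hT'
    · subst heq; exact absurd (ha.symm.trans hb) hpq
    · rw [contrib_comm θ f δ c k0 L p q, contrib_comm θ f' δ' c k0 L' p q]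
      exact contrib_both θ hθ h.comm hpq.symm he (fun x h1 h2 => hδ x h2 h1) hq1 hp1 hq2 k0 hO hO'
        hgt haL hb ha hT hT'
  by_cases hp : InOrb f c p <;> by_cases hq : InOrb f c q
  · exact main f f' δ δ' e L L' h he hδ hp1 hq1 hp2 hq2 hO hO' hT hT' hp hq
  · -- merge
    obtain ⟨m1, m2, -, -⟩ := h.merge hO hMq hp hq
    have := main f' f δ' δ (-e) L' L h.symm (by rcases he with h | h <;> simp [h])
      (fun x h1 h2 => (hδ x h1 h2).symm) hp2 hq2 (by simpa using hp1) (by simpa using hq1)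
      hO' hO hT' hT m1 m2
    linarith
  · obtain ⟨m1, m2, -, -⟩ := h.comm.merge hO hMp hq hp
    have := main f' f δ' δ (-e) L' L h.symm (by rcases he with h | h <;> simp [h])
      (fun x h1 h2 => (hδ x h1 h2).symm) hp2 hq2 (by simpa using hp1) (by simpa using hq1)
      hO' hO hT' hT m2 m1
    linarith
  · rw [contrib_none θ f δ c k0 L p q hp hq]
    -- the orbit is unchanged
    have hag : ∀ i, f'^[i] c = f^[i] c := by
      intro i
      exact h.agree c i (fun j _ => ⟨fun e => hp ⟨j, e⟩, fun e => hq ⟨j, e⟩⟩) i le_rfl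
    have hp' : ¬ InOrb f' c p := by
      rintro ⟨i, hi⟩; rw [hag i] at hi; exact hp ⟨i, hi⟩
    have hq' : ¬ InOrb f' c q := by
      rintro ⟨i, hi⟩; rw [hag i] at hi; exact hq ⟨i, hi⟩
    rw [contrib_none θ f' δ' c k0 L' p q hp' hq']; ring

end Pool.Agent.H75.Perc
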