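import Mathlib
import Pool.Agent.H75.Perc.Hopf

set_option autoImplicit false
open Finset

/-! Total turning of closed paths through an extreme point, and turning index at extreme points
of a path which starts at the corner of a quadrant. -/

namespace Pool.Agent.H75.Perc

lemma dir_eq_iff (s t : ℤ) : dir s = dir t ↔ s % 4 = t % 4 := by
  rcases dir_cases s with ⟨e, f⟩ | ⟨e, f⟩ | ⟨e, f⟩ | ⟨e, f⟩ <;>
  rcases dir_cases t with ⟨e', f'⟩ | ⟨e', f'⟩ | ⟨e', f'⟩ | ⟨e', f'⟩ <;>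
  rw [f, f', e, e'] <;> simp

/-- A closed simple path whose points lie on one side of its base point has turning `4`. -/
lemma turning_four (p : ℕ → ℤ × ℤ) (σ : ℕ → ℤ) (hp : IsPath p σ) (L : ℕ) (hL : 3 ≤ L)
    (hper : ∀ i, p (i + L) = p i) (hdist : ∀ a b, a < b → b < L → p a ≠ p b)
    (hdir : dir (σ L) = dir (σ 0)) (H : ℤ × ℤ → Prop) (lam : ℤ × ℤ → ℤ) (hW : WindowA H lam)
    (hH : ∀ b, 0 < b → b < L → H (p b - p 0))
    (hend : ∀ τ, -1 ≤ τ → τ ≤ 1 → H (-dir (σ 0 - τ)) →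
      lam (-dir (σ 0 - τ)) - lam (dir (σ 0)) + 2 * τ = 4) : σ L - σ 0 = 4 := by
  have h1 := closed_turning p σ hp L hL hper hdist hdir
  have h2 := GG_row_window p σ hp H lam hW 0 (L - 1) (by omega)
    (fun b hb hb' => hdist 0 b hb (by omega)) (fun b hb hb' => hH b hb (by omega))
  obtain ⟨M, rfl⟩ : ∃ M, L = M + 1 := ⟨L - 1, by omega⟩
  simp only [Nat.add_sub_cancel] at *
  have hp0 : p (M + 1) = p 0 := by have := hper 0; simpa using this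
  have z0M : p M - p 0 = - dir (σ M) := by
    rw [← hp0, hp.step M]; abel
  have z1 : p (0 + 1) - p 0 = dir (σ 0) := by rw [hp.step 0]; abel
  have ht := hp.turn M
  have hd : dir (σ M) = dir (σ 0 - (σ (M + 1) - σ M)) := by
    rw [dir_eq_iff] at hdir ⊢
    omega
  have hHM := hH M (by omega) (by omega)
  rw [z0M, hd] at hHM
  have := hend _ ht.1 ht.2 hHM
  rw [z0M, z1, hd] at h2
  linarith

lemma turning_four_N (p : ℕ → ℤ × ℤ) (σ : ℕ → ℤ) (hp : IsPath p σ) (L : ℕ) (hL : 3 ≤ L)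
    (hper : ∀ i, p (i + L) = p i) (hdist : ∀ a b, a < b → b < L → p a ≠ p b)
    (hdir : dir (σ L) = dir (σ 0)) (h0 : σ 0 % 4 = 0)
    (hH : ∀ b, (p 0).2 ≤ (p b).2) : σ L - σ 0 = 4 := by
  refine turning_four p σ hp L hL hper hdist hdir (fun z => 0 ≤ z.2) cl window_N.toA
    (fun b _ _ => by simpa using hH b) ?_
  intro τ h1 h2 h3
  have hτ : τ = -1 ∨ τ = 0 ∨ τ = 1 := by omega
  rcases dir_cases (σ 0) with ⟨e, f⟩ | ⟨e, f⟩ | ⟨e, f⟩ | ⟨e, f⟩ <;>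
  rcases dir_cases (σ 0 - τ) with ⟨e', f'⟩ | ⟨e', f'⟩ | ⟨e', f'⟩ | ⟨e', f'⟩ <;>
  rcases hτ with hτ | hτ | hτ <;> rw [f'] at h3 ⊢ <;> rw [f] <;> subst hτ <;>
  first
  | (exfalso; omega)
  | (exfalso; revert h3; simp; done)
  | simp [cl]

lemma turning_four_W (p : ℕ → ℤ × ℤ) (σ : ℕ → ℤ) (hp : IsPath p σ) (L : ℕ) (hL : 3 ≤ L)
    (hper : ∀ i, p (i + L) = p i) (hdist : ∀ a b, a < b → b < L → p a ≠ p b)
    (hdir : dir (σ L) = dir (σ 0)) (h0 : σ 0 % 4 = 1)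
    (hH : ∀ b, (p b).1 ≤ (p 0).1) : σ L - σ 0 = 4 := by
  refine turning_four p σ hp L hL hper hdist hdir (fun z => z.1 ≤ 0) cl window_W.toA
    (fun b _ _ => by simpa using hH b) ?_
  intro τ h1 h2 h3
  have hτ : τ = -1 ∨ τ = 0 ∨ τ = 1 := by omega
  rcases dir_cases (σ 0) with ⟨e, f⟩ | ⟨e, f⟩ | ⟨e, f⟩ | ⟨e, f⟩ <;>
  rcases dir_cases (σ 0 - τ) with ⟨e', f'⟩ | ⟨e', f'⟩ | ⟨e', f'⟩ | ⟨e', f'⟩ <;>
  rcases hτ with hτ | hτ | hτ <;> rw [f'] at h3 ⊢ <;> rw [f] <;> subst hτ <;>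
  first
  | (exfalso; omega)
  | (exfalso; revert h3; simp; done)
  | simp [cl]

lemma turning_four_S (p : ℕ → ℤ × ℤ) (σ : ℕ → ℤ) (hp : IsPath p σ) (L : ℕ) (hL : 3 ≤ L)
    (hper : ∀ i, p (i + L) = p i) (hdist : ∀ a b, a < b → b < L → p a ≠ p b)
    (hdir : dir (σ L) = dir (σ 0)) (h0 : σ 0 % 4 = 2)
    (hH : ∀ b, (p b).2 ≤ (p 0).2) : σ L - σ 0 = 4 := by
  refine turning_four p σ hp L hL hper hdist hdir (fun z => z.2 ≤ 0) lamS window_S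
    (fun b _ _ => by simpa using hH b) ?_
  intro τ h1 h2 h3
  have hτ : τ = -1 ∨ τ = 0 ∨ τ = 1 := by omega
  rcases dir_cases (σ 0) with ⟨e, f⟩ | ⟨e, f⟩ | ⟨e, f⟩ | ⟨e, f⟩ <;>
  rcases dir_cases (σ 0 - τ) with ⟨e', f'⟩ | ⟨e', f'⟩ | ⟨e', f'⟩ | ⟨e', f'⟩ <;>
  rcases hτ with hτ | hτ | hτ <;> rw [f'] at h3 ⊢ <;> rw [f] <;> subst hτ <;>
  first
  | (exfalso; omega)
  | (exfalso; revert h3; simp; done)
  | simp [cl, lamS]

lemma turning_four_E (p : ℕ → ℤ × ℤ) (σ : ℕ → ℤ) (hp : IsPath p σ) (L : ℕ) (hL : 3 ≤ L)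
    (hper : ∀ i, p (i + L) = p i) (hdist : ∀ a b, a < b → b < L → p a ≠ p b)
    (hdir : dir (σ L) = dir (σ 0)) (h0 : σ 0 % 4 = 3)
    (hH : ∀ b, (p 0).1 ≤ (p b).1) : σ L - σ 0 = 4 := by
  refine turning_four p σ hp L hL hper hdist hdir (fun z => 0 ≤ z.1) lamE window_E
    (fun b _ _ => by simpa using hH b) ?_
  intro τ h1 h2 h3
  have hτ : τ = -1 ∨ τ = 0 ∨ τ = 1 := by omega
  rcases dir_cases (σ 0) with ⟨e, f⟩ | ⟨e, f⟩ | ⟨e, f⟩ | ⟨e, f⟩ <;>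
  rcases dir_cases (σ 0 - τ) with ⟨e', f'⟩ | ⟨e', f'⟩ | ⟨e', f'⟩ | ⟨e', f'⟩ <;>
  rcases hτ with hτ | hτ | hτ <;> rw [f'] at h3 ⊢ <;> rw [f] <;> subst hτ <;>
  first
  | (exfalso; omega)
  | (exfalso; revert h3; simp; done)
  | simp [cl, lamE]

/-- Lifted class of the points seen from the corner of the quadrant. -/
lemma GG_quadrant (p : ℕ → ℤ × ℤ) (σ : ℕ → ℤ) (hp : IsPath p σ) (h0 : p 0 = 0) (hσ : σ 0 = 0)
    (hq : ∀ b, 0 ≤ (p b).2) (j : ℕ) (hj : 1 ≤ j) (hdist : ∀ b, 0 < b → b ≤ j → p 0 ≠ p b) :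
    GG p σ 0 j = cl (p j) := by
  have h2 := GG_row_window p σ hp (fun z => 0 ≤ z.2) cl window_N.toA 0 j (by omega)
    hdist (fun b _ _ => by simpa [h0] using hq b)
  have z1 : p (0 + 1) - p 0 = dir (σ 0) := by rw [hp.step 0]; abel
  rw [z1, hσ, h0, sub_zero] at h2
  have : cl (dir 0) = 0 := by simp [dir, cl]
  rw [this] at h2
  linarith

/-- The last step before an extreme point. -/
lemma last_step (p : ℕ → ℤ × ℤ) (σ : ℕ → ℤ) (hp : IsPath p σ) (h0 : p 0 = 0) (hσ : σ 0 = 0)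
    (hq : ∀ b, 0 ≤ (p b).2) (j : ℕ) (hdist : ∀ a b, a < b → b ≤ j + 1 → p a ≠ p b)
    (H : ℤ × ℤ → Prop) (lam : ℤ × ℤ → ℤ) (hW : WindowA H lam)
    (hH : ∀ a, a < j + 1 → H (p (j + 1) - p a)) (hlam : lam (p (j + 1)) = cl (p (j + 1))) :
    2 * σ j = lam (dir (σ j)) ∧ H (dir (σ j)) := by
  have h1 := GG_col_window p σ hp H lam hW (j + 1) hdist hH j (by omega)
  have h2 := GG_quadrant p σ hp h0 hσ hq (j + 1) (by omega)
    (fun b hb hb' => hdist 0 b hb hb')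
  have z : p (j + 1) - p j = dir (σ j) := by rw [hp.step j]; abel
  have hHj := hH j (by omega)
  rw [z] at hHj
  rw [GG_diag, h2, z, h0, sub_zero, hlam] at h1
  exact ⟨by linarith, hHj⟩

lemma index_right (p : ℕ → ℤ × ℤ) (σ : ℕ → ℤ) (hp : IsPath p σ) (h0 : p 0 = 0) (hσ : σ 0 = 0)
    (hq : ∀ b, 0 ≤ (p b).2) (j : ℕ) (hdist : ∀ a b, a < b → b ≤ j + 1 → p a ≠ p b)
    (hH : ∀ a, (p a).1 ≤ (p (j + 1)).1) (hpos : 0 < (p (j + 1)).1)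
    (hd : σ (j + 1) % 4 = 1) : σ (j + 1) = 1 := by
  obtain ⟨h1, h2⟩ := last_step p σ hp h0 hσ hq j hdist (fun z => 0 ≤ z.1) lamE window_E
    (fun a _ => by simpa using hH a) (by
      have hq' := hq (j + 1)
      have hne : p (j + 1) ≠ 0 := by
        intro h; rw [h] at hpos; simp at hpos
      have := cl_cases _ hne
      unfold lamE
      split_ifs <;> omega)
  have ht := hp.turn j
  rcases dir_cases (σ j) with ⟨e, f⟩ | ⟨e, f⟩ | ⟨e, f⟩ | ⟨e, f⟩ <;> rw [f] at h1 h2 <;>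
  simp [lamE, cl] at h1 h2 <;> omega

lemma index_top (p : ℕ → ℤ × ℤ) (σ : ℕ → ℤ) (hp : IsPath p σ) (h0 : p 0 = 0) (hσ : σ 0 = 0)
    (hq : ∀ b, 0 ≤ (p b).2) (j : ℕ) (hdist : ∀ a b, a < b → b ≤ j + 1 → p a ≠ p b)
    (hH : ∀ a, (p a).2 ≤ (p (j + 1)).2)
    (hd : σ (j + 1) % 4 = 2) : σ (j + 1) = 2 := by
  obtain ⟨h1, h2⟩ := last_step p σ hp h0 hσ hq j hdist (fun z => 0 ≤ z.2) cl window_N.toA
    (fun a _ => by simpa using hH a) rfl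
  have ht := hp.turn j
  rcases dir_cases (σ j) with ⟨e, f⟩ | ⟨e, f⟩ | ⟨e, f⟩ | ⟨e, f⟩ <;> rw [f] at h1 h2 <;>
  simp [cl] at h1 h2 <;> omega

lemma index_left (p : ℕ → ℤ × ℤ) (σ : ℕ → ℤ) (hp : IsPath p σ) (h0 : p 0 = 0) (hσ : σ 0 = 0)
    (hq : ∀ b, 0 ≤ (p b).2) (j : ℕ) (hdist : ∀ a b, a < b → b ≤ j + 1 → p a ≠ p b)
    (hH : ∀ a, (p (j + 1)).1 ≤ (p a).1)
    (hd : σ (j + 1) % 4 = 3) : σ (j + 1) = 3 := by
  obtain ⟨h1, h2⟩ := last_step p σ hp h0 hσ hq j hdist (fun z => z.1 ≤ 0) cl window_W.toA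
    (fun a _ => by simpa using hH a) rfl
  have ht := hp.turn j
  rcases dir_cases (σ j) with ⟨e, f⟩ | ⟨e, f⟩ | ⟨e, f⟩ | ⟨e, f⟩ <;> rw [f] at h1 h2 <;>
  simp [cl] at h1 h2 <;> omega

lemma index_bottom (p : ℕ → ℤ × ℤ) (σ : ℕ → ℤ) (hp : IsPath p σ) (h0 : p 0 = 0) (hσ : σ 0 = 0)
    (hq : ∀ b, 0 ≤ (p b).2) (j : ℕ) (hdist : ∀ a b, a < b → b ≤ j + 1 → p a ≠ p b)
    (hH : ∀ a, (p (j + 1)).2 ≤ (p a).2) (hpos : 0 < (p (j + 1)).1)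
    (hd : σ (j + 1) % 4 = 0) : σ (j + 1) = 0 := by
  obtain ⟨h1, h2⟩ := last_step p σ hp h0 hσ hq j hdist (fun z => z.2 ≤ 0) lamS window_S
    (fun a _ => by simpa using hH a) (by
      have hq' := hq (j + 1)
      have hne : p (j + 1) ≠ 0 := by
        intro h; rw [h] at hpos; simp at hpos
      have := cl_cases _ hne
      unfold lamS
      split_ifs <;> omega)
  have ht := hp.turn j
  rcases dir_cases (σ j) with ⟨e, f⟩ | ⟨e, f⟩ | ⟨e, f⟩ | ⟨e, f⟩ <;> rw [f] at h1 h2 <;>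
  simp [lamS, cl] at h1 h2 <;> omega

end Pool.Agent.H75.Perc
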