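import Mathlib
import Pool.Agent.H75.Perc.Turn
import Pool.Agent.H75.Perc.Explore
import Pool.Agent.H75.Perc.Orbit

set_option autoImplicit false
open Finset

/-! The exploration loops in a box. -/

namespace Pool.Agent.H75.Perc

/-- Labels of the edges of the box `[0,w] × [0,h]`. -/
noncomputable def EE (w h : ℕ) : Finset (ℤ × ℤ) :=
  ((Icc (0 : ℤ) (2 * w)) ×ˢ (Icc (0 : ℤ) (2 * h))).filter (fun l => (l.1 + l.2) % 2 = 1)

/-- Corners of the box. -/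
noncomputable def CC (w h : ℕ) : Finset (ℤ × ℤ) := (Icc (0 : ℤ) (2 * w + 1)) ×ˢ (Icc (0 : ℤ) (2 * h + 1))

lemma mem_EE {w h : ℕ} {l : ℤ × ℤ} : l ∈ EE w h ↔
    (0 ≤ l.1 ∧ l.1 ≤ 2 * w) ∧ (0 ≤ l.2 ∧ l.2 ≤ 2 * h) ∧ (l.1 + l.2) % 2 = 1 := by
  unfold EE; simp only [mem_filter, mem_product, mem_Icc]; tauto

lemma mem_CC {w h : ℕ} {l : ℤ × ℤ} : l ∈ CC w h ↔
    (0 ≤ l.1 ∧ l.1 ≤ 2 * w + 1) ∧ (0 ≤ l.2 ∧ l.2 ≤ 2 * h + 1) := by
  unfold CC; simp only [mem_product, mem_Icc]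

lemma nx_mem {w h : ℕ} {ω : Finset (ℤ × ℤ)} (hω : ω ⊆ EE w h) (c : ℤ × ℤ) (hc : c ∈ CC w h) :
    nx ω c ∈ CC w h := by
  rw [mem_CC] at hc ⊢
  unfold nx
  by_cases hl : lab c ∈ ω
  · rw [if_pos hl]
    have he := mem_EE.1 (hω hl)
    rcases ty_cases c with ⟨h0, h1, h2, h3, h4, h5⟩ | ⟨h0, h1, h2, h3, h4, h5⟩ |
      ⟨h0, h1, h2, h3, h4, h5⟩ | ⟨h0, h1, h2, h3, h4, h5⟩ <;> rw [h3] at he <;> rw [h5] <;>
    simp only at he ⊢ <;> omega
  · rw [if_neg hl]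
    rcases ty_cases c with ⟨h0, h1, h2, h3, h4, h5⟩ | ⟨h0, h1, h2, h3, h4, h5⟩ |
      ⟨h0, h1, h2, h3, h4, h5⟩ | ⟨h0, h1, h2, h3, h4, h5⟩ <;> rw [h4] <;>
    simp only <;> omega

lemma iter_mem {w h : ℕ} {ω : Finset (ℤ × ℤ)} (hω : ω ⊆ EE w h) (c : ℤ × ℤ) (hc : c ∈ CC w h)
    (i : ℕ) : (nx ω)^[i] c ∈ CC w h := by
  induction i with
  | zero => exact hc
  | succ i ih => rw [Function.iterate_succ_apply']; exact nx_mem hω _ ih

lemma orb_exists {w h : ℕ} {ω : Finset (ℤ × ℤ)} (hω : ω ⊆ EE w h) (c : ℤ × ℤ)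
    (hc : c ∈ CC w h) : ∃ L, Orb (nx ω) c L :=
  exists_orb (nx ω) (nx_injective ω) (CC w h) (fun x hx => nx_mem hω x hx) c hc

lemma kk_eq_KK (ω : Finset (ℤ × ℤ)) (c : ℤ × ℤ) (k0 : ℤ) (i : ℕ) :
    kk ω c k0 i = KK (nx ω) (del ω) c k0 i := by
  induction i with
  | zero => simp [kk, KK]
  | succ i ih => rw [KK_succ, kk, ih]

lemma path_ne_two (p : ℕ → ℤ × ℤ) (σ : ℕ → ℤ) (hp : IsPath p σ) (i : ℕ) : p (i + 2) ≠ p i := by
  have h1 := hp.step i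
  have h2 := hp.step (i + 1)
  have ht := hp.turn i
  intro h
  rw [show i + 2 = i + 1 + 1 from rfl, h2, h1, add_assoc] at h
  have h3 : dir (σ i) + dir (σ (i + 1)) = 0 := by
    exact add_eq_left.1 h
  rcases dir_cases (σ i) with ⟨e, f⟩ | ⟨e, f⟩ | ⟨e, f⟩ | ⟨e, f⟩ <;>
  rcases dir_cases (σ (i + 1)) with ⟨e', f'⟩ | ⟨e', f'⟩ | ⟨e', f'⟩ | ⟨e', f'⟩ <;>
  rw [f, f'] at h3 <;>
  first
  | (exfalso; omega)
  | (exfalso; revert h3; simp; done)

lemma path_ne_one (p : ℕ → ℤ × ℤ) (σ : ℕ → ℤ) (hp : IsPath p σ) (i : ℕ) : p (i + 1) ≠ p i := by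
  have h1 := hp.step i
  intro h
  rw [h1] at h
  have h3 : dir (σ i) = 0 := add_eq_left.1 h
  rcases dir_cases (σ i) with ⟨e, f⟩ | ⟨e, f⟩ | ⟨e, f⟩ | ⟨e, f⟩ <;> rw [f] at h3 <;>
  revert h3 <;> simp

lemma orb_ge_three {ω : Finset (ℤ × ℤ)} {c : ℤ × ℤ} {L : ℕ} (hO : Orb (nx ω) c L) : 3 ≤ L := by
  by_contra hlt
  have hp := isPath_explore ω c (ty c) (by
    rcases ty_cases c with h | h | h | h <;> rw [h.1] <;> norm_num)
  have h1 := path_ne_one _ _ hp 0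
  have h2 := path_ne_two _ _ hp 0
  have hpos := hO.pos
  have hL : L = 1 ∨ L = 2 := by omega
  rcases hL with rfl | rfl
  · exact h1 hO.per
  · exact h2 hO.per

lemma bdry_cases {w h : ℕ} {c : ℤ × ℤ} (hc : c ∈ CC w h) (hl : lab c ∉ EE w h) :
    (ty c = 0 ∧ c.2 = 0) ∨ (ty c = 1 ∧ c.1 = 2 * w + 1) ∨ (ty c = 2 ∧ c.2 = 2 * h + 1) ∨
    (ty c = 3 ∧ c.1 = 0) := by
  rw [mem_CC] at hc
  rw [mem_EE] at hl
  rcases ty_cases c with ⟨h0, h1, h2, h3, h4, h5⟩ | ⟨h0, h1, h2, h3, h4, h5⟩ |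
      ⟨h0, h1, h2, h3, h4, h5⟩ | ⟨h0, h1, h2, h3, h4, h5⟩ <;> rw [h3] at hl <;>
    simp only at hl ⊢ <;> omega

lemma sg_of_closed {ω : Finset (ℤ × ℤ)} {c : ℤ × ℤ} {k0 : ℤ} {i : ℕ}
    (h : lab ((nx ω)^[i] c) ∉ ω) : sg ω c k0 i = kk ω c k0 i := by
  unfold sg; rw [if_neg h]

/-- Total turning of the loop through a boundary corner. -/
lemma turning_bdry {w h : ℕ} {ω : Finset (ℤ × ℤ)} (hω : ω ⊆ EE w h) {c : ℤ × ℤ}
    (hc : c ∈ CC w h) (hl : lab c ∉ EE w h) {L : ℕ} (hO : Orb (nx ω) c L) (k0 : ℤ)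
    (hk0 : k0 % 4 = ty c) : kk ω c k0 L = k0 + 4 := by
  have hp := isPath_explore ω c k0 hk0
  have hL := orb_ge_three hO
  have hper : ∀ i, (nx ω)^[i + L] c = (nx ω)^[i] c := hO.add
  have hdist : ∀ a b, a < b → b < L → (nx ω)^[a] c ≠ (nx ω)^[b] c := hO.inj
  have hmem := iter_mem hω c hc
  have hlω : lab c ∉ ω := fun h' => hl (hω h')
  have s0 : sg ω c k0 0 = k0 := by rw [sg_of_closed (by simpa using hlω)]; rfl
  have sL : sg ω c k0 L = kk ω c k0 L := sg_of_closed (by rw [hO.per]; exact hlω)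
  have hkL := kk_mod ω c k0 hk0 L
  rw [hO.per] at hkL
  have hdir : dir (sg ω c k0 L) = dir (sg ω c k0 0) := by
    rw [dir_eq_iff, s0, sL, hkL, hk0]
  have key : sg ω c k0 L - sg ω c k0 0 = 4 := by
    rcases bdry_cases hc hl with ⟨h0, h1⟩ | ⟨h0, h1⟩ | ⟨h0, h1⟩ | ⟨h0, h1⟩
    · refine turning_four_N _ _ hp L hL hper hdist hdir (by rw [s0, hk0, h0]) ?_
      intro b
      have := mem_CC.1 (hmem b)
      simp only [Function.iterate_zero, id_eq]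
      omega
    · refine turning_four_W _ _ hp L hL hper hdist hdir (by rw [s0, hk0, h0]) ?_
      intro b
      have := mem_CC.1 (hmem b)
      simp only [Function.iterate_zero, id_eq]
      omega
    · refine turning_four_S _ _ hp L hL hper hdist hdir (by rw [s0, hk0, h0]) ?_
      intro b
      have := mem_CC.1 (hmem b)
      simp only [Function.iterate_zero, id_eq]
      omega
    · refine turning_four_E _ _ hp L hL hper hdist hdir (by rw [s0, hk0, h0]) ?_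
      intro b
      have := mem_CC.1 (hmem b)
      simp only [Function.iterate_zero, id_eq]
      omega
  rw [s0, sL] at key
  linarith

lemma zero_mem_CC (w h : ℕ) : (0 : ℤ × ℤ) ∈ CC w h := by
  rw [mem_CC]; simp only [Prod.fst_zero, Prod.snd_zero]; omega

lemma ty_zero : ty (0 : ℤ × ℤ) = 0 := by decide

lemma lab_zero_not_mem (w h : ℕ) : lab (0 : ℤ × ℤ) ∉ EE w h := by
  rw [mem_EE]
  have : lab (0 : ℤ × ℤ) = (0, -1) := by decide
  rw [this]; simp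

/-- Turning index at boundary corners. -/
lemma index_bdry {w h : ℕ} {ω : Finset (ℤ × ℤ)} (hω : ω ⊆ EE w h) {L : ℕ}
    (hO : Orb (nx ω) 0 L) {j : ℕ} (hj : j < L) (hl : lab ((nx ω)^[j] 0) ∉ EE w h) :
    kk ω 0 0 j = ty ((nx ω)^[j] 0) := by
  have hp := isPath_explore ω 0 0 (by rw [ty_zero]; rfl)
  have hmem := iter_mem hω 0 (zero_mem_CC w h)
  have hlω : lab ((nx ω)^[j] 0) ∉ ω := fun h' => hl (hω h')
  rcases Nat.eq_zero_or_pos j with hj0 | hjpos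
  · subst hj0
    simp only [Function.iterate_zero, id_eq, ty_zero]; rfl
  · obtain ⟨i, rfl⟩ : ∃ i, j = i + 1 := ⟨j - 1, by omega⟩
    have sj : sg ω 0 0 (i + 1) = kk ω 0 0 (i + 1) := sg_of_closed hlω
    have s0 : sg ω 0 0 0 = 0 := by
      rw [sg_of_closed]
      · rfl
      · simp only [Function.iterate_zero, id_eq]
        intro h'; exact lab_zero_not_mem w h (hω h')
    have hk := kk_mod ω 0 0 (by rw [ty_zero]; rfl) (i + 1)
    have hq : ∀ b, 0 ≤ ((nx ω)^[b] (0 : ℤ × ℤ)).2 := fun b => (mem_CC.1 (hmem b)).2.1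
    have hdist : ∀ a b, a < b → b ≤ i + 1 → (nx ω)^[a] (0 : ℤ × ℤ) ≠ (nx ω)^[b] 0 :=
      fun a b h1 h2 => hO.inj a b h1 (by omega)
    have hpp : 0 ≤ ((nx ω)^[i + 1] (0 : ℤ × ℤ)).1 := (mem_CC.1 (hmem (i + 1))).1.1
    rcases bdry_cases (hmem (i + 1)) hl with ⟨h0, h1⟩ | ⟨h0, h1⟩ | ⟨h0, h1⟩ | ⟨h0, h1⟩
    · rw [h0, ← sj]
      refine index_bottom _ _ hp rfl s0 hq i hdist ?_ ?_ (by rw [sj, hk, h0])
      · intro a
        have := mem_CC.1 (hmem a)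
        omega
      · rcases lt_or_eq_of_le hpp with h2 | h2
        · exact h2
        · exfalso
          apply hO.inj 0 (i + 1) (by omega) hj
          simp only [Function.iterate_zero, id_eq]
          exact Prod.ext h2 h1.symm
    · rw [h0, ← sj]
      refine index_right _ _ hp rfl s0 hq i hdist ?_ ?_ (by rw [sj, hk, h0])
      · intro a
        have := mem_CC.1 (hmem a)
        omega
      · show 0 < ((nx ω)^[i + 1] (0 : ℤ × ℤ)).1
        rw [h1]; positivity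
    · rw [h0, ← sj]
      refine index_top _ _ hp rfl s0 hq i hdist ?_ (by rw [sj, hk, h0])
      intro a
      have := mem_CC.1 (hmem a)
      omega
    · rw [h0, ← sj]
      refine index_left _ _ hp rfl s0 hq i hdist ?_ (by rw [sj, hk, h0])
      intro a
      have := mem_CC.1 (hmem a)
      omega

end Pool.Agent.H75.Perc
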