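import Mathlib
import Pool.Agent.H75.Perc.Box

set_option autoImplicit false
open Finset

/-! The identity obtained by summing over all configurations. -/

namespace Pool.Agent.H75.Perc

/-- First corner from which the edge `e` is met. -/
def in1 (e : ℤ × ℤ) : ℤ × ℤ := if e.1 % 2 = 1 then e else (e.1, e.2 + 1)

/-- Second corner from which the edge `e` is met. -/
def in2 (e : ℤ × ℤ) : ℤ × ℤ := if e.1 % 2 = 1 then (e.1 + 1, e.2 + 1) else (e.1 + 1, e.2)

lemma lab_odd (c : ℤ × ℤ) : ((lab c).1 + (lab c).2) % 2 = 1 := by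
  rcases ty_cases c with ⟨h0, h1, h2, h3, h4, h5⟩ | ⟨h0, h1, h2, h3, h4, h5⟩ |
    ⟨h0, h1, h2, h3, h4, h5⟩ | ⟨h0, h1, h2, h3, h4, h5⟩ <;> rw [h3] <;> simp only <;> omega

lemma lab_in1 (e : ℤ × ℤ) (he : (e.1 + e.2) % 2 = 1) : lab (in1 e) = e := by
  obtain ⟨a, b⟩ := e
  simp only at he
  unfold in1 lab
  simp only
  split_ifs <;> simp at * <;> omega

lemma lab_in2 (e : ℤ × ℤ) (he : (e.1 + e.2) % 2 = 1) : lab (in2 e) = e := by
  obtain ⟨a, b⟩ := e
  simp only at he
  unfold in2 lab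
  simp only
  split_ifs <;> simp at * <;> omega

lemma lab_eq_iff (e c : ℤ × ℤ) (he : (e.1 + e.2) % 2 = 1) :
    lab c = e ↔ c = in1 e ∨ c = in2 e := by
  constructor
  · intro h
    obtain ⟨a, b⟩ := c
    rw [← h]
    unfold in1 in2
    rcases ty_cases (a, b) with ⟨h0, h1, h2, h3, h4, h5⟩ | ⟨h0, h1, h2, h3, h4, h5⟩ |
      ⟨h0, h1, h2, h3, h4, h5⟩ | ⟨h0, h1, h2, h3, h4, h5⟩ <;> rw [h3] <;>
    simp only at h1 h2 ⊢ <;> split_ifs <;> simp <;> omega
  · rintro (h | h)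
    · rw [h]; exact lab_in1 e he
    · rw [h]; exact lab_in2 e he

lemma in1_ne_in2 (e : ℤ × ℤ) : in1 e ≠ in2 e := by
  unfold in1 in2
  split_ifs
  · intro h
    have := congrArg Prod.fst h
    simp at this
  · intro h
    have := congrArg Prod.fst h
    simp at this

lemma nxO_in1 (e : ℤ × ℤ) (he : (e.1 + e.2) % 2 = 1) : nxO (in1 e) = nxC (in2 e) := by
  obtain ⟨a, b⟩ := e
  simp only at he
  unfold in1 in2 nxO nxC
  simp only
  split_ifs <;> simp at * <;> omega

lemma nxO_in2 (e : ℤ × ℤ) (he : (e.1 + e.2) % 2 = 1) : nxO (in2 e) = nxC (in1 e) := by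
  obtain ⟨a, b⟩ := e
  simp only at he
  unfold in1 in2 nxO nxC
  simp only
  split_ifs <;> simp at * <;> omega

lemma swapped_insert (ω : Finset (ℤ × ℤ)) (e : ℤ × ℤ) (he : (e.1 + e.2) % 2 = 1) (h : e ∉ ω) :
    Swapped (nx ω) (nx (insert e ω)) (in1 e) (in2 e) := by
  refine ⟨?_, ?_, ?_⟩
  · unfold nx
    rw [lab_in1 e he, lab_in2 e he, if_pos (mem_insert_self e ω), if_neg h, nxO_in1 e he]
  · unfold nx
    rw [lab_in1 e he, lab_in2 e he, if_pos (mem_insert_self e ω), if_neg h, nxO_in2 e he]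
  · intro x h1 h2
    have hx : lab x ≠ e := by
      intro hh
      rcases (lab_eq_iff e x he).1 hh with h3 | h3
      · exact h1 h3
      · exact h2 h3
    unfold nx
    simp only [mem_insert, hx, false_or]

lemma del_off (ω : Finset (ℤ × ℤ)) (e : ℤ × ℤ) (he : (e.1 + e.2) % 2 = 1) (x : ℤ × ℤ)
    (h1 : x ≠ in1 e) (h2 : x ≠ in2 e) : del (insert e ω) x = del ω x := by
  have hx : lab x ≠ e := by
    intro hh
    rcases (lab_eq_iff e x he).1 hh with h3 | h3
    · exact h1 h3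
    · exact h2 h3
  unfold del
  simp only [mem_insert, hx, false_or]

lemma in1_mem {w h : ℕ} {e : ℤ × ℤ} (he : e ∈ EE w h) : in1 e ∈ CC w h := by
  rw [mem_EE] at he
  rw [mem_CC]
  unfold in1
  split_ifs
  · omega
  · simp only
    omega

lemma in2_mem {w h : ℕ} {e : ℤ × ℤ} (he : e ∈ EE w h) : in2 e ∈ CC w h := by
  rw [mem_EE] at he
  rw [mem_CC]
  unfold in2
  split_ifs <;> simp only <;> omega

/-- Length of the loop through the corner `0`. -/
noncomputable def Lp (ω : Finset (ℤ × ℤ)) : ℕ := Function.minimalPeriod (nx ω) 0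

lemma Orb.minimalPeriod {α : Type*} {f : α → α} {c : α} {L : ℕ} (h : Orb f c L) :
    Function.minimalPeriod f c = L := by
  have hp : Function.IsPeriodicPt f L c := h.per
  have h1 := hp.minimalPeriod_le h.pos
  have h2 : 0 < Function.minimalPeriod f c := hp.minimalPeriod_pos h.pos
  rcases lt_or_eq_of_le h1 with h3 | h3
  · exact absurd (Function.isPeriodicPt_minimalPeriod f c).symm (h.inj 0 _ h2 h3)
  · exact h3

lemma orb_Lp {w h : ℕ} {ω : Finset (ℤ × ℤ)} (hω : ω ⊆ EE w h) : Orb (nx ω) 0 (Lp ω) := by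
  obtain ⟨L, hL⟩ := orb_exists hω 0 (zero_mem_CC w h)
  have := hL.minimalPeriod
  unfold Lp
  rw [this]; exact hL

lemma total_Lp {w h : ℕ} {ω : Finset (ℤ × ℤ)} (hω : ω ⊆ EE w h) :
    KK (nx ω) (del ω) 0 0 (Lp ω) = 4 := by
  rw [← kk_eq_KK]
  have := turning_bdry hω (zero_mem_CC w h) (lab_zero_not_mem w h) (orb_Lp hω) 0
    (by rw [ty_zero]; rfl)
  simpa using this

lemma pair_cancel (θ : ℤ → ℤ) (hθ : ∀ k, θ (k + 2) = θ (k + 1) - θ k) {w h : ℕ}
    {ω : Finset (ℤ × ℤ)} (hω : ω ⊆ EE w h) {e : ℤ × ℤ} (he : e ∈ EE w h) (hn : e ∉ ω) :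
    contrib θ (nx ω) (del ω) 0 0 (Lp ω) (in1 e) (in2 e) +
      contrib θ (nx (insert e ω)) (del (insert e ω)) 0 0 (Lp (insert e ω)) (in1 e) (in2 e)
      = 0 := by
  have hodd := (mem_EE.1 he).2.2
  have hω' : insert e ω ⊆ EE w h := by
    intro x hx
    rcases mem_insert.1 hx with h1 | h1
    · rw [h1]; exact he
    · exact hω h1
  obtain ⟨Mp, hMp⟩ := orb_exists hω (in1 e) (in1_mem he)
  obtain ⟨Mq, hMq⟩ := orb_exists hω (in2 e) (in2_mem he)
  refine contrib_pair θ hθ (swapped_insert ω e hodd hn) (in1_ne_in2 e) (e := 1) (Or.inl rfl)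
    (del_off ω e hodd) ?_ ?_ ?_ ?_ 0 (orb_Lp hω) (orb_Lp hω') hMp hMq ?_ ?_
  · unfold del; rw [lab_in1 e hodd, if_neg hn]
  · unfold del; rw [lab_in2 e hodd, if_neg hn]
  · unfold del; rw [lab_in1 e hodd, if_pos (mem_insert_self _ _)]
  · unfold del; rw [lab_in2 e hodd, if_pos (mem_insert_self _ _)]
  · rw [total_Lp hω]; rfl
  · rw [total_Lp hω']; rfl

/-- Sum over all configurations of the contribution of one edge vanishes. -/
lemma sum_contrib (θ : ℤ → ℤ) (hθ : ∀ k, θ (k + 2) = θ (k + 1) - θ k) {w h : ℕ}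
    {e : ℤ × ℤ} (he : e ∈ EE w h) :
    ∑ ω ∈ (EE w h).powerset, contrib θ (nx ω) (del ω) 0 0 (Lp ω) (in1 e) (in2 e) = 0 := by
  classical
  refine Finset.sum_involution (fun ω _ => if e ∈ ω then ω.erase e else insert e ω) ?_ ?_ ?_ ?_
  · intro ω hω
    rw [mem_powerset] at hω
    by_cases hn : e ∈ ω
    · rw [if_pos hn]
      have h1 : ω.erase e ⊆ EE w h := (erase_subset _ _).trans hω
      have := pair_cancel θ hθ h1 he (notMem_erase e ω)
      rw [insert_erase hn] at this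
      linarith
    · rw [if_neg hn]
      exact pair_cancel θ hθ hω he hn
  · intro ω hω _
    by_cases hn : e ∈ ω
    · rw [if_pos hn]
      intro hh
      have := notMem_erase e ω
      rw [hh] at this
      exact this hn
    · rw [if_neg hn]
      intro hh
      exact hn (hh ▸ mem_insert_self e ω)
  · intro ω hω
    rw [mem_powerset] at hω ⊢
    by_cases hn : e ∈ ω
    · rw [if_pos hn]; exact (erase_subset _ _).trans hω
    · rw [if_neg hn]
      intro x hx
      rcases mem_insert.1 hx with h1 | h1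
      · rw [h1]; exact he
      · exact hω h1
  · intro ω hω
    by_cases hn : e ∈ ω
    · simp only [if_pos hn, notMem_erase, if_false]
      exact insert_erase hn
    · simp only [if_neg hn, mem_insert_self, if_true]
      exact erase_insert hn

/-- The corners of the loop. -/
noncomputable def loopC (ω : Finset (ℤ × ℤ)) : Finset (ℤ × ℤ) :=
  (range (Lp ω)).image (fun i => (nx ω)^[i] 0)

lemma mem_loopC {w h : ℕ} {ω : Finset (ℤ × ℤ)} (hω : ω ⊆ EE w h) (c : ℤ × ℤ) :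
    c ∈ loopC ω ↔ InOrb (nx ω) 0 c := by
  unfold loopC
  rw [(orb_Lp hω).inOrb_iff]
  simp

/-- The boundary corners of the box. -/
noncomputable def BB (w h : ℕ) : Finset (ℤ × ℤ) := (CC w h).filter (fun c => lab c ∉ EE w h)

/-- The telescoping sum along one loop, split into boundary and interior parts. -/
lemma one_loop (θ : ℤ → ℤ) {w h : ℕ} {ω : Finset (ℤ × ℤ)} (hω : ω ⊆ EE w h) :
    θ 0 - θ 4 = (∑ c ∈ BB w h, if c ∈ loopC ω then θ (ty c) - θ (ty c + 1) else 0) +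
      ∑ e ∈ EE w h, contrib θ (nx ω) (del ω) 0 0 (Lp ω) (in1 e) (in2 e) := by
  classical
  set L := Lp ω with hLdef
  have hO : Orb (nx ω) 0 L := orb_Lp hω
  have hT : KK (nx ω) (del ω) 0 0 L = 4 := total_Lp hω
  have hmem := iter_mem hω 0 (zero_mem_CC w h)
  -- telescoping
  have h1 : θ 0 - θ 4 = ∑ i ∈ range L, (θ (KK (nx ω) (del ω) 0 0 i) -
      θ (KK (nx ω) (del ω) 0 0 i + del ω ((nx ω)^[i] 0))) := by
    have := Finset.sum_range_sub' (fun i => θ (KK (nx ω) (del ω) 0 0 i)) L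
    rw [hT] at this
    have h0 : KK (nx ω) (del ω) 0 0 0 = 0 := by simp [KK]
    rw [h0] at this
    rw [← this]
    apply Finset.sum_congr rfl
    intro i _
    rw [KK_succ]
  -- splitting
  have h2 : ∀ i ∈ range L, (θ (KK (nx ω) (del ω) 0 0 i) -
      θ (KK (nx ω) (del ω) 0 0 i + del ω ((nx ω)^[i] 0))) =
      (if lab ((nx ω)^[i] 0) ∉ EE w h then
        θ (ty ((nx ω)^[i] 0)) - θ (ty ((nx ω)^[i] 0) + 1) else 0) +
      ∑ e ∈ EE w h, (if (nx ω)^[i] 0 = in1 e ∨ (nx ω)^[i] 0 = in2 e then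
        θ (KK (nx ω) (del ω) 0 0 i) - θ (KK (nx ω) (del ω) 0 0 i + del ω ((nx ω)^[i] 0)) else 0)
      := by
    intro i hi
    have e1 : ∑ e ∈ EE w h, (if (nx ω)^[i] 0 = in1 e ∨ (nx ω)^[i] 0 = in2 e then
        θ (KK (nx ω) (del ω) 0 0 i) - θ (KK (nx ω) (del ω) 0 0 i + del ω ((nx ω)^[i] 0)) else 0)
        = ∑ e ∈ EE w h, (if lab ((nx ω)^[i] 0) = e then
        θ (KK (nx ω) (del ω) 0 0 i) - θ (KK (nx ω) (del ω) 0 0 i + del ω ((nx ω)^[i] 0))
        else 0) := by
      apply Finset.sum_congr rfl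
      intro e he
      simp only [lab_eq_iff e _ (mem_EE.1 he).2.2]
    rw [e1, Finset.sum_ite_eq]
    by_cases hl : lab ((nx ω)^[i] 0) ∈ EE w h
    · simp only [hl, not_true_eq_false, if_false, if_true, zero_add]
    · simp only [hl, not_false_eq_true, if_true, if_false, add_zero]
      have hk := index_bdry hω hO (mem_range.1 hi) hl
      rw [kk_eq_KK] at hk
      have hd : del ω ((nx ω)^[i] 0) = 1 := by
        unfold del; rw [if_neg (fun h' => hl (hω h'))]
      rw [hk, hd]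
  rw [h1, Finset.sum_congr rfl h2, Finset.sum_add_distrib, Finset.sum_comm]
  congr 1
  rw [← Finset.sum_filter, ← Finset.sum_filter]
  have h3 : (BB w h).filter (fun c => c ∈ loopC ω) =
      ((range L).filter (fun i => lab ((nx ω)^[i] 0) ∉ EE w h)).image
        (fun i => (nx ω)^[i] 0) := by
    ext c
    simp only [mem_filter, mem_image, BB, loopC, mem_range]
    constructor
    · rintro ⟨⟨hc1, hc2⟩, i, hi, rfl⟩
      exact ⟨i, ⟨hi, hc2⟩, rfl⟩
    · rintro ⟨i, ⟨hi, hl⟩, rfl⟩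
      exact ⟨⟨hmem i, hl⟩, i, hi, rfl⟩
  rw [h3, Finset.sum_image]
  intro i hi j hj hij
  have hi := mem_filter.1 (mem_coe.1 hi)
  have hj := mem_filter.1 (mem_coe.1 hj)
  simp only [mem_range] at hi hj
  rcases lt_trichotomy i j with h' | h' | h'
  · exact absurd hij (hO.inj i j h' hj.1)
  · exact h'
  · exact absurd hij.symm (hO.inj j i h' hi.1)

/-- The identity. -/
lemma main_identity (θ : ℤ → ℤ) (hθ : ∀ k, θ (k + 2) = θ (k + 1) - θ k) (w h : ℕ) :
    ∑ c ∈ BB w h, (θ (ty c) - θ (ty c + 1)) *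
      (((EE w h).powerset.filter (fun ω => c ∈ loopC ω)).card : ℤ) =
      (θ 0 - θ 4) * ((EE w h).powerset.card : ℤ) := by
  classical
  have h1 : ∑ ω ∈ (EE w h).powerset, (θ 0 - θ 4) =
      (∑ ω ∈ (EE w h).powerset, ∑ c ∈ BB w h,
        if c ∈ loopC ω then θ (ty c) - θ (ty c + 1) else 0) +
      ∑ ω ∈ (EE w h).powerset,
        ∑ e ∈ EE w h, contrib θ (nx ω) (del ω) 0 0 (Lp ω) (in1 e) (in2 e) := by
    rw [← Finset.sum_add_distrib]
    apply Finset.sum_congr rfl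
    intro ω hω
    exact one_loop θ (mem_powerset.1 hω)
  have h2 : ∑ ω ∈ (EE w h).powerset,
        ∑ e ∈ EE w h, contrib θ (nx ω) (del ω) 0 0 (Lp ω) (in1 e) (in2 e) = 0 := by
    rw [Finset.sum_comm]
    exact Finset.sum_eq_zero (fun e he => sum_contrib θ hθ he)
  rw [h2, add_zero, Finset.sum_comm, Finset.sum_const, nsmul_eq_mul] at h1
  rw [mul_comm, h1]
  apply Finset.sum_congr rfl
  intro c _
  rw [← Finset.sum_filter, Finset.sum_const, nsmul_eq_mul]
  ring

end Pool.Agent.H75.Perc
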