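import Mathlib
import Pool.Agent.H75.Perc.Orbit

set_option autoImplicit false
open Finset

/-! The second loop created by a split. -/

namespace Pool.Agent.H75.Perc

variable {α : Type*}

lemma KK_zero (f : α → α) (δ : α → ℤ) (c : α) (k0 : ℤ) : KK f δ c k0 0 = k0 := by simp [KK]

lemma KK_shift (f : α → α) (δ : α → ℤ) (c : α) (k0 k1 : ℤ) (n : ℕ) :
    KK f δ c k1 n = KK f δ c k0 n + (k1 - k0) := by unfold KK; ring

lemma Orb.rotate_one {f : α → α} (hf : Function.Injective f) {x : α} {M : ℕ} (h : Orb f x M)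
    (δ : α → ℤ) (k0 : ℤ) : Orb f (f x) M ∧ KK f δ (f x) k0 M = KK f δ x k0 M := by
  refine ⟨⟨h.pos, ?_, ?_⟩, ?_⟩
  · rw [← Function.iterate_succ_apply, Function.iterate_succ_apply', h.per]
  · intro i j hij hj he
    rw [← Function.iterate_succ_apply, ← Function.iterate_succ_apply,
      Function.iterate_succ_apply', Function.iterate_succ_apply'] at he
    exact h.inj i j hij hj (hf he)
  · unfold KK
    have e1 : ∑ j ∈ range M, δ (f^[j] (f x)) = ∑ j ∈ range M, δ (f^[j + 1] x) := by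
      apply Finset.sum_congr rfl
      intro j _
      rw [Function.iterate_succ_apply]
    have e2 := Finset.sum_range_succ' (fun j => δ (f^[j] x)) M
    have e3 := Finset.sum_range_succ (fun j => δ (f^[j] x)) M
    rw [e1]
    simp only [Function.iterate_zero, id_eq, h.per] at e2 e3
    linarith

lemma Orb.rotate {f : α → α} (hf : Function.Injective f) {x : α} {M : ℕ} (h : Orb f x M)
    (δ : α → ℤ) (k0 : ℤ) (m : ℕ) :
    Orb f (f^[m] x) M ∧ KK f δ (f^[m] x) k0 M = KK f δ x k0 M := by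
  induction m with
  | zero => exact ⟨h, rfl⟩
  | succ m ih =>
    rw [Function.iterate_succ_apply']
    obtain ⟨h1, h2⟩ := ih.1.rotate_one hf δ k0
    exact ⟨h1, by rw [h2, ih.2]⟩

/-- The second loop created by a split. -/
lemma Swapped.split_other {f f' : α → α} {p q : α} (h : Swapped f f' p q) {c : α} {L : ℕ}
    (hO : Orb f c L) {a b : ℕ} (hab : a < b) (hbL : b < L) (ha : f^[a] c = p)
    (hb : f^[b] c = q) :
    (∀ j, j ≤ b - a - 1 → f'^[j] (f^[a + 1] c) = f^[a + 1 + j] c) ∧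
      Orb f' (f^[a + 1] c) (b - a) := by
  have h1 : ∀ j, j ≤ b - a - 1 → f'^[j] (f^[a + 1] c) = f^[a + 1 + j] c := by
    intro j hj
    have := h.agree (f^[a + 1] c) (b - a - 1) (by
      intro i hi
      rw [← Function.iterate_add_apply]
      constructor
      · rw [← ha]; exact (hO.inj a (i + (a + 1)) (by omega) (by omega)).symm
      · rw [← hb]; exact hO.inj (i + (a + 1)) b (by omega) hbL) j hj
    rw [this, ← Function.iterate_add_apply]
    congr 1
    ring_nf
  refine ⟨h1, ⟨by omega, ?_, ?_⟩⟩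
  · obtain ⟨d, hd⟩ : ∃ d, b - a = d + 1 := ⟨b - a - 1, by omega⟩
    rw [hd, Function.iterate_succ_apply', h1 d (by omega)]
    have e : a + 1 + d = b := by omega
    rw [e, hb, h.atq, Function.iterate_succ_apply', ha]
  · intro i j hij hj
    rw [h1 i (by omega), h1 j (by omega)]
    exact hO.inj _ _ (by omega) (by omega)

lemma Swapped.split_other_KK {f f' : α → α} {p q : α} (h : Swapped f f' p q)
    {δ δ' : α → ℤ} {e : ℤ}
    (hδ : ∀ x, x ≠ p → x ≠ q → δ' x = δ x) (hp1 : δ p = e) (hq2 : δ' q = -e)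
    {c : α} {L : ℕ} (k0 k1 : ℤ)
    (hO : Orb f c L) {a b : ℕ} (hab : a < b) (hbL : b < L) (ha : f^[a] c = p)
    (hb : f^[b] c = q) :
    KK f' δ' (f^[a + 1] c) k1 (b - a) =
      k1 + (KK f δ c k0 b - KK f δ c k0 a - 2 * e) := by
  obtain ⟨h1, h2⟩ := h.split_other hO hab hbL ha hb
  have key : ∀ j, j ≤ b - a - 1 → KK f' δ' (f^[a + 1] c) k1 j =
      k1 + (KK f δ c k0 (a + 1 + j) - KK f δ c k0 (a + 1)) := by
    intro j
    induction j with
    | zero => intro _; rw [KK_zero]; ring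
    | succ j ih =>
      intro hj
      rw [KK_succ, ih (by omega), h1 j (by omega), show a + 1 + (j + 1) = (a + 1 + j) + 1 by ring,
        KK_succ f δ c k0 (a + 1 + j)]
      have e3 : δ' (f^[a + 1 + j] c) = δ (f^[a + 1 + j] c) := by
        apply hδ
        · rw [← ha]; exact (hO.inj a (a + 1 + j) (by omega) (by omega)).symm
        · rw [← hb]; exact hO.inj (a + 1 + j) b (by omega) hbL
      rw [e3]; ring
  obtain ⟨d, hd⟩ : ∃ d, b - a = d + 1 := ⟨b - a - 1, by omega⟩
  have e : a + 1 + d = b := by omega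
  rw [hd, KK_succ, key d (by omega), h1 d (by omega), e, hb, hq2, KK_succ f δ c k0 a, ha, hp1]
  ring

/-- If the orbit of `c` splits, every point of it is either on the new orbit of `c` or on an
orbit of total turning `-4 e`. -/
lemma Swapped.keep_or {f f' : α → α} (hf' : Function.Injective f') {p q : α}
    (h : Swapped f f' p q) (hpq : p ≠ q) {δ δ' : α → ℤ} {e : ℤ}
    (hδ : ∀ x, x ≠ p → x ≠ q → δ' x = δ x) (hp1 : δ p = e) (hq1 : δ q = e) (hp2 : δ' p = -e)
    (hq2 : δ' q = -e) {c : α} {L L' : ℕ} (k0 : ℤ) (hO : Orb f c L) (hO' : Orb f' c L')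
    (hT : KK f δ c k0 L = k0 + 4) (hT' : KK f' δ' c k0 L' = k0 + 4)
    (hp : InOrb f c p) (hq : InOrb f c q) (x : α) (hx : InOrb f c x) (k1 : ℤ) :
    InOrb f' c x ∨ ∃ M, Orb f' x M ∧ KK f' δ' x k1 M = k1 - 4 * e := by
  have main : ∀ (p q : α), Swapped f f' p q → (∀ x, x ≠ p → x ≠ q → δ' x = δ x) →
      δ p = e → δ q = e → δ' p = -e → δ' q = -e → ∀ a b, a < b → b < L → f^[a] c = p →
      f^[b] c = q → InOrb f' c x ∨ ∃ M, Orb f' x M ∧ KK f' δ' x k1 M = k1 - 4 * e := by
    intro p q h hδ hp1 hq1 hp2 hq2 a b hab hbL ha hb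
    obtain ⟨h1, h2, h3⟩ := h.split hO hab hbL ha hb
    obtain ⟨g1, g2⟩ := h.split_KK hδ hq1 hp2 k0 hO hab hbL ha hb
    have hL' : L' = L - (b - a) := hO'.unique h3
    rw [← hL', hT', hT] at g2
    obtain ⟨o1, o2⟩ := h.split_other hO hab hbL ha hb
    have o3 := h.split_other_KK hδ hp1 hq2 k0 k1 hO hab hbL ha hb
    obtain ⟨m, hmL, hm⟩ := (hO.inOrb_iff x).1 hx
    by_cases hma : m ≤ a
    · left; exact ⟨m, by rw [h1 m hma, hm]⟩
    · by_cases hmb : m ≤ b
      · right
        have e1 : x = f'^[m - a - 1] (f^[a + 1] c) := by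
          rw [o1 _ (by omega), ← hm]
          congr 1
          omega
        obtain ⟨r1, r2⟩ := o2.rotate hf' δ' k1 (m - a - 1)
        rw [← e1] at r1 r2
        refine ⟨b - a, r1, ?_⟩
        rw [r2, o3]
        linarith
      · left
        refine ⟨a + 1 + (m - b - 1), ?_⟩
        rw [h2 _ (by omega), ← hm]
        congr 1
        omega
  obtain ⟨a, haL, ha⟩ := (hO.inOrb_iff p).1 hp
  obtain ⟨b, hbL, hb⟩ := (hO.inOrb_iff q).1 hq
  rcases lt_trichotomy a b with hlt | heq | hgt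
  · exact main p q h hδ hp1 hq1 hp2 hq2 a b hlt hbL ha hb
  · subst heq; exact absurd (ha.symm.trans hb) hpq
  · exact main q p h.comm (fun x h1 h2 => hδ x h2 h1) hq1 hp1 hq2 hp2 b a hgt haL hb ha

end Pool.Agent.H75.Perc
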