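import Mathlib
import Pool.Agent.H75.Perc.Ident
import Pool.Agent.H75.Perc.Orbit2

set_option autoImplicit false
open Finset

/-! Boundary corners on the loop of the corner `0` are the boundary corners of the vertices
connected to the vertex `0`. -/

namespace Pool.Agent.H75.Perc

/-- The vertex of a corner. -/
def vx (c : ℤ × ℤ) : ℤ × ℤ := (c.1 / 2, c.2 / 2)

/-- Adjacency through an open edge. -/
def Adj (ω : Finset (ℤ × ℤ)) (u v : ℤ × ℤ) : Prop :=
  ∃ e ∈ ω, (u = vx (in1 e) ∧ v = vx (in2 e)) ∨ (u = vx (in2 e) ∧ v = vx (in1 e))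

lemma vx_nxC (c : ℤ × ℤ) : vx (nxC c) = vx c := by
  obtain ⟨a, b⟩ := c
  unfold vx
  rcases ty_cases (a, b) with ⟨h0, h1, h2, h3, h4, h5⟩ | ⟨h0, h1, h2, h3, h4, h5⟩ |
    ⟨h0, h1, h2, h3, h4, h5⟩ | ⟨h0, h1, h2, h3, h4, h5⟩ <;> rw [h4] <;>
  simp only at h1 h2 ⊢ <;> refine Prod.ext ?_ ?_ <;> simp only <;> omega

lemma vx_nx (ω : Finset (ℤ × ℤ)) (c : ℤ × ℤ) :
    vx (nx ω c) = vx c ∨ Adj ω (vx c) (vx (nx ω c)) := by
  unfold nx
  by_cases hl : lab c ∈ ω
  · rw [if_pos hl]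
    right
    have hodd := lab_odd c
    rcases (lab_eq_iff (lab c) c hodd).1 rfl with h | h
    · have e1 : nxO c = nxC (in2 (lab c)) := by
        rw [← nxO_in1 _ hodd, ← h]
      rw [e1, vx_nxC]
      exact ⟨lab c, hl, Or.inl ⟨by rw [← h], rfl⟩⟩
    · have e1 : nxO c = nxC (in1 (lab c)) := by
        rw [← nxO_in2 _ hodd, ← h]
      rw [e1, vx_nxC]
      exact ⟨lab c, hl, Or.inr ⟨by rw [← h], rfl⟩⟩
  · rw [if_neg hl, vx_nxC]
    left; rfl

lemma vx_zero : vx 0 = 0 := by decide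

lemma loop_conn {ω : Finset (ℤ × ℤ)} {c : ℤ × ℤ} (h : InOrb (nx ω) 0 c) :
    Relation.ReflTransGen (Adj ω) 0 (vx c) := by
  obtain ⟨i, rfl⟩ := h
  induction i with
  | zero =>
    simp only [Function.iterate_zero, id_eq, vx_zero]
    exact Relation.ReflTransGen.refl
  | succ i ih =>
    rw [Function.iterate_succ_apply']
    rcases vx_nx ω ((nx ω)^[i] 0) with h | h
    · rw [h]; exact ih
    · exact ih.tail h

lemma quad (c c' : ℤ × ℤ) (h : vx c = vx c') : c' = c ∨ c' = nxC c ∨ c' = nxC (nxC c) ∨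
    c' = nxC (nxC (nxC c)) := by
  obtain ⟨a, b⟩ := c
  obtain ⟨a', b'⟩ := c'
  unfold vx at h
  simp only [Prod.mk.injEq] at h
  have h1 : a % 2 = 0 ∨ a % 2 = 1 := by omega
  have h2 : b % 2 = 0 ∨ b % 2 = 1 := by omega
  have h3 : a' % 2 = 0 ∨ a' % 2 = 1 := by omega
  have h4 : b' % 2 = 0 ∨ b' % 2 = 1 := by omega
  unfold nxC
  rcases h1 with h1 | h1 <;> rcases h2 with h2 | h2 <;>
  simp [h1, h2, Int.add_emod, Int.sub_emod] <;> omega

lemma iso_orbit {ω : Finset (ℤ × ℤ)} {u : ℤ × ℤ} (hu : ∀ c, vx c = u → lab c ∉ ω)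
    {c c' : ℤ × ℤ} (hc : vx c = u) (hc' : vx c' = u) : InOrb (nx ω) c c' := by
  have step : ∀ x, vx x = u → nx ω x = nxC x ∧ vx (nxC x) = u := by
    intro x hx
    refine ⟨?_, by rw [vx_nxC, hx]⟩
    unfold nx; rw [if_neg (hu x hx)]
  have s1 := step c hc
  have s2 := step _ s1.2
  have s3 := step _ s2.2
  rcases quad c c' (by rw [hc, hc']) with h | h | h | h
  · exact ⟨0, h.symm⟩
  · exact ⟨1, by rw [h, ← s1.1]; rfl⟩
  · refine ⟨2, ?_⟩
    rw [h, ← s2.1, ← s1.1]; rfl
  · refine ⟨3, ?_⟩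
    rw [h, ← s3.1, ← s2.1, ← s1.1]; rfl

lemma corner_in (c : ℤ × ℤ) : vx c = vx (in1 (lab c)) ∨ vx c = vx (in2 (lab c)) := by
  rcases (lab_eq_iff (lab c) c (lab_odd c)).1 rfl with h | h
  · left; rw [← h]
  · right; rw [← h]

/-- Exploration of the cluster along a tree. -/
lemma tree {w h : ℕ} {ω : Finset (ℤ × ℤ)} (hω : ω ⊆ EE w h) {v : ℤ × ℤ}
    (hv : Relation.ReflTransGen (Adj ω) 0 v) : ∃ ω' : Finset (ℤ × ℤ), ω' ⊆ ω ∧
      ∃ S : Finset (ℤ × ℤ), v ∈ S ∧ 0 ∈ S ∧ (∀ c, vx c ∈ S → InOrb (nx ω') 0 c) ∧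
      (∀ e ∈ ω', vx (in1 e) ∈ S ∧ vx (in2 e) ∈ S) := by
  classical
  induction hv with
  | refl =>
    refine ⟨∅, empty_subset _, {0}, by simp, by simp, ?_, by simp⟩
    intro c hc
    rw [mem_singleton] at hc
    exact iso_orbit (u := 0) (by simp) vx_zero hc
  | @tail b c _ hbc ih =>
    obtain ⟨ω', hsub, S, hb, h0, hall, hedge⟩ := ih
    by_cases hc : c ∈ S
    · exact ⟨ω', hsub, S, hc, h0, hall, hedge⟩
    obtain ⟨e, heω, he⟩ := hbc
    have heE := hω heω
    have hodd := (mem_EE.1 heE).2.2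
    have hen : e ∉ ω' := by
      intro h'
      have := hedge e h'
      rcases he with h1 | h1
      · exact hc (h1.2 ▸ this.2)
      · exact hc (h1.2 ▸ this.1)
    have hω' : ω' ⊆ EE w h := hsub.trans hω
    have hsw := swapped_insert ω' e hodd hen
    -- the loop stays over S
    have hstay : ∀ x, InOrb (nx ω') 0 x → vx x ∈ S := by
      rintro x ⟨i, rfl⟩
      induction i with
      | zero => simpa [vx_zero] using h0
      | succ i ih2 =>
        rw [Function.iterate_succ_apply']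
        rcases vx_nx ω' ((nx ω')^[i] 0) with h' | h'
        · rw [h']; exact ih2
        · obtain ⟨e', he', h2⟩ := h'
          rcases h2 with h2 | h2
          · rw [h2.2]; exact (hedge e' he').2
          · rw [h2.2]; exact (hedge e' he').1
    have hiso : ∀ x, vx x = c → lab x ∉ ω' := by
      intro x hx hl
      have := hedge _ hl
      rcases corner_in x with h' | h'
      · exact hc (by rw [← hx, h']; exact this.1)
      · exact hc (by rw [← hx, h']; exact this.2)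
    obtain ⟨L, hO⟩ := orb_exists hω' 0 (zero_mem_CC w h)
    have fin : ∀ p q, Swapped (nx ω') (nx (insert e ω')) p q → b = vx p → c = vx q →
        q ∈ CC w h → ∀ x, vx x ∈ insert c S → InOrb (nx (insert e ω')) 0 x := by
      intro p q hpq hbp hcq hqC x hx
      obtain ⟨M, hQ⟩ := orb_exists hω' q hqC
      obtain ⟨-, -, m3, m4⟩ := hpq.merge hO hQ (hall p (hbp ▸ hb)) (by
        intro h'; exact hc (hcq ▸ hstay q h'))
      rcases mem_insert.1 hx with h' | h'
      · exact m4 x (iso_orbit hiso hcq.symm h')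
      · exact m3 x (hall x h')
    refine ⟨insert e ω', ?_, insert c S, mem_insert_self _ _, mem_insert_of_mem h0, ?_, ?_⟩
    · intro x hx
      rcases mem_insert.1 hx with h' | h'
      · rw [h']; exact heω
      · exact hsub h'
    · rcases he with he | he
      · exact fin (in1 e) (in2 e) hsw he.1 he.2 (in2_mem heE)
      · exact fin (in2 e) (in1 e) hsw.comm he.1 he.2 (in1_mem heE)
    · intro e' he'
      rcases mem_insert.1 he' with h' | h'
      · rw [h']
        rcases he with he | he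
        · exact ⟨mem_insert_of_mem (he.1 ▸ hb), he.2 ▸ mem_insert_self _ _⟩
        · exact ⟨he.2 ▸ mem_insert_self _ _, mem_insert_of_mem (he.1 ▸ hb)⟩
      · exact ⟨mem_insert_of_mem (hedge e' h').1, mem_insert_of_mem (hedge e' h').2⟩

/-- A boundary corner stays on the loop when an edge is added. -/
lemma keep_step {w h : ℕ} {ω : Finset (ℤ × ℤ)} (hω : ω ⊆ EE w h) {e : ℤ × ℤ}
    (he : e ∈ EE w h) (hn : e ∉ ω) {c : ℤ × ℤ} (hc : c ∈ CC w h) (hl : lab c ∉ EE w h)
    (hin : InOrb (nx ω) 0 c) : InOrb (nx (insert e ω)) 0 c := by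
  have hodd := (mem_EE.1 he).2.2
  have hω' : insert e ω ⊆ EE w h := by
    intro x hx
    rcases mem_insert.1 hx with h1 | h1
    · rw [h1]; exact he
    · exact hω h1
  have hsw := swapped_insert ω e hodd hn
  obtain ⟨Mp, hMp⟩ := orb_exists hω (in1 e) (in1_mem he)
  obtain ⟨Mq, hMq⟩ := orb_exists hω (in2 e) (in2_mem he)
  have hO := orb_Lp hω
  have hO' := orb_Lp hω'
  by_cases hp : InOrb (nx ω) 0 (in1 e) <;> by_cases hq : InOrb (nx ω) 0 (in2 e)
  · have d1 : del ω (in1 e) = 1 := by unfold del; rw [lab_in1 e hodd, if_neg hn]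
    have d2 : del ω (in2 e) = 1 := by unfold del; rw [lab_in2 e hodd, if_neg hn]
    have d3 : del (insert e ω) (in1 e) = -1 := by
      unfold del; rw [lab_in1 e hodd, if_pos (mem_insert_self _ _)]
    have d4 : del (insert e ω) (in2 e) = -1 := by
      unfold del; rw [lab_in2 e hodd, if_pos (mem_insert_self _ _)]
    have hk0 : ty c % 4 = ty c := by
      rcases ty_cases c with h | h | h | h <;> rw [h.1] <;> norm_num
    rcases hsw.keep_or (nx_injective _) (in1_ne_in2 e) (e := 1) (del_off ω e hodd) d1 d2 d3 d4 0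
      hO hO' (by rw [total_Lp hω]; rfl) (by rw [total_Lp hω']; rfl) hp hq c hin (ty c)
      with h1 | ⟨M, h1, h2⟩
    · exact h1
    · exfalso
      have := turning_bdry hω' hc hl h1 (ty c) hk0
      rw [kk_eq_KK, h2] at this
      omega
  · exact (hsw.merge hO hMq hp hq).2.2.1 c hin
  · exact (hsw.comm.merge hO hMp hq hp).2.2.1 c hin
  · obtain ⟨i, hi⟩ := hin
    refine ⟨i, ?_⟩
    rw [hsw.agree 0 i (fun j _ => ⟨fun e' => hp ⟨j, e'⟩, fun e' => hq ⟨j, e'⟩⟩) i le_rfl, hi]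

lemma keep {w h : ℕ} {c : ℤ × ℤ} (hc : c ∈ CC w h) (hl : lab c ∉ EE w h)
    {ω : Finset (ℤ × ℤ)} (hin : InOrb (nx ω) 0 c) (T : Finset (ℤ × ℤ)) :
    ω ∪ T ⊆ EE w h → InOrb (nx (ω ∪ T)) 0 c := by
  classical
  induction T using Finset.induction_on with
  | empty => intro _; rw [union_empty]; exact hin
  | insert a T _ ih =>
    intro hsub
    rw [union_insert] at hsub ⊢
    have h1 := ih ((subset_insert _ _).trans hsub)
    by_cases ha : a ∈ ω ∪ T
    · rw [insert_eq_of_mem ha]; exact h1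
    · exact keep_step ((subset_insert _ _).trans hsub) (hsub (mem_insert_self _ _)) ha hc hl h1

/-- Loop membership of boundary corners is connectivity. -/
lemma loop_iff {w h : ℕ} {ω : Finset (ℤ × ℤ)} (hω : ω ⊆ EE w h) {c : ℤ × ℤ}
    (hc : c ∈ CC w h) (hl : lab c ∉ EE w h) :
    c ∈ loopC ω ↔ Relation.ReflTransGen (Adj ω) 0 (vx c) := by
  classical
  rw [mem_loopC hω]
  constructor
  · exact loop_conn
  · intro hv
    obtain ⟨ω', hsub, S, hv', h0, hall, hedge⟩ := tree hω hv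
    have := keep hc hl (hall c hv') ω (by rw [union_eq_right.2 hsub]; exact hω)
    rwa [union_eq_right.2 hsub] at this

end Pool.Agent.H75.Perc
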