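import Mathlib
import Pool.Agent.H75.Perc.Conn

set_option autoImplicit false
open Finset

/-! From sets of labels to spanning subgraphs of the grid graph. -/

namespace Pool.Agent.H75.Perc

/-- The grid graph with `m + 1` columns and `n + 1` rows. -/
def grid (m n : ℕ) : SimpleGraph (Fin (m + 1) × Fin (n + 1)) :=
  SimpleGraph.boxProd (SimpleGraph.pathGraph (m + 1)) (SimpleGraph.pathGraph (n + 1))

lemma grid_adj {m n : ℕ} (u v : Fin (m + 1) × Fin (n + 1)) : (grid m n).Adj u v ↔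
    ((u.1.val + 1 = v.1.val ∨ v.1.val + 1 = u.1.val) ∧ u.2.val = v.2.val) ∨
    ((u.2.val + 1 = v.2.val ∨ v.2.val + 1 = u.2.val) ∧ u.1.val = v.1.val) := by
  unfold grid
  rw [SimpleGraph.boxProd_adj, SimpleGraph.pathGraph_adj, SimpleGraph.pathGraph_adj]
  simp only [Fin.ext_iff]

/-- Coordinates. -/
def emb {m n : ℕ} (u : Fin (m + 1) × Fin (n + 1)) : ℤ × ℤ := ((u.1.val : ℤ), (u.2.val : ℤ))

lemma emb_injective {m n : ℕ} : Function.Injective (emb (m := m) (n := n)) := by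
  intro u v h
  unfold emb at h
  have h1 := congrArg Prod.fst h
  have h2 := congrArg Prod.snd h
  simp only at h1 h2
  refine Prod.ext (Fin.ext ?_) (Fin.ext ?_) <;> omega

lemma emb_sum_mem {m n : ℕ} (u v : Fin (m + 1) × Fin (n + 1)) (h : (grid m n).Adj u v) :
    emb u + emb v ∈ EE m n := by
  rw [grid_adj] at h
  rw [mem_EE]
  have := u.1.isLt
  have := u.2.isLt
  have := v.1.isLt
  have := v.2.isLt
  unfold emb
  simp only [Prod.fst_add, Prod.snd_add]
  omega

lemma vx_in1 (e : ℤ × ℤ) (he : (e.1 + e.2) % 2 = 1) :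
    (e.1 % 2 = 1 ∧ e.2 % 2 = 0 ∧ vx (in1 e) = ((e.1 - 1) / 2, e.2 / 2) ∧
      vx (in2 e) = ((e.1 + 1) / 2, e.2 / 2)) ∨
    (e.1 % 2 = 0 ∧ e.2 % 2 = 1 ∧ vx (in1 e) = (e.1 / 2, (e.2 + 1) / 2) ∧
      vx (in2 e) = (e.1 / 2, (e.2 - 1) / 2)) := by
  unfold in1 in2 vx
  by_cases h : e.1 % 2 = 1
  · left
    rw [if_pos h, if_pos h]
    refine ⟨by omega, by omega, Prod.ext ?_ ?_, Prod.ext ?_ ?_⟩ <;> simp only <;> omega
  · right
    rw [if_neg h, if_neg h]
    refine ⟨by omega, by omega, Prod.ext ?_ ?_, Prod.ext ?_ ?_⟩ <;> simp only <;> omega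

lemma adj_iff {m n : ℕ} {ω : Finset (ℤ × ℤ)} (hω : ω ⊆ EE m n)
    (u v : Fin (m + 1) × Fin (n + 1)) :
    Adj ω (emb u) (emb v) ↔ (grid m n).Adj u v ∧ emb u + emb v ∈ ω := by
  rw [grid_adj]
  constructor
  · rintro ⟨e, he, h⟩
    have heE := mem_EE.1 (hω he)
    have hs : emb u + emb v = e := by
      rcases vx_in1 e heE.2.2 with ⟨h1, h2, h3, h4⟩ | ⟨h1, h2, h3, h4⟩ <;>
      rcases h with ⟨h5, h6⟩ | ⟨h5, h6⟩ <;> rw [h5, h6, h3, h4] <;>
      refine Prod.ext ?_ ?_ <;> simp only [Prod.mk_add_mk] <;> omega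
    refine ⟨?_, by rw [hs]; exact he⟩
    unfold emb at h
    rcases vx_in1 e heE.2.2 with ⟨h1, h2, h3, h4⟩ | ⟨h1, h2, h3, h4⟩ <;>
    rcases h with ⟨h5, h6⟩ | ⟨h5, h6⟩ <;> rw [h3] at * <;> rw [h4] at * <;>
    simp only [Prod.mk.injEq] at h5 h6 <;> omega
  · rintro ⟨h1, h2⟩
    refine ⟨emb u + emb v, h2, ?_⟩
    have heE := mem_EE.1 (hω h2)
    generalize hg : emb u + emb v = e at *
    unfold emb at hg ⊢
    have g1 := congrArg Prod.fst hg
    have g2 := congrArg Prod.snd hg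
    simp only [Prod.mk_add_mk] at g1 g2
    rcases h1 with ⟨h1 | h1, h1'⟩ | ⟨h1 | h1, h1'⟩ <;>
    rcases vx_in1 e heE.2.2 with ⟨h3, h4, h5, h6⟩ | ⟨h3, h4, h5, h6⟩ <;>
    rw [h5, h6] <;> simp only [Prod.mk.injEq] <;>
    first
      | (exfalso; omega)
      | exact Or.inl ⟨⟨by omega, by omega⟩, by omega, by omega⟩
      | exact Or.inr ⟨⟨by omega, by omega⟩, by omega, by omega⟩

/-- The spanning subgraph of the grid with the set `ω` of open edges. -/
def Hof (m n : ℕ) (ω : Finset (ℤ × ℤ)) : SimpleGraph (Fin (m + 1) × Fin (n + 1)) where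
  Adj u v := (grid m n).Adj u v ∧ emb u + emb v ∈ ω
  symm := ⟨fun u v h => ⟨h.1.symm, by rw [add_comm]; exact h.2⟩⟩
  loopless := ⟨fun u h => (grid m n).loopless.irrefl u h.1⟩

lemma Hof_le (m n : ℕ) (ω : Finset (ℤ × ℤ)) : Hof m n ω ≤ grid m n := fun _ _ h => h.1

lemma endpoint {m n : ℕ} {e : ℤ × ℤ} (he : e ∈ EE m n) : ∃ u v : Fin (m + 1) × Fin (n + 1),
    emb u = vx (in1 e) ∧ emb v = vx (in2 e) := by
  have h := mem_EE.1 he
  have key : ∀ z : ℤ × ℤ, 0 ≤ z.1 → z.1 ≤ m → 0 ≤ z.2 → z.2 ≤ n →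
      ∃ u : Fin (m + 1) × Fin (n + 1), emb u = z := by
    intro z h1 h2 h3 h4
    refine ⟨(⟨z.1.toNat, by omega⟩, ⟨z.2.toNat, by omega⟩), ?_⟩
    unfold emb
    refine Prod.ext ?_ ?_ <;> simp only <;> omega
  rcases vx_in1 e h.2.2 with ⟨h3, h4, h5, h6⟩ | ⟨h3, h4, h5, h6⟩
  · obtain ⟨u, hu⟩ := key (vx (in1 e)) (by rw [h5]; simp only; omega) (by rw [h5]; simp only; omega)
      (by rw [h5]; simp only; omega) (by rw [h5]; simp only; omega)
    obtain ⟨v, hv⟩ := key (vx (in2 e)) (by rw [h6]; simp only; omega) (by rw [h6]; simp only; omega)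
      (by rw [h6]; simp only; omega) (by rw [h6]; simp only; omega)
    exact ⟨u, v, hu, hv⟩
  · obtain ⟨u, hu⟩ := key (vx (in1 e)) (by rw [h5]; simp only; omega) (by rw [h5]; simp only; omega)
      (by rw [h5]; simp only; omega) (by rw [h5]; simp only; omega)
    obtain ⟨v, hv⟩ := key (vx (in2 e)) (by rw [h6]; simp only; omega) (by rw [h6]; simp only; omega)
      (by rw [h6]; simp only; omega) (by rw [h6]; simp only; omega)
    exact ⟨u, v, hu, hv⟩

lemma emb_zero {m n : ℕ} : emb ((0, 0) : Fin (m + 1) × Fin (n + 1)) = 0 := by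
  unfold emb; simp

lemma reach_iff {m n : ℕ} {ω : Finset (ℤ × ℤ)} (hω : ω ⊆ EE m n)
    (v : Fin (m + 1) × Fin (n + 1)) :
    (Hof m n ω).Reachable (0, 0) v ↔ Relation.ReflTransGen (Adj ω) 0 (emb v) := by
  rw [SimpleGraph.reachable_iff_reflTransGen]
  constructor
  · intro h
    have := Relation.ReflTransGen.lift (p := Adj ω) emb (fun a b (hab : (Hof m n ω).Adj a b) =>
      (adj_iff hω a b).2 hab) _ _ h
    rwa [Function.onFun, emb_zero] at this
  · intro h
    have key : ∀ z, Relation.ReflTransGen (Adj ω) 0 z → ∃ v : Fin (m + 1) × Fin (n + 1),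
        emb v = z ∧ Relation.ReflTransGen (Hof m n ω).Adj (0, 0) v := by
      intro z hz
      induction hz with
      | refl => exact ⟨(0, 0), emb_zero, Relation.ReflTransGen.refl⟩
      | @tail b c _ hbc ih =>
        obtain ⟨vb, hvb, hr⟩ := ih
        obtain ⟨e, he, h'⟩ := id hbc
        obtain ⟨u1, v1, hu1, hv1⟩ := endpoint (hω he)
        rcases h' with ⟨h5, h6⟩ | ⟨h5, h6⟩
        · refine ⟨v1, by rw [hv1, h6], hr.tail ?_⟩
          apply (adj_iff hω vb v1).1
          rw [hvb, hv1, ← h6]; exact hbc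
        · refine ⟨u1, by rw [hu1, h6], hr.tail ?_⟩
          apply (adj_iff hω vb u1).1
          rw [hvb, hu1, ← h6]; exact hbc
    obtain ⟨v', hv', hr⟩ := key _ h
    rw [emb_injective hv'] at hr
    exact hr

lemma Hof_injOn (m n : ℕ) : Set.InjOn (Hof m n) ((EE m n).powerset : Set (Finset (ℤ × ℤ))) := by
  intro ω hω ω' hω' h
  have h1 : ω ⊆ EE m n := mem_powerset.1 (mem_coe.1 hω)
  have h2 : ω' ⊆ EE m n := mem_powerset.1 (mem_coe.1 hω')
  have key : ∀ e ∈ EE m n, e ∈ ω ↔ e ∈ ω' := by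
    intro e he
    obtain ⟨u, v, hu, hv⟩ := endpoint he
    have hodd := (mem_EE.1 he).2.2
    have hs : emb u + emb v = e := by
      rw [hu, hv]
      rcases vx_in1 e hodd with ⟨h1, h2, h3, h4⟩ | ⟨h1, h2, h3, h4⟩ <;> rw [h3, h4] <;>
      refine Prod.ext ?_ ?_ <;> simp only [Prod.mk_add_mk] <;> omega
    have hadj : (grid m n).Adj u v := by
      have : Adj {e} (emb u) (emb v) := ⟨e, mem_singleton_self e, Or.inl ⟨hu, hv⟩⟩
      exact ((adj_iff (by simpa using he) u v).1 this).1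
    have e1 : (Hof m n ω).Adj u v ↔ (Hof m n ω').Adj u v := by rw [h]
    simp only [Hof, hs, hadj, true_and] at e1
    exact e1
  ext e
  constructor
  · intro he; exact (key e (h1 he)).1 he
  · intro he; exact (key e (h2 he)).2 he

lemma Hof_surj {m n : ℕ} (H : SimpleGraph (Fin (m + 1) × Fin (n + 1))) (hH : H ≤ grid m n) :
    ∃ ω ∈ (EE m n).powerset, Hof m n ω = H := by
  classical
  refine ⟨(EE m n).filter (fun e => ∃ u v, H.Adj u v ∧ emb u + emb v = e),
    mem_powerset.2 (filter_subset _ _), ?_⟩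
  ext u v
  simp only [Hof, mem_filter]
  constructor
  · rintro ⟨h1, h2, u', v', h3, h4⟩
    have g1 := congrArg Prod.fst h4
    have g2 := congrArg Prod.snd h4
    simp only [emb, Prod.mk_add_mk] at g1 g2
    have h5 := (grid_adj u' v').1 (hH h3)
    have h6 := (grid_adj u v).1 h1
    have : (u = u' ∧ v = v') ∨ (u = v' ∧ v = u') := by
      simp only [Prod.ext_iff, Fin.ext_iff]
      omega
    rcases this with ⟨h7, h8⟩ | ⟨h7, h8⟩
    · rw [h7, h8]; exact h3
    · rw [h7, h8]; exact h3.symm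
  · intro h
    exact ⟨hH h, emb_sum_mem u v (hH h), u, v, h, rfl⟩

/-- Number of configurations in which the corner `c` is on the loop. -/
noncomputable def NC (m n : ℕ) (c : ℤ × ℤ) : ℕ :=
  ((EE m n).powerset.filter (fun ω => c ∈ loopC ω)).card

lemma count_conn {m n : ℕ} (v : Fin (m + 1) × Fin (n + 1)) (c : ℤ × ℤ) (hc : c ∈ CC m n)
    (hl : lab c ∉ EE m n) (hv : vx c = emb v) :
    {H : SimpleGraph (Fin (m + 1) × Fin (n + 1)) | H ≤ grid m n ∧ H.Reachable (0, 0) v}.ncard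
      = NC m n c := by
  have h1 : {H : SimpleGraph (Fin (m + 1) × Fin (n + 1)) |
      H ≤ grid m n ∧ H.Reachable (0, 0) v} = Hof m n ''
        ((EE m n).powerset.filter (fun ω => c ∈ loopC ω) : Finset (Finset (ℤ × ℤ))) := by
    ext H
    simp only [Set.mem_ofPred_eq, Set.mem_image, mem_coe, mem_filter]
    constructor
    · rintro ⟨hH, hr⟩
      obtain ⟨ω, hω, rfl⟩ := Hof_surj H hH
      refine ⟨ω, ⟨hω, ?_⟩, rfl⟩
      rw [loop_iff (mem_powerset.1 hω) hc hl, hv]
      exact (reach_iff (mem_powerset.1 hω) v).1 hr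
    · rintro ⟨ω, ⟨hω, hloop⟩, rfl⟩
      refine ⟨Hof_le m n ω, ?_⟩
      rw [reach_iff (mem_powerset.1 hω) v, ← hv]
      exact (loop_iff (mem_powerset.1 hω) hc hl).1 hloop
  rw [h1, Set.InjOn.ncard_image, Set.ncard_coe_finset]
  · rfl
  · refine (Hof_injOn m n).mono ?_
    intro ω hω
    exact mem_coe.2 (mem_filter.1 (mem_coe.1 hω)).1

lemma count_all (m n : ℕ) :
    {H : SimpleGraph (Fin (m + 1) × Fin (n + 1)) | H ≤ grid m n}.ncard
      = (EE m n).powerset.card := by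
  have h1 : {H : SimpleGraph (Fin (m + 1) × Fin (n + 1)) | H ≤ grid m n} = Hof m n ''
        ((EE m n).powerset : Finset (Finset (ℤ × ℤ))) := by
    ext H
    simp only [Set.mem_ofPred_eq, Set.mem_image, mem_coe]
    constructor
    · intro hH
      obtain ⟨ω, hω, rfl⟩ := Hof_surj H hH
      exact ⟨ω, hω, rfl⟩
    · rintro ⟨ω, hω, rfl⟩
      exact Hof_le m n ω
  rw [h1, (Hof_injOn m n).ncard_image, Set.ncard_coe_finset]

/-- The sum over the boundary corners, side by side. -/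
lemma sum_BB (m n : ℕ) (g : ℤ → ℤ) (F : ℤ × ℤ → ℤ) :
    ∑ c ∈ BB m n, g (ty c) * F c =
      g 0 * ∑ x : Fin (m + 1), F (2 * (x : ℤ), 0) +
      g 1 * ∑ y : Fin (n + 1), F (2 * (m : ℤ) + 1, 2 * (y : ℤ)) +
      g 2 * ∑ x : Fin (m + 1), F (2 * (x : ℤ) + 1, 2 * (n : ℤ) + 1) +
      g 3 * ∑ y : Fin (n + 1), F (0, 2 * (y : ℤ) + 1) := by
  classical
  have hmaps : ∀ c ∈ BB m n, ty c ∈ ({0, 1, 2, 3} : Finset ℤ) := by
    intro c _
    rcases ty_cases c with h | h | h | h <;> rw [h.1] <;> simp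
  rw [← Finset.sum_fiberwise_of_maps_to hmaps]
  have hfib : ∀ k : ℤ, ∑ c ∈ BB m n with ty c = k, g (ty c) * F c =
      g k * ∑ c ∈ BB m n with ty c = k, F c := by
    intro k
    rw [Finset.mul_sum]
    apply Finset.sum_congr rfl
    intro c hc
    rw [(mem_filter.1 hc).2]
  rw [Finset.sum_congr rfl (fun k _ => hfib k)]
  have s0 : ∑ c ∈ BB m n with ty c = 0, F c = ∑ x : Fin (m + 1), F (2 * (x : ℤ), 0) := by
    symm
    apply Finset.sum_bij (fun (x : Fin (m + 1)) _ => ((2 * (x : ℤ), 0) : ℤ × ℤ))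
    · intro x _
      have := x.isLt
      rw [mem_filter, BB, mem_filter, mem_CC]
      have hty : ty (2 * (x : ℤ), 0) = 0 := by unfold ty; simp
      refine ⟨⟨⟨⟨by simp only; omega, by simp only; omega⟩, ⟨by simp only; omega, by simp only; omega⟩⟩, ?_⟩, hty⟩
      rw [mem_EE]; unfold lab; simp
    · intro x _ y _ hxy
      have := congrArg Prod.fst hxy
      simp only at this
      exact Fin.ext (by omega)
    · intro c hc
      rw [mem_filter, BB, mem_filter] at hc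
      obtain ⟨⟨hc1, hc2⟩, hc3⟩ := hc
      have hb := bdry_cases hc1 hc2
      rw [mem_CC] at hc1
      have ht := ty_cases c
      refine ⟨⟨(c.1 / 2).toNat, by omega⟩, mem_univ _, ?_⟩
      refine Prod.ext ?_ ?_ <;> simp only <;> omega
    · intro x _; rfl
  have s1 : ∑ c ∈ BB m n with ty c = 1, F c =
      ∑ y : Fin (n + 1), F (2 * (m : ℤ) + 1, 2 * (y : ℤ)) := by
    symm
    apply Finset.sum_bij (fun (y : Fin (n + 1)) _ => ((2 * (m : ℤ) + 1, 2 * (y : ℤ)) : ℤ × ℤ))
    · intro x _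
      have := x.isLt
      rw [mem_filter, BB, mem_filter, mem_CC]
      have hty : ty (2 * (m : ℤ) + 1, 2 * (x : ℤ)) = 1 := by
        unfold ty; simp [Int.add_emod]
      refine ⟨⟨⟨⟨by simp only; omega, by simp only; omega⟩, ⟨by simp only; omega, by simp only; omega⟩⟩, ?_⟩, hty⟩
      rw [mem_EE]; unfold lab; simp [Int.add_emod]
    · intro x _ y _ hxy
      have := congrArg Prod.snd hxy
      simp only at this
      exact Fin.ext (by omega)
    · intro c hc
      rw [mem_filter, BB, mem_filter] at hc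
      obtain ⟨⟨hc1, hc2⟩, hc3⟩ := hc
      have hb := bdry_cases hc1 hc2
      rw [mem_CC] at hc1
      have ht := ty_cases c
      refine ⟨⟨(c.2 / 2).toNat, by omega⟩, mem_univ _, ?_⟩
      refine Prod.ext ?_ ?_ <;> simp only <;> omega
    · intro x _; rfl
  have s2 : ∑ c ∈ BB m n with ty c = 2, F c =
      ∑ x : Fin (m + 1), F (2 * (x : ℤ) + 1, 2 * (n : ℤ) + 1) := by
    symm
    apply Finset.sum_bij
      (fun (x : Fin (m + 1)) _ => ((2 * (x : ℤ) + 1, 2 * (n : ℤ) + 1) : ℤ × ℤ))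
    · intro x _
      have := x.isLt
      rw [mem_filter, BB, mem_filter, mem_CC]
      have hty : ty (2 * (x : ℤ) + 1, 2 * (n : ℤ) + 1) = 2 := by
        unfold ty; simp [Int.add_emod]
      refine ⟨⟨⟨⟨by simp only; omega, by simp only; omega⟩, ⟨by simp only; omega, by simp only; omega⟩⟩, ?_⟩, hty⟩
      rw [mem_EE]; unfold lab; simp [Int.add_emod]
    · intro x _ y _ hxy
      have := congrArg Prod.fst hxy
      simp only at this
      exact Fin.ext (by omega)
    · intro c hc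
      rw [mem_filter, BB, mem_filter] at hc
      obtain ⟨⟨hc1, hc2⟩, hc3⟩ := hc
      have hb := bdry_cases hc1 hc2
      rw [mem_CC] at hc1
      have ht := ty_cases c
      refine ⟨⟨(c.1 / 2).toNat, by omega⟩, mem_univ _, ?_⟩
      refine Prod.ext ?_ ?_ <;> simp only <;> omega
    · intro x _; rfl
  have s3 : ∑ c ∈ BB m n with ty c = 3, F c = ∑ y : Fin (n + 1), F (0, 2 * (y : ℤ) + 1) := by
    symm
    apply Finset.sum_bij (fun (y : Fin (n + 1)) _ => ((0, 2 * (y : ℤ) + 1) : ℤ × ℤ))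
    · intro x _
      have := x.isLt
      rw [mem_filter, BB, mem_filter, mem_CC]
      have hty : ty (0, 2 * (x : ℤ) + 1) = 3 := by
        unfold ty; simp [Int.add_emod]
      refine ⟨⟨⟨⟨by simp only; omega, by simp only; omega⟩, ⟨by simp only; omega, by simp only; omega⟩⟩, ?_⟩, hty⟩
      rw [mem_EE]; unfold lab; simp [Int.add_emod]
    · intro x _ y _ hxy
      have := congrArg Prod.snd hxy
      simp only at this
      exact Fin.ext (by omega)
    · intro c hc
      rw [mem_filter, BB, mem_filter] at hc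
      obtain ⟨⟨hc1, hc2⟩, hc3⟩ := hc
      have hb := bdry_cases hc1 hc2
      rw [mem_CC] at hc1
      have ht := ty_cases c
      refine ⟨⟨(c.2 / 2).toNat, by omega⟩, mem_univ _, ?_⟩
      refine Prod.ext ?_ ?_ <;> simp only <;> omega
    · intro x _; rfl
  rw [Finset.sum_insert (by simp), Finset.sum_insert (by simp), Finset.sum_insert (by simp),
    Finset.sum_singleton, s0, s1, s2, s3]
  ring

end Pool.Agent.H75.Perc
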