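import Mathlib
import Pool.Agent.H75.Perc.Graph

set_option autoImplicit false
open Finset

/-! Connection events, exits from boxes, shifts. -/

namespace Pool.Agent.H75.Perc

/-- Connection in the configuration `ω`. -/
def Cn (ω : Finset (ℤ × ℤ)) (u v : ℤ × ℤ) : Prop := Relation.ReflTransGen (Adj ω) u v

lemma Adj.symm' {ω : Finset (ℤ × ℤ)} {u v : ℤ × ℤ} (h : Adj ω u v) : Adj ω v u := by
  obtain ⟨e, he, h⟩ := h
  rcases h with ⟨h1, h2⟩ | ⟨h1, h2⟩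
  · exact ⟨e, he, Or.inr ⟨h2, h1⟩⟩
  · exact ⟨e, he, Or.inl ⟨h2, h1⟩⟩

lemma Adj.mono {ω ω' : Finset (ℤ × ℤ)} (h : ω ⊆ ω') {u v : ℤ × ℤ} (ha : Adj ω u v) :
    Adj ω' u v := by
  obtain ⟨e, he, h'⟩ := ha
  exact ⟨e, h he, h'⟩

lemma Cn.refl (ω : Finset (ℤ × ℤ)) (u : ℤ × ℤ) : Cn ω u u := Relation.ReflTransGen.refl

lemma Cn.trans {ω : Finset (ℤ × ℤ)} {u v w : ℤ × ℤ} (h1 : Cn ω u v) (h2 : Cn ω v w) :
    Cn ω u w := Relation.ReflTransGen.trans h1 h2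

lemma Cn.symm {ω : Finset (ℤ × ℤ)} {u v : ℤ × ℤ} (h : Cn ω u v) : Cn ω v u := by
  induction h with
  | refl => exact Cn.refl _ _
  | tail _ hbc ih => exact Relation.ReflTransGen.head hbc.symm' ih

lemma Cn.mono {ω ω' : Finset (ℤ × ℤ)} (h : ω ⊆ ω') {u v : ℤ × ℤ} (hc : Cn ω u v) :
    Cn ω' u v := by
  induction hc with
  | refl => exact Cn.refl _ _
  | tail _ hbc ih => exact Relation.ReflTransGen.tail ih (hbc.mono h)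

/-- The edges of `ω` with both ends in `X`. -/
noncomputable def inside (ω : Finset (ℤ × ℤ)) (X : Set (ℤ × ℤ)) : Finset (ℤ × ℤ) :=
  @Finset.filter _ (fun e => vx (in1 e) ∈ X ∧ vx (in2 e) ∈ X) (Classical.decPred _) ω

lemma mem_inside {ω : Finset (ℤ × ℤ)} {X : Set (ℤ × ℤ)} {e : ℤ × ℤ} :
    e ∈ inside ω X ↔ e ∈ ω ∧ vx (in1 e) ∈ X ∧ vx (in2 e) ∈ X := by
  unfold inside
  exact @mem_filter _ _ (Classical.decPred _) _ _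

lemma adj_inside {ω : Finset (ℤ × ℤ)} {X : Set (ℤ × ℤ)} {u v : ℤ × ℤ} (h : Adj ω u v)
    (hu : u ∈ X) (hv : v ∈ X) : Adj (inside ω X) u v := by
  obtain ⟨e, he, h⟩ := h
  rcases h with ⟨h1, h2⟩ | ⟨h1, h2⟩
  · exact ⟨e, mem_inside.2 ⟨he, h1 ▸ hu, h2 ▸ hv⟩, Or.inl ⟨h1, h2⟩⟩
  · exact ⟨e, mem_inside.2 ⟨he, h2 ▸ hv, h1 ▸ hu⟩, Or.inr ⟨h1, h2⟩⟩

/-- A path from `u ∈ X` to `v ∉ X` leaves `X` for the first time somewhere. -/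
lemma exit_set {ω : Finset (ℤ × ℤ)} {X : Set (ℤ × ℤ)} {u v : ℤ × ℤ} (h : Cn ω u v) (hu : u ∈ X)
    (hv : v ∉ X) : ∃ z ∈ X, ∃ z', z' ∉ X ∧ Adj ω z z' ∧ Cn (inside ω X) u z := by
  have key : ∀ v, Cn ω u v → (v ∈ X ∧ Cn (inside ω X) u v) ∨
      ∃ z ∈ X, ∃ z', z' ∉ X ∧ Adj ω z z' ∧ Cn (inside ω X) u z := by
    intro v hv
    induction hv with
    | refl => exact Or.inl ⟨hu, Cn.refl _ _⟩
    | @tail b c _ hbc ih =>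
      rcases ih with ⟨h1, h2⟩ | h1
      · by_cases hc : c ∈ X
        · exact Or.inl ⟨hc, Relation.ReflTransGen.tail h2 (adj_inside hbc h1 hc)⟩
        · exact Or.inr ⟨b, h1, c, hc, hbc, h2⟩
      · exact Or.inr h1
  rcases key v h with ⟨h1, _⟩ | h1
  · exact absurd h1 hv
  · exact h1

/-- The two ends of an edge. -/
lemma ends {m n : ℕ} {e : ℤ × ℤ} (he : e ∈ EE m n) {u v : ℤ × ℤ}
    (h : (u = vx (in1 e) ∧ v = vx (in2 e)) ∨ (u = vx (in2 e) ∧ v = vx (in1 e))) :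
    u.1 + v.1 = e.1 ∧ u.2 + v.2 = e.2 ∧
    ((u.2 = v.2 ∧ (u.1 = v.1 + 1 ∨ v.1 = u.1 + 1)) ∨ (u.1 = v.1 ∧ (u.2 = v.2 + 1 ∨ v.2 = u.2 + 1)))
    ∧ (0 ≤ u.1 ∧ u.1 ≤ m ∧ 0 ≤ u.2 ∧ u.2 ≤ n) ∧ (0 ≤ v.1 ∧ v.1 ≤ m ∧ 0 ≤ v.2 ∧ v.2 ≤ n) := by
  have h1 := mem_EE.1 he
  obtain ⟨⟨a1, a2⟩, ⟨a3, a4⟩, a5⟩ := h1
  obtain ⟨u1, u2⟩ := u
  obtain ⟨v1, v2⟩ := v
  rcases vx_in1 e a5 with ⟨h3, h4, h5, h6⟩ | ⟨h3, h4, h5, h6⟩ <;> rw [h5, h6] at h <;>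
  simp only [Prod.mk.injEq] at h <;> simp only <;> omega

lemma adj_ends {m n : ℕ} {ω : Finset (ℤ × ℤ)} (hω : ω ⊆ EE m n) {u v : ℤ × ℤ}
    (h : Adj ω u v) :
    ((u.2 = v.2 ∧ (u.1 = v.1 + 1 ∨ v.1 = u.1 + 1)) ∨ (u.1 = v.1 ∧ (u.2 = v.2 + 1 ∨ v.2 = u.2 + 1)))
    ∧ (0 ≤ u.1 ∧ u.1 ≤ m ∧ 0 ≤ u.2 ∧ u.2 ≤ n) ∧ (0 ≤ v.1 ∧ v.1 ≤ m ∧ 0 ≤ v.2 ∧ v.2 ≤ n) := by
  obtain ⟨e, he, h⟩ := h
  exact (ends (hω he) h).2.2

lemma sum_ends {e : ℤ × ℤ} (he : (e.1 + e.2) % 2 = 1) :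
    (vx (in1 e)).1 + (vx (in2 e)).1 = e.1 ∧ (vx (in1 e)).2 + (vx (in2 e)).2 = e.2 := by
  rcases vx_in1 e he with ⟨h3, h4, h5, h6⟩ | ⟨h3, h4, h5, h6⟩ <;> rw [h5, h6] <;> simp only <;>
  omega

/-- Shift of the labels by twice a vector. -/
def sh (t : ℤ × ℤ) : (ℤ × ℤ) ↪ (ℤ × ℤ) where
  toFun e := (e.1 + 2 * t.1, e.2 + 2 * t.2)
  inj' := by
    intro a b h
    have h1 := congrArg Prod.fst h
    have h2 := congrArg Prod.snd h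
    simp only at h1 h2
    exact Prod.ext (by omega) (by omega)

lemma sh_apply (t e : ℤ × ℤ) : sh t e = (e.1 + 2 * t.1, e.2 + 2 * t.2) := rfl

lemma vx_in1_sh (t e : ℤ × ℤ) : vx (in1 (sh t e)) = vx (in1 e) + t := by
  unfold in1 vx
  rw [sh_apply]
  have : (e.1 + 2 * t.1) % 2 = e.1 % 2 := by omega
  simp only [this]
  split_ifs <;> refine Prod.ext ?_ ?_ <;> simp only [Prod.fst_add, Prod.snd_add] <;> omega

lemma vx_in2_sh (t e : ℤ × ℤ) : vx (in2 (sh t e)) = vx (in2 e) + t := by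
  unfold in2 vx
  rw [sh_apply]
  have : (e.1 + 2 * t.1) % 2 = e.1 % 2 := by omega
  simp only [this]
  split_ifs <;> refine Prod.ext ?_ ?_ <;> simp only [Prod.fst_add, Prod.snd_add] <;> omega

lemma adj_sh (t : ℤ × ℤ) (ω : Finset (ℤ × ℤ)) (u v : ℤ × ℤ) :
    Adj (ω.map (sh t)) u v ↔ Adj ω (u - t) (v - t) := by
  constructor
  · rintro ⟨e, he, h⟩
    obtain ⟨e', he', rfl⟩ := mem_map.1 he
    rw [vx_in1_sh, vx_in2_sh] at h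
    refine ⟨e', he', ?_⟩
    rcases h with ⟨h1, h2⟩ | ⟨h1, h2⟩
    · left; rw [h1, h2]; simp
    · right; rw [h1, h2]; simp
  · rintro ⟨e, he, h⟩
    refine ⟨sh t e, mem_map_of_mem _ he, ?_⟩
    rw [vx_in1_sh, vx_in2_sh]
    rcases h with ⟨h1, h2⟩ | ⟨h1, h2⟩
    · left; rw [← h1, ← h2]; simp
    · right; rw [← h1, ← h2]; simp

lemma cn_sh (t : ℤ × ℤ) (ω : Finset (ℤ × ℤ)) (u v : ℤ × ℤ) :
    Cn (ω.map (sh t)) u v ↔ Cn ω (u - t) (v - t) := by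
  constructor
  · intro h
    induction h with
    | refl => exact Cn.refl _ _
    | tail _ hbc ih => exact Relation.ReflTransGen.tail ih ((adj_sh t ω _ _).1 hbc)
  · intro h
    have key : ∀ z, Cn ω (u - t) z → Cn (ω.map (sh t)) u (z + t) := by
      intro z hz
      induction hz with
      | refl => rw [sub_add_cancel]; exact Cn.refl _ _
      | tail _ hbc ih =>
        refine Relation.ReflTransGen.tail ih ((adj_sh t ω _ _).2 ?_)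
        simpa using hbc
    have := key _ h
    rwa [sub_add_cancel] at this

end Pool.Agent.H75.Perc
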