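import Mathlib
import Pool.Agent.H75.Perc.Hopf

set_option autoImplicit false
open Finset

/-! Crossing lemma: a path with steps of sup-norm at most one from the left side to the right side
of a box meets every lattice path from the bottom side to the top side. -/

namespace Pool.Agent.H75.Perc

/-- Sup-norm at most one. -/
def King (u : ℤ × ℤ) : Prop := (-1 ≤ u.1 ∧ u.1 ≤ 1) ∧ (-1 ≤ u.2 ∧ u.2 ≤ 1)

lemma IsUnit4.king {u : ℤ × ℤ} (h : IsUnit4 u) : King u := by
  rcases h with h | h | h | h <;> subst h <;> unfold King <;> norm_num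

/-- Signed change of direction class. -/
def DK (z z' : ℤ × ℤ) : ℤ :=
  if 5 ≤ cl z' - cl z then cl z' - cl z - 8 else
    if cl z' - cl z ≤ -5 then cl z' - cl z + 8 else cl z' - cl z

lemma DK_spec (z z' : ℤ × ℤ) (hu : King (z' - z)) (hz : z ≠ 0) (hz' : z' ≠ 0) :
    (-2 ≤ DK z z' ∧ DK z z' ≤ 2) ∧ ∃ m : ℤ, DK z z' - (cl z' - cl z) = 8 * m := by
  unfold King at hu
  simp only [Prod.fst_sub, Prod.snd_sub] at hu
  have c1 := cl_cases z hz
  have c2 := cl_cases z' hz'
  unfold DK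
  split_ifs with h1 h2
  · refine ⟨?_, ⟨-1, by ring⟩⟩
    rcases c1 with c1 | c1 | c1 | c1 | c1 | c1 | c1 | c1 <;>
    rcases c2 with c2 | c2 | c2 | c2 | c2 | c2 | c2 | c2 <;> omega
  · refine ⟨?_, ⟨1, by ring⟩⟩
    rcases c1 with c1 | c1 | c1 | c1 | c1 | c1 | c1 | c1 <;>
    rcases c2 with c2 | c2 | c2 | c2 | c2 | c2 | c2 | c2 <;> omega
  · refine ⟨?_, ⟨0, by ring⟩⟩
    rcases c1 with c1 | c1 | c1 | c1 | c1 | c1 | c1 | c1 <;>
    rcases c2 with c2 | c2 | c2 | c2 | c2 | c2 | c2 | c2 <;> omega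

lemma DK_unit (z z' : ℤ × ℤ) (hu : IsUnit4 (z' - z)) (hz : z ≠ 0) (hz' : z' ≠ 0) :
    -1 ≤ DK z z' ∧ DK z z' ≤ 1 := by
  have hu' := isUnit4_iff hu
  simp only [Prod.fst_sub, Prod.snd_sub] at hu'
  have c1 := cl_cases z hz
  have c2 := cl_cases z' hz'
  unfold DK
  split_ifs with h1 h2 <;>
  rcases c1 with c1 | c1 | c1 | c1 | c1 | c1 | c1 | c1 <;>
  rcases c2 with c2 | c2 | c2 | c2 | c2 | c2 | c2 | c2 <;> omega

/-- The square relation. -/
lemma squareK (a b c d : ℤ × ℤ) (ha : a ≠ 0) (hb : b ≠ 0) (hc : c ≠ 0) (hd : d ≠ 0)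
    (hab : IsUnit4 (b - a)) (hbd : King (d - b)) (hac : King (c - a))
    (hcd : IsUnit4 (d - c)) : DK a b + DK b d = DK a c + DK c d := by
  obtain ⟨h1, m1, e1⟩ := DK_spec a b hab.king ha hb
  obtain ⟨h2, m2, e2⟩ := DK_spec b d hbd hb hd
  obtain ⟨h3, m3, e3⟩ := DK_spec a c hac ha hc
  obtain ⟨h4, m4, e4⟩ := DK_spec c d hcd.king hc hd
  have h5 := DK_unit a b hab ha hb
  have h6 := DK_unit c d hcd hc hd
  omega

/-- A region with a consistent lift of the class. -/
def WinK (H : ℤ × ℤ → Prop) (lam : ℤ × ℤ → ℤ) : Prop :=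
  ∀ z z' : ℤ × ℤ, z ≠ 0 → z' ≠ 0 → King (z' - z) → H z → H z' → DK z z' = lam z' - lam z

lemma winK_N : WinK (fun z => 0 ≤ z.2) cl := by
  intro z z' hz hz' hu h h'
  unfold King at hu
  simp only [Prod.fst_sub, Prod.snd_sub] at hu
  have c1 := cl_cases z hz
  have c2 := cl_cases z' hz'
  unfold DK
  split_ifs with h1 h2 <;>
  rcases c1 with c1 | c1 | c1 | c1 | c1 | c1 | c1 | c1 <;>
  rcases c2 with c2 | c2 | c2 | c2 | c2 | c2 | c2 | c2 <;> omega

lemma winK_W : WinK (fun z => z.1 ≤ 0) cl := by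
  intro z z' hz hz' hu h h'
  unfold King at hu
  simp only [Prod.fst_sub, Prod.snd_sub] at hu
  have c1 := cl_cases z hz
  have c2 := cl_cases z' hz'
  unfold DK
  split_ifs with h1 h2 <;>
  rcases c1 with c1 | c1 | c1 | c1 | c1 | c1 | c1 | c1 <;>
  rcases c2 with c2 | c2 | c2 | c2 | c2 | c2 | c2 | c2 <;> omega

lemma winK_E : WinK (fun z => 0 ≤ z.1) lamE := by
  intro z z' hz hz' hu h h'
  unfold King at hu
  simp only [Prod.fst_sub, Prod.snd_sub] at hu
  have c1 := cl_cases z hz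
  have c2 := cl_cases z' hz'
  unfold DK lamE
  split_ifs with h1 h2 <;>
  rcases c1 with c1 | c1 | c1 | c1 | c1 | c1 | c1 | c1 <;>
  rcases c2 with c2 | c2 | c2 | c2 | c2 | c2 | c2 | c2 <;> omega

lemma winK_S : WinK (fun z => z.2 ≤ 0) lamS := by
  intro z z' hz hz' hu h h'
  unfold King at hu
  simp only [Prod.fst_sub, Prod.snd_sub] at hu
  have c1 := cl_cases z hz
  have c2 := cl_cases z' hz'
  unfold DK lamS
  split_ifs with h1 h2 <;>
  rcases c1 with c1 | c1 | c1 | c1 | c1 | c1 | c1 | c1 <;>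
  rcases c2 with c2 | c2 | c2 | c2 | c2 | c2 | c2 | c2 <;> omega

lemma win_sum {H : ℤ × ℤ → Prop} {lam : ℤ × ℤ → ℤ} (hW : WinK H lam) (f : ℕ → ℤ × ℤ) (n : ℕ)
    (h0 : ∀ i ≤ n, f i ≠ 0) (hk : ∀ i < n, King (f (i + 1) - f i)) (hH : ∀ i ≤ n, H (f i)) :
    ∑ i ∈ range n, DK (f i) (f (i + 1)) = lam (f n) - lam (f 0) := by
  rw [← Finset.sum_range_sub (fun i => lam (f i)) n]
  apply Finset.sum_congr rfl
  intro i hi
  rw [mem_range] at hi
  exact hW _ _ (h0 i (by omega)) (h0 (i + 1) (by omega)) (hk i hi) (hH i (by omega))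
    (hH (i + 1) (by omega))

/-- Crossing lemma for sequences. -/
theorem cross_seq (P Q : ℕ → ℤ × ℤ) (m l : ℕ) (a b c d : ℤ)
    (hP : ∀ i < m, King (P (i + 1) - P i)) (hQ : ∀ j < l, IsUnit4 (Q (j + 1) - Q j))
    (hP0 : (P 0).1 = a) (hPm : (P m).1 = b) (hQ0 : (Q 0).2 = c) (hQl : (Q l).2 = d)
    (hPb : ∀ i ≤ m, c ≤ (P i).2 ∧ (P i).2 ≤ d) (hQb : ∀ j ≤ l, a ≤ (Q j).1 ∧ (Q j).1 ≤ b) :
    ∃ i ≤ m, ∃ j ≤ l, P i = Q j := by
  by_contra hcon
  push Not at hcon
  have hne : ∀ i ≤ m, ∀ j ≤ l, Q j - P i ≠ 0 := by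
    intro i hi j hj h
    exact hcon i hi j hj (sub_eq_zero.1 h).symm
  have hKP : ∀ j, ∀ i < m, King ((Q j - P (i + 1)) - (Q j - P i)) := by
    intro j i hi
    have := hP i hi
    have e : (Q j - P (i + 1)) - (Q j - P i) = -(P (i + 1) - P i) := by abel
    rw [e]
    unfold King at this ⊢
    simp only [Prod.fst_neg, Prod.snd_neg]
    omega
  have hUQ : ∀ i, ∀ j < l, IsUnit4 ((Q (j + 1) - P i) - (Q j - P i)) := by
    intro i j hj
    have e : (Q (j + 1) - P i) - (Q j - P i) = Q (j + 1) - Q j := by abel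
    rw [e]; exact hQ j hj
  have row : ∀ i < m, ∀ n ≤ l,
      ∑ j ∈ range n, DK (Q j - P (i + 1)) (Q (j + 1) - P (i + 1)) -
        ∑ j ∈ range n, DK (Q j - P i) (Q (j + 1) - P i) =
      DK (Q n - P i) (Q n - P (i + 1)) - DK (Q 0 - P i) (Q 0 - P (i + 1)) := by
    intro i hi n
    induction n with
    | zero => intro _; simp
    | succ n ih =>
      intro hn
      have ih' := ih (by omega)
      rw [Finset.sum_range_succ, Finset.sum_range_succ]
      have sq := squareK (Q n - P i) (Q (n + 1) - P i) (Q n - P (i + 1)) (Q (n + 1) - P (i + 1))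
        (hne i (by omega) n (by omega)) (hne i (by omega) (n + 1) hn)
        (hne (i + 1) (by omega) n (by omega)) (hne (i + 1) (by omega) (n + 1) hn)
        (hUQ i n (by omega)) (hKP (n + 1) i hi) (hKP n i hi) (hUQ (i + 1) n (by omega))
      linarith
  have tot : ∀ k ≤ m, ∑ j ∈ range l, DK (Q j - P k) (Q (j + 1) - P k) -
        ∑ j ∈ range l, DK (Q j - P 0) (Q (j + 1) - P 0) =
      ∑ i ∈ range k, DK (Q l - P i) (Q l - P (i + 1)) -
        ∑ i ∈ range k, DK (Q 0 - P i) (Q 0 - P (i + 1)) := by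
    intro k
    induction k with
    | zero => intro _; simp
    | succ k ih =>
      intro hk
      have ih' := ih (by omega)
      have r := row k (by omega) l le_rfl
      rw [Finset.sum_range_succ, Finset.sum_range_succ]
      linarith
  have T := tot m le_rfl
  have s1 := win_sum winK_E (fun j => Q j - P 0) l (fun j hj => hne 0 (by omega) j hj)
    (fun j hj => (hUQ 0 j hj).king) (fun j hj => by
      simp only [Prod.fst_sub]; have := hQb j hj; omega)
  have s2 := win_sum winK_W (fun j => Q j - P m) l (fun j hj => hne m le_rfl j hj)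
    (fun j hj => (hUQ m j hj).king) (fun j hj => by
      simp only [Prod.fst_sub]; have := hQb j hj; omega)
  have s3 := win_sum winK_N (fun i => Q l - P i) m (fun i hi => hne i hi l le_rfl)
    (fun i hi => hKP l i hi) (fun i hi => by
      simp only [Prod.snd_sub]; have := hPb i hi; omega)
  have s4 := win_sum winK_S (fun i => Q 0 - P i) m (fun i hi => hne i hi 0 (by omega))
    (fun i hi => hKP 0 i hi) (fun i hi => by
      simp only [Prod.snd_sub]; have := hPb i hi; omega)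
  rw [s1, s2, s3, s4] at T
  have c00 := cl_cases _ (hne 0 (by omega) 0 (by omega))
  have c0l := cl_cases _ (hne 0 (by omega) l le_rfl)
  have cm0 := cl_cases _ (hne m le_rfl 0 (by omega))
  simp only [Prod.fst_sub, Prod.snd_sub] at c00 c0l cm0
  have b1 := hPb 0 (by omega)
  have b2 := hPb m le_rfl
  have b3 := hQb 0 (by omega)
  have b4 := hQb l le_rfl
  have e1 : lamE (Q l - P 0) = cl (Q l - P 0) := by
    unfold lamE; rw [if_neg]; omega
  have e2 : lamS (Q 0 - P m) = cl (Q 0 - P m) - 8 := by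
    unfold lamS; rw [if_pos]; omega
  have e3 : lamE (Q 0 - P 0) = lamS (Q 0 - P 0) := by
    unfold lamE lamS; split_ifs <;> omega
  omega

/-- Sequence of a chain of relations. -/
lemma exists_seq {α : Type*} {r : α → α → Prop} {u v : α} (h : Relation.ReflTransGen r u v) :
    ∃ (m : ℕ) (f : ℕ → α), f 0 = u ∧ f m = v ∧ ∀ i < m, r (f i) (f (i + 1)) := by
  induction h with
  | refl => exact ⟨0, fun _ => u, rfl, rfl, fun i hi => absurd hi (by omega)⟩
  | @tail b c _ hbc ih =>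
    obtain ⟨m, f, h0, hm, hs⟩ := ih
    refine ⟨m + 1, fun i => if i ≤ m then f i else c, by simp [h0], by simp, ?_⟩
    intro i hi
    by_cases him : i = m
    · subst him; simp [hm, hbc]
    · have h1 : i ≤ m := by omega
      have h2 : i + 1 ≤ m := by omega
      simp only [h1, h2, if_true]
      exact hs i (by omega)

/-- Crossing lemma for sets. -/
theorem cross_set {A B : ℤ × ℤ → Prop} {a b c d : ℤ} {p q r s : ℤ × ℤ}
    (hP : Relation.ReflTransGen (fun u v => King (v - u) ∧ A v) p q) (hp : A p)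
    (hQ : Relation.ReflTransGen (fun u v => IsUnit4 (v - u) ∧ B v) r s) (hr : B r)
    (hA : ∀ z, A z → c ≤ z.2 ∧ z.2 ≤ d) (hB : ∀ z, B z → a ≤ z.1 ∧ z.1 ≤ b)
    (hp1 : p.1 = a) (hq1 : q.1 = b) (hr2 : r.2 = c) (hs2 : s.2 = d) :
    ∃ z, A z ∧ B z := by
  obtain ⟨m, P, hP0, hPm, hPs⟩ := exists_seq hP
  obtain ⟨l, Q, hQ0, hQl, hQs⟩ := exists_seq hQ
  have hAP : ∀ i ≤ m, A (P i) := by
    intro i hi
    rcases Nat.eq_zero_or_pos i with h | h
    · rw [h, hP0]; exact hp
    · have := (hPs (i - 1) (by omega)).2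
      rwa [show i - 1 + 1 = i by omega] at this
  have hBQ : ∀ i ≤ l, B (Q i) := by
    intro i hi
    rcases Nat.eq_zero_or_pos i with h | h
    · rw [h, hQ0]; exact hr
    · have := (hQs (i - 1) (by omega)).2
      rwa [show i - 1 + 1 = i by omega] at this
  obtain ⟨i, hi, j, hj, hij⟩ := cross_seq P Q m l a b c d (fun i hi => (hPs i hi).1)
    (fun j hj => (hQs j hj).1) (by rw [hP0, hp1]) (by rw [hPm, hq1]) (by rw [hQ0, hr2])
    (by rw [hQl, hs2]) (fun i hi => hA _ (hAP i hi)) (fun j hj => hB _ (hBQ j hj))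
  exact ⟨P i, hAP i hi, hij ▸ hBQ j hj⟩

end Pool.Agent.H75.Perc
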