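import Mathlib

set_option autoImplicit false
open Finset

/-! Uniform random subsets of a finite set. -/

namespace Pool.Agent.H75.Perc

set_option linter.unusedSectionVars false

variable {α : Type*} [DecidableEq α]

open Classical in
/-- Probability that a uniformly random subset of `E` has the property `A`. -/
noncomputable def Pr (E : Finset α) (A : Finset α → Prop) : ℝ :=
  ((E.powerset.filter A).card : ℝ) / 2 ^ E.card

lemma Pr_eq (E : Finset α) (A : Finset α → Prop) [inst : DecidablePred A] :
    Pr E A = ((E.powerset.filter A).card : ℝ) / 2 ^ E.card := by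
  unfold Pr
  obtain rfl : inst = fun a => Classical.propDecidable (A a) := Subsingleton.elim _ _
  rfl

lemma Pr_nonneg (E : Finset α) (A : Finset α → Prop) : 0 ≤ Pr E A := by
  unfold Pr; positivity

lemma Pr_mono {E : Finset α} {A B : Finset α → Prop} (h : ∀ ω, ω ⊆ E → A ω → B ω) :
    Pr E A ≤ Pr E B := by
  classical
  unfold Pr
  apply div_le_div_of_nonneg_right _ (by positivity)
  norm_cast
  apply card_le_card
  intro ω hω
  rw [mem_filter, mem_powerset] at hω ⊢
  exact ⟨hω.1, h ω hω.1 hω.2⟩

lemma Pr_congr {E : Finset α} {A B : Finset α → Prop} (h : ∀ ω, ω ⊆ E → (A ω ↔ B ω)) :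
    Pr E A = Pr E B :=
  le_antisymm (Pr_mono fun ω hω => (h ω hω).1) (Pr_mono fun ω hω => (h ω hω).2)

lemma Pr_le_one (E : Finset α) (A : Finset α → Prop) : Pr E A ≤ 1 := by
  classical
  unfold Pr
  rw [div_le_one (by positivity)]
  have : (E.powerset.filter A).card ≤ E.powerset.card := card_filter_le _ _
  rw [card_powerset] at this
  exact_mod_cast this

lemma Pr_true (E : Finset α) : Pr E (fun _ => True) = 1 := by
  classical
  unfold Pr
  rw [filter_true, card_powerset]
  push_cast
  exact div_self (by positivity)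

lemma Pr_or_le (E : Finset α) (A B : Finset α → Prop) :
    Pr E (fun ω => A ω ∨ B ω) ≤ Pr E A + Pr E B := by
  classical
  rw [Pr_eq, Pr_eq, Pr_eq, ← add_div]
  apply div_le_div_of_nonneg_right _ (by positivity)
  norm_cast
  rw [filter_or]
  exact card_union_le _ _

/-- Independence of the traces on complementary sets. -/
lemma Pr_split {E E1 : Finset α} (h : E1 ⊆ E) (A B : Finset α → Prop) :
    Pr E (fun ω => A (ω ∩ E1) ∧ B (ω \ E1)) = Pr E1 A * Pr (E \ E1) B := by
  classical
  rw [Pr_eq, Pr_eq, Pr_eq]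
  have hc : (E.powerset.filter (fun ω => A (ω ∩ E1) ∧ B (ω \ E1))).card =
      (E1.powerset.filter A).card * ((E \ E1).powerset.filter B).card := by
    rw [← card_product]
    apply card_nbij' (fun ω => (ω ∩ E1, ω \ E1)) (fun p => p.1 ∪ p.2)
    · intro ω hω
      rw [mem_coe, mem_filter, mem_powerset] at hω
      rw [mem_coe, mem_product, mem_filter, mem_filter, mem_powerset, mem_powerset]
      refine ⟨⟨inter_subset_right, hω.2.1⟩, ⟨?_, hω.2.2⟩⟩
      exact sdiff_subset_sdiff hω.1 (subset_refl _)
    · intro p hp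
      rw [mem_coe, mem_product, mem_filter, mem_filter, mem_powerset, mem_powerset] at hp
      obtain ⟨⟨h1, h2⟩, h3, h4⟩ := hp
      have hd : ∀ x ∈ p.2, x ∉ E1 := fun x hx => (mem_sdiff.1 (h3 hx)).2
      have e1 : (p.1 ∪ p.2) ∩ E1 = p.1 := by
        ext x
        rw [mem_inter, mem_union]
        constructor
        · rintro ⟨h5 | h5, h6⟩
          · exact h5
          · exact absurd h6 (hd x h5)
        · intro h5; exact ⟨Or.inl h5, h1 h5⟩
      have e2 : (p.1 ∪ p.2) \ E1 = p.2 := by
        ext x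
        rw [mem_sdiff, mem_union]
        constructor
        · rintro ⟨h5 | h5, h6⟩
          · exact absurd (h1 h5) h6
          · exact h5
        · intro h5; exact ⟨Or.inr h5, hd x h5⟩
      rw [mem_coe, mem_filter, mem_powerset, e1, e2]
      refine ⟨union_subset (h1.trans h) (h3.trans sdiff_subset), h2, h4⟩
    · intro ω _
      simp only
      ext x
      rw [mem_union, mem_inter, mem_sdiff]
      tauto
    · intro p hp
      rw [mem_coe, mem_product, mem_filter, mem_filter, mem_powerset, mem_powerset] at hp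
      obtain ⟨⟨h1, h2⟩, h3, h4⟩ := hp
      have hd : ∀ x ∈ p.2, x ∉ E1 := fun x hx => (mem_sdiff.1 (h3 hx)).2
      refine Prod.ext ?_ ?_
      · simp only
        ext x
        rw [mem_inter, mem_union]
        constructor
        · rintro ⟨h5 | h5, h6⟩
          · exact h5
          · exact absurd h6 (hd x h5)
        · intro h5; exact ⟨Or.inl h5, h1 h5⟩
      · simp only
        ext x
        rw [mem_sdiff, mem_union]
        constructor
        · rintro ⟨h5 | h5, h6⟩
          · exact absurd (h1 h5) h6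
          · exact h5
        · intro h5; exact ⟨Or.inr h5, hd x h5⟩
  have hcard : E.card = E1.card + (E \ E1).card := by
    rw [card_sdiff_of_subset h]
    have := card_le_card h
    omega
  have hp : (2 : ℝ) ^ E.card = 2 ^ E1.card * 2 ^ (E \ E1).card := by rw [← pow_add, ← hcard]
  rw [hc, hp]
  push_cast
  rw [mul_div_mul_comm]

/-- Restriction. -/
lemma Pr_restrict {E E1 : Finset α} (h : E1 ⊆ E) (A : Finset α → Prop) :
    Pr E (fun ω => A (ω ∩ E1)) = Pr E1 A := by
  have := Pr_split h A (fun _ => True)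
  rw [Pr_true, mul_one] at this
  rw [← this]
  exact Pr_congr fun ω _ => by simp

/-- Independence of the traces on disjoint sets. -/
lemma Pr_indep {E E1 E2 : Finset α} (h1 : E1 ⊆ E) (h2 : E2 ⊆ E) (hd : Disjoint E1 E2)
    (A B : Finset α → Prop) :
    Pr E (fun ω => A (ω ∩ E1) ∧ B (ω ∩ E2)) = Pr E1 A * Pr E2 B := by
  have h3 : E2 ⊆ E \ E1 := by
    intro x hx
    rw [mem_sdiff]
    exact ⟨h2 hx, fun h' => (disjoint_left.1 hd) h' hx⟩
  rw [← Pr_restrict h3 B, ← Pr_split h1 A (fun ω => B (ω ∩ E2))]
  apply Pr_congr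
  intro ω _
  have : ω \ E1 ∩ E2 = ω ∩ E2 := by
    ext x
    rw [mem_inter, mem_sdiff, mem_inter]
    constructor
    · rintro ⟨⟨h4, _⟩, h5⟩; exact ⟨h4, h5⟩
    · rintro ⟨h4, h5⟩
      exact ⟨⟨h4, fun h' => (disjoint_left.1 hd) h' h5⟩, h5⟩
  rw [this]

/-- Increasing events. -/
def Inc (A : Finset α → Prop) : Prop := ∀ ω ω', ω ⊆ ω' → A ω → A ω'

lemma Pr_inc {E E1 : Finset α} (h : E1 ⊆ E) {A : Finset α → Prop} (hA : Inc A) :
    Pr E1 A ≤ Pr E A := by
  rw [← Pr_restrict h A]
  exact Pr_mono fun ω _ h1 => hA _ _ inter_subset_left h1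

/-- Harris inequality. -/
lemma Pr_harris (E : Finset α) {A B : Finset α → Prop} (hA : Inc A) (hB : Inc B) :
    Pr E A * Pr E B ≤ Pr E (fun ω => A ω ∧ B ω) := by
  classical
  -- work on the subtype
  let φ : Finset {x // x ∈ E} → Finset α := fun s => s.map (Function.Embedding.subtype _)
  have hφ : Function.Injective φ := map_injective _
  have hφE : ∀ s, φ s ⊆ E := by
    intro s x hx
    simp only [φ, mem_map, Function.Embedding.coe_subtype] at hx
    obtain ⟨y, _, rfl⟩ := hx
    exact y.2
  have hφmono : ∀ s t, s ⊆ t → φ s ⊆ φ t := fun s t h => map_subset_map.2 h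
  have hcount : ∀ (C : Finset α → Prop) [DecidablePred C] [DecidablePred (fun s => C (φ s))],
      (E.powerset.filter C).card = (univ.filter (fun s => C (φ s))).card := by
    intro C _ _
    symm
    rw [← card_map ⟨φ, hφ⟩]
    congr 1
    ext ω
    simp only [mem_map, mem_filter, mem_univ, true_and, Function.Embedding.coeFn_mk, mem_powerset]
    constructor
    · rintro ⟨s, hs, rfl⟩; exact ⟨hφE s, hs⟩
    · rintro ⟨h1, h2⟩
      have he : φ (ω.subtype (fun x => x ∈ E)) = ω := by
        simp only [φ]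
        rw [subtype_map]
        exact filter_true_of_mem fun x hx => h1 hx
      refine ⟨ω.subtype (fun x => x ∈ E), ?_, he⟩
      rw [he]; exact h2
  have hU : ∀ C : Finset α → Prop, Inc C →
      IsUpperSet ((univ.filter (fun s => C (φ s)) : Finset (Finset {x // x ∈ E})) :
        Set (Finset {x // x ∈ E})) := by
    intro C hC s t hst hs
    rw [mem_coe, mem_filter] at hs ⊢
    exact ⟨mem_univ _, hC _ _ (hφmono s t hst) hs.2⟩
  have key := IsUpperSet.le_card_inter_finset (hU A hA) (hU B hB)
  rw [← filter_and, ← hcount A, ← hcount B, ← hcount (fun ω => A ω ∧ B ω), Fintype.card_coe]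
    at key
  rw [Pr_eq, Pr_eq, Pr_eq]
  have h2 : (0 : ℝ) < 2 ^ E.card := by positivity
  rw [div_mul_div_comm, div_le_div_iff₀ (by positivity) h2]
  have key' : ((E.powerset.filter A).card : ℝ) * ((E.powerset.filter B).card : ℝ) ≤
      2 ^ E.card * ((E.powerset.filter (fun ω => A ω ∧ B ω)).card : ℝ) := by exact_mod_cast key
  nlinarith

/-- Transport along an injective map. -/
lemma Pr_map {β : Type*} [DecidableEq β] (f : α ↪ β) (E : Finset α) (A : Finset β → Prop) :
    Pr (E.map f) A = Pr E (fun ω => A (ω.map f)) := by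
  classical
  unfold Pr
  rw [card_map]
  congr 2
  symm
  apply card_nbij (fun ω => ω.map f)
  · intro ω hω
    rw [mem_coe, mem_filter, mem_powerset] at hω ⊢
    exact ⟨map_subset_map.2 hω.1, hω.2⟩
  · intro ω _ ω' _ h
    exact map_injective f h
  · intro ω hω
    rw [mem_coe, mem_filter, mem_powerset] at hω
    have hex : ∃ ω', ω' ⊆ E ∧ ω = ω'.map f := by
      refine ⟨E.filter (fun x => f x ∈ ω), filter_subset _ _, ?_⟩
      ext y
      rw [mem_map]
      constructor
      · intro hy
        obtain ⟨x, hx, rfl⟩ := mem_map.1 (hω.1 hy)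
        exact ⟨x, mem_filter.2 ⟨hx, hy⟩, rfl⟩
      · rintro ⟨x, hx, rfl⟩
        exact (mem_filter.1 hx).2
    obtain ⟨ω', h1, rfl⟩ := hex
    exact ⟨ω', by rw [mem_coe, mem_filter, mem_powerset]; exact ⟨h1, hω.2⟩, rfl⟩

end Pool.Agent.H75.Perc
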