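import Mathlib
import Pool.Agent.H75.Perc.Cross
import Pool.Agent.H75.Perc.Prob

set_option autoImplicit false
open Finset

/-! Connections in rectangles, crossings, symmetries, monotonicity and gluing. -/

namespace Pool.Agent.H75.Perc

/-- Open adjacency: neighbouring vertices with the label `u + v` of their edge in `ω`. -/
def Ad (ω : Finset (ℤ × ℤ)) (u v : ℤ × ℤ) : Prop := IsUnit4 (v - u) ∧ u + v ∈ ω

/-- Open connection. -/
def Co (ω : Finset (ℤ × ℤ)) (u v : ℤ × ℤ) : Prop := Relation.ReflTransGen (Ad ω) u v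

lemma Ad.symm {ω : Finset (ℤ × ℤ)} {u v : ℤ × ℤ} (h : Ad ω u v) : Ad ω v u := by
  refine ⟨?_, by rw [add_comm]; exact h.2⟩
  have := isUnit4_neg h.1
  rwa [neg_sub] at this

lemma Ad.mono {ω ω' : Finset (ℤ × ℤ)} (h : ω ⊆ ω') {u v : ℤ × ℤ} (ha : Ad ω u v) :
    Ad ω' u v := ⟨ha.1, h ha.2⟩

lemma Co.refl (ω : Finset (ℤ × ℤ)) (u : ℤ × ℤ) : Co ω u u := Relation.ReflTransGen.refl

lemma Co.trans {ω : Finset (ℤ × ℤ)} {u v w : ℤ × ℤ} (h1 : Co ω u v) (h2 : Co ω v w) :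
    Co ω u w := Relation.ReflTransGen.trans h1 h2

lemma Co.symm {ω : Finset (ℤ × ℤ)} {u v : ℤ × ℤ} (h : Co ω u v) : Co ω v u := by
  induction h with
  | refl => exact Co.refl _ _
  | tail _ hbc ih => exact Relation.ReflTransGen.head hbc.symm ih

lemma Co.mono {ω ω' : Finset (ℤ × ℤ)} (h : ω ⊆ ω') {u v : ℤ × ℤ} (hc : Co ω u v) :
    Co ω' u v := by
  induction hc with
  | refl => exact Co.refl _ _
  | tail _ hbc ih => exact Relation.ReflTransGen.tail ih (hbc.mono h)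

/-- Labels of the edges of the rectangle `[a,b] × [c,d]`. -/
noncomputable def Bx (a b c d : ℤ) : Finset (ℤ × ℤ) :=
  ((Icc (2 * a) (2 * b)) ×ˢ (Icc (2 * c) (2 * d))).filter (fun l => (l.1 + l.2) % 2 = 1)

lemma mem_Bx {a b c d : ℤ} {l : ℤ × ℤ} : l ∈ Bx a b c d ↔
    (2 * a ≤ l.1 ∧ l.1 ≤ 2 * b) ∧ (2 * c ≤ l.2 ∧ l.2 ≤ 2 * d) ∧ (l.1 + l.2) % 2 = 1 := by
  unfold Bx; simp only [mem_filter, mem_product, mem_Icc]; tauto

/-- Vertices of the rectangle. -/
def inB (a b c d : ℤ) (v : ℤ × ℤ) : Prop := (a ≤ v.1 ∧ v.1 ≤ b) ∧ (c ≤ v.2 ∧ v.2 ≤ d)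

lemma unit_cases {u v : ℤ × ℤ} (h : IsUnit4 (v - u)) : (v.1 = u.1 + 1 ∧ v.2 = u.2) ∨
    (v.1 = u.1 ∧ v.2 = u.2 + 1) ∨ (v.1 = u.1 - 1 ∧ v.2 = u.2) ∨ (v.1 = u.1 ∧ v.2 = u.2 - 1) := by
  have := isUnit4_iff h
  simp only [Prod.fst_sub, Prod.snd_sub] at this
  omega

lemma Ad.inB {ω : Finset (ℤ × ℤ)} {a b c d : ℤ} (hω : ω ⊆ Bx a b c d) {u v : ℤ × ℤ}
    (h : Ad ω u v) : inB a b c d u ∧ inB a b c d v := by
  have h1 := unit_cases h.1
  have h2 := mem_Bx.1 (hω h.2)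
  simp only [Prod.fst_add, Prod.snd_add] at h2
  unfold Perc.inB
  omega

lemma add_mem_Bx {a b c d : ℤ} {u v : ℤ × ℤ} (h : IsUnit4 (v - u)) (hu : inB a b c d u)
    (hv : inB a b c d v) : u + v ∈ Bx a b c d := by
  have h1 := unit_cases h
  rw [mem_Bx]
  unfold inB at hu hv
  simp only [Prod.fst_add, Prod.snd_add]
  omega

lemma Co.inB {ω : Finset (ℤ × ℤ)} {a b c d : ℤ} (hω : ω ⊆ Bx a b c d) {u v : ℤ × ℤ}
    (hu : Perc.inB a b c d u) (h : Co ω u v) : Perc.inB a b c d v := by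
  induction h with
  | refl => exact hu
  | tail _ hbc _ => exact (hbc.inB hω).2

/-- Crossing lemma for connections in a rectangle. -/
lemma cross_co {a b c d : ℤ} {ω1 ω2 : Finset (ℤ × ℤ)} (h1 : ω1 ⊆ Bx a b c d)
    (h2 : ω2 ⊆ Bx a b c d) {p q r s : ℤ × ℤ} (hp : inB a b c d p) (hr : inB a b c d r)
    (hpq : Co ω1 p q) (hrs : Co ω2 r s) (hp1 : p.1 = a) (hq1 : q.1 = b) (hr2 : r.2 = c)
    (hs2 : s.2 = d) : ∃ z, Co ω1 p z ∧ Co ω2 r z := by
  have hP : ∀ q, Co ω1 p q →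
      Relation.ReflTransGen (fun u v => King (v - u) ∧ Co ω1 p v) p q := by
    intro q hq
    induction hq with
    | refl => exact Relation.ReflTransGen.refl
    | tail hab hbc ih =>
      exact Relation.ReflTransGen.tail ih ⟨hbc.1.king, Relation.ReflTransGen.tail hab hbc⟩
  have hQ : ∀ s, Co ω2 r s →
      Relation.ReflTransGen (fun u v => IsUnit4 (v - u) ∧ Co ω2 r v) r s := by
    intro s hs
    induction hs with
    | refl => exact Relation.ReflTransGen.refl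
    | tail hab hbc ih =>
      exact Relation.ReflTransGen.tail ih ⟨hbc.1, Relation.ReflTransGen.tail hab hbc⟩
  exact cross_set (hP q hpq) (Co.refl _ _) (hQ s hrs) (Co.refl _ _) (fun z hz => (hz.inB h1 hp).2)
    (fun z hz => (hz.inB h2 hr).1) hp1 hq1 hr2 hs2

/-- A connection inside `X`. -/
def CoX (ω : Finset (ℤ × ℤ)) (X : ℤ × ℤ → Prop) (u v : ℤ × ℤ) : Prop :=
  Relation.ReflTransGen (fun a b => Ad ω a b ∧ X b) u v

lemma CoX.co {ω : Finset (ℤ × ℤ)} {X : ℤ × ℤ → Prop} {u v : ℤ × ℤ} (h : CoX ω X u v) :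
    Co ω u v := by
  induction h with
  | refl => exact Co.refl _ _
  | tail _ hbc ih => exact Relation.ReflTransGen.tail ih hbc.1

lemma CoX.mem {ω : Finset (ℤ × ℤ)} {X : ℤ × ℤ → Prop} {u v : ℤ × ℤ} (h : CoX ω X u v)
    (hu : X u) : X v := by
  induction h with
  | refl => exact hu
  | tail _ hbc _ => exact hbc.2

lemma CoX.box {ω : Finset (ℤ × ℤ)} {a b c d : ℤ} {X : ℤ × ℤ → Prop}
    (hX : ∀ z, X z → inB a b c d z) {u v : ℤ × ℤ} (h : CoX ω X u v) (hu : X u) :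
    Co (ω ∩ Bx a b c d) u v := by
  induction h with
  | refl => exact Co.refl _ _
  | @tail y z hab hbc ih =>
    refine Relation.ReflTransGen.tail ih ⟨hbc.1.1, mem_inter.2 ⟨hbc.1.2, ?_⟩⟩
    exact add_mem_Bx hbc.1.1 (hX _ (CoX.mem (X := X) hab hu)) (hX _ hbc.2)

/-- First exit from a set. -/
lemma exit_co {ω : Finset (ℤ × ℤ)} {X : ℤ × ℤ → Prop} {u v : ℤ × ℤ} (h : Co ω u v) (hu : X u)
    (hv : ¬ X v) : ∃ z z', X z ∧ ¬ X z' ∧ Ad ω z z' ∧ CoX ω X u z ∧ Co ω u z' := by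
  have key : ∀ v, Co ω u v → (X v ∧ CoX ω X u v) ∨
      ∃ z z', X z ∧ ¬ X z' ∧ Ad ω z z' ∧ CoX ω X u z ∧ Co ω u z' := by
    intro v hv
    induction hv with
    | refl => exact Or.inl ⟨hu, Relation.ReflTransGen.refl⟩
    | @tail b c hab hbc ih =>
      rcases ih with ⟨h1, h2⟩ | h1
      · by_cases hc : X c
        · exact Or.inl ⟨hc, Relation.ReflTransGen.tail h2 ⟨hbc, hc⟩⟩
        · exact Or.inr ⟨b, c, h1, hc, hbc, h2, Relation.ReflTransGen.tail hab hbc⟩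
      · exact Or.inr h1
  rcases key v h with ⟨h1, _⟩ | h1
  · exact absurd h1 hv
  · exact h1

/-- Horizontal crossing of a rectangle. -/
def HC (a b c d : ℤ) (ω : Finset (ℤ × ℤ)) : Prop :=
  ∃ p q, inB a b c d p ∧ p.1 = a ∧ q.1 = b ∧ Co (ω ∩ Bx a b c d) p q

/-- Vertical crossing of a rectangle. -/
def VC (a b c d : ℤ) (ω : Finset (ℤ × ℤ)) : Prop :=
  ∃ p q, inB a b c d p ∧ p.2 = c ∧ q.2 = d ∧ Co (ω ∩ Bx a b c d) p q

lemma HC_inc (a b c d : ℤ) : Inc (HC a b c d) := by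
  rintro ω ω' h ⟨p, q, h1, h2, h3, h4⟩
  exact ⟨p, q, h1, h2, h3, h4.mono (inter_subset_inter_right h)⟩

lemma VC_inc (a b c d : ℤ) : Inc (VC a b c d) := by
  rintro ω ω' h ⟨p, q, h1, h2, h3, h4⟩
  exact ⟨p, q, h1, h2, h3, h4.mono (inter_subset_inter_right h)⟩

lemma Bx_sub {a b c d a' b' c' d' : ℤ} (h1 : a' ≤ a) (h2 : b ≤ b') (h3 : c' ≤ c) (h4 : d ≤ d') :
    Bx a b c d ⊆ Bx a' b' c' d' := by
  intro e he
  rw [mem_Bx] at he ⊢
  omega

/-- Lattice symmetries. -/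
structure Sy where
  g : ℤ × ℤ → ℤ × ℤ
  g' : ℤ × ℤ → ℤ × ℤ
  G : (ℤ × ℤ) ↪ (ℤ × ℤ)
  G' : ℤ × ℤ → ℤ × ℤ
  gg' : ∀ u, g (g' u) = u
  g'g : ∀ u, g' (g u) = u
  GG' : ∀ e, G (G' e) = e
  add : ∀ u v, g u + g v = G (u + v)
  unit : ∀ u v, IsUnit4 (v - u) ↔ IsUnit4 (g v - g u)

lemma Sy.mem_map (S : Sy) (ω : Finset (ℤ × ℤ)) (e : ℤ × ℤ) : e ∈ ω.map S.G ↔ S.G' e ∈ ω := by
  rw [Finset.mem_map]
  constructor
  · rintro ⟨x, hx, rfl⟩
    have : S.G' (S.G x) = x := S.G.injective (S.GG' _)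
    rwa [this]
  · intro h; exact ⟨S.G' e, h, S.GG' e⟩

lemma Sy.ad_iff (S : Sy) (ω : Finset (ℤ × ℤ)) (u v : ℤ × ℤ) :
    Ad (ω.map S.G) (S.g u) (S.g v) ↔ Ad ω u v := by
  unfold Ad
  rw [← S.unit u v, S.add, Finset.mem_map' S.G]

lemma Sy.co_iff (S : Sy) (ω : Finset (ℤ × ℤ)) (u v : ℤ × ℤ) :
    Co (ω.map S.G) (S.g u) (S.g v) ↔ Co ω u v := by
  constructor
  · intro h
    have := Relation.ReflTransGen.lift (p := Ad ω) S.g' (fun a b hab => by
      have h2 : Ad (ω.map S.G) (S.g (S.g' a)) (S.g (S.g' b)) := by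
        rw [S.gg', S.gg']; exact hab
      exact (S.ad_iff ω _ _).1 h2) _ _ h
    rw [Function.onFun, S.g'g, S.g'g] at this
    exact this
  · intro h
    exact Relation.ReflTransGen.lift (p := Ad (ω.map S.G)) S.g (fun a b hab =>
      (S.ad_iff ω _ _).2 hab) _ _ h

lemma Sy.map_inter (S : Sy) (ω : Finset (ℤ × ℤ)) {E1 E2 : Finset (ℤ × ℤ)}
    (hE : ∀ e, e ∈ E2 ↔ S.G' e ∈ E1) : ω.map S.G ∩ E2 = (ω ∩ E1).map S.G := by
  ext e
  rw [mem_inter, S.mem_map, S.mem_map, mem_inter, hE]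

lemma Sy.map_eq (S : Sy) {E1 E2 : Finset (ℤ × ℤ)}
    (hE : ∀ e, e ∈ E2 ↔ S.G' e ∈ E1) : E1.map S.G = E2 := by
  ext e
  rw [S.mem_map, hE]

/-- Transport of probabilities. -/
lemma Sy.Pr (S : Sy) {E1 E2 : Finset (ℤ × ℤ)} (hE : ∀ e, e ∈ E2 ↔ S.G' e ∈ E1)
    (A : Finset (ℤ × ℤ) → Prop) : Perc.Pr E2 A = Perc.Pr E1 (fun ω => A (ω.map S.G)) := by
  rw [← S.map_eq hE, Pr_map]

/-- Translation. -/
def syT (t : ℤ × ℤ) : Sy where
  g u := u + t
  g' u := u - t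
  G := ⟨fun e => (e.1 + 2 * t.1, e.2 + 2 * t.2), by
    intro a b h
    have h1 := congrArg Prod.fst h
    have h2 := congrArg Prod.snd h
    simp only at h1 h2
    exact Prod.ext (by omega) (by omega)⟩
  G' e := (e.1 - 2 * t.1, e.2 - 2 * t.2)
  gg' u := by simp
  g'g u := by simp
  GG' e := by
    refine Prod.ext ?_ ?_ <;> simp only [Function.Embedding.coeFn_mk] <;> ring
  add u v := by
    refine Prod.ext ?_ ?_ <;>
    simp only [Function.Embedding.coeFn_mk, Prod.fst_add, Prod.snd_add] <;> ring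
  unit u v := by rw [add_sub_add_right_eq_sub]

/-- Reflection `x ↦ s - x`. -/
def syX (s : ℤ) : Sy where
  g u := (s - u.1, u.2)
  g' u := (s - u.1, u.2)
  G := ⟨fun e => (2 * s - e.1, e.2), by
    intro a b h
    have h1 := congrArg Prod.fst h
    have h2 := congrArg Prod.snd h
    simp only at h1 h2
    exact Prod.ext (by omega) (by omega)⟩
  G' e := (2 * s - e.1, e.2)
  gg' u := by simp
  g'g u := by simp
  GG' e := by
    refine Prod.ext ?_ ?_ <;> simp only [Function.Embedding.coeFn_mk]; ring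
  add u v := by
    refine Prod.ext ?_ ?_ <;>
    simp only [Function.Embedding.coeFn_mk, Prod.fst_add, Prod.snd_add]; ring
  unit u v := by
    constructor
    · intro h
      have h1 := unit_cases h
      unfold IsUnit4
      simp only [Prod.ext_iff, Prod.fst_sub, Prod.snd_sub]
      omega
    · intro h
      have h1 := unit_cases h
      simp only at h1
      unfold IsUnit4
      simp only [Prod.ext_iff, Prod.fst_sub, Prod.snd_sub]
      omega

/-- Reflection `y ↦ s - y`. -/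
def syY (s : ℤ) : Sy where
  g u := (u.1, s - u.2)
  g' u := (u.1, s - u.2)
  G := ⟨fun e => (e.1, 2 * s - e.2), by
    intro a b h
    have h1 := congrArg Prod.fst h
    have h2 := congrArg Prod.snd h
    simp only at h1 h2
    exact Prod.ext (by omega) (by omega)⟩
  G' e := (e.1, 2 * s - e.2)
  gg' u := by simp
  g'g u := by simp
  GG' e := by
    refine Prod.ext ?_ ?_ <;> simp only [Function.Embedding.coeFn_mk]; ring
  add u v := by
    refine Prod.ext ?_ ?_ <;>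
    simp only [Function.Embedding.coeFn_mk, Prod.fst_add, Prod.snd_add]; ring
  unit u v := by
    constructor
    · intro h
      have h1 := unit_cases h
      unfold IsUnit4
      simp only [Prod.ext_iff, Prod.fst_sub, Prod.snd_sub]
      omega
    · intro h
      have h1 := unit_cases h
      simp only at h1
      unfold IsUnit4
      simp only [Prod.ext_iff, Prod.fst_sub, Prod.snd_sub]
      omega

/-- Transposition. -/
def syD : Sy where
  g u := (u.2, u.1)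
  g' u := (u.2, u.1)
  G := ⟨fun e => (e.2, e.1), by
    intro a b h
    have h1 := congrArg Prod.fst h
    have h2 := congrArg Prod.snd h
    simp only at h1 h2
    exact Prod.ext (by omega) (by omega)⟩
  G' e := (e.2, e.1)
  gg' u := by simp
  g'g u := by simp
  GG' e := by simp
  add u v := by
    refine Prod.ext ?_ ?_ <;>
    simp only [Function.Embedding.coeFn_mk, Prod.fst_add, Prod.snd_add]
  unit u v := by
    constructor
    · intro h
      have h1 := unit_cases h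
      unfold IsUnit4
      simp only [Prod.ext_iff, Prod.fst_sub, Prod.snd_sub]
      omega
    · intro h
      have h1 := unit_cases h
      simp only at h1
      unfold IsUnit4
      simp only [Prod.ext_iff, Prod.fst_sub, Prod.snd_sub]
      omega

/-- Crossing probability of a rectangle, horizontally. -/
noncomputable def hc (a b c d : ℤ) : ℝ := Pr (Bx a b c d) (HC a b c d)

lemma HC_restrict (a b c d : ℤ) (ω : Finset (ℤ × ℤ)) :
    HC a b c d ω ↔ HC a b c d (ω ∩ Bx a b c d) := by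
  unfold HC
  rw [inter_assoc, inter_self]

lemma VC_restrict (a b c d : ℤ) (ω : Finset (ℤ × ℤ)) :
    VC a b c d ω ↔ VC a b c d (ω ∩ Bx a b c d) := by
  unfold VC
  rw [inter_assoc, inter_self]

lemma Pr_HC {E : Finset (ℤ × ℤ)} {a b c d : ℤ} (h : Bx a b c d ⊆ E) :
    Pr E (HC a b c d) = hc a b c d := by
  unfold hc
  rw [← Pr_restrict h]
  exact Pr_congr fun ω _ => HC_restrict a b c d ω

lemma hc_shift (a b c d s t : ℤ) : hc (a + s) (b + s) (c + t) (d + t) = hc a b c d := by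
  unfold hc
  have hE : ∀ e, e ∈ Bx (a + s) (b + s) (c + t) (d + t) ↔ (syT (s, t)).G' e ∈ Bx a b c d := by
    intro e
    rw [mem_Bx, mem_Bx]
    simp only [syT]
    omega
  rw [(syT (s, t)).Pr hE]
  apply Pr_congr
  intro ω _
  unfold HC
  rw [(syT (s, t)).map_inter ω hE]
  constructor
  · rintro ⟨p, q, h1, h2, h3, h4⟩
    refine ⟨p - (s, t), q - (s, t), ?_, ?_, ?_, ?_⟩
    · unfold inB at h1 ⊢
      simp only [Prod.fst_sub, Prod.snd_sub]; omega
    · simp only [Prod.fst_sub]; omega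
    · simp only [Prod.fst_sub]; omega
    · rw [← (syT (s, t)).co_iff]
      simpa [syT] using h4
  · rintro ⟨p, q, h1, h2, h3, h4⟩
    refine ⟨p + (s, t), q + (s, t), ?_, ?_, ?_, ?_⟩
    · unfold inB at h1 ⊢
      simp only [Prod.fst_add, Prod.snd_add]; omega
    · simp only [Prod.fst_add]; omega
    · simp only [Prod.fst_add]; omega
    · rw [← (syT (s, t)).co_iff] at h4
      exact h4

/-- Crossing probability of a rectangle of width `w` and height `h`, horizontally. -/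
noncomputable def fc (w h : ℤ) : ℝ := hc 0 w 0 h

lemma hc_eq (a b c d : ℤ) : hc a b c d = fc (b - a) (d - c) := by
  unfold fc
  have := hc_shift 0 (b - a) 0 (d - c) a c
  rw [← this]
  congr 1 <;> ring

lemma Pr_VC {E : Finset (ℤ × ℤ)} {a b c d : ℤ} (h : Bx a b c d ⊆ E) :
    Pr E (VC a b c d) = fc (d - c) (b - a) := by
  have h1 : Pr E (VC a b c d) = Pr (Bx a b c d) (VC a b c d) := by
    rw [← Pr_restrict h]
    exact Pr_congr fun ω _ => VC_restrict a b c d ω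
  rw [h1]
  have hE : ∀ e, e ∈ Bx a b c d ↔ syD.G' e ∈ Bx c d a b := by
    intro e
    rw [mem_Bx, mem_Bx]
    simp only [syD]
    omega
  rw [syD.Pr hE, ← hc_eq c d a b]
  unfold hc
  apply Pr_congr
  intro ω _
  unfold VC HC
  rw [syD.map_inter ω hE]
  constructor
  · rintro ⟨p, q, h1, h2, h3, h4⟩
    refine ⟨(p.2, p.1), (q.2, q.1), ?_, h2, h3, ?_⟩
    · unfold inB at h1 ⊢; exact ⟨h1.2, h1.1⟩
    · rw [← syD.co_iff]; exact h4
  · rintro ⟨p, q, h1, h2, h3, h4⟩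
    refine ⟨(p.2, p.1), (q.2, q.1), ?_, h2, h3, ?_⟩
    · unfold inB at h1 ⊢; exact ⟨h1.2, h1.1⟩
    · rw [← syD.co_iff] at h4; exact h4

lemma Pr_HC' {E : Finset (ℤ × ℤ)} {a b c d : ℤ} (h : Bx a b c d ⊆ E) :
    Pr E (HC a b c d) = fc (b - a) (d - c) := by
  rw [Pr_HC h, hc_eq]

lemma fc_nonneg (w h : ℤ) : 0 ≤ fc w h := Pr_nonneg _ _

lemma fc_le_one (w h : ℤ) : fc w h ≤ 1 := Pr_le_one _ _

/-- Narrower rectangles are easier to cross. -/
lemma fc_anti {w w' h : ℤ} (h0 : 0 ≤ w') (hw : w' ≤ w) : fc w h ≤ fc w' h := by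
  have e1 : fc w h = Pr (Bx 0 w 0 h) (HC 0 w 0 h) := rfl
  have e2 : fc w' h = Pr (Bx 0 w 0 h) (HC 0 w' 0 h) := by
    rw [Pr_HC' (Bx_sub le_rfl hw le_rfl le_rfl)]; simp
  rw [e1, e2]
  apply Pr_mono
  intro ω _ hω
  obtain ⟨p, q, h1, h2, h3, h4⟩ := hω
  rcases eq_or_lt_of_le hw with he | hlt
  · subst he; exact ⟨p, q, h1, h2, h3, h4⟩
  · obtain ⟨z, z', hz, hz', had, hcx, -⟩ := exit_co (X := inB 0 w' 0 h) h4
      (by unfold inB at h1 ⊢; omega) (by unfold inB; omega)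
    refine ⟨p, z, by unfold inB at h1 ⊢; omega, h2, ?_, ?_⟩
    · have h5 := unit_cases had.1
      have h6 := (had.inB inter_subset_right).2
      unfold inB at hz hz' h6
      omega
    · exact (hcx.box (fun z hz => hz) (by unfold inB at h1 ⊢; omega)).mono
        (inter_subset_inter_right inter_subset_left)

/-- Higher rectangles are easier to cross. -/
lemma fc_mono {w h h' : ℤ} (hh : h ≤ h') : fc w h ≤ fc w h' := by
  have e1 : fc w h = Pr (Bx 0 w 0 h') (HC 0 w 0 h) := by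
    rw [Pr_HC' (Bx_sub le_rfl le_rfl le_rfl hh)]; simp
  have e2 : fc w h' = Pr (Bx 0 w 0 h') (HC 0 w 0 h') := rfl
  rw [e1, e2]
  apply Pr_mono
  rintro ω _ ⟨p, q, h1, h2, h3, h4⟩
  refine ⟨p, q, ?_, h2, h3, h4.mono (inter_subset_inter_left (Bx_sub le_rfl le_rfl le_rfl hh))⟩
  unfold inB at h1 ⊢; omega

/-- Harris inequality for three events. -/
lemma harris3 (E : Finset (ℤ × ℤ)) {A B C : Finset (ℤ × ℤ) → Prop} (hA : Inc A) (hB : Inc B)
    (hC : Inc C) : Pr E A * Pr E B * Pr E C ≤ Pr E (fun ω => A ω ∧ B ω ∧ C ω) := by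
  have h1 := Pr_harris E hB hC
  have hBC : Inc (fun ω => B ω ∧ C ω) := fun ω ω' h h' => ⟨hB ω ω' h h'.1, hC ω ω' h h'.2⟩
  have h2 := Pr_harris E hA hBC
  have h3 := Pr_nonneg E A
  calc Pr E A * Pr E B * Pr E C = Pr E A * (Pr E B * Pr E C) := by ring
    _ ≤ Pr E A * Pr E (fun ω => B ω ∧ C ω) := mul_le_mul_of_nonneg_left h1 h3
    _ ≤ _ := h2

/-- Gluing two horizontal crossings with a vertical crossing of the overlap. -/
lemma glue_HC {a a2 b1 b c d : ℤ} (h1 : a ≤ a2) (h2 : a2 ≤ b1) (h3 : b1 ≤ b)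
    {ω : Finset (ℤ × ℤ)} (hA : HC a b1 c d ω) (hB : HC a2 b c d ω) (hV : VC a2 b1 c d ω) :
    HC a b c d ω := by
  obtain ⟨p, q, p1, p2, p3, p4⟩ := hA
  obtain ⟨p', q', p1', p2', p3', p4'⟩ := hB
  obtain ⟨r, s, r1, r2, r3, r4⟩ := hV
  have s1 : ω ∩ Bx a2 b1 c d ⊆ Bx a b1 c d :=
    inter_subset_right.trans (Bx_sub h1 le_rfl le_rfl le_rfl)
  have s2 : ω ∩ Bx a2 b1 c d ⊆ Bx a2 b c d :=
    inter_subset_right.trans (Bx_sub le_rfl h3 le_rfl le_rfl)
  obtain ⟨z, hz1, hz2⟩ := cross_co inter_subset_right s1 p1 (by unfold inB at r1 ⊢; omega) p4 r4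
    p2 p3 r2 r3
  obtain ⟨z', hz1', hz2'⟩ := cross_co inter_subset_right s2 p1' (by unfold inB at r1 ⊢; omega)
    p4' r4 p2' p3' r2 r3
  refine ⟨p, q', by unfold inB at p1 ⊢; omega, p2, p3', ?_⟩
  have m1 : ω ∩ Bx a b1 c d ⊆ ω ∩ Bx a b c d :=
    inter_subset_inter_left (Bx_sub le_rfl h3 le_rfl le_rfl)
  have m2 : ω ∩ Bx a2 b c d ⊆ ω ∩ Bx a b c d :=
    inter_subset_inter_left (Bx_sub h1 le_rfl le_rfl le_rfl)
  have m3 : ω ∩ Bx a2 b1 c d ⊆ ω ∩ Bx a b c d :=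
    inter_subset_inter_left (Bx_sub h1 h3 le_rfl le_rfl)
  exact ((hz1.mono m1).trans ((hz2.symm.trans hz2').mono m3)).trans
    ((hz1'.symm.trans p4').mono m2)

lemma fc_glue {w1 w2 v h : ℤ} (h0 : 0 ≤ v) (h1 : v ≤ w1) (h2 : v ≤ w2) :
    fc w1 h * fc w2 h * fc h v ≤ fc (w1 + w2 - v) h := by
  set b := w1 + w2 - v with hb
  have e0 : fc b h = Pr (Bx 0 b 0 h) (HC 0 b 0 h) := rfl
  have e1 : fc w1 h = Pr (Bx 0 b 0 h) (HC 0 w1 0 h) := by
    rw [Pr_HC' (Bx_sub le_rfl (by omega) le_rfl le_rfl)]; simp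
  have e2 : fc w2 h = Pr (Bx 0 b 0 h) (HC (w1 - v) b 0 h) := by
    rw [Pr_HC' (Bx_sub (by omega) le_rfl le_rfl le_rfl)]
    congr 1 <;> omega
  have e3 : fc h v = Pr (Bx 0 b 0 h) (VC (w1 - v) w1 0 h) := by
    rw [Pr_VC (Bx_sub (by omega) (by omega) le_rfl le_rfl)]
    congr 1 <;> omega
  rw [e0, e1, e2, e3]
  refine (harris3 _ (HC_inc _ _ _ _) (HC_inc _ _ _ _) (VC_inc _ _ _ _)).trans ?_
  apply Pr_mono
  rintro ω _ ⟨hA, hB, hV⟩
  exact glue_HC (by omega) (by omega) (by omega) hA hB hV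

end Pool.Agent.H75.Perc
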