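import Mathlib
import Pool.Agent.H75.Perc.Rect
import Pool.Agent.H75.Perc.Conn

set_option autoImplicit false
open Finset

/-! Self-duality: the square `[0,n]²` is crossed with probability at least `1/2`. -/

namespace Pool.Agent.H75.Perc

lemma vx_nxO (c : ℤ × ℤ) : IsUnit4 (vx (nxO c) - vx c) ∧ vx c + vx (nxO c) = lab c := by
  obtain ⟨a, b⟩ := c
  unfold vx
  rcases ty_cases (a, b) with ⟨h0, h1, h2, h3, h4, h5⟩ | ⟨h0, h1, h2, h3, h4, h5⟩ |
    ⟨h0, h1, h2, h3, h4, h5⟩ | ⟨h0, h1, h2, h3, h4, h5⟩ <;> rw [h5, h3] <;>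
  simp only at h1 h2 ⊢ <;> refine ⟨?_, ?_⟩ <;>
  simp only [IsUnit4, Prod.ext_iff, Prod.mk_sub_mk, Prod.mk_add_mk] <;> omega

/-- The face of a corner, in doubled coordinates. -/
def fce (c : ℤ × ℤ) : ℤ × ℤ := (2 * ((c.1 + 1) / 2) - 1, 2 * ((c.2 + 1) / 2) - 1)

lemma fce_nxO (c : ℤ × ℤ) : fce (nxO c) = fce c := by
  obtain ⟨a, b⟩ := c
  unfold fce
  rcases ty_cases (a, b) with ⟨h0, h1, h2, h3, h4, h5⟩ | ⟨h0, h1, h2, h3, h4, h5⟩ |
    ⟨h0, h1, h2, h3, h4, h5⟩ | ⟨h0, h1, h2, h3, h4, h5⟩ <;> rw [h5] <;>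
  simp only at h1 h2 ⊢ <;> refine Prod.ext ?_ ?_ <;> simp only <;> omega

lemma fce_lab (c : ℤ × ℤ) : IsUnit4 (lab c - fce c) := by
  obtain ⟨a, b⟩ := c
  unfold fce
  rcases ty_cases (a, b) with ⟨h0, h1, h2, h3, h4, h5⟩ | ⟨h0, h1, h2, h3, h4, h5⟩ |
    ⟨h0, h1, h2, h3, h4, h5⟩ | ⟨h0, h1, h2, h3, h4, h5⟩ <;> rw [h3] <;>
  simp only at h1 h2 ⊢ <;>
  simp only [IsUnit4, Prod.ext_iff, Prod.mk_sub_mk] <;> omega

lemma fce_nxC (c : ℤ × ℤ) : IsUnit4 (fce (nxC c) - lab c) := by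
  obtain ⟨a, b⟩ := c
  unfold fce
  rcases ty_cases (a, b) with ⟨h0, h1, h2, h3, h4, h5⟩ | ⟨h0, h1, h2, h3, h4, h5⟩ |
    ⟨h0, h1, h2, h3, h4, h5⟩ | ⟨h0, h1, h2, h3, h4, h5⟩ <;> rw [h3, h4] <;>
  simp only at h1 h2 ⊢ <;>
  simp only [IsUnit4, Prod.ext_iff, Prod.mk_sub_mk] <;> omega

/-- The edges which matter for the crossing of `[0,n+1] × [0,n]`. -/
noncomputable def MM (n : ℕ) : Finset (ℤ × ℤ) :=
  ((Icc (1 : ℤ) (2 * n + 1)) ×ˢ (Icc (0 : ℤ) (2 * n))).filter (fun l => (l.1 + l.2) % 2 = 1)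

lemma mem_MM {n : ℕ} {l : ℤ × ℤ} : l ∈ MM n ↔
    (1 ≤ l.1 ∧ l.1 ≤ 2 * n + 1) ∧ (0 ≤ l.2 ∧ l.2 ≤ 2 * n) ∧ (l.1 + l.2) % 2 = 1 := by
  unfold MM; simp only [mem_filter, mem_product, mem_Icc]; tauto

/-- The left column. -/
noncomputable def WL (n : ℕ) : Finset (ℤ × ℤ) :=
  (({0} : Finset ℤ) ×ˢ (Icc (0 : ℤ) (2 * n))).filter (fun l => (l.1 + l.2) % 2 = 1)

lemma mem_WL {n : ℕ} {l : ℤ × ℤ} : l ∈ WL n ↔
    l.1 = 0 ∧ (0 ≤ l.2 ∧ l.2 ≤ 2 * n) ∧ (l.1 + l.2) % 2 = 1 := by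
  unfold WL; simp only [mem_filter, mem_product, mem_Icc, mem_singleton]; tauto

/-- Duality followed by a reflection. -/
def dl (c : ℤ × ℤ) : ℤ × ℤ := (c.2 + 1, c.1 - 1)

lemma dl_dl (c : ℤ × ℤ) : dl (dl c) = c := by
  unfold dl; simp

lemma dl_mem {n : ℕ} {e : ℤ × ℤ} (he : e ∈ MM n) : dl e ∈ MM n := by
  rw [mem_MM] at he ⊢
  unfold dl
  simp only
  omega

/-- The dual configuration. -/
noncomputable def dualc (n : ℕ) (ω : Finset (ℤ × ℤ)) : Finset (ℤ × ℤ) :=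
  (MM n).filter (fun e => dl e ∉ ω)

lemma dualc_dualc {n : ℕ} {ω : Finset (ℤ × ℤ)} (hω : ω ⊆ MM n) : dualc n (dualc n ω) = ω := by
  ext e
  unfold dualc
  simp only [mem_filter, dl_dl, not_and, not_not]
  constructor
  · rintro ⟨h1, h2⟩; exact h2 (dl_mem h1)
  · intro h; exact ⟨hω h, fun _ => h⟩

/-- The states before the exploration stops. -/
def DD (n : ℕ) (c : ℤ × ℤ) : Prop := (1 ≤ c.1 ∧ c.1 ≤ 2 * n + 1) ∧ (0 ≤ c.2 ∧ c.2 ≤ 2 * n)

lemma dual_step {n : ℕ} {ω : Finset (ℤ × ℤ)} (hω : ω ⊆ MM n) {c : ℤ × ℤ} (hc : DD n c) :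
    DD n (nx (ω ∪ WL n) c) ∨ (nx (ω ∪ WL n) c).1 = 2 * n + 2 ∨
      (nx (ω ∪ WL n) c).2 = 2 * n + 1 := by
  unfold DD at hc ⊢
  unfold nx
  by_cases hl : lab c ∈ ω ∪ WL n
  · rw [if_pos hl]
    have hl' := mem_union.1 hl
    have hl2 : lab c ∈ MM n ∨ lab c ∈ WL n := hl'.imp (fun h => hω h) id
    rw [mem_MM, mem_WL] at hl2
    rcases ty_cases c with ⟨h0, h1, h2, h3, h4, h5⟩ | ⟨h0, h1, h2, h3, h4, h5⟩ |
      ⟨h0, h1, h2, h3, h4, h5⟩ | ⟨h0, h1, h2, h3, h4, h5⟩ <;> rw [h3] at hl2 <;> rw [h5] <;>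
    simp only at hl2 ⊢ <;> omega
  · rw [if_neg hl]
    have hl2 : lab c ∉ WL n := fun h => hl (mem_union_right _ h)
    rw [mem_WL] at hl2
    rcases ty_cases c with ⟨h0, h1, h2, h3, h4, h5⟩ | ⟨h0, h1, h2, h3, h4, h5⟩ |
      ⟨h0, h1, h2, h3, h4, h5⟩ | ⟨h0, h1, h2, h3, h4, h5⟩ <;> rw [h3] at hl2 <;> rw [h4] <;>
    simp only at hl2 ⊢ <;> omega

lemma dual_conj {n : ℕ} {ω : Finset (ℤ × ℤ)} (hω : ω ⊆ MM n) {c : ℤ × ℤ} (hc : DD n c) :
    nx (dualc n ω ∪ WL n) (dl c) = dl (nx (ω ∪ WL n) c) := by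
  have hlab : lab (dl c) = dl (lab c) := by
    obtain ⟨a, b⟩ := c
    unfold dl
    rcases ty_cases (a, b) with ⟨h0, h1, h2, h3, h4, h5⟩ | ⟨h0, h1, h2, h3, h4, h5⟩ |
      ⟨h0, h1, h2, h3, h4, h5⟩ | ⟨h0, h1, h2, h3, h4, h5⟩ <;>
    rcases ty_cases (b + 1, a - 1) with ⟨g0, g1, g2, g3, g4, g5⟩ | ⟨g0, g1, g2, g3, g4, g5⟩ |
      ⟨g0, g1, g2, g3, g4, g5⟩ | ⟨g0, g1, g2, g3, g4, g5⟩ <;>
    simp only at h1 h2 g1 g2 g3 h3 ⊢ <;>
    first
    | (exfalso; omega)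
    | (rw [g3, h3]; try (refine Prod.ext ?_ ?_ <;> simp only <;> ring))
  have hkey : lab (dl c) ∈ dualc n ω ∪ WL n ↔ lab c ∉ ω ∪ WL n := by
    rw [hlab, mem_union, mem_union, mem_WL, mem_WL]
    unfold dualc
    rw [mem_filter, mem_MM, dl_dl]
    by_cases hM : lab c ∈ MM n
    · have hM' := mem_MM.1 hM
      unfold dl
      simp only
      by_cases hlω : lab c ∈ ω
      · simp only [hlω, not_true, and_false, false_or, true_or, iff_false]
        omega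
      · simp only [hlω, not_false_eq_true, and_true, false_or]
        omega
    · have hlω : lab c ∉ ω := fun h => hM (hω h)
      rw [mem_MM] at hM
      unfold DD at hc
      simp only [hlω, not_false_eq_true, and_true, false_or]
      unfold dl
      rcases ty_cases c with ⟨h0, h1, h2, h3, h4, h5⟩ | ⟨h0, h1, h2, h3, h4, h5⟩ |
        ⟨h0, h1, h2, h3, h4, h5⟩ | ⟨h0, h1, h2, h3, h4, h5⟩ <;> rw [h3] at hM ⊢ <;>
      simp only at hM ⊢ <;> omega
  unfold nx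
  by_cases hl : lab c ∈ ω ∪ WL n
  · rw [if_pos hl, if_neg (by rw [hkey]; exact not_not.2 hl)]
    obtain ⟨a, b⟩ := c
    unfold dl
    rcases ty_cases (a, b) with ⟨h0, h1, h2, h3, h4, h5⟩ | ⟨h0, h1, h2, h3, h4, h5⟩ |
      ⟨h0, h1, h2, h3, h4, h5⟩ | ⟨h0, h1, h2, h3, h4, h5⟩ <;>
    rcases ty_cases (b + 1, a - 1) with ⟨g0, g1, g2, g3, g4, g5⟩ | ⟨g0, g1, g2, g3, g4, g5⟩ |
      ⟨g0, g1, g2, g3, g4, g5⟩ | ⟨g0, g1, g2, g3, g4, g5⟩ <;>
    simp only at h1 h2 g1 g2 g4 h5 ⊢ <;>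
    first
    | (exfalso; omega)
    | (rw [g4, h5]; try (refine Prod.ext ?_ ?_ <;> simp only <;> ring))
  · rw [if_neg hl, if_pos (by rw [hkey]; exact hl)]
    obtain ⟨a, b⟩ := c
    unfold dl
    rcases ty_cases (a, b) with ⟨h0, h1, h2, h3, h4, h5⟩ | ⟨h0, h1, h2, h3, h4, h5⟩ |
      ⟨h0, h1, h2, h3, h4, h5⟩ | ⟨h0, h1, h2, h3, h4, h5⟩ <;>
    rcases ty_cases (b + 1, a - 1) with ⟨g0, g1, g2, g3, g4, g5⟩ | ⟨g0, g1, g2, g3, g4, g5⟩ |
      ⟨g0, g1, g2, g3, g4, g5⟩ | ⟨g0, g1, g2, g3, g4, g5⟩ <;>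
    simp only at h1 h2 g1 g2 g5 h4 ⊢ <;>
    first
    | (exfalso; omega)
    | (rw [g5, h4]; try (refine Prod.ext ?_ ?_ <;> simp only <;> ring))

/-- The exploration path. -/
noncomputable def ep (n : ℕ) (ω : Finset (ℤ × ℤ)) (j : ℕ) : ℤ × ℤ :=
  (nx (ω ∪ WL n))^[j] (1, 0)

lemma ep_zero (n : ℕ) (ω : Finset (ℤ × ℤ)) : ep n ω 0 = (1, 0) := rfl

lemma ep_succ (n : ℕ) (ω : Finset (ℤ × ℤ)) (j : ℕ) :
    ep n ω (j + 1) = nx (ω ∪ WL n) (ep n ω j) := by
  unfold ep; rw [Function.iterate_succ_apply']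

/-- Stop at the right side. -/
def stopR (n : ℕ) (ω : Finset (ℤ × ℤ)) : Prop :=
  ∃ j, (∀ i < j, DD n (ep n ω i)) ∧ (ep n ω j).1 = 2 * n + 2

/-- Stop at the top side. -/
def stopT (n : ℕ) (ω : Finset (ℤ × ℤ)) : Prop :=
  ∃ j, (∀ i < j, DD n (ep n ω i)) ∧ (ep n ω j).2 = 2 * n + 1

lemma stop_or {n : ℕ} {ω : Finset (ℤ × ℤ)} (hω : ω ⊆ MM n) : stopR n ω ∨ stopT n ω := by
  classical
  by_contra hcon
  have hall : ∀ j, ∀ i ≤ j, DD n (ep n ω i) := by
    intro j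
    induction j with
    | zero =>
      intro i hi
      have : i = 0 := by omega
      subst this
      rw [ep_zero]; unfold DD; simp only; omega
    | succ j ih =>
      intro i hi
      rcases Nat.lt_or_ge i (j + 1) with h | h
      · exact ih i (by omega)
      · have : i = j + 1 := by omega
        subst this
        have h1 := dual_step hω (ih j le_rfl)
        rw [← ep_succ] at h1
        rcases h1 with h1 | h1 | h1
        · exact h1
        · exact absurd (Or.inl ⟨j + 1, fun i hi => ih i (by omega), h1⟩) hcon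
        · exact absurd (Or.inr ⟨j + 1, fun i hi => ih i (by omega), h1⟩) hcon
  let S : Finset (ℤ × ℤ) := (Icc (1 : ℤ) (2 * n + 1)) ×ˢ (Icc (0 : ℤ) (2 * n))
  have hS : ∀ j, ep n ω j ∈ S := by
    intro j
    have := hall j j le_rfl
    unfold DD at this
    simp only [S, mem_product, mem_Icc]
    exact this
  obtain ⟨i, hi, j, hj, hij, he⟩ := Finset.exists_ne_map_eq_of_card_lt_of_maps_to
    (s := Finset.range (S.card + 1)) (t := S) (by simp) (f := fun i => ep n ω i)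
    (fun i _ => hS i)
  have key : ∀ i j : ℕ, i < j → ep n ω i = ep n ω j → False := by
    intro i j hij he
    have e1 : j = i + (j - i) := by omega
    have h1 : ep n ω 0 = ep n ω (j - i) := by
      rw [e1] at he
      unfold ep at he ⊢
      rw [Function.iterate_add_apply] at he
      exact (nx_injective _).iterate i he
    have e2 : j - i = (j - i - 1) + 1 := by omega
    rw [e2, ep_succ] at h1
    have h2 : pv (ω ∪ WL n) (ep n ω 0) = ep n ω (j - i - 1) := by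
      rw [h1, pv_nx]
    have h3 : pv (ω ∪ WL n) (ep n ω 0) = (0, 0) := by
      rw [ep_zero]
      have hno : ((0 : ℤ), (-1 : ℤ)) ∉ ω ∪ WL n := by
        rw [mem_union]
        rintro (h | h)
        · have := mem_MM.1 (hω h)
          simp only at this; omega
        · rw [mem_WL] at h; simp only at h; omega
      unfold pv
      simp [hno]
    have h4 := hall (j - i - 1) (j - i - 1) le_rfl
    rw [← h2, h3] at h4
    unfold DD at h4
    simp only at h4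
    omega
  rcases lt_or_gt_of_ne hij with h | h
  · exact key i j h he
  · exact key j i h he.symm

lemma ep_dual {n : ℕ} {ω : Finset (ℤ × ℤ)} (hω : ω ⊆ MM n) (j : ℕ)
    (h : ∀ i < j, DD n (ep n ω i)) : ∀ i ≤ j, ep n (dualc n ω) i = dl (ep n ω i) := by
  intro i
  induction i with
  | zero => intro _; rw [ep_zero, ep_zero]; unfold dl; norm_num
  | succ i ih =>
    intro hi
    rw [ep_succ, ep_succ, ih (by omega)]
    exact dual_conj hω (h i (by omega))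

lemma DD_dl {n : ℕ} {c : ℤ × ℤ} (h : DD n c) : DD n (dl c) := by
  unfold DD dl at *
  simp only
  omega

lemma stopR_dual {n : ℕ} {ω : Finset (ℤ × ℤ)} (hω : ω ⊆ MM n) (h : stopR n ω) :
    stopT n (dualc n ω) := by
  obtain ⟨j, h1, h2⟩ := h
  have h3 := ep_dual hω j h1
  refine ⟨j, fun i hi => ?_, ?_⟩
  · rw [h3 i (by omega)]; exact DD_dl (h1 i hi)
  · rw [h3 j le_rfl]; unfold dl; simp only; omega

lemma stopT_dual {n : ℕ} {ω : Finset (ℤ × ℤ)} (hω : ω ⊆ MM n) (h : stopT n ω) :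
    stopR n (dualc n ω) := by
  obtain ⟨j, h1, h2⟩ := h
  have h3 := ep_dual hω j h1
  refine ⟨j, fun i hi => ?_, ?_⟩
  · rw [h3 i (by omega)]; exact DD_dl (h1 i hi)
  · rw [h3 j le_rfl]; unfold dl; simp only; omega

lemma Pr_stop (n : ℕ) : 1 / 2 ≤ Pr (MM n) (stopR n) := by
  classical
  have h1 : ((MM n).powerset.filter (stopT n)).card ≤
      ((MM n).powerset.filter (stopR n)).card := by
    apply Finset.card_le_card_of_injOn (dualc n)
    · intro ω hω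
      rw [mem_coe, mem_filter, mem_powerset] at hω ⊢
      exact ⟨filter_subset _ _, stopT_dual hω.1 hω.2⟩
    · intro ω hω ω' hω' he
      rw [mem_coe, mem_filter, mem_powerset] at hω hω'
      rw [← dualc_dualc hω.1, ← dualc_dualc hω'.1, he]
  have h2 : Pr (MM n) (stopT n) ≤ Pr (MM n) (stopR n) := by
    rw [Pr_eq, Pr_eq]
    apply div_le_div_of_nonneg_right _ (by positivity)
    exact_mod_cast h1
  have h3 : (1 : ℝ) ≤ Pr (MM n) (stopR n) + Pr (MM n) (stopT n) := by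
    rw [← Pr_true (MM n)]
    refine le_trans ?_ (Pr_or_le _ _ _)
    exact Pr_mono fun ω hω _ => stop_or hω
  linarith

lemma stopR_HC {n : ℕ} {ω : Finset (ℤ × ℤ)} (hω : ω ⊆ MM n) (h : stopR n ω) :
    HC 0 (n + 1) 0 n ω := by
  obtain ⟨j, h1, h2⟩ := h
  have hsub : ω ∩ Bx 0 (n + 1) 0 n = ω := by
    apply inter_eq_left.2
    intro e he
    have := mem_MM.1 (hω he)
    rw [mem_Bx]; omega
  have key : ∀ i ≤ j, ∃ p : ℤ × ℤ, p.1 = 0 ∧ 0 ≤ p.2 ∧ p.2 ≤ n ∧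
      Co ω p (vx (ep n ω i)) := by
    intro i
    induction i with
    | zero =>
      intro _
      refine ⟨0, by simp, by simp, by simp, ?_⟩
      have : vx (ep n ω 0) = 0 := by rw [ep_zero]; decide
      rw [this]; exact Co.refl _ _
    | succ i ih =>
      intro hi
      obtain ⟨p, p1, p2, p3, p4⟩ := ih (by omega)
      rw [ep_succ]
      have hD := h1 i (by omega)
      unfold nx
      by_cases hl : lab (ep n ω i) ∈ ω ∪ WL n
      · rw [if_pos hl]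
        have hv := vx_nxO (ep n ω i)
        rcases mem_union.1 hl with hl' | hl'
        · exact ⟨p, p1, p2, p3, Relation.ReflTransGen.tail p4 ⟨hv.1, by rw [hv.2]; exact hl'⟩⟩
        · refine ⟨vx (nxO (ep n ω i)), ?_, ?_, ?_, Co.refl _ _⟩
          · rw [mem_WL] at hl'
            have hu := unit_cases hv.1
            have hv2 := hv.2
            rw [Prod.ext_iff] at hv2
            simp only [Prod.fst_add, Prod.snd_add] at hv2
            omega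
          · rw [mem_WL] at hl'
            have hu := unit_cases hv.1
            have hv2 := hv.2
            rw [Prod.ext_iff] at hv2
            simp only [Prod.fst_add, Prod.snd_add] at hv2
            omega
          · rw [mem_WL] at hl'
            have hu := unit_cases hv.1
            have hv2 := hv.2
            rw [Prod.ext_iff] at hv2
            simp only [Prod.fst_add, Prod.snd_add] at hv2
            omega
      · rw [if_neg hl, vx_nxC]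
        exact ⟨p, p1, p2, p3, p4⟩
  obtain ⟨p, p1, p2, p3, p4⟩ := key j le_rfl
  refine ⟨p, vx (ep n ω j), ?_, p1, ?_, by rw [hsub]; exact p4⟩
  · unfold inB; omega
  · unfold vx; simp only; omega

/-- Crossing of squares. -/
theorem fc_square (n : ℕ) : 1 / 2 ≤ fc n n := by
  have h1 := Pr_stop n
  have h2 : Pr (MM n) (stopR n) ≤ Pr (MM n) (HC 0 (n + 1) 0 n) :=
    Pr_mono fun ω hω h => stopR_HC hω h
  have h3 : Pr (MM n) (HC 0 (n + 1) 0 n) ≤ Pr (Bx 0 (n + 1) 0 n) (HC 0 (n + 1) 0 n) := by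
    apply Pr_inc _ (HC_inc _ _ _ _)
    intro e he
    rw [mem_MM] at he
    rw [mem_Bx]; omega
  have h4 : fc (n + 1) n ≤ fc n n := fc_anti (by positivity) (by omega)
  have h5 : fc (n + 1) n = Pr (Bx 0 (n + 1) 0 n) (HC 0 (n + 1) 0 n) := rfl
  linarith

end Pool.Agent.H75.Perc
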