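import Mathlib
import Pool.Agent.H75.Perc.Dual
import Pool.Agent.H75.Perc.Arms

set_option autoImplicit false
open Finset

/-! Exploration of the rightmost vertical crossing of `[0,n] × [1,n+1]`. -/

namespace Pool.Agent.H75.Perc

lemma ad_adj {ω : Finset (ℤ × ℤ)} {u v : ℤ × ℤ} (h : Ad ω u v) : Adj ω u v := by
  have h1 := unit_cases h.1
  refine ⟨u + v, h.2, ?_⟩
  have hodd : ((u + v).1 + (u + v).2) % 2 = 1 := by
    simp only [Prod.fst_add, Prod.snd_add]; omega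
  rcases vx_in1 (u + v) hodd with ⟨h3, h4, h5, h6⟩ | ⟨h3, h4, h5, h6⟩ <;> rw [h5, h6] <;>
  simp only [Prod.fst_add, Prod.snd_add] at h3 h4 ⊢ <;>
  simp only [Prod.ext_iff] <;> omega

lemma adj_ad {ω : Finset (ℤ × ℤ)} (hω : ∀ e ∈ ω, (e.1 + e.2) % 2 = 1) {u v : ℤ × ℤ}
    (h : Adj ω u v) : Ad ω u v := by
  obtain ⟨e, he, h⟩ := h
  have hodd := hω e he
  have key : IsUnit4 (v - u) ∧ u + v = e := by
    rcases vx_in1 e hodd with ⟨h3, h4, h5, h6⟩ | ⟨h3, h4, h5, h6⟩ <;> rw [h5, h6] at h <;>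
    rcases h with ⟨a1, a2⟩ | ⟨a1, a2⟩ <;> rw [a1, a2] <;> refine ⟨?_, ?_⟩ <;>
    simp only [IsUnit4, Prod.ext_iff, Prod.mk_sub_mk, Prod.mk_add_mk] <;> omega
  exact ⟨key.1, by rw [key.2]; exact he⟩

lemma cn_iff_co {ω : Finset (ℤ × ℤ)} (hω : ∀ e ∈ ω, (e.1 + e.2) % 2 = 1) (u v : ℤ × ℤ) :
    Cn ω u v ↔ Co ω u v := by
  constructor
  · intro h
    induction h with
    | refl => exact Co.refl _ _
    | tail _ hbc ih => exact Relation.ReflTransGen.tail ih (adj_ad hω hbc)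
  · intro h
    induction h with
    | refl => exact Cn.refl _ _
    | tail _ hbc ih => exact Relation.ReflTransGen.tail ih (ad_adj hbc)

lemma EE_eq_Bx (w h : ℕ) : EE w h = Bx 0 w 0 h := by
  ext e; rw [mem_EE, mem_Bx]; simp

/-- The wired bottom. -/
noncomputable def WR (n : ℕ) : Finset (ℤ × ℤ) :=
  ((Icc (0 : ℤ) (2 * n)) ×ˢ (Icc (0 : ℤ) 1)).filter (fun l => (l.1 + l.2) % 2 = 1)

lemma mem_WR {n : ℕ} {l : ℤ × ℤ} : l ∈ WR n ↔
    (0 ≤ l.1 ∧ l.1 ≤ 2 * n) ∧ (0 ≤ l.2 ∧ l.2 ≤ 1) ∧ (l.1 + l.2) % 2 = 1 := by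
  unfold WR; simp only [mem_filter, mem_product, mem_Icc]; tauto

/-- Configuration in the box `[0,n] × [0,n+1]` with wired bottom. -/
noncomputable def hat (n : ℕ) (ω : Finset (ℤ × ℤ)) : Finset (ℤ × ℤ) :=
  (ω ∩ Bx 0 n 1 (n + 1)) ∪ WR n

lemma mem_hat {n : ℕ} {ω : Finset (ℤ × ℤ)} {e : ℤ × ℤ} : e ∈ hat n ω ↔
    (e ∈ ω ∧ e ∈ Bx 0 n 1 (n + 1)) ∨ e ∈ WR n := by
  unfold hat; rw [mem_union, mem_inter]

lemma hat_sub (n : ℕ) (ω : Finset (ℤ × ℤ)) : hat n ω ⊆ EE n (n + 1) := by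
  intro e he
  rw [mem_hat, mem_Bx, mem_WR] at he
  rw [mem_EE]
  push_cast
  omega

/-- The exploration path. -/
noncomputable def cc (n : ℕ) (ω : Finset (ℤ × ℤ)) (j : ℕ) : ℤ × ℤ := (nx (hat n ω))^[j] 0

lemma cc_zero (n : ℕ) (ω : Finset (ℤ × ℤ)) : cc n ω 0 = 0 := rfl

lemma cc_succ (n : ℕ) (ω : Finset (ℤ × ℤ)) (j : ℕ) :
    cc n ω (j + 1) = nx (hat n ω) (cc n ω j) := by
  unfold cc; rw [Function.iterate_succ_apply']

lemma cc_mem (n : ℕ) (ω : Finset (ℤ × ℤ)) (j : ℕ) :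
    (0 ≤ (cc n ω j).1 ∧ (cc n ω j).1 ≤ 2 * n + 1) ∧
      (0 ≤ (cc n ω j).2 ∧ (cc n ω j).2 ≤ 2 * n + 3) := by
  have := mem_CC.1 (iter_mem (hat_sub n ω) 0 (zero_mem_CC n (n + 1)) j)
  push_cast at this
  unfold cc
  omega

lemma cc_bottom (n : ℕ) (ω : Finset (ℤ × ℤ)) (j : ℕ) (hj : j ≤ 2 * n + 1) :
    cc n ω j = ((j : ℤ), 0) := by
  induction j with
  | zero => rw [cc_zero]; rfl
  | succ j ih =>
    have ih' := ih (by omega)
    rw [cc_succ, ih']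
    rcases ty_cases ((j : ℤ), 0) with ⟨h0, h1, h2, h3, h4, h5⟩ | ⟨h0, h1, h2, h3, h4, h5⟩ |
      ⟨h0, h1, h2, h3, h4, h5⟩ | ⟨h0, h1, h2, h3, h4, h5⟩ <;> simp only at h1 h2 h3 h4 h5
    · unfold nx
      rw [h3, if_neg, h4]
      · push_cast; rfl
      · rw [mem_hat, mem_Bx, mem_WR]; simp only; omega
    · unfold nx
      rw [h3, if_pos, h5]
      · push_cast; rfl
      · rw [mem_hat, mem_WR]; right; simp only; omega
    · omega
    · omega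

lemma cc_first (n : ℕ) (ω : Finset (ℤ × ℤ)) : cc n ω (2 * n + 2) = (2 * (n : ℤ) + 1, 1) := by
  have h := cc_bottom n ω (2 * n + 1) le_rfl
  rw [show 2 * n + 2 = (2 * n + 1) + 1 by ring, cc_succ, h]
  push_cast
  rcases ty_cases (2 * (n : ℤ) + 1, 0) with ⟨h0, h1, h2, h3, h4, h5⟩ | ⟨h0, h1, h2, h3, h4, h5⟩ |
      ⟨h0, h1, h2, h3, h4, h5⟩ | ⟨h0, h1, h2, h3, h4, h5⟩ <;> simp only at h1 h2 h3 h4 h5
  · omega
  · unfold nx
    rw [h3, if_neg, h4]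
    · norm_num
    · rw [mem_hat, mem_Bx, mem_WR]; simp only; omega
  · omega
  · omega

lemma cc_orb (n : ℕ) (ω : Finset (ℤ × ℤ)) : ∃ L, Orb (nx (hat n ω)) 0 L :=
  orb_exists (hat_sub n ω) 0 (zero_mem_CC n (n + 1))

/-- The exploration reaches the top row. -/
def reach (n : ℕ) (ω : Finset (ℤ × ℤ)) : Prop := ∃ j, 2 * (n : ℤ) + 2 ≤ (cc n ω j).2

open Classical in
/-- First time at the top row. -/
noncomputable def tau (n : ℕ) (ω : Finset (ℤ × ℤ)) : ℕ :=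
  if h : reach n ω then Nat.find h else 0

lemma tau_spec {n : ℕ} {ω : Finset (ℤ × ℤ)} (h : reach n ω) :
    2 * (n : ℤ) + 2 ≤ (cc n ω (tau n ω)).2 := by
  classical
  unfold tau; rw [dif_pos h]; exact Nat.find_spec h

lemma tau_min {n : ℕ} {ω : Finset (ℤ × ℤ)} (h : reach n ω) {j : ℕ} (hj : j < tau n ω) :
    (cc n ω j).2 ≤ 2 * n + 1 := by
  classical
  unfold tau at hj; rw [dif_pos h] at hj
  have := Nat.find_min h hj
  omega

lemma tau_eq {n : ℕ} {ω : Finset (ℤ × ℤ)} {t : ℕ} (h1 : 2 * (n : ℤ) + 2 ≤ (cc n ω t).2)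
    (h2 : ∀ j < t, (cc n ω j).2 ≤ 2 * n + 1) : reach n ω ∧ tau n ω = t := by
  have h : reach n ω := ⟨t, h1⟩
  refine ⟨h, ?_⟩
  rcases lt_trichotomy (tau n ω) t with hlt | heq | hgt
  · have := h2 _ hlt; have := tau_spec h; omega
  · exact heq
  · have := tau_min h hgt; omega

lemma tau_lt {n : ℕ} {ω : Finset (ℤ × ℤ)} (h : reach n ω) {L : ℕ}
    (hO : Orb (nx (hat n ω)) 0 L) : tau n ω < L := by
  by_contra hge
  have h1 : cc n ω (tau n ω) = cc n ω (tau n ω % L) := by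
    unfold cc; rw [hO.mod]
  have h2 : tau n ω % L < L := Nat.mod_lt _ hO.pos
  have h3 := tau_min h (j := tau n ω % L) (by omega)
  have h4 := tau_spec h
  rw [h1] at h4
  omega

lemma cc_inj {n : ℕ} {ω : Finset (ℤ × ℤ)} (h : reach n ω) {i j : ℕ} (hij : i < j)
    (hj : j ≤ tau n ω) : cc n ω i ≠ cc n ω j := by
  obtain ⟨L, hO⟩ := cc_orb n ω
  have := tau_lt h hO
  exact hO.inj i j hij (by omega)

lemma cc_pos {n : ℕ} {ω : Finset (ℤ × ℤ)} (h : reach n ω) {j : ℕ} (h1 : 2 * n + 2 ≤ j)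
    (h2 : j ≤ tau n ω) : 1 ≤ (cc n ω j).2 := by
  by_contra hcon
  have h3 := cc_mem n ω j
  have h4 : (cc n ω j).2 = 0 := by omega
  obtain ⟨i, hi⟩ : ∃ i : ℕ, (i : ℤ) = (cc n ω j).1 := ⟨(cc n ω j).1.toNat, by omega⟩
  have h5 := cc_bottom n ω i (by omega)
  apply cc_inj h (i := i) (j := j) (by omega) h2
  rw [h5]
  exact Prod.ext hi h4.symm

lemma cc_ne_last {n : ℕ} {ω : Finset (ℤ × ℤ)} (h : reach n ω) {j : ℕ} (h2 : j < tau n ω) :
    cc n ω j ≠ (0, 1) := by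
  intro h3
  have h4 : cc n ω (j + 1) = 0 := by
    rw [cc_succ, h3]
    unfold nx
    have e1 : lab ((0 : ℤ), (1 : ℤ)) = (-1, 0) := by decide
    have e2 : nxC ((0 : ℤ), (1 : ℤ)) = 0 := by decide
    rw [e1, e2, if_neg]
    rw [mem_hat, mem_Bx, mem_WR]; simp only; omega
  exact cc_inj h (i := 0) (j := j + 1) (by omega) (by omega) (by rw [h4, cc_zero])

lemma tau_ge {n : ℕ} {ω : Finset (ℤ × ℤ)} (h : reach n ω) : 2 * n + 2 < tau n ω := by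
  by_contra hcon
  have h1 := tau_spec h
  rcases Nat.lt_or_ge (tau n ω) (2 * n + 2) with h2 | h2
  · rw [cc_bottom n ω _ (by omega)] at h1
    simp only at h1; omega
  · have : tau n ω = 2 * n + 2 := by omega
    rw [this, cc_first] at h1
    simp only at h1; omega

lemma lab_le (c : ℤ × ℤ) : (lab c).2 ≤ c.2 ∧ c.2 - 1 ≤ (lab c).2 := by
  rcases ty_cases c with ⟨h0, h1, h2, h3, h4, h5⟩ | ⟨h0, h1, h2, h3, h4, h5⟩ |
      ⟨h0, h1, h2, h3, h4, h5⟩ | ⟨h0, h1, h2, h3, h4, h5⟩ <;> rw [h3] <;> simp only <;> omega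

/-- Closed labels met by the exploration are above the bottom. -/
lemma closed_pos {n : ℕ} {ω : Finset (ℤ × ℤ)} (h : reach n ω) {j : ℕ} (h1 : 2 * n + 2 ≤ j)
    (h2 : j < tau n ω) (hl : lab (cc n ω j) ∉ hat n ω) : 1 ≤ (lab (cc n ω j)).2 := by
  have h3 := cc_pos h h1 (by omega)
  have h4 := cc_mem n ω j
  have h5 := cc_ne_last h h2
  generalize cc n ω j = c at *
  rw [mem_hat, mem_Bx, mem_WR] at hl
  rw [Ne, Prod.ext_iff] at h5
  rcases ty_cases c with ⟨g0, g1, g2, g3, g4, g5⟩ | ⟨g0, g1, g2, g3, g4, g5⟩ |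
      ⟨g0, g1, g2, g3, g4, g5⟩ | ⟨g0, g1, g2, g3, g4, g5⟩ <;> rw [g3] at hl ⊢ <;>
  simp only at hl h5 ⊢ <;> omega

/-- A vertical crossing is reached. -/
lemma VC_reach {n : ℕ} {ω : Finset (ℤ × ℤ)} (h : VC 0 n 1 (n + 1) ω) : reach n ω := by
  obtain ⟨p, q, h1, h2, h3, h4⟩ := h
  have hq : inB 0 n 1 (n + 1) q := h4.inB inter_subset_right h1
  have hodd : ∀ e ∈ hat n ω, (e.1 + e.2) % 2 = 1 := fun e he => (mem_EE.1 (hat_sub n ω he)).2.2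
  -- along the bottom
  have hb : ∀ k : ℕ, k ≤ n → Co (hat n ω) 0 ((k : ℤ), 0) := by
    intro k
    induction k with
    | zero => intro _; exact Co.refl _ _
    | succ k ih =>
      intro hk
      refine Relation.ReflTransGen.tail (ih (by omega)) ⟨?_, ?_⟩
      · left; refine Prod.ext ?_ ?_ <;> simp
      · rw [mem_hat, mem_WR]; right
        push_cast
        simp only [Prod.mk_add_mk]; omega
  unfold inB at h1 hq
  obtain ⟨k, hk⟩ : ∃ k : ℕ, (k : ℤ) = p.1 := ⟨p.1.toNat, by omega⟩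
  have e1 : Co (hat n ω) 0 p := by
    refine Relation.ReflTransGen.tail (hb k (by omega)) ⟨?_, ?_⟩
    · right; left; refine Prod.ext ?_ ?_ <;> simp [hk, h2]
    · rw [mem_hat, mem_WR]; right
      simp only [Prod.fst_add, Prod.snd_add]; omega
  have e2 : Co (hat n ω) p q := h4.mono subset_union_left
  have e3 : Cn (hat n ω) 0 q := (cn_iff_co hodd _ _).2 (e1.trans e2)
  have hc : ((2 * q.1 + 1, 2 * (n : ℤ) + 3) : ℤ × ℤ) ∈ CC n (n + 1) := by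
    rw [mem_CC]; push_cast; omega
  have hlab : lab ((2 * q.1 + 1, 2 * (n : ℤ) + 3) : ℤ × ℤ) = (2 * q.1, 2 * (n : ℤ) + 3) := by
    rcases ty_cases ((2 * q.1 + 1, 2 * (n : ℤ) + 3) : ℤ × ℤ) with ⟨g0, g1, g2, g3, g4, g5⟩ |
      ⟨g0, g1, g2, g3, g4, g5⟩ | ⟨g0, g1, g2, g3, g4, g5⟩ | ⟨g0, g1, g2, g3, g4, g5⟩ <;>
    simp only at g1 g2 g3
    · omega
    · omega
    · rw [g3]; simp
    · omega
  have hl : lab ((2 * q.1 + 1, 2 * (n : ℤ) + 3) : ℤ × ℤ) ∉ EE n (n + 1) := by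
    rw [hlab, mem_EE]; push_cast; omega
  have hv : vx ((2 * q.1 + 1, 2 * (n : ℤ) + 3) : ℤ × ℤ) = q := by
    unfold vx; refine Prod.ext ?_ ?_ <;> simp only <;> omega
  have h5 := (loop_iff (hat_sub n ω) hc hl).2 (by rw [hv]; exact e3)
  rw [mem_loopC (hat_sub n ω)] at h5
  obtain ⟨i, hi⟩ := h5
  refine ⟨i, ?_⟩
  have : cc n ω i = (2 * q.1 + 1, 2 * (n : ℤ) + 3) := hi
  rw [this]; simp only; omega

end Pool.Agent.H75.Perc
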