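import Mathlib
import Pool.Agent.H75.Perc.RswA

set_option autoImplicit false
open Finset

/-! The vertices of the rightmost crossing, and the topological part of the RSW argument. -/

namespace Pool.Agent.H75.Perc

/-- The index `j` belongs to the last excursion of the exploration above the bottom. -/
def exc (n : ℕ) (ω : Finset (ℤ × ℤ)) (j : ℕ) : Prop :=
  j ≤ tau n ω ∧ ∀ i, j ≤ i → i ≤ tau n ω → 2 ≤ (cc n ω i).2

lemma exc_tau {n : ℕ} {ω : Finset (ℤ × ℤ)} (h : reach n ω) : exc n ω (tau n ω) := by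
  refine ⟨le_rfl, fun i h1 h2 => ?_⟩
  have : i = tau n ω := le_antisymm h2 h1
  rw [this]
  have := tau_spec h
  omega

lemma exc_succ {n : ℕ} {ω : Finset (ℤ × ℤ)} {j : ℕ} (h : exc n ω j) (hj : j < tau n ω) :
    exc n ω (j + 1) := ⟨by omega, fun i h1 h2 => h.2 i (by omega) h2⟩

/-- The vertices of the excursion. -/
def KK' (n : ℕ) (ω : Finset (ℤ × ℤ)) (v : ℤ × ℤ) : Prop :=
  ∃ j, exc n ω j ∧ v = vx (cc n ω j)

/-- First index of the excursion. -/
lemma exists_start {n : ℕ} {ω : Finset (ℤ × ℤ)} (h : reach n ω) : ∃ j, exc n ω (j + 1) ∧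
    j < tau n ω ∧ (cc n ω j).2 = 1 ∧ (cc n ω (j + 1)).2 = 2 := by
  classical
  have hex : ∃ j, exc n ω j := ⟨_, exc_tau h⟩
  have h1 := Nat.find_spec hex
  have h0 : Nat.find hex ≠ 0 := by
    intro h0
    rw [h0] at h1
    have := h1.2 0 le_rfl (by omega)
    rw [cc_zero] at this
    simp at this
  obtain ⟨j, hj⟩ : ∃ j, Nat.find hex = j + 1 := ⟨Nat.find hex - 1, by omega⟩
  rw [hj] at h1
  have h2 : ¬ exc n ω j := Nat.find_min hex (by omega)
  have hjt : j < tau n ω := by have := h1.1; omega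
  have h3 : (cc n ω j).2 ≤ 1 := by
    by_contra hcon
    apply h2
    refine ⟨by omega, fun i hi1 hi2 => ?_⟩
    rcases Nat.lt_or_ge j i with h4 | h4
    · exact h1.2 i (by omega) hi2
    · have : i = j := by omega
      rw [this]; omega
  have h4 := h1.2 (j + 1) le_rfl h1.1
  have h5 : (cc n ω (j + 1)).2 ≤ (cc n ω j).2 + 1 := by
    rw [cc_succ]
    unfold nx
    split_ifs
    · rcases ty_cases (cc n ω j) with ⟨g0, g1, g2, g3, g4, g5⟩ | ⟨g0, g1, g2, g3, g4, g5⟩ |
        ⟨g0, g1, g2, g3, g4, g5⟩ | ⟨g0, g1, g2, g3, g4, g5⟩ <;> rw [g5] <;> simp only <;> omega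
    · rcases ty_cases (cc n ω j) with ⟨g0, g1, g2, g3, g4, g5⟩ | ⟨g0, g1, g2, g3, g4, g5⟩ |
        ⟨g0, g1, g2, g3, g4, g5⟩ | ⟨g0, g1, g2, g3, g4, g5⟩ <;> rw [g4] <;> simp only <;> omega
  exact ⟨j, h1, hjt, by omega, by omega⟩

/-- The crossing step into the excursion. -/
lemma start_step {n : ℕ} {ω : Finset (ℤ × ℤ)} {j : ℕ} (h1 : (cc n ω j).2 = 1)
    (h2 : (cc n ω (j + 1)).2 = 2) : lab (cc n ω j) ∈ hat n ω ∧ (lab (cc n ω j)).2 = 1 ∧
      (vx (cc n ω (j + 1))).2 = 1 ∧ cc n ω (j + 1) = nxO (cc n ω j) := by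
  have h3 : cc n ω (j + 1) = nx (hat n ω) (cc n ω j) := cc_succ n ω j
  by_cases hl : lab (cc n ω j) ∈ hat n ω
  · refine ⟨hl, ?_, ?_, ?_⟩
    · rw [h3] at h2
      unfold nx at h2
      rw [if_pos hl] at h2
      rcases ty_cases (cc n ω j) with ⟨g0, g1, g2, g3, g4, g5⟩ | ⟨g0, g1, g2, g3, g4, g5⟩ |
        ⟨g0, g1, g2, g3, g4, g5⟩ | ⟨g0, g1, g2, g3, g4, g5⟩ <;> rw [g5] at h2 <;> rw [g3] <;>
        simp only at h2 ⊢ <;> omega
    · unfold vx; simp only; omega
    · rw [h3]; unfold nx; rw [if_pos hl]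
  · exfalso
    rw [h3] at h2
    unfold nx at h2
    rw [if_neg hl] at h2
    rcases ty_cases (cc n ω j) with ⟨g0, g1, g2, g3, g4, g5⟩ | ⟨g0, g1, g2, g3, g4, g5⟩ |
        ⟨g0, g1, g2, g3, g4, g5⟩ | ⟨g0, g1, g2, g3, g4, g5⟩ <;> rw [g4] at h2 <;>
        simp only at h2 <;> omega

/-- The revealed labels. -/
noncomputable def rev (n : ℕ) (ω : Finset (ℤ × ℤ)) : Finset (ℤ × ℤ) :=
  (range (tau n ω)).image (fun j => lab (cc n ω j))

lemma mem_rev {n : ℕ} {ω : Finset (ℤ × ℤ)} {e : ℤ × ℤ} :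
    e ∈ rev n ω ↔ ∃ j < tau n ω, lab (cc n ω j) = e := by
  unfold rev; simp only [mem_image, mem_range]

/-- A step of the excursion. -/
lemma exc_step {n : ℕ} {ω : Finset (ℤ × ℤ)} {j : ℕ} (h : exc n ω j) (hj : j < tau n ω) :
    vx (cc n ω (j + 1)) = vx (cc n ω j) ∨
      (lab (cc n ω j) ∈ hat n ω ∧ Ad (ω ∩ Bx 0 n 1 (n + 1) ∩ rev n ω) (vx (cc n ω j))
        (vx (cc n ω (j + 1))) ∧ vx (cc n ω j) + vx (cc n ω (j + 1)) = lab (cc n ω j)) := by
  have h3 : cc n ω (j + 1) = nx (hat n ω) (cc n ω j) := cc_succ n ω j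
  by_cases hl : lab (cc n ω j) ∈ hat n ω
  · right
    have h4 : cc n ω (j + 1) = nxO (cc n ω j) := by rw [h3]; unfold nx; rw [if_pos hl]
    have hv := vx_nxO (cc n ω j)
    rw [← h4] at hv
    refine ⟨hl, ⟨hv.1, ?_⟩, hv.2⟩
    rw [hv.2, mem_inter]
    refine ⟨?_, mem_rev.2 ⟨j, hj, rfl⟩⟩
    have h5 := h.2 j le_rfl (by omega)
    have h6 := h.2 (j + 1) (by omega) (by omega)
    have h7 : 2 ≤ (lab (cc n ω j)).2 := by
      have e := hv.2
      rw [Prod.ext_iff] at e
      simp only [Prod.fst_add, Prod.snd_add] at e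
      have : 1 ≤ (vx (cc n ω j)).2 := by unfold vx; simp only; omega
      have : 1 ≤ (vx (cc n ω (j + 1))).2 := by unfold vx; simp only; omega
      omega
    rw [mem_hat, mem_WR] at hl
    rcases hl with hl | hl
    · exact mem_inter.2 hl
    · omega
  · left
    rw [h3]; unfold nx; rw [if_neg hl, vx_nxC]

/-- The excursion is connected to its last vertex. -/
lemma exc_conn {n : ℕ} {ω : Finset (ℤ × ℤ)} {j : ℕ} (h : exc n ω j) :
    Co (ω ∩ Bx 0 n 1 (n + 1) ∩ rev n ω) (vx (cc n ω j)) (vx (cc n ω (tau n ω))) ∧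
    Relation.ReflTransGen (fun u v => IsUnit4 (v - u) ∧ KK' n ω v) (vx (cc n ω j))
      (vx (cc n ω (tau n ω))) ∧
    Relation.ReflTransGen (fun u v => IsUnit4 (v - u) ∧ KK' n ω v) (vx (cc n ω (tau n ω)))
      (vx (cc n ω j)) := by
  obtain ⟨k, hk⟩ : ∃ k, j + k = tau n ω := ⟨tau n ω - j, by have := h.1; omega⟩
  induction k generalizing j with
  | zero =>
    have : j = tau n ω := by omega
    rw [this]
    exact ⟨Co.refl _ _, Relation.ReflTransGen.refl, Relation.ReflTransGen.refl⟩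
  | succ k ih =>
    have h1 := exc_succ h (by omega)
    obtain ⟨i1, i2, i3⟩ := ih h1 (by omega)
    rcases exc_step h (by omega) with hs | ⟨-, hs, -⟩
    · rw [← hs]; exact ⟨i1, i2, i3⟩
    · refine ⟨Relation.ReflTransGen.head hs i1,
        Relation.ReflTransGen.head ⟨hs.1, ⟨_, h1, rfl⟩⟩ i2, Relation.ReflTransGen.tail i3 ?_⟩
      have := isUnit4_neg hs.1
      rw [neg_sub] at this
      exact ⟨this, ⟨j, h, rfl⟩⟩

lemma KK_range {n : ℕ} {ω : Finset (ℤ × ℤ)} {v : ℤ × ℤ} (h : KK' n ω v) :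
    (0 ≤ v.1 ∧ v.1 ≤ n) ∧ 1 ≤ v.2 := by
  obtain ⟨j, hj, rfl⟩ := h
  have h1 := cc_mem n ω j
  have h2 := hj.2 j le_rfl hj.1
  unfold vx; simp only; omega

/-- Vertices of the excursion and their mirror images. -/
def K2 (n : ℕ) (ω : Finset (ℤ × ℤ)) (v : ℤ × ℤ) : Prop :=
  KK' n ω v ∨ KK' n ω (v.1, 2 * (n : ℤ) + 2 - v.2)

lemma tau_row {n : ℕ} {ω : Finset (ℤ × ℤ)} (h : reach n ω) :
    (vx (cc n ω (tau n ω))).2 = n + 1 := by
  have h1 := tau_spec h
  have h2 := cc_mem n ω (tau n ω)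
  unfold vx; simp only; omega

lemma rtg_mem {α : Type*} {r : α → α → Prop} {A : α → Prop} {p q : α} (hp : A p)
    (h : Relation.ReflTransGen (fun u v => r u v ∧ A v) p q) : A q := by
  induction h with
  | refl => exact hp
  | tail _ hbc _ => exact hbc.2

lemma rtg_symm {α : Type*} {r : α → α → Prop} (hr : ∀ u v, r u v → r v u) {A : α → Prop}
    {p q : α} (hp : A p) (h : Relation.ReflTransGen (fun u v => r u v ∧ A v) p q) :
    Relation.ReflTransGen (fun u v => r u v ∧ A v) q p := by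
  induction h with
  | refl => exact Relation.ReflTransGen.refl
  | tail hab hbc ih =>
    exact Relation.ReflTransGen.head ⟨hr _ _ hbc.1, rtg_mem hp hab⟩ ih

/-- The vertical barrier formed by the excursion and its mirror image. -/
lemma barrier {n : ℕ} {ω : Finset (ℤ × ℤ)} (h : reach n ω) : ∃ r s : ℤ × ℤ, r.2 = 1 ∧
    s.2 = 2 * n + 1 ∧ K2 n ω r ∧
    Relation.ReflTransGen (fun u v => IsUnit4 (v - u) ∧ K2 n ω v) r s := by
  obtain ⟨j, h1, h2, h3, h4⟩ := exists_start h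
  obtain ⟨-, -, h5, -⟩ := start_step h3 h4
  obtain ⟨-, c2, c3⟩ := exc_conn h1
  set r := vx (cc n ω (j + 1)) with hr
  set t := vx (cc n ω (tau n ω)) with ht
  have htrow : t.2 = n + 1 := tau_row h
  refine ⟨r, (r.1, 2 * (n : ℤ) + 2 - r.2), h5, by simp only; omega,
    Or.inl ⟨_, h1, rfl⟩, ?_⟩
  have p1 : Relation.ReflTransGen (fun u v => IsUnit4 (v - u) ∧ K2 n ω v) r t :=
    Relation.ReflTransGen.mono (fun u v huv => ⟨huv.1, Or.inl huv.2⟩) _ _ c2
  have p2 : Relation.ReflTransGen (fun u v => IsUnit4 (v - u) ∧ K2 n ω v)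
      (t.1, 2 * (n : ℤ) + 2 - t.2) (r.1, 2 * (n : ℤ) + 2 - r.2) := by
    refine Relation.ReflTransGen.lift (p := fun u v => IsUnit4 (v - u) ∧ K2 n ω v)
      (fun z : ℤ × ℤ => (z.1, 2 * (n : ℤ) + 2 - z.2)) ?_ _ _ c3
    intro u v huv
    refine ⟨?_, Or.inr ?_⟩
    · have := unit_cases huv.1
      simp only [IsUnit4, Prod.ext_iff, Prod.mk_sub_mk]; omega
    · have e : (v.1, 2 * (n : ℤ) + 2 - (2 * (n : ℤ) + 2 - v.2)) = v := by
        refine Prod.ext rfl ?_; simp only; ring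
      simp only [e]
      exact huv.2
  have e : ((t.1, 2 * (n : ℤ) + 2 - t.2) : ℤ × ℤ) = t := by
    refine Prod.ext rfl ?_; simp only; omega
  rw [e] at p2
  exact p1.trans p2

/-- Path avoiding the barrier after its first vertex. -/
def AV (n m : ℕ) (ω ω' : Finset (ℤ × ℤ)) (u v : ℤ × ℤ) : Prop :=
  Relation.ReflTransGen (fun a b => Ad (ω' ∩ Bx (-m) n 1 (2 * n + 1)) a b ∧ ¬ K2 n ω b) u v

/-- A horizontal crossing leaves the barrier for the last time somewhere. -/
lemma last_visit {n m : ℕ} {ω ω' : Finset (ℤ × ℤ)} (h : reach n ω)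
    (hH : HC (-m) n 1 (2 * n + 1) ω') : ∃ v l : ℤ × ℤ, K2 n ω v ∧ l.1 = -m ∧ AV n m ω ω' v l := by
  obtain ⟨p, q, h1, h2, h3, h4⟩ := hH
  obtain ⟨r, s, r1, r2, r3, r4⟩ := barrier h
  -- last visit decomposition, path from q to p
  have key : ∀ q', Co (ω' ∩ Bx (-m) n 1 (2 * n + 1)) q' p → (AV n m ω ω' q' p) ∨
      ∃ v, K2 n ω v ∧ AV n m ω ω' v p := by
    intro q' hq'
    induction hq' using Relation.ReflTransGen.head_induction_on with
    | refl => exact Or.inl Relation.ReflTransGen.refl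
    | @head a b hab _ ih =>
      rcases ih with ih | ih
      · by_cases hb : K2 n ω b
        · exact Or.inr ⟨b, hb, ih⟩
        · exact Or.inl (Relation.ReflTransGen.head ⟨hab, hb⟩ ih)
      · exact Or.inr ih
  rcases key q h4.symm with h5 | ⟨v, hv, h5⟩
  · -- the whole path avoids the barrier except possibly its start
    by_cases hq : K2 n ω q
    · exact ⟨q, p, hq, h2, h5⟩
    exfalso
    have hqB : inB (-m) n 1 (2 * n + 1) q := h4.inB inter_subset_right h1
    have h6 : Relation.ReflTransGen (fun u v => King (v - u) ∧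
        (inB (-m) n 1 (2 * n + 1) v ∧ ¬ K2 n ω v)) q p := by
      have gen : ∀ p, AV n m ω ω' q p → Relation.ReflTransGen (fun u v => King (v - u) ∧
        (inB (-m) n 1 (2 * n + 1) v ∧ ¬ K2 n ω v)) q p := by
        intro p hp
        induction hp with
        | refl => exact Relation.ReflTransGen.refl
        | tail _ hbc ih =>
          exact Relation.ReflTransGen.tail ih
            ⟨hbc.1.1.king, (hbc.1.inB inter_subset_right).2, hbc.2⟩
      exact gen p h5
    have h7 := rtg_symm (r := fun u v => King (v - u)) (fun u v huv => by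
      unfold King at huv ⊢
      simp only [Prod.fst_sub, Prod.snd_sub] at huv ⊢; omega)
      (A := fun v => inB (-m) n 1 (2 * n + 1) v ∧ ¬ K2 n ω v) ⟨hqB, hq⟩ h6
    have hpK := rtg_mem (A := fun v => inB (-m) n 1 (2 * n + 1) v ∧ ¬ K2 n ω v) ⟨hqB, hq⟩ h6
    obtain ⟨z, hz1, hz2⟩ := cross_set h7 hpK r4 r3
      (c := 1) (d := 2 * n + 1) (a := -m) (b := n) (fun z hz => hz.1.2)
      (fun z hz => by
        rcases hz with hz | hz
        · have := KK_range hz; omega
        · have := KK_range hz; simp only at this; omega) h2 h3 r1 r2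
    exact hz1.2 hz2
  · exact ⟨v, p, hv, h2, h5⟩

/-- Doubled point. -/
def dbl (v : ℤ × ℤ) : ℤ × ℤ := (2 * v.1, 2 * v.2)

/-- The doubled barrier, lower part. -/
def B0 (n : ℕ) (ω : Finset (ℤ × ℤ)) (j0 : ℕ) (z : ℤ × ℤ) : Prop :=
  (∃ v, KK' n ω v ∧ z = dbl v) ∨
    ∃ j, j0 ≤ j ∧ j < tau n ω ∧ z = lab (cc n ω j) ∧ lab (cc n ω j) ∈ hat n ω

lemma unit_symm {u v : ℤ × ℤ} (h : IsUnit4 (v - u)) : IsUnit4 (u - v) := by
  have := isUnit4_neg h
  rwa [neg_sub] at this

/-- The doubled barrier as a path, lower part. -/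
lemma B0_path {n : ℕ} {ω : Finset (ℤ × ℤ)} {j0 : ℕ} (h1 : exc n ω (j0 + 1))
    (h2 : j0 < tau n ω) (h3 : (cc n ω j0).2 = 1) (h4 : (cc n ω (j0 + 1)).2 = 2) :
    Relation.ReflTransGen (fun u v => IsUnit4 (v - u) ∧ B0 n ω j0 v) (lab (cc n ω j0))
      (dbl (vx (cc n ω (tau n ω)))) := by
  obtain ⟨s1, s2, s3, s4⟩ := start_step h3 h4
  have hv := vx_nxO (cc n ω j0)
  rw [← s4] at hv
  have hd : ∀ u v e : ℤ × ℤ, IsUnit4 (v - u) → u + v = e → IsUnit4 (e - dbl u) ∧
      IsUnit4 (dbl v - e) := by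
    intro u v e hu he
    have e1 : e - dbl u = v - u := by
      rw [← he]; unfold dbl; refine Prod.ext ?_ ?_ <;>
      simp only [Prod.fst_sub, Prod.snd_sub, Prod.fst_add, Prod.snd_add] <;> ring
    have e2 : dbl v - e = v - u := by
      rw [← he]; unfold dbl; refine Prod.ext ?_ ?_ <;>
      simp only [Prod.fst_sub, Prod.snd_sub, Prod.fst_add, Prod.snd_add] <;> ring
    rw [e1, e2]; exact ⟨hu, hu⟩
  have gen : ∀ k j, j + k = tau n ω → exc n ω j → j0 + 1 ≤ j →
      Relation.ReflTransGen (fun u v => IsUnit4 (v - u) ∧ B0 n ω j0 v) (dbl (vx (cc n ω j)))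
      (dbl (vx (cc n ω (tau n ω)))) := by
    intro k
    induction k with
    | zero => intro j hj _ _; rw [← hj]; exact Relation.ReflTransGen.refl
    | succ k ih =>
      intro j hj he hjj
      have he' := exc_succ he (by omega)
      have ih' := ih (j + 1) (by omega) he' (by omega)
      rcases exc_step he (by omega) with hs | ⟨hl, hs, hsum⟩
      · rw [← hs]; exact ih'
      · obtain ⟨u1, u2⟩ := hd _ _ _ hs.1 hsum
        refine Relation.ReflTransGen.head ⟨u1, Or.inr ⟨j, by omega, by omega, rfl, hl⟩⟩ ?_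
        exact Relation.ReflTransGen.head ⟨u2, Or.inl ⟨_, ⟨j + 1, he', rfl⟩, rfl⟩⟩ ih'
  obtain ⟨u1, u2⟩ := hd _ _ _ hv.1 hv.2
  refine Relation.ReflTransGen.head ⟨u2, Or.inl ⟨_, ⟨j0 + 1, h1, rfl⟩, rfl⟩⟩ ?_
  exact gen (tau n ω - (j0 + 1)) (j0 + 1) (by omega) h1 le_rfl

/-- The doubled barrier. -/
def B2 (n : ℕ) (ω : Finset (ℤ × ℤ)) (j0 : ℕ) (z : ℤ × ℤ) : Prop :=
  B0 n ω j0 z ∨ B0 n ω j0 (z.1, 4 * (n : ℤ) + 4 - z.2)

lemma B0_range {n : ℕ} {ω : Finset (ℤ × ℤ)} {j0 : ℕ} {z : ℤ × ℤ} (h : B0 n ω j0 z) :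
    0 ≤ z.1 ∧ z.1 ≤ 2 * n := by
  rcases h with ⟨v, hv, rfl⟩ | ⟨j, _, _, rfl, hl⟩
  · have := KK_range hv; unfold dbl; simp only; omega
  · have := mem_EE.1 (hat_sub n ω hl); omega

/-- Faces are not on the barrier. -/
lemma B2_face {n : ℕ} {ω : Finset (ℤ × ℤ)} {j0 : ℕ} {z : ℤ × ℤ} (h : B2 n ω j0 z)
    (h1 : z.1 % 2 = 1) (h2 : z.2 % 2 = 1) : False := by
  have key : ∀ z : ℤ × ℤ, B0 n ω j0 z → z.1 % 2 = 1 → z.2 % 2 = 1 → False := by
    intro z h h1 h2
    rcases h with ⟨v, hv, rfl⟩ | ⟨j, _, _, rfl, hl⟩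
    · unfold dbl at h1; simp only at h1; omega
    · have := mem_EE.1 (hat_sub n ω hl); omega
  rcases h with h | h
  · exact key _ h h1 h2
  · exact key _ h h1 (by simp only; omega)

/-- Vertices outside the barrier. -/
lemma B2_vert {n : ℕ} {ω : Finset (ℤ × ℤ)} {j0 : ℕ} {v : ℤ × ℤ} (h : B2 n ω j0 (dbl v)) :
    K2 n ω v := by
  have key : ∀ v : ℤ × ℤ, B0 n ω j0 (dbl v) → KK' n ω v := by
    intro v h
    rcases h with ⟨u, hu, he⟩ | ⟨j, _, _, he, hl⟩
    · have : v = u := by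
        unfold dbl at he; rw [Prod.ext_iff] at he; simp only at he
        exact Prod.ext (by omega) (by omega)
      rw [this]; exact hu
    · exfalso
      have := mem_EE.1 (hat_sub n ω hl)
      rw [← he] at this; unfold dbl at this; simp only at this; omega
  rcases h with h | h
  · exact Or.inl (key v h)
  · right
    apply key
    have e : ((dbl v).1, 4 * (n : ℤ) + 4 - (dbl v).2) = dbl (v.1, 2 * (n : ℤ) + 2 - v.2) := by
      unfold dbl; refine Prod.ext rfl ?_; simp only; ring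
    rwa [e] at h

/-- Edges between vertices outside the barrier. -/
lemma B2_edge {n : ℕ} {ω : Finset (ℤ × ℤ)} {j0 : ℕ} (hj0 : exc n ω (j0 + 1)) {u v : ℤ × ℤ}
    (hu : IsUnit4 (v - u)) (h : B2 n ω j0 (u + v)) : K2 n ω u ∨ K2 n ω v := by
  have key : ∀ u v : ℤ × ℤ, IsUnit4 (v - u) → B0 n ω j0 (u + v) → KK' n ω u ∨ KK' n ω v := by
    intro u v hu h
    have huc := unit_cases hu
    rcases h with ⟨w, hw, he⟩ | ⟨j, h1, h2, he, hl⟩
    · exfalso
      unfold dbl at he; rw [Prod.ext_iff] at he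
      simp only [Prod.fst_add, Prod.snd_add] at he
      omega
    · have hv := vx_nxO (cc n ω j)
      have h4 : cc n ω (j + 1) = nxO (cc n ω j) := by
        rw [cc_succ]; unfold nx; rw [if_pos hl]
      rw [← h4] at hv
      have hexc : exc n ω (j + 1) :=
        ⟨by omega, fun i hi1 hi2 => hj0.2 i (by omega) hi2⟩
      have hvc := unit_cases hv.1
      have e1 := hv.2
      rw [← he] at e1
      rw [Prod.ext_iff] at e1
      simp only [Prod.fst_add, Prod.snd_add] at e1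
      have : u = vx (cc n ω (j + 1)) ∨ v = vx (cc n ω (j + 1)) := by
        simp only [Prod.ext_iff]; omega
      rcases this with h5 | h5
      · exact Or.inl ⟨j + 1, hexc, h5⟩
      · exact Or.inr ⟨j + 1, hexc, h5⟩
  rcases h with h | h
  · rcases key u v hu h with h1 | h1
    · exact Or.inl (Or.inl h1)
    · exact Or.inr (Or.inl h1)
  · have e : ((u + v).1, 4 * (n : ℤ) + 4 - (u + v).2) =
        (u.1, 2 * (n : ℤ) + 2 - u.2) + (v.1, 2 * (n : ℤ) + 2 - v.2) := by
      refine Prod.ext ?_ ?_ <;> simp only [Prod.fst_add, Prod.snd_add] <;> ring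
    rw [e] at h
    have hu' : IsUnit4 (((v.1, 2 * (n : ℤ) + 2 - v.2) : ℤ × ℤ) -
        (u.1, 2 * (n : ℤ) + 2 - u.2)) := by
      have := unit_cases hu
      simp only [IsUnit4, Prod.ext_iff, Prod.mk_sub_mk]; omega
    rcases key _ _ hu' h with h1 | h1
    · exact Or.inl (Or.inr h1)
    · exact Or.inr (Or.inr h1)

lemma fce_odd (c : ℤ × ℤ) : (fce c).1 % 2 = 1 ∧ (fce c).2 % 2 = 1 := by
  unfold fce; simp only; omega

lemma B2_lab {n : ℕ} {ω : Finset (ℤ × ℤ)} (h : reach n ω) {j0 j : ℕ} (hj : j < tau n ω)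
    (hl : lab (cc n ω j) ∉ hat n ω) : ¬ B2 n ω j0 (lab (cc n ω j)) := by
  have hodd := lab_odd (cc n ω j)
  have hle := lab_le (cc n ω j)
  have hm := tau_min h hj
  rintro (hb | hb)
  · rcases hb with ⟨w, hw, he⟩ | ⟨i, h1, h2, he, hl'⟩
    · unfold dbl at he; rw [he] at hodd; simp only at hodd; omega
    · exact hl (he ▸ hl')
  · rcases hb with ⟨w, hw, he⟩ | ⟨i, h1, h2, he, hl'⟩
    · unfold dbl at he; rw [Prod.ext_iff] at he; simp only at he; omega
    · rw [Prod.ext_iff] at he; simp only at he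
      have hle' := lab_le (cc n ω i)
      have hm' := tau_min h h2
      omega

/-- Revealed faces cannot be joined to the left side without crossing the barrier. -/
lemma no_escape {n m : ℕ} (hm : 1 ≤ m) {ω ω' : Finset (ℤ × ℤ)} (h : reach n ω) {j : ℕ}
    (hj1 : 2 * n + 2 ≤ j) (hj2 : j ≤ tau n ω) {b l : ℤ × ℤ} (hb : ¬ K2 n ω b)
    (hbB : inB (-m) n 1 (2 * n + 1) b) (hAV : AV n m ω ω' b l) (hl : l.1 = -m)
    (hking : King (dbl b - fce (cc n ω j))) : False := by
  obtain ⟨j0, g1, g2, g3, g4⟩ := exists_start h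
  set A : ℤ × ℤ → Prop := fun z => (1 ≤ z.2 ∧ z.2 ≤ 4 * n + 3) ∧ ¬ B2 n ω j0 z with hA
  have hfA : ∀ i, 2 * n + 2 ≤ i → i ≤ tau n ω → A (fce (cc n ω i)) := by
    intro i hi1 hi2
    have h1 := cc_pos h hi1 hi2
    have h2 := cc_mem n ω i
    have h3 := fce_odd (cc n ω i)
    refine ⟨?_, fun hB => B2_face hB h3.1 h3.2⟩
    unfold fce; simp only; omega
  -- faces
  have p3 : ∀ i, 2 * n + 2 ≤ i → i ≤ tau n ω →
      Relation.ReflTransGen (fun u v => King (v - u) ∧ A v) (fce (cc n ω (2 * n + 2)))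
        (fce (cc n ω i)) := by
    intro i hi
    induction i, hi using Nat.le_induction with
    | base => intro _; exact Relation.ReflTransGen.refl
    | succ i hi ih =>
      intro hit
      have ih' := ih (by omega)
      by_cases hlab : lab (cc n ω i) ∈ hat n ω
      · have : fce (cc n ω (i + 1)) = fce (cc n ω i) := by
          rw [cc_succ]; unfold nx; rw [if_pos hlab, fce_nxO]
        rw [this]; exact ih'
      · have e : cc n ω (i + 1) = nxC (cc n ω i) := by
          rw [cc_succ]; unfold nx; rw [if_neg hlab]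
        have u1 := fce_lab (cc n ω i)
        have u2 := fce_nxC (cc n ω i)
        rw [← e] at u2
        have hA2 := hfA (i + 1) (by omega) hit
        refine Relation.ReflTransGen.tail (Relation.ReflTransGen.tail ih' ⟨u1.king, ?_⟩)
          ⟨u2.king, hA2⟩
        have hle := lab_le (cc n ω i)
        have hmin := tau_min h (j := i) (by omega)
        exact ⟨⟨closed_pos h hi (by omega) hlab, by omega⟩, B2_lab h (by omega) hlab⟩
  -- the path of the other configuration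
  have hbA : ∀ v, inB (-m) n 1 (2 * n + 1) v → ¬ K2 n ω v → A (dbl v) := by
    intro v hv hK
    refine ⟨?_, fun hB => hK (B2_vert hB)⟩
    unfold inB at hv; unfold dbl; simp only; omega
  have p1 : Relation.ReflTransGen (fun u v => King (v - u) ∧ A v) (dbl b) (dbl l) ∧
      ¬ K2 n ω l := by
    clear hl hking
    induction hAV with
    | refl => exact ⟨Relation.ReflTransGen.refl, hb⟩
    | @tail y z hy hyz ih =>
      obtain ⟨ih1, ih2⟩ := ih
      have hbox := hyz.1.inB inter_subset_right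
      have hu := hyz.1.1
      have huc := unit_cases hu
      refine ⟨?_, hyz.2⟩
      refine Relation.ReflTransGen.tail (Relation.ReflTransGen.tail ih1 (b := dbl y)
        (c := y + z) ⟨?_, ?_⟩) ⟨?_, hbA z hbox.2 hyz.2⟩
      · unfold King dbl; simp only [Prod.fst_sub, Prod.snd_sub, Prod.fst_add, Prod.snd_add]
        omega
      · refine ⟨?_, ?_⟩
        · have := hbox.1; have := hbox.2
          unfold inB at *
          simp only [Prod.snd_add]; omega
        · intro hB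
          rcases B2_edge g1 hu hB with h5 | h5
          · exact ih2 h5
          · exact hyz.2 h5
      · unfold King dbl; simp only [Prod.fst_sub, Prod.snd_sub, Prod.fst_add, Prod.snd_add]
        omega
  have p2 : Relation.ReflTransGen (fun u v => King (v - u) ∧ A v) (fce (cc n ω (2 * n + 2)))
      (dbl l) :=
    (Relation.ReflTransGen.tail (p3 j hj1 hj2) ⟨hking, hbA b hbB hb⟩).trans p1.1
  have hstart : A (fce (cc n ω (2 * n + 2))) := hfA _ le_rfl (by omega)
  have hend := rtg_mem hstart p2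
  have p4 := rtg_symm (r := fun u v : ℤ × ℤ => King (v - u)) (fun u v huv => by
      unfold King at huv ⊢
      simp only [Prod.fst_sub, Prod.snd_sub] at huv ⊢; omega) hstart p2
  -- the barrier
  have q1 : Relation.ReflTransGen (fun u v => IsUnit4 (v - u) ∧ B2 n ω j0 v)
      (lab (cc n ω j0)) (dbl (vx (cc n ω (tau n ω)))) :=
    Relation.ReflTransGen.mono (fun u v huv => ⟨huv.1, Or.inl huv.2⟩) _ _
      (B0_path g1 g2 g3 g4)
  obtain ⟨s1, s2, s3, s4⟩ := start_step g3 g4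
  have hst : B0 n ω j0 (lab (cc n ω j0)) := Or.inr ⟨j0, le_rfl, g2, rfl, s1⟩
  have q2 := rtg_symm (r := fun u v : ℤ × ℤ => IsUnit4 (v - u)) (fun u v huv => unit_symm huv)
    hst (B0_path g1 g2 g3 g4)
  have q3 : Relation.ReflTransGen (fun u v => IsUnit4 (v - u) ∧ B2 n ω j0 v)
      ((dbl (vx (cc n ω (tau n ω)))).1, 4 * (n : ℤ) + 4 - (dbl (vx (cc n ω (tau n ω)))).2)
      ((lab (cc n ω j0)).1, 4 * (n : ℤ) + 4 - (lab (cc n ω j0)).2) := by
    refine Relation.ReflTransGen.lift (p := fun u v => IsUnit4 (v - u) ∧ B2 n ω j0 v)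
      (fun z : ℤ × ℤ => (z.1, 4 * (n : ℤ) + 4 - z.2)) ?_ _ _ q2
    intro u v huv
    refine ⟨?_, Or.inr ?_⟩
    · have := unit_cases huv.1
      simp only [IsUnit4, Prod.ext_iff, Prod.mk_sub_mk]; omega
    · have e : (v.1, 4 * (n : ℤ) + 4 - (4 * (n : ℤ) + 4 - v.2)) = v := by
        refine Prod.ext rfl ?_; simp only; ring
      simp only [e]
      exact huv.2
  have htr := tau_row h
  have e : ((dbl (vx (cc n ω (tau n ω)))).1, 4 * (n : ℤ) + 4 -
      (dbl (vx (cc n ω (tau n ω)))).2) = dbl (vx (cc n ω (tau n ω))) := by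
    refine Prod.ext rfl ?_; unfold dbl; simp only; omega
  rw [e] at q3
  have q4 := q1.trans q3
  obtain ⟨z, hz1, hz2⟩ := cross_set p4 hend q4 (Or.inl hst) (a := -(2 * m)) (b := 2 * n + 1)
    (c := 1) (d := 4 * n + 3) (fun z hz => hz.1) (fun z hz => by
      rcases hz with hz | hz
      · have := B0_range hz; omega
      · have := B0_range hz; simp only at this; omega)
    (by unfold dbl; simp only; omega) (by rw [cc_first]; unfold fce; simp only; omega) s2
    (by simp only; omega)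
  exact hz1.2 hz2

end Pool.Agent.H75.Perc
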