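import Mathlib
import Pool.Agent.H75.Perc.RswB

set_option autoImplicit false
open Finset

/-! Resampling outside a stopping set, and the RSW lemma. -/

namespace Pool.Agent.H75.Perc

variable {α : Type*} [DecidableEq α]

/-- Keep `ω` on `U`, take `ω'` outside. -/
def mix (U ω ω' : Finset α) : Finset α := (ω ∩ U) ∪ (ω' \ U)

lemma mem_mix {U ω ω' : Finset α} {e : α} :
    e ∈ mix U ω ω' ↔ (e ∈ ω ∧ e ∈ U) ∨ (e ∈ ω' ∧ e ∉ U) := by
  unfold mix; rw [mem_union, mem_inter, mem_sdiff]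

lemma mix_mix (U ω ω' : Finset α) : mix U (mix U ω ω') (mix U ω' ω) = ω := by
  ext e; simp only [mem_mix]; tauto

/-- Resampling inequality. -/
lemma resample (E : Finset α) (U : Finset α → Finset α)
    (hU : ∀ ω ω', ω ⊆ E → ω' ⊆ E → U (mix (U ω) ω ω') = U ω)
    (A B : Finset α → Prop) (Y : Finset α → Finset α → Prop) (q : ℝ)
    (hq : ∀ ω, ω ⊆ E → B ω → q ≤ Pr E (Y ω))
    (hY : ∀ ω ω', ω ⊆ E → ω' ⊆ E → B ω → Y ω ω' → A (mix (U ω) ω ω')) :
    Pr E B * q ≤ Pr E A := by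
  classical
  have hsub : ∀ V ω ω' : Finset α, ω ⊆ E → ω' ⊆ E → mix V ω ω' ⊆ E := by
    intro V ω ω' h1 h2 e he
    rw [mem_mix] at he
    rcases he with he | he
    · exact h1 he.1
    · exact h2 he.1
  set P := E.powerset ×ˢ E.powerset with hP
  have c1 : (P.filter (fun p => A (mix (U p.1) p.1 p.2))).card =
      (P.filter (fun p => A p.1)).card := by
    apply card_nbij' (fun p => (mix (U p.1) p.1 p.2, mix (U p.1) p.2 p.1))
      (fun p => (mix (U p.1) p.1 p.2, mix (U p.1) p.2 p.1))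
    · intro p hp
      rw [mem_coe, mem_filter, hP, mem_product, mem_powerset, mem_powerset] at hp ⊢
      exact ⟨⟨hsub _ _ _ hp.1.1 hp.1.2, hsub _ _ _ hp.1.2 hp.1.1⟩, hp.2⟩
    · intro p hp
      rw [mem_coe, mem_filter, hP, mem_product, mem_powerset, mem_powerset] at hp ⊢
      refine ⟨⟨hsub _ _ _ hp.1.1 hp.1.2, hsub _ _ _ hp.1.2 hp.1.1⟩, ?_⟩
      simp only
      rw [hU _ _ hp.1.1 hp.1.2, mix_mix]
      exact hp.2
    · intro p hp
      rw [mem_coe, mem_filter, hP, mem_product, mem_powerset, mem_powerset] at hp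
      simp only
      rw [hU _ _ hp.1.1 hp.1.2, mix_mix, mix_mix]
    · intro p hp
      rw [mem_coe, mem_filter, hP, mem_product, mem_powerset, mem_powerset] at hp
      simp only
      rw [hU _ _ hp.1.1 hp.1.2, mix_mix, mix_mix]
  have c2 : (P.filter (fun p => A p.1)).card = (E.powerset.filter A).card * 2 ^ E.card := by
    have : P.filter (fun p => A p.1) = (E.powerset.filter A) ×ˢ E.powerset := by
      ext p
      simp only [hP, mem_filter, mem_product]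
      tauto
    rw [this, card_product, card_powerset]
  have c3 : (P.filter (fun p => B p.1 ∧ Y p.1 p.2)).card ≤
      (P.filter (fun p => A (mix (U p.1) p.1 p.2))).card := by
    apply card_le_card
    intro p hp
    rw [mem_filter, hP, mem_product, mem_powerset, mem_powerset] at hp ⊢
    exact ⟨hp.1, hY _ _ hp.1.1 hp.1.2 hp.2.1 hp.2.2⟩
  have c4 : (P.filter (fun p => B p.1 ∧ Y p.1 p.2)).card =
      ∑ ω ∈ E.powerset.filter B, (E.powerset.filter (Y ω)).card := by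
    rw [← card_sigma]
    apply card_nbij' (fun p => (⟨p.1, p.2⟩ : Sigma fun _ : Finset α => Finset α))
      (fun s => (s.1, s.2))
    · intro p hp
      rw [mem_coe, mem_filter, hP, mem_product] at hp
      rw [mem_coe, mem_sigma, mem_filter, mem_filter]
      exact ⟨⟨hp.1.1, hp.2.1⟩, hp.1.2, hp.2.2⟩
    · intro s hs
      rw [mem_coe, mem_sigma, mem_filter, mem_filter] at hs
      rw [mem_coe, mem_filter, hP, mem_product]
      exact ⟨⟨hs.1.1, hs.2.1⟩, hs.1.2, hs.2.2⟩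
    · intro p _; rfl
    · intro s _; rfl
  have c5 : ((E.powerset.filter B).card : ℝ) * (q * 2 ^ E.card) ≤
      ((∑ ω ∈ E.powerset.filter B, (E.powerset.filter (Y ω)).card : ℕ) : ℝ) := by
    push_cast
    rw [← nsmul_eq_mul]
    apply Finset.card_nsmul_le_sum
    intro ω hω
    rw [mem_filter, mem_powerset] at hω
    have := hq ω hω.1 hω.2
    rw [Pr_eq, le_div_iff₀ (by positivity)] at this
    exact this
  have c6 : ((E.powerset.filter B).card : ℝ) * (q * 2 ^ E.card) ≤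
      ((E.powerset.filter A).card : ℝ) * 2 ^ E.card := by
    refine c5.trans ?_
    rw [← c4]
    have : (P.filter (fun p => B p.1 ∧ Y p.1 p.2)).card ≤
        (E.powerset.filter A).card * 2 ^ E.card := by rw [← c2, ← c1]; exact c3
    exact_mod_cast this
  have hpos : (0 : ℝ) < 2 ^ E.card := by positivity
  rw [Pr_eq, Pr_eq, div_mul_eq_mul_div, div_le_div_iff_of_pos_right hpos]
  have c7 : ((E.powerset.filter B).card : ℝ) * q * 2 ^ E.card ≤
      ((E.powerset.filter A).card : ℝ) * 2 ^ E.card := by rw [mul_assoc]; exact c6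
  exact le_of_mul_le_mul_right c7 hpos

section

variable {n m : ℕ}

lemma agree_cc {ω ω1 : Finset (ℤ × ℤ)}
    (ha : ∀ e ∈ rev n ω, (e ∈ ω1 ↔ e ∈ ω)) : ∀ j ≤ tau n ω, cc n ω1 j = cc n ω j := by
  intro j
  induction j with
  | zero => intro _; rfl
  | succ j ih =>
    intro hj
    rw [cc_succ, cc_succ, ih (by omega)]
    have he := ha _ (mem_rev.2 ⟨j, by omega, rfl⟩)
    have : lab (cc n ω j) ∈ hat n ω1 ↔ lab (cc n ω j) ∈ hat n ω := by
      rw [mem_hat, mem_hat, he]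
    unfold nx
    by_cases hl : lab (cc n ω j) ∈ hat n ω
    · rw [if_pos hl, if_pos (this.2 hl)]
    · rw [if_neg hl, if_neg (fun h' => hl (this.1 h'))]

lemma agree_all {ω ω1 : Finset (ℤ × ℤ)} (h : reach n ω)
    (ha : ∀ e ∈ rev n ω, (e ∈ ω1 ↔ e ∈ ω)) : reach n ω1 ∧ rev n ω1 = rev n ω := by
  have h1 := agree_cc ha
  obtain ⟨h2, h3⟩ := tau_eq (n := n) (ω := ω1) (t := tau n ω)
    (by rw [h1 _ le_rfl]; exact tau_spec h)
    (fun j hj => by rw [h1 j (by omega)]; exact tau_min h hj)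
  refine ⟨h2, ?_⟩
  ext e
  rw [mem_rev, mem_rev, h3]
  constructor
  · rintro ⟨j, hj, he⟩; exact ⟨j, hj, by rw [← he, h1 j (by omega)]⟩
  · rintro ⟨j, hj, he⟩; exact ⟨j, hj, by rw [← he, h1 j (by omega)]⟩

open Classical in
/-- The stopping set. -/
noncomputable def UU (n m : ℕ) (ω : Finset (ℤ × ℤ)) : Finset (ℤ × ℤ) :=
  if reach n ω then rev n ω else Bx (-m) n 1 (2 * n + 1)

lemma UU_mix {ω ω' : Finset (ℤ × ℤ)} (h1 : ω ⊆ Bx (-m) n 1 (2 * n + 1))
    (h2 : ω' ⊆ Bx (-m) n 1 (2 * n + 1)) : UU n m (mix (UU n m ω) ω ω') = UU n m ω := by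
  classical
  by_cases h : reach n ω
  · have e1 : UU n m ω = rev n ω := by unfold UU; rw [if_pos h]
    rw [e1]
    obtain ⟨h3, h4⟩ := agree_all (ω1 := mix (rev n ω) ω ω') h (by
      intro e he; rw [mem_mix]; tauto)
    unfold UU
    rw [if_pos h3, h4]
  · have e1 : UU n m ω = Bx (-m) n 1 (2 * n + 1) := by unfold UU; rw [if_neg h]
    have e2 : mix (UU n m ω) ω ω' = ω := by
      rw [e1]
      ext e
      rw [mem_mix]
      constructor
      · rintro (h3 | h3)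
        · exact h3.1
        · exact absurd (h2 h3.1) h3.2
      · intro h3; exact Or.inl ⟨h3, h1 h3⟩
    rw [e2]

/-- A vertical crossing of `[0,n] × [1,n+1]` is connected to the left side of the large box. -/
def XX (n m : ℕ) (ω : Finset (ℤ × ℤ)) : Prop :=
  ∃ b t l : ℤ × ℤ, inB 0 n 1 (n + 1) b ∧ b.2 = 1 ∧ t.2 = n + 1 ∧ l.1 = -m ∧
    Co (ω ∩ Bx 0 n 1 (n + 1)) b t ∧ Co (ω ∩ Bx (-m) n 1 (2 * n + 1)) b l

/-- Fresh event: a path from the excursion to the left side. -/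
def YY (n m : ℕ) (ω ω' : Finset (ℤ × ℤ)) : Prop :=
  ∃ v l : ℤ × ℤ, KK' n ω v ∧ l.1 = -m ∧ AV n m ω ω' v l

lemma YY_XX (hm : 1 ≤ m) {ω ω' : Finset (ℤ × ℤ)} (h : reach n ω) (hY : YY n m ω ω') :
    XX n m (mix (UU n m ω) ω ω') := by
  classical
  obtain ⟨v, l, hv, hl, hAV⟩ := hY
  obtain ⟨j0, g1, g2, g3, g4⟩ := exists_start h
  obtain ⟨s1, s2, s3, s4⟩ := start_step g3 g4
  have e1 : UU n m ω = rev n ω := by unfold UU; rw [if_pos h]
  rw [e1]
  obtain ⟨i, hi, rfl⟩ := hv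
  have hS : Bx 0 n 1 (n + 1) ⊆ Bx (-m) n 1 (2 * (n : ℤ) + 1) :=
    Bx_sub (by omega) le_rfl le_rfl (by omega)
  have hsub : ω ∩ Bx 0 n 1 (n + 1) ∩ rev n ω ⊆ mix (rev n ω) ω ω' ∩ Bx 0 n 1 (n + 1) := by
    intro e he
    rw [mem_inter, mem_inter] at he
    rw [mem_inter, mem_mix]
    exact ⟨Or.inl ⟨he.1.1, he.2⟩, he.1.2⟩
  have c1 := (exc_conn g1).1.mono hsub
  have c2 := (exc_conn hi).1.mono hsub
  have hbot : inB 0 n 1 (n + 1) (vx (cc n ω (j0 + 1))) := by
    have := KK_range (n := n) (ω := ω) ⟨_, g1, rfl⟩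
    unfold inB; omega
  have hvB : inB 0 n 1 (n + 1) (vx (cc n ω i)) :=
    (c1.trans c2.symm).inB inter_subset_right hbot
  refine ⟨vx (cc n ω (j0 + 1)), vx (cc n ω (tau n ω)), l, hbot, s3, tau_row h, hl, c1, ?_⟩
  refine (((c1.trans c2.symm)).mono (inter_subset_inter_left hS)).trans ?_
  -- the fresh path is unrevealed
  have hvB' : inB (-m) n 1 (2 * (n : ℤ) + 1) (vx (cc n ω i)) := by
    unfold inB at hvB ⊢; omega
  clear c1 c2 hbot hvB hsub
  generalize vx (cc n ω i) = v at hAV hvB'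
  unfold AV at hAV
  induction hAV using Relation.ReflTransGen.head_induction_on with
  | refl => exact Co.refl _ _
  | @head a b hab hbl ih =>
    have hbB := (hab.1.inB inter_subset_right).2
    refine Relation.ReflTransGen.head ⟨hab.1.1, ?_⟩ (ih hbB)
    have hmem := hab.1.2
    rw [mem_inter] at hmem
    rw [mem_inter, mem_mix]
    refine ⟨Or.inr ⟨hmem.1, ?_⟩, hmem.2⟩
    intro hrev
    obtain ⟨j, hj, he⟩ := mem_rev.1 hrev
    have hj1 : 2 * n + 2 ≤ j := by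
      by_contra hlt
      have h1 := cc_bottom n ω j (by omega)
      have h2 := lab_le (cc n ω j)
      rw [h1] at h2
      have h3 := mem_Bx.1 hmem.2
      rw [← he, h1] at h3
      simp only at h2
      omega
    refine no_escape hm h hj1 (by omega) hab.2 hbB hbl hl ?_
    have u1 := unit_cases hab.1.1
    have u2 := unit_cases (fce_lab (cc n ω j))
    have u3 := fce_odd (cc n ω j)
    rw [he] at u2
    simp only [Prod.fst_add, Prod.snd_add] at u2
    unfold King dbl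
    simp only [Prod.fst_sub, Prod.snd_sub]
    omega

/-- The mirror image of an avoiding path. -/
lemma AV_mirror {ω ω' : Finset (ℤ × ℤ)} {u v : ℤ × ℤ} (h : AV n m ω ω' u v) :
    AV n m ω (ω'.map (syY (2 * (n : ℤ) + 2)).G) (u.1, 2 * (n : ℤ) + 2 - u.2)
      (v.1, 2 * (n : ℤ) + 2 - v.2) := by
  unfold AV at h ⊢
  refine Relation.ReflTransGen.lift (fun z : ℤ × ℤ => (z.1, 2 * (n : ℤ) + 2 - z.2)) ?_ _ _ h
  intro a b hab
  have hE : ∀ e, e ∈ Bx (-m) n 1 (2 * (n : ℤ) + 1) ↔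
      (syY (2 * (n : ℤ) + 2)).G' e ∈ Bx (-m) n 1 (2 * (n : ℤ) + 1) := by
    intro e
    rw [mem_Bx, mem_Bx]
    simp only [syY]
    omega
  refine ⟨?_, ?_⟩
  · rw [(syY (2 * (n : ℤ) + 2)).map_inter ω' hE]
    exact ((syY (2 * (n : ℤ) + 2)).ad_iff _ a b).2 hab.1
  · intro hK
    apply hab.2
    rcases hK with hK | hK
    · exact Or.inr hK
    · left
      have e : ((b.1, 2 * (n : ℤ) + 2 - (2 * (n : ℤ) + 2 - b.2)) : ℤ × ℤ) = b := by
        refine Prod.ext rfl ?_; simp only; ring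
      simp only [e] at hK
      exact hK

lemma Pr_YY {ω : Finset (ℤ × ℤ)} (h : reach n ω) :
    fc (n + m) (2 * n) / 2 ≤ Pr (Bx (-m) n 1 (2 * n + 1)) (YY n m ω) := by
  have h1 : Pr (Bx (-m) n 1 (2 * n + 1)) (HC (-m) n 1 (2 * n + 1)) ≤
      Pr (Bx (-m) n 1 (2 * n + 1)) (fun ω' => YY n m ω ω' ∨
        YY n m ω (ω'.map (syY (2 * (n : ℤ) + 2)).G)) := by
    apply Pr_mono
    intro ω' _ hH
    obtain ⟨v, l, hv, hl, hAV⟩ := last_visit h hH
    rcases hv with hv | hv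
    · exact Or.inl ⟨v, l, hv, hl, hAV⟩
    · exact Or.inr ⟨(v.1, 2 * (n : ℤ) + 2 - v.2), (l.1, 2 * (n : ℤ) + 2 - l.2), hv, hl,
        AV_mirror hAV⟩
  have hE : ∀ e, e ∈ Bx (-m) n 1 (2 * (n : ℤ) + 1) ↔
      (syY (2 * (n : ℤ) + 2)).G' e ∈ Bx (-m) n 1 (2 * (n : ℤ) + 1) := by
    intro e
    rw [mem_Bx, mem_Bx]
    simp only [syY]
    omega
  have h2 := (syY (2 * (n : ℤ) + 2)).Pr hE (YY n m ω)
  have h3 := Pr_or_le (Bx (-m) n 1 (2 * n + 1)) (YY n m ω)
    (fun ω' => YY n m ω (ω'.map (syY (2 * (n : ℤ) + 2)).G))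
  rw [Pr_HC' (subset_refl _)] at h1
  have e1 : (n : ℤ) - -m = n + m := by ring
  have e2 : 2 * (n : ℤ) + 1 - 1 = 2 * n := by ring
  rw [e1, e2] at h1
  linarith

/-- The RSW lemma. -/
theorem Pr_XX (hm : 1 ≤ m) :
    fc n n * (fc (n + m) (2 * n) / 2) ≤ Pr (Bx (-m) n 1 (2 * n + 1)) (XX n m) := by
  have h1 := resample (Bx (-m) n 1 (2 * (n : ℤ) + 1)) (UU n m)
    (fun ω ω' h1 h2 => UU_mix h1 h2) (XX n m) (VC 0 n 1 (n + 1)) (YY n m)
    (fc (n + m) (2 * n) / 2) (fun ω _ hV => Pr_YY (VC_reach hV))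
    (fun ω ω' _ _ hV hY => YY_XX hm (VC_reach hV) hY)
  rw [Pr_VC (Bx_sub (by omega) le_rfl le_rfl (by omega))] at h1
  have e1 : (n : ℤ) + 1 - 1 = n := by ring
  have e2 : (n : ℤ) - 0 = n := by ring
  rw [e1, e2] at h1
  exact h1

end

end Pool.Agent.H75.Perc
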