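import Mathlib
import Pool.Agent.H75.Perc.RswC

set_option autoImplicit false
open Finset

/-! Russo–Seymour–Welsh: long rectangles are crossed with probability bounded below. -/

namespace Pool.Agent.H75.Perc

lemma XX_inc (n m : ℕ) : Inc (XX n m) := by
  rintro ω ω' h ⟨b, t, l, h1, h2, h3, h4, h5, h6⟩
  exact ⟨b, t, l, h1, h2, h3, h4, h5.mono (inter_subset_inter_right h),
    h6.mono (inter_subset_inter_right h)⟩

lemma map_inc {A : Finset (ℤ × ℤ) → Prop} (hA : Inc A) (f : (ℤ × ℤ) ↪ (ℤ × ℤ)) :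
    Inc (fun ω => A (ω.map f)) := fun ω ω' h h' => hA _ _ (map_subset_map.2 h) h'

lemma XX_restrict (n m : ℕ) (ω : Finset (ℤ × ℤ)) :
    XX n m ω ↔ XX n m (ω ∩ Bx (-m) n 1 (2 * n + 1)) := by
  unfold XX
  have e1 : ω ∩ Bx (-m) n 1 (2 * (n : ℤ) + 1) ∩ Bx 0 n 1 (n + 1) = ω ∩ Bx 0 n 1 (n + 1) := by
    rw [inter_assoc]
    congr 1
    exact inter_eq_right.2 (Bx_sub (by omega) le_rfl le_rfl (by omega))
  rw [e1, inter_assoc, inter_self]

/-- From the RSW lemma to a crossing. -/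
lemma XX_glue {n m : ℕ} {ω : Finset (ℤ × ℤ)} (h1 : XX n m ω)
    (h2 : XX n m (ω.map (syX n).G)) (h3 : HC 0 n 1 (n + 1) ω) :
    HC (-m) (n + m) 1 (2 * n + 1) ω := by
  obtain ⟨b, t, l, b1, b2, b3, b4, b5, b6⟩ := h1
  obtain ⟨b', t', l', c1, c2, c3, c4, c5, c6⟩ := h2
  obtain ⟨p, q, p1, p2, p3, p4⟩ := h3
  have hE1 : ∀ e, e ∈ Bx 0 n 1 ((n : ℤ) + 1) ↔ (syX n).G' e ∈ Bx 0 n 1 ((n : ℤ) + 1) := by
    intro e
    rw [mem_Bx, mem_Bx]
    simp only [syX]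
    omega
  have hE2 : ∀ e, e ∈ Bx (-m) n 1 (2 * (n : ℤ) + 1) ↔
      (syX n).G' e ∈ Bx 0 (n + m) 1 (2 * (n : ℤ) + 1) := by
    intro e
    rw [mem_Bx, mem_Bx]
    simp only [syX]
    omega
  rw [(syX n).map_inter ω hE1] at c5
  rw [(syX n).map_inter ω hE2] at c6
  have gg : ∀ z : ℤ × ℤ, (syX n).g ((n : ℤ) - z.1, z.2) = z := by
    intro z; simp [syX]
  rw [← gg b', ← gg t', (syX n).co_iff] at c5
  rw [← gg b', ← gg l', (syX n).co_iff] at c6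
  obtain ⟨z, z1, z2⟩ := cross_co inter_subset_right inter_subset_right p1 b1 p4 b5 p2 p3 b2 b3
  obtain ⟨z', z1', z2'⟩ := cross_co inter_subset_right inter_subset_right p1
    (r := ((n : ℤ) - b'.1, b'.2)) (by unfold inB at c1 ⊢; simp only; omega) p4 c5 p2 p3 c2 c3
  have m1 : ω ∩ Bx 0 n 1 (n + 1) ⊆ ω ∩ Bx (-m) (n + m) 1 (2 * n + 1) :=
    inter_subset_inter_left (Bx_sub (by omega) (by omega) le_rfl (by omega))
  have m2 : ω ∩ Bx (-m) n 1 (2 * n + 1) ⊆ ω ∩ Bx (-m) (n + m) 1 (2 * n + 1) :=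
    inter_subset_inter_left (Bx_sub le_rfl (by omega) le_rfl le_rfl)
  have m3 : ω ∩ Bx 0 (n + m) 1 (2 * n + 1) ⊆ ω ∩ Bx (-m) (n + m) 1 (2 * n + 1) :=
    inter_subset_inter_left (Bx_sub (by omega) le_rfl le_rfl le_rfl)
  have hl : inB (-m) (n + m) 1 (2 * (n : ℤ) + 1) l := by
    have : inB (-m) n 1 (2 * (n : ℤ) + 1) l :=
      b6.inB inter_subset_right (by unfold inB at b1 ⊢; omega)
    unfold inB at this ⊢; omega
  refine ⟨l, ((n : ℤ) - l'.1, l'.2), hl, b4, by simp only; omega, ?_⟩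
  exact ((b6.symm.mono m2).trans ((z2.trans z1.symm).mono m1)).trans
    (((z1'.trans z2'.symm).mono m1).trans (c6.mono m3))

lemma fc_step {n m : ℕ} (hm : 1 ≤ m) :
    (fc n n * (fc (n + m) (2 * n) / 2)) ^ 2 * fc n n ≤ fc (n + 2 * m) (2 * n) := by
  set E := Bx (-m) (n + m) 1 (2 * (n : ℤ) + 1) with hE
  have hsub : Bx (-m) n 1 (2 * (n : ℤ) + 1) ⊆ E := Bx_sub le_rfl (by omega) le_rfl le_rfl
  have h1 : fc n n * (fc (n + m) (2 * n) / 2) ≤ Pr E (XX n m) := by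
    have : Pr E (XX n m) = Pr (Bx (-m) n 1 (2 * (n : ℤ) + 1)) (XX n m) := by
      rw [← Pr_restrict hsub]
      exact Pr_congr fun ω _ => XX_restrict n m ω
    rw [this]
    exact Pr_XX hm
  have hEE : ∀ e, e ∈ E ↔ (syX n).G' e ∈ E := by
    intro e
    rw [hE, mem_Bx, mem_Bx]
    simp only [syX]
    omega
  have h2 : Pr E (fun ω => XX n m (ω.map (syX n).G)) = Pr E (XX n m) :=
    ((syX n).Pr hEE (XX n m)).symm
  have h3 : Pr E (HC 0 n 1 (n + 1)) = fc n n := by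
    rw [Pr_HC' (Bx_sub (by omega) (by omega) le_rfl (by omega))]
    congr 1 <;> ring
  have h4 : Pr E (HC (-m) (n + m) 1 (2 * n + 1)) = fc (n + 2 * m) (2 * n) := by
    rw [Pr_HC' (subset_refl _)]
    congr 1 <;> ring
  have h5 := harris3 E (XX_inc n m) (map_inc (XX_inc n m) (syX n).G) (HC_inc 0 n 1 (n + 1))
  have h6 : Pr E (fun ω => XX n m ω ∧ XX n m (ω.map (syX n).G) ∧ HC 0 n 1 (n + 1) ω) ≤
      Pr E (HC (-m) (n + m) 1 (2 * n + 1)) :=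
    Pr_mono fun ω _ h => XX_glue h.1 h.2.1 h.2.2
  rw [h2, h3] at h5
  rw [h4] at h6
  refine le_trans ?_ (h5.trans h6)
  have h7 : 0 ≤ fc n n * (fc (n + m) (2 * n) / 2) :=
    mul_nonneg (fc_nonneg _ _) (div_nonneg (fc_nonneg _ _) (by norm_num))
  have h8 := fc_nonneg n n
  apply mul_le_mul_of_nonneg_right _ h8
  rw [pow_two]
  exact mul_le_mul h1 h1 h7 (h7.trans h1)

/-- `3 : 2` rectangles. -/
theorem fc_three {n : ℕ} (hn : 1 ≤ n) : 1 / 128 ≤ fc (3 * n) (2 * n) := by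
  have h1 := fc_step (n := n) (m := n) hn
  have h2 := fc_square n
  have h3 := fc_square (2 * n)
  have e1 : (n : ℤ) + n = 2 * n := by ring
  have e2 : (n : ℤ) + 2 * n = 3 * n := by ring
  rw [e1, e2] at h1
  push_cast at h3
  refine le_trans ?_ h1
  have h4 : (1 : ℝ) / 8 ≤ fc n n * (fc (2 * n) (2 * n) / 2) := by nlinarith
  have h5 : ((1 : ℝ) / 8) ^ 2 ≤ (fc n n * (fc (2 * n) (2 * n) / 2)) ^ 2 :=
    pow_le_pow_left₀ (by norm_num) h4 2
  nlinarith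

theorem fc_four {n : ℕ} (hn : 1 ≤ n) : 1 / 2 ^ 15 ≤ fc (4 * n) (2 * n) := by
  have h1 := fc_three hn
  have h2 := fc_square (2 * n)
  push_cast at h2
  have h3 := fc_glue (w1 := 3 * (n : ℤ)) (w2 := 3 * n) (v := 2 * n) (h := 2 * n) (by omega)
    (by omega) (by omega)
  have e1 : 3 * (n : ℤ) + 3 * n - 2 * n = 4 * n := by ring
  rw [e1] at h3
  refine le_trans ?_ h3
  have h4 : (1 : ℝ) / 128 * (1 / 128) ≤ fc (3 * n) (2 * n) * fc (3 * n) (2 * n) :=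
    mul_le_mul h1 h1 (by norm_num) (by linarith)
  nlinarith

theorem fc_six {n : ℕ} (hn : 1 ≤ n) : 1 / 2 ^ 31 ≤ fc (6 * n) (2 * n) := by
  have h1 := fc_four hn
  have h2 := fc_square (2 * n)
  push_cast at h2
  have h3 := fc_glue (w1 := 4 * (n : ℤ)) (w2 := 4 * n) (v := 2 * n) (h := 2 * n) (by omega)
    (by omega) (by omega)
  have e1 : 4 * (n : ℤ) + 4 * n - 2 * n = 6 * n := by ring
  rw [e1] at h3
  refine le_trans ?_ h3
  have h4 : (1 : ℝ) / 2 ^ 15 * (1 / 2 ^ 15) ≤ fc (4 * n) (2 * n) * fc (4 * n) (2 * n) :=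
    mul_le_mul h1 h1 (by norm_num) (le_trans (by norm_num) h1)
  have h5 : (1 : ℝ) / 2 ^ 15 * (1 / 2 ^ 15) * (1 / 2) ≤
      fc (4 * n) (2 * n) * fc (4 * n) (2 * n) * fc (2 * n) (2 * n) :=
    mul_le_mul h4 h2 (by norm_num) (le_trans (by norm_num) h4)
  refine le_trans ?_ h5
  norm_num

theorem fc_eight {n : ℕ} (hn : 1 ≤ n) : 1 / 2 ^ 47 ≤ fc (8 * n) (2 * n) := by
  have h1 := fc_four hn
  have h1' := fc_six hn
  have h2 := fc_square (2 * n)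
  push_cast at h2
  have h3 := fc_glue (w1 := 6 * (n : ℤ)) (w2 := 4 * n) (v := 2 * n) (h := 2 * n) (by omega)
    (by omega) (by omega)
  have e1 : 6 * (n : ℤ) + 4 * n - 2 * n = 8 * n := by ring
  rw [e1] at h3
  refine le_trans ?_ h3
  have h4 : (1 : ℝ) / 2 ^ 31 * (1 / 2 ^ 15) ≤ fc (6 * n) (2 * n) * fc (4 * n) (2 * n) :=
    mul_le_mul h1' h1 (by norm_num) (le_trans (by norm_num) h1')
  have h5 : (1 : ℝ) / 2 ^ 31 * (1 / 2 ^ 15) * (1 / 2) ≤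
      fc (6 * n) (2 * n) * fc (4 * n) (2 * n) * fc (2 * n) (2 * n) :=
    mul_le_mul h4 h2 (by norm_num) (le_trans (by norm_num) h4)
  refine le_trans ?_ h5
  norm_num

end Pool.Agent.H75.Perc
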