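import Mathlib
import Pool.Agent.H75.Perc.Orbit2

set_option autoImplicit false
open Finset

/-! Indices along an orbit are not changed by an exchange (when the total turning stays `4`). -/

namespace Pool.Agent.H75.Perc

variable {α : Type*}

/-- Turning after the cut of a split. -/
lemma Swapped.split_KK_after {f f' : α → α} {p q : α} (h : Swapped f f' p q) {δ δ' : α → ℤ}
    {e : ℤ} (hδ : ∀ x, x ≠ p → x ≠ q → δ' x = δ x) (hq1 : δ q = e) (hp2 : δ' p = -e)
    {c : α} {L : ℕ} (k0 : ℤ)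
    (hO : Orb f c L) {a b : ℕ} (hab : a < b) (hbL : b < L) (ha : f^[a] c = p)
    (hb : f^[b] c = q) : ∀ j, j ≤ L - 1 - b →
    KK f' δ' c k0 (a + 1 + j) =
      KK f δ c k0 a - e + (KK f δ c k0 (b + 1 + j) - KK f δ c k0 b - e) := by
  obtain ⟨h1, h2, h3⟩ := h.split hO hab hbL ha hb
  obtain ⟨k1, -⟩ := h.split_KK hδ hq1 hp2 k0 hO hab hbL ha hb
  intro j
  induction j with
  | zero =>
    intro _
    simp only [add_zero]
    rw [KK_succ, h1 a le_rfl, k1 a le_rfl, ha, hp2, KK_succ, hb, hq1]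
    ring
  | succ j ih =>
    intro hj
    have e1 : a + 1 + (j + 1) = (a + 1 + j) + 1 := by ring
    have e2 : b + 1 + (j + 1) = (b + 1 + j) + 1 := by ring
    rw [e1, e2, KK_succ f' δ' c k0 (a + 1 + j), KK_succ f δ c k0 (b + 1 + j), h2 j (by omega)]
    have := ih (by omega)
    have e3 : δ' (f^[b + 1 + j] c) = δ (f^[b + 1 + j] c) := by
      apply hδ
      · rw [← ha]; exact (hO.inj a (b + 1 + j) (by omega) (by omega)).symm
      · rw [← hb]; exact (hO.inj b (b + 1 + j) (by omega) (by omega)).symm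
    rw [e3]; linarith

/-- Sum of the total turnings after a split. -/
lemma Swapped.split_total {f f' : α → α} {p q : α} (h : Swapped f f' p q) {δ δ' : α → ℤ}
    {e : ℤ} (hδ : ∀ x, x ≠ p → x ≠ q → δ' x = δ x) (hp1 : δ p = e) (hq1 : δ q = e)
    (hp2 : δ' p = -e) (hq2 : δ' q = -e)
    {c : α} {L : ℕ} (k0 k1 : ℤ)
    (hO : Orb f c L) {a b : ℕ} (hab : a < b) (hbL : b < L) (ha : f^[a] c = p)
    (hb : f^[b] c = q) :
    (KK f' δ' c k0 (L - (b - a)) - k0) + (KK f' δ' (f^[a + 1] c) k1 (b - a) - k1) =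
      (KK f δ c k0 L - k0) - 4 * e := by
  obtain ⟨-, g2⟩ := h.split_KK hδ hq1 hp2 k0 hO hab hbL ha hb
  have g3 := h.split_other_KK hδ hp1 hq2 k0 k1 hO hab hbL ha hb
  linarith

/-- Indices are kept by a split. -/
lemma Swapped.keep_idx {f f' : α → α} (hf' : Function.Injective f') {p q : α}
    (h : Swapped f f' p q) (hpq : p ≠ q) {δ δ' : α → ℤ} {e : ℤ}
    (hδ : ∀ x, x ≠ p → x ≠ q → δ' x = δ x) (hp1 : δ p = e) (hq1 : δ q = e) (hp2 : δ' p = -e)
    (hq2 : δ' q = -e) {c : α} {L L' : ℕ} (k0 : ℤ) (hO : Orb f c L) (hO' : Orb f' c L')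
    (hT : KK f δ c k0 L = k0 + 4) (hT' : KK f' δ' c k0 L' = k0 + 4)
    (hp : InOrb f c p) (hq : InOrb f c q) :
    (∀ m < L, (∃ m' < L', f'^[m'] c = f^[m] c ∧ KK f' δ' c k0 m' = KK f δ c k0 m) ∨
      ∃ M, Orb f' (f^[m] c) M ∧ ∀ k1, KK f' δ' (f^[m] c) k1 M = k1 - 4 * e) ∧
    (∀ m' < L', ∃ m < L, f^[m] c = f'^[m'] c ∧ KK f δ c k0 m = KK f' δ' c k0 m') := by
  have main : ∀ (p q : α), Swapped f f' p q → (∀ x, x ≠ p → x ≠ q → δ' x = δ x) →
      δ p = e → δ q = e → δ' p = -e → δ' q = -e → ∀ a b, a < b → b < L → f^[a] c = p →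
      f^[b] c = q →
    (∀ m < L, (∃ m' < L', f'^[m'] c = f^[m] c ∧ KK f' δ' c k0 m' = KK f δ c k0 m) ∨
      ∃ M, Orb f' (f^[m] c) M ∧ ∀ k1, KK f' δ' (f^[m] c) k1 M = k1 - 4 * e) ∧
    (∀ m' < L', ∃ m < L, f^[m] c = f'^[m'] c ∧ KK f δ c k0 m = KK f' δ' c k0 m') := by
    intro p q h hδ hp1 hq1 hp2 hq2 a b hab hbL ha hb
    obtain ⟨h1, h2, h3⟩ := h.split hO hab hbL ha hb
    obtain ⟨g1, g2⟩ := h.split_KK hδ hq1 hp2 k0 hO hab hbL ha hb
    have hL' : L' = L - (b - a) := hO'.unique h3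
    rw [← hL', hT', hT] at g2
    have g3 := h.split_KK_after hδ hq1 hp2 k0 hO hab hbL ha hb
    obtain ⟨o1, o2⟩ := h.split_other hO hab hbL ha hb
    constructor
    · intro m hmL
      by_cases hma : m ≤ a
      · left; exact ⟨m, by omega, h1 m hma, g1 m hma⟩
      · by_cases hmb : m ≤ b
        · right
          have e1 : f^[m] c = f'^[m - a - 1] (f^[a + 1] c) := by
            rw [o1 _ (by omega)]
            congr 1
            omega
          refine ⟨b - a, ?_, ?_⟩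
          · rw [e1]; exact (o2.rotate hf' δ' 0 (m - a - 1)).1
          · intro k1
            rw [e1, (o2.rotate hf' δ' k1 (m - a - 1)).2,
              h.split_other_KK hδ hp1 hq2 k0 k1 hO hab hbL ha hb]
            linarith
        · left
          refine ⟨a + 1 + (m - b - 1), by omega, ?_, ?_⟩
          · rw [h2 _ (by omega)]
            congr 1
            omega
          · rw [g3 _ (by omega)]
            have e2 : b + 1 + (m - b - 1) = m := by omega
            rw [e2]; linarith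
    · intro m' hm'
      by_cases hma : m' ≤ a
      · exact ⟨m', by omega, (h1 m' hma).symm, (g1 m' hma).symm⟩
      · have e2 : a + 1 + (m' - a - 1) = m' := by omega
        refine ⟨b + 1 + (m' - a - 1), by omega, ?_, ?_⟩
        · rw [← h2 _ (by omega), e2]
        · have := g3 (m' - a - 1) (by omega)
          rw [e2] at this
          rw [this]; linarith
  obtain ⟨a, haL, ha⟩ := (hO.inOrb_iff p).1 hp
  obtain ⟨b, hbL, hb⟩ := (hO.inOrb_iff q).1 hq
  rcases lt_trichotomy a b with hlt | heq | hgt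
  · exact main p q h hδ hp1 hq1 hp2 hq2 a b hlt hbL ha hb
  · subst heq; exact absurd (ha.symm.trans hb) hpq
  · exact main q p h.comm (fun x h1 h2 => hδ x h2 h1) hq1 hp1 hq2 hp2 b a hgt haL hb ha

end Pool.Agent.H75.Perc
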