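import Mathlib
import Pool.Agent.H75.Perc.Orbit3
import Pool.Agent.H75.Perc.RswA

set_option autoImplicit false
open Finset

/-! Simply connected lattice domains: total turnings and boundary indices. -/

namespace Pool.Agent.H75.Perc

/-- Total turning of a closed simple path, seen from its lowest leftmost point. -/
lemma turning_pm (p : ℕ → ℤ × ℤ) (σ : ℕ → ℤ) (hp : IsPath p σ) (L : ℕ) (hL : 3 ≤ L)
    (hper : ∀ i, p (i + L) = p i) (hdist : ∀ a b, a < b → b < L → p a ≠ p b)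
    (hdir : dir (σ L) = dir (σ 0))
    (hH : ∀ b, (p 0).2 < (p b).2 ∨ ((p 0).2 = (p b).2 ∧ (p 0).1 ≤ (p b).1)) :
    σ L - σ 0 = 4 ∨ σ L - σ 0 = -4 := by
  have h1 := closed_turning p σ hp L hL hper hdist hdir
  have h2 := GG_row_window p σ hp (fun z => 0 ≤ z.2) cl window_N.toA 0 (L - 1) (by omega)
    (fun b hb hb' => hdist 0 b hb (by omega)) (fun b hb hb' => by
      simp only [Prod.snd_sub]; have := hH b; omega)
  obtain ⟨M, rfl⟩ : ∃ M, L = M + 1 := ⟨L - 1, by omega⟩
  simp only [Nat.add_sub_cancel] at *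
  have hp0 : p (M + 1) = p 0 := by have := hper 0; simpa using this
  have z0M : p M - p 0 = - dir (σ M) := by
    rw [← hp0, hp.step M]; abel
  have z1 : p (0 + 1) - p 0 = dir (σ 0) := by rw [hp.step 0]; abel
  have ht := hp.turn M
  have hb1 := hH (0 + 1)
  have hbM := hH M
  have e1 : p (0 + 1) = p 0 + dir (σ 0) := hp.step 0
  have e2 : p M = p 0 - dir (σ M) := by
    have := hp.step M
    rw [hp0] at this
    rw [this]; abel
  rw [e1] at hb1
  rw [e2] at hbM
  rw [z0M, z1] at h2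
  rw [dir_eq_iff] at hdir
  rcases dir_cases (σ 0) with ⟨e, f⟩ | ⟨e, f⟩ | ⟨e, f⟩ | ⟨e, f⟩ <;>
  rcases dir_cases (σ M) with ⟨e', f'⟩ | ⟨e', f'⟩ | ⟨e', f'⟩ | ⟨e', f'⟩ <;>
  rw [f] at hb1 h2 <;> rw [f'] at hbM h2 <;>
  simp only [Prod.fst_add, Prod.snd_add, Prod.fst_sub, Prod.snd_sub] at hb1 hbM <;>
  simp [cl] at h2 <;> omega

/-- Every loop has total turning `4` or `-4`. -/
lemma orb_pm {ω : Finset (ℤ × ℤ)} {c : ℤ × ℤ} {L : ℕ} (hO : Orb (nx ω) c L) (k0 : ℤ) :
    KK (nx ω) (del ω) c k0 L = k0 + 4 ∨ KK (nx ω) (del ω) c k0 L = k0 - 4 := by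
  classical
  obtain ⟨m, hm, hmin⟩ := Finset.exists_min_image (range L)
    (fun i => toLex (((nx ω)^[i] c).2, ((nx ω)^[i] c).1)) ⟨0, mem_range.2 hO.pos⟩
  obtain ⟨hO', hK⟩ := hO.rotate (nx_injective ω) (del ω) k0 m
  set c' := (nx ω)^[m] c with hc'
  have hH : ∀ b, (c'.2 < ((nx ω)^[b] c').2) ∨
      (c'.2 = ((nx ω)^[b] c').2 ∧ c'.1 ≤ ((nx ω)^[b] c').1) := by
    intro b
    have e1 : (nx ω)^[b] c' = (nx ω)^[(b + m) % L] c := by
      rw [hO.mod, hc', ← Function.iterate_add_apply]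
    rw [e1]
    have := hmin ((b + m) % L) (mem_range.2 (Nat.mod_lt _ hO.pos))
    rw [Prod.Lex.toLex_le_toLex] at this
    exact this
  set k1 := ty c' with hk1
  have hk1m : k1 % 4 = ty c' := by
    rcases ty_cases c' with h | h | h | h <;> rw [hk1, h.1] <;> norm_num
  have hp := isPath_explore ω c' k1 hk1m
  have hL := orb_ge_three hO'
  have hkL := kk_mod ω c' k1 hk1m L
  rw [hO'.per] at hkL
  have hsg : sg ω c' k1 L - sg ω c' k1 0 = kk ω c' k1 L - k1 := by
    unfold sg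
    rw [hO'.per]
    simp only [Function.iterate_zero, id_eq, kk]
    split_ifs <;> ring
  have hdir : dir (sg ω c' k1 L) = dir (sg ω c' k1 0) := by
    rw [dir_eq_iff]
    omega
  have hfin := turning_pm _ _ hp L hL hO'.add hO'.inj hdir (fun b => by
    have := hH b
    simpa using this)
  rw [hsg, kk_eq_KK] at hfin
  rw [← hK]
  have hs := KK_shift (nx ω) (del ω) c' k1 k0 L
  rw [hs]
  omega

/-- Vertices of the domain. -/
noncomputable def VV (E : Finset (ℤ × ℤ)) : Finset (ℤ × ℤ) :=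
  insert 0 ((E.image (fun e => vx (in1 e))) ∪ (E.image (fun e => vx (in2 e))))

/-- Corners of the domain. -/
noncomputable def CV (E : Finset (ℤ × ℤ)) : Finset (ℤ × ℤ) :=
  (VV E).biUnion (fun v => {(2 * v.1, 2 * v.2), (2 * v.1 + 1, 2 * v.2), (2 * v.1, 2 * v.2 + 1),
    (2 * v.1 + 1, 2 * v.2 + 1)})

lemma mem_CV {E : Finset (ℤ × ℤ)} {c : ℤ × ℤ} : c ∈ CV E ↔ vx c ∈ VV E := by
  unfold CV
  rw [mem_biUnion]
  constructor
  · rintro ⟨v, hv, hc⟩
    have : vx c = v := by
      simp only [mem_insert, mem_singleton] at hc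
      unfold vx
      rcases hc with h | h | h | h <;> rw [h] <;> refine Prod.ext ?_ ?_ <;> simp only <;> omega
    rw [this]; exact hv
  · intro h
    refine ⟨vx c, h, ?_⟩
    simp only [mem_insert, mem_singleton]
    unfold vx
    obtain ⟨a, b⟩ := c
    simp only [Prod.mk.injEq]
    omega

lemma mem_VV {E : Finset (ℤ × ℤ)} {e : ℤ × ℤ} (he : e ∈ E) :
    vx (in1 e) ∈ VV E ∧ vx (in2 e) ∈ VV E := by
  unfold VV
  constructor
  · exact mem_insert_of_mem (mem_union_left _ (mem_image_of_mem _ he))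
  · exact mem_insert_of_mem (mem_union_right _ (mem_image_of_mem _ he))

lemma zero_VV (E : Finset (ℤ × ℤ)) : (0 : ℤ × ℤ) ∈ VV E := mem_insert_self _ _

lemma nx_CV {E ω : Finset (ℤ × ℤ)} (hω : ω ⊆ E) (c : ℤ × ℤ) (hc : c ∈ CV E) : nx ω c ∈ CV E := by
  rw [mem_CV] at hc ⊢
  rcases vx_nx ω c with h | ⟨e, he, h | h⟩
  · rw [h]; exact hc
  · rw [h.2]; exact (mem_VV (hω he)).2
  · rw [h.2]; exact (mem_VV (hω he)).1

lemma orbE {E ω : Finset (ℤ × ℤ)} (hω : ω ⊆ E) (c : ℤ × ℤ) (hc : vx c ∈ VV E) :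
    ∃ L, Orb (nx ω) c L :=
  exists_orb (nx ω) (nx_injective ω) (CV E) (fun x hx => nx_CV hω x hx) c (mem_CV.2 hc)

lemma iterE {E ω : Finset (ℤ × ℤ)} (hω : ω ⊆ E) (c : ℤ × ℤ) (hc : vx c ∈ VV E) (i : ℕ) :
    vx ((nx ω)^[i] c) ∈ VV E := by
  induction i with
  | zero => exact hc
  | succ i ih =>
    rw [Function.iterate_succ_apply']
    exact mem_CV.1 (nx_CV hω _ (mem_CV.2 ih))

/-- A simply connected lattice domain, seen from the corner `0` of its boundary: in the full
configuration, all boundary corners lie on one loop. -/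
structure Dom (E : Finset (ℤ × ℤ)) : Prop where
  odd : ∀ e ∈ E, (e.1 + e.2) % 2 = 1
  base : lab 0 ∉ E
  loop : ∀ c, vx c ∈ VV E → lab c ∉ E → InOrb (nx E) 0 c

lemma vx_in_corner {E : Finset (ℤ × ℤ)} {e : ℤ × ℤ} (he : e ∈ E) :
    vx (in1 e) ∈ VV E ∧ vx (in2 e) ∈ VV E := mem_VV he

/-- The loop of `0` in the full configuration. -/
lemma Dom.total_full {E : Finset (ℤ × ℤ)} (hD : Dom E) {L : ℕ} (hO : Orb (nx E) 0 L) (k0 : ℤ) :
    KK (nx E) (del E) 0 k0 L = k0 + 4 := by
  classical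
  -- lowest vertex
  obtain ⟨v, hv, hmin⟩ := Finset.exists_min_image (VV E) (fun v => v.2) ⟨0, zero_VV E⟩
  set c : ℤ × ℤ := (2 * v.1, 2 * v.2) with hc
  have hvc : vx c = v := by
    rw [hc]; unfold vx; refine Prod.ext ?_ ?_ <;> simp only <;> omega
  have hty : ty c = 0 ∧ lab c = (2 * v.1, 2 * v.2 - 1) := by
    rcases ty_cases c with ⟨h0, h1, h2, h3, h4, h5⟩ | ⟨h0, h1, h2, h3, h4, h5⟩ |
      ⟨h0, h1, h2, h3, h4, h5⟩ | ⟨h0, h1, h2, h3, h4, h5⟩ <;> rw [hc] at h1 h2 <;>
    simp only at h1 h2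
    · exact ⟨h0, h3⟩
    · omega
    · omega
    · omega
  have hl : lab c ∉ E := by
    intro h
    have h1 := (mem_VV h).2
    have h2 := hmin _ h1
    rw [hty.2] at h2
    have h3 : vx (in2 (2 * v.1, 2 * v.2 - 1)) = (v.1, v.2 - 1) := by
      rcases vx_in1 ((2 * v.1, 2 * v.2 - 1) : ℤ × ℤ) (by simp only; omega) with
        ⟨g1, g2, g3, g4⟩ | ⟨g1, g2, g3, g4⟩
      · simp only at g1; omega
      · rw [g4]; refine Prod.ext ?_ ?_ <;> simp only <;> omega
    rw [h3] at h2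
    simp only at h2
    omega
  have hin := hD.loop c (by rw [hvc]; exact hv) hl
  obtain ⟨i, hi⟩ := hin
  obtain ⟨hO', hK⟩ := hO.rotate (nx_injective E) (del E) k0 i
  rw [hi] at hO' hK
  have hp := isPath_explore E c 0 (by rw [hty.1]; rfl)
  have hL := orb_ge_three hO'
  have hkL := kk_mod E c 0 (by rw [hty.1]; rfl) L
  rw [hO'.per, hty.1] at hkL
  have s0 : sg E c 0 0 = 0 := by rw [sg_of_closed (by simpa using hl)]; rfl
  have sL : sg E c 0 L = kk E c 0 L := sg_of_closed (by rw [hO'.per]; exact hl)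
  have hdir : dir (sg E c 0 L) = dir (sg E c 0 0) := by
    rw [dir_eq_iff, s0, sL, hkL]; rfl
  have hfin := turning_four_N _ _ hp L hL hO'.add hO'.inj hdir (by rw [s0]; rfl) (by
    intro b
    have h1 := hmin _ (iterE (subset_refl E) c (by rw [hvc]; exact hv) b)
    simp only [Function.iterate_zero, id_eq]
    have e0 : c.2 = 2 * v.2 := by rw [hc]
    unfold vx at h1
    simp only at h1
    omega)
  rw [s0, sL, kk_eq_KK] at hfin
  rw [← hK]
  have hs := KK_shift (nx E) (del E) c 0 k0 L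
  rw [hs]
  omega

/-- All boundary loops have total turning `4`, in every configuration. -/
lemma Dom.total {E : Finset (ℤ × ℤ)} (hD : Dom E) : ∀ (n : ℕ) (ω : Finset (ℤ × ℤ)), ω ⊆ E →
    (E \ ω).card = n → ∀ c, vx c ∈ VV E → lab c ∉ E → ∀ L, Orb (nx ω) c L → ∀ k0,
    KK (nx ω) (del ω) c k0 L = k0 + 4 := by
  classical
  intro n
  induction n with
  | zero =>
    intro ω hω hn c hc hl L hO k0
    have hE : ω = E := by
      apply subset_antisymm hω
      exact sdiff_eq_empty_iff_subset.1 (card_eq_zero.1 hn)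
    subst hE
    obtain ⟨L0, hO0⟩ := orbE (subset_refl ω) 0 (by
      have : vx 0 = 0 := vx_zero
      rw [this]; exact zero_VV ω)
    obtain ⟨i, hi⟩ := hD.loop c hc hl
    obtain ⟨hO', hK⟩ := hO0.rotate (nx_injective ω) (del ω) k0 i
    rw [hi] at hO' hK
    have := hO'.unique hO
    subst this
    rw [hK]
    exact hD.total_full hO0 k0
  | succ n ih =>
    intro ω hω hn c hc hl L hO k0
    obtain ⟨e, he⟩ : (E \ ω).Nonempty := by
      rw [← card_pos]; omega
    rw [mem_sdiff] at he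
    have hodd := hD.odd e he.1
    have hω' : insert e ω ⊆ E := insert_subset he.1 hω
    have hcard : (E \ insert e ω).card = n := by
      rw [sdiff_insert, card_erase_of_mem (mem_sdiff.2 he)]; omega
    have ih' := ih (insert e ω) hω' hcard
    have hsw := swapped_insert ω e hodd he.2
    have d1 : del ω (in1 e) = 1 := by unfold del; rw [lab_in1 e hodd, if_neg he.2]
    have d2 : del ω (in2 e) = 1 := by unfold del; rw [lab_in2 e hodd, if_neg he.2]
    have d3 : del (insert e ω) (in1 e) = -1 := by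
      unfold del; rw [lab_in1 e hodd, if_pos (mem_insert_self _ _)]
    have d4 : del (insert e ω) (in2 e) = -1 := by
      unfold del; rw [lab_in2 e hodd, if_pos (mem_insert_self _ _)]
    obtain ⟨Mp, hMp⟩ := orbE hω (in1 e) (mem_VV he.1).1
    obtain ⟨Mq, hMq⟩ := orbE hω (in2 e) (mem_VV he.1).2
    obtain ⟨L', hO'⟩ := orbE hω' c hc
    have hT' := ih' c hc hl L' hO' k0
    have hoff' : ∀ x, x ≠ in1 e → x ≠ in2 e → del ω x = del (insert e ω) x :=
      fun x h1 h2 => (del_off ω e hodd x h1 h2).symm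
    -- both on the loop of c in ω
    have caseA : InOrb (nx ω) c (in1 e) → InOrb (nx ω) c (in2 e) →
        KK (nx ω) (del ω) c k0 L = k0 + 4 := by
      intro hp hq
      have main : ∀ p q, Swapped (nx ω) (nx (insert e ω)) p q →
          (∀ x, x ≠ p → x ≠ q → del (insert e ω) x = del ω x) → del ω p = 1 → del ω q = 1 →
          del (insert e ω) p = -1 → del (insert e ω) q = -1 → ∀ a b, a < b → b < L →
          (nx ω)^[a] c = p → (nx ω)^[b] c = q → KK (nx ω) (del ω) c k0 L = k0 + 4 := by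
        intro p q h hδ h1 h2 h3 h4 a b hab hbL ha hb
        have ht := h.split_total hδ h1 h2 h3 h4 k0 0 hO hab hbL ha hb
        obtain ⟨g1, g2, g3⟩ := h.split hO hab hbL ha hb
        have hu := hO'.unique g3
        obtain ⟨o1, o2⟩ := h.split_other hO hab hbL ha hb
        have hpm := orb_pm o2 0
        have hpm2 := orb_pm hO k0
        rw [← hu, hT'] at ht
        omega
      obtain ⟨a, haL, ha⟩ := (hO.inOrb_iff _).1 hp
      obtain ⟨b, hbL, hb⟩ := (hO.inOrb_iff _).1 hq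
      rcases lt_trichotomy a b with hlt | heq | hgt
      · exact main _ _ hsw (del_off ω e hodd) d1 d2 d3 d4 a b hlt hbL ha hb
      · subst heq; exact absurd (ha.symm.trans hb) (in1_ne_in2 e)
      · exact main _ _ hsw.comm (fun x h1 h2 => del_off ω e hodd x h2 h1) d2 d1 d4 d3 b a hgt haL
          hb ha
    -- both on the loop of c in the larger configuration
    have caseB : InOrb (nx (insert e ω)) c (in1 e) → InOrb (nx (insert e ω)) c (in2 e) →
        KK (nx ω) (del ω) c k0 L = k0 + 4 := by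
      intro hp hq
      have main : ∀ p q, Swapped (nx (insert e ω)) (nx ω) p q →
          (∀ x, x ≠ p → x ≠ q → del ω x = del (insert e ω) x) → del (insert e ω) p = -1 →
          del (insert e ω) q = -1 → del ω p = 1 → del ω q = 1 → ∀ a b, a < b → b < L' →
          (nx (insert e ω))^[a] c = p → (nx (insert e ω))^[b] c = q →
          KK (nx ω) (del ω) c k0 L = k0 + 4 := by
        intro p q h hδ h1 h2 h3 h4 a b hab hbL ha hb
        have ht := h.split_total hδ h1 h2 (by rw [h3]; norm_num) (by rw [h4]; norm_num) k0 0 hO'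
          hab hbL ha hb
        obtain ⟨g1, g2, g3⟩ := h.split hO' hab hbL ha hb
        have hu := hO.unique g3
        obtain ⟨o1, o2⟩ := h.split_other hO' hab hbL ha hb
        have hpm := orb_pm o2 0
        have hpm2 := orb_pm hO k0
        rw [← hu, hT'] at ht
        omega
      obtain ⟨a, haL, ha⟩ := (hO'.inOrb_iff _).1 hp
      obtain ⟨b, hbL, hb⟩ := (hO'.inOrb_iff _).1 hq
      rcases lt_trichotomy a b with hlt | heq | hgt
      · exact main _ _ hsw.symm hoff' d3 d4 d1 d2 a b hlt hbL ha hb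
      · subst heq; exact absurd (ha.symm.trans hb) (in1_ne_in2 e)
      · exact main _ _ hsw.symm.comm (fun x h1 h2 => hoff' x h2 h1) d4 d3 d2 d1 b a hgt haL
          hb ha
    by_cases hp : InOrb (nx ω) c (in1 e) <;> by_cases hq : InOrb (nx ω) c (in2 e)
    · exact caseA hp hq
    · obtain ⟨m1, m2, -, -⟩ := hsw.merge hO hMq hp hq
      exact caseB m1 m2
    · obtain ⟨m1, m2, -, -⟩ := hsw.comm.merge hO hMp hq hp
      exact caseB m2 m1
    · -- unchanged
      have hag : ∀ i, (nx (insert e ω))^[i] c = (nx ω)^[i] c := fun i =>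
        hsw.agree c i (fun j _ => ⟨fun h => hp ⟨j, h⟩, fun h => hq ⟨j, h⟩⟩) i le_rfl
      have hO2 : Orb (nx (insert e ω)) c L := by
        refine ⟨hO.pos, by rw [hag, hO.per], ?_⟩
        intro i j hij hj
        rw [hag, hag]; exact hO.inj i j hij hj
      have := hO'.unique hO2
      subst this
      rw [← hT']
      unfold KK
      congr 1
      apply Finset.sum_congr rfl
      intro j _
      rw [hag]
      apply hoff'
      · intro h; exact hp ⟨j, h⟩
      · intro h; exact hq ⟨j, h⟩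

lemma Dom.T4 {E : Finset (ℤ × ℤ)} (hD : Dom E) {ω : Finset (ℤ × ℤ)} (hω : ω ⊆ E) {c : ℤ × ℤ}
    (hc : vx c ∈ VV E) (hl : lab c ∉ E) {L : ℕ} (hO : Orb (nx ω) c L) (k0 : ℤ) :
    KK (nx ω) (del ω) c k0 L = k0 + 4 := hD.total _ ω hω rfl c hc hl L hO k0

lemma vx_zero_VV (E : Finset (ℤ × ℤ)) : vx 0 ∈ VV E := by
  have : vx 0 = 0 := vx_zero
  rw [this]; exact zero_VV E

/-- One edge: boundary corners stay on the loop with the same index when an edge is added. -/
lemma Dom.step {E : Finset (ℤ × ℤ)} (hD : Dom E) {ω : Finset (ℤ × ℤ)} (hω : ω ⊆ E) {e : ℤ × ℤ}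
    (heE : e ∈ E) (hen : e ∉ ω) {c : ℤ × ℤ} (hc : vx c ∈ VV E) (hl : lab c ∉ E) {L L' : ℕ}
    (hO : Orb (nx ω) 0 L) (hO' : Orb (nx (insert e ω)) 0 L') {i : ℕ} (hi : i < L)
    (hic : (nx ω)^[i] 0 = c) : ∃ j < L', (nx (insert e ω))^[j] 0 = c ∧
      KK (nx (insert e ω)) (del (insert e ω)) 0 0 j = KK (nx ω) (del ω) 0 0 i := by
  classical
  have hodd := hD.odd e heE
  have hω' : insert e ω ⊆ E := insert_subset heE hω
  have hsw := swapped_insert ω e hodd hen
  have d1 : del ω (in1 e) = 1 := by unfold del; rw [lab_in1 e hodd, if_neg hen]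
  have d2 : del ω (in2 e) = 1 := by unfold del; rw [lab_in2 e hodd, if_neg hen]
  have d3 : del (insert e ω) (in1 e) = -1 := by
    unfold del; rw [lab_in1 e hodd, if_pos (mem_insert_self _ _)]
  have d4 : del (insert e ω) (in2 e) = -1 := by
    unfold del; rw [lab_in2 e hodd, if_pos (mem_insert_self _ _)]
  obtain ⟨Mp, hMp⟩ := orbE hω (in1 e) (mem_VV heE).1
  obtain ⟨Mq, hMq⟩ := orbE hω (in2 e) (mem_VV heE).2
  have hoff' : ∀ x, x ≠ in1 e → x ≠ in2 e → del ω x = del (insert e ω) x :=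
    fun x h1 h2 => (del_off ω e hodd x h1 h2).symm
  have hT := hD.T4 hω (vx_zero_VV E) hD.base hO 0
  have hT' := hD.T4 hω' (vx_zero_VV E) hD.base hO' 0
  have caseB : InOrb (nx (insert e ω)) 0 (in1 e) → InOrb (nx (insert e ω)) 0 (in2 e) →
      ∃ j < L', (nx (insert e ω))^[j] 0 = c ∧
      KK (nx (insert e ω)) (del (insert e ω)) 0 0 j = KK (nx ω) (del ω) 0 0 i := by
    intro hp hq
    obtain ⟨-, h2⟩ := hsw.symm.keep_idx (nx_injective _) (in1_ne_in2 e) (e := -1) hoff' d3 d4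
      (by rw [d1]; norm_num) (by rw [d2]; norm_num) 0 hO' hO hT' hT hp hq
    obtain ⟨m, hm, hm1, hm2⟩ := h2 i hi
    exact ⟨m, hm, by rw [hm1, hic], hm2⟩
  by_cases hp : InOrb (nx ω) 0 (in1 e) <;> by_cases hq : InOrb (nx ω) 0 (in2 e)
  · obtain ⟨h1, -⟩ := hsw.keep_idx (nx_injective _) (in1_ne_in2 e) (e := 1) (del_off ω e hodd) d1
      d2 d3 d4 0 hO hO' hT hT' hp hq
    rcases h1 i hi with ⟨m, hm, hm1, hm2⟩ | ⟨M, hM, hM2⟩
    · exact ⟨m, hm, by rw [hm1, hic], hm2⟩
    · exfalso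
      rw [hic] at hM hM2
      have h5 := hD.T4 hω' hc hl hM 0
      have h6 := hM2 0
      omega
  · obtain ⟨m1, m2, -, -⟩ := hsw.merge hO hMq hp hq
    exact caseB m1 m2
  · obtain ⟨m1, m2, -, -⟩ := hsw.comm.merge hO hMp hq hp
    exact caseB m2 m1
  · have hag : ∀ i, (nx (insert e ω))^[i] 0 = (nx ω)^[i] 0 := fun i =>
      hsw.agree 0 i (fun j _ => ⟨fun h => hp ⟨j, h⟩, fun h => hq ⟨j, h⟩⟩) i le_rfl
    have hO2 : Orb (nx (insert e ω)) 0 L := by
      refine ⟨hO.pos, by rw [hag, hO.per], ?_⟩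
      intro i j hij hj
      rw [hag, hag]; exact hO.inj i j hij hj
    have := hO'.unique hO2
    subst this
    refine ⟨i, hi, by rw [hag, hic], ?_⟩
    unfold KK
    congr 1
    apply Finset.sum_congr rfl
    intro j _
    rw [hag]
    symm
    apply hoff'
    · intro h; exact hp ⟨j, h⟩
    · intro h; exact hq ⟨j, h⟩

/-- Boundary indices do not depend on the configuration. -/
lemma Dom.index {E : Finset (ℤ × ℤ)} (hD : Dom E) {c : ℤ × ℤ} (hc : vx c ∈ VV E)
    (hl : lab c ∉ E) {LE : ℕ} (hE : Orb (nx E) 0 LE) : ∀ (n : ℕ) (ω : Finset (ℤ × ℤ)), ω ⊆ E →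
    (E \ ω).card = n → ∀ L, Orb (nx ω) 0 L → ∀ i < L, (nx ω)^[i] 0 = c → ∃ j < LE,
      (nx E)^[j] 0 = c ∧ KK (nx E) (del E) 0 0 j = KK (nx ω) (del ω) 0 0 i := by
  classical
  intro n
  induction n with
  | zero =>
    intro ω hω hn L hO i hi hic
    have hE' : ω = E := by
      apply subset_antisymm hω
      exact sdiff_eq_empty_iff_subset.1 (card_eq_zero.1 hn)
    subst hE'
    have := hO.unique hE
    subst this
    exact ⟨i, hi, hic, rfl⟩
  | succ n ih =>
    intro ω hω hn L hO i hi hic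
    obtain ⟨e, he⟩ : (E \ ω).Nonempty := by
      rw [← card_pos]; omega
    rw [mem_sdiff] at he
    have hω' : insert e ω ⊆ E := insert_subset he.1 hω
    have hcard : (E \ insert e ω).card = n := by
      rw [sdiff_insert, card_erase_of_mem (mem_sdiff.2 he)]; omega
    obtain ⟨L', hO'⟩ := orbE hω' 0 (vx_zero_VV E)
    obtain ⟨j, hj, hj1, hj2⟩ := hD.step hω he.1 he.2 hc hl hO hO' hi hic
    obtain ⟨k, hk, hk1, hk2⟩ := ih (insert e ω) hω' hcard L' hO' j hj hj1
    exact ⟨k, hk, hk1, by rw [hk2, hj2]⟩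

end Pool.Agent.H75.Perc
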