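import Mathlib
import Pool.Agent.H75.Perc.Dom

set_option autoImplicit false
open Finset

/-! The corner identity in a simply connected lattice domain. -/

namespace Pool.Agent.H75.Perc

lemma Dom.orb {E : Finset (ℤ × ℤ)} {ω : Finset (ℤ × ℤ)} (hω : ω ⊆ E) :
    Orb (nx ω) 0 (Lp ω) := by
  obtain ⟨L, hL⟩ := orbE hω 0 (vx_zero_VV E)
  have := hL.minimalPeriod
  unfold Lp
  rw [this]; exact hL

lemma Dom.pair_cancel {E : Finset (ℤ × ℤ)} (hD : Dom E) (θ : ℤ → ℤ)
    (hθ : ∀ k, θ (k + 2) = θ (k + 1) - θ k)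
    {ω : Finset (ℤ × ℤ)} (hω : ω ⊆ E) {e : ℤ × ℤ} (he : e ∈ E) (hn : e ∉ ω) :
    contrib θ (nx ω) (del ω) 0 0 (Lp ω) (in1 e) (in2 e) +
      contrib θ (nx (insert e ω)) (del (insert e ω)) 0 0 (Lp (insert e ω)) (in1 e) (in2 e)
      = 0 := by
  have hodd := hD.odd e he
  have hω' : insert e ω ⊆ E := insert_subset he hω
  obtain ⟨Mp, hMp⟩ := orbE hω (in1 e) (mem_VV he).1
  obtain ⟨Mq, hMq⟩ := orbE hω (in2 e) (mem_VV he).2
  refine contrib_pair θ hθ (swapped_insert ω e hodd hn) (in1_ne_in2 e) (e := 1) (Or.inl rfl)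
    (del_off ω e hodd) ?_ ?_ ?_ ?_ 0 (Dom.orb hω) (Dom.orb hω') hMp hMq ?_ ?_
  · unfold del; rw [lab_in1 e hodd, if_neg hn]
  · unfold del; rw [lab_in2 e hodd, if_neg hn]
  · unfold del; rw [lab_in1 e hodd, if_pos (mem_insert_self _ _)]
  · unfold del; rw [lab_in2 e hodd, if_pos (mem_insert_self _ _)]
  · exact hD.T4 hω (vx_zero_VV E) hD.base (Dom.orb hω) 0
  · exact hD.T4 hω' (vx_zero_VV E) hD.base (Dom.orb hω') 0

lemma Dom.sum_contrib {E : Finset (ℤ × ℤ)} (hD : Dom E) (θ : ℤ → ℤ)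
    (hθ : ∀ k, θ (k + 2) = θ (k + 1) - θ k) {e : ℤ × ℤ} (he : e ∈ E) :
    ∑ ω ∈ E.powerset, contrib θ (nx ω) (del ω) 0 0 (Lp ω) (in1 e) (in2 e) = 0 := by
  classical
  refine Finset.sum_involution (fun ω _ => if e ∈ ω then ω.erase e else insert e ω) ?_ ?_ ?_ ?_
  · intro ω hω
    rw [mem_powerset] at hω
    by_cases hn : e ∈ ω
    · rw [if_pos hn]
      have h1 : ω.erase e ⊆ E := (erase_subset _ _).trans hω
      have := hD.pair_cancel θ hθ h1 he (notMem_erase e ω)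
      rw [insert_erase hn] at this
      linarith
    · rw [if_neg hn]
      exact hD.pair_cancel θ hθ hω he hn
  · intro ω hω _
    by_cases hn : e ∈ ω
    · rw [if_pos hn]
      intro hh
      have := notMem_erase e ω
      rw [hh] at this
      exact this hn
    · rw [if_neg hn]
      intro hh
      exact hn (hh ▸ mem_insert_self e ω)
  · intro ω hω
    rw [mem_powerset] at hω ⊢
    by_cases hn : e ∈ ω
    · rw [if_pos hn]; exact (erase_subset _ _).trans hω
    · rw [if_neg hn]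
      exact insert_subset he hω
  · intro ω hω
    by_cases hn : e ∈ ω
    · simp only [if_pos hn, notMem_erase, if_false]
      exact insert_erase hn
    · simp only [if_neg hn, mem_insert_self, if_true]
      exact erase_insert hn

lemma Dom.mem_loopC {E : Finset (ℤ × ℤ)} {ω : Finset (ℤ × ℤ)} (hω : ω ⊆ E) (c : ℤ × ℤ) :
    c ∈ loopC ω ↔ InOrb (nx ω) 0 c := by
  unfold loopC
  rw [(Dom.orb hω).inOrb_iff]
  simp

/-- The boundary corners of the domain. -/
noncomputable def BE (E : Finset (ℤ × ℤ)) : Finset (ℤ × ℤ) := (CV E).filter (fun c => lab c ∉ E)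

/-- The telescoping sum along one loop. -/
lemma Dom.one_loop {E : Finset (ℤ × ℤ)} (hD : Dom E) (θ : ℤ → ℤ) (ι : ℤ × ℤ → ℤ)
    (hι : ∀ j < Lp E, lab ((nx E)^[j] 0) ∉ E → KK (nx E) (del E) 0 0 j = ι ((nx E)^[j] 0))
    {ω : Finset (ℤ × ℤ)} (hω : ω ⊆ E) :
    θ 0 - θ 4 = (∑ c ∈ BE E, if c ∈ loopC ω then θ (ι c) - θ (ι c + 1) else 0) +
      ∑ e ∈ E, contrib θ (nx ω) (del ω) 0 0 (Lp ω) (in1 e) (in2 e) := by
  classical
  set L := Lp ω with hLdef
  have hO : Orb (nx ω) 0 L := Dom.orb hω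
  have hT : KK (nx ω) (del ω) 0 0 L = 4 := by
    rw [hD.T4 hω (vx_zero_VV E) hD.base hO 0]; rfl
  have hmem := iterE hω 0 (vx_zero_VV E)
  -- telescoping
  have h1 : θ 0 - θ 4 = ∑ i ∈ range L, (θ (KK (nx ω) (del ω) 0 0 i) -
      θ (KK (nx ω) (del ω) 0 0 i + del ω ((nx ω)^[i] 0))) := by
    have := Finset.sum_range_sub' (fun i => θ (KK (nx ω) (del ω) 0 0 i)) L
    rw [hT] at this
    have h0 : KK (nx ω) (del ω) 0 0 0 = 0 := by simp [KK]
    rw [h0] at this
    rw [← this]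
    apply Finset.sum_congr rfl
    intro i _
    rw [KK_succ]
  -- splitting
  have h2 : ∀ i ∈ range L, (θ (KK (nx ω) (del ω) 0 0 i) -
      θ (KK (nx ω) (del ω) 0 0 i + del ω ((nx ω)^[i] 0))) =
      (if lab ((nx ω)^[i] 0) ∉ E then
        θ (ι ((nx ω)^[i] 0)) - θ (ι ((nx ω)^[i] 0) + 1) else 0) +
      ∑ e ∈ E, (if (nx ω)^[i] 0 = in1 e ∨ (nx ω)^[i] 0 = in2 e then
        θ (KK (nx ω) (del ω) 0 0 i) - θ (KK (nx ω) (del ω) 0 0 i + del ω ((nx ω)^[i] 0)) else 0)
      := by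
    intro i hi
    have e1 : ∑ e ∈ E, (if (nx ω)^[i] 0 = in1 e ∨ (nx ω)^[i] 0 = in2 e then
        θ (KK (nx ω) (del ω) 0 0 i) - θ (KK (nx ω) (del ω) 0 0 i + del ω ((nx ω)^[i] 0)) else 0)
        = ∑ e ∈ E, (if lab ((nx ω)^[i] 0) = e then
        θ (KK (nx ω) (del ω) 0 0 i) - θ (KK (nx ω) (del ω) 0 0 i + del ω ((nx ω)^[i] 0))
        else 0) := by
      apply Finset.sum_congr rfl
      intro e he
      simp only [lab_eq_iff e _ (hD.odd e he)]
    rw [e1, Finset.sum_ite_eq]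
    by_cases hl : lab ((nx ω)^[i] 0) ∈ E
    · simp only [hl, not_true_eq_false, if_false, if_true, zero_add]
    · simp only [hl, not_false_eq_true, if_true, if_false, add_zero]
      obtain ⟨j, hj, hj1, hj2⟩ := hD.index (hmem i) hl (Dom.orb (subset_refl E)) _ ω hω rfl L hO i
        (mem_range.1 hi) rfl
      have hk := hι j hj (by rw [hj1]; exact hl)
      rw [hj1] at hk
      have hd : del ω ((nx ω)^[i] 0) = 1 := by
        unfold del; rw [if_neg (fun h' => hl (hω h'))]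
      rw [← hj2, hk, hd]
  rw [h1, Finset.sum_congr rfl h2, Finset.sum_add_distrib, Finset.sum_comm]
  congr 1
  rw [← Finset.sum_filter, ← Finset.sum_filter]
  have h3 : (BE E).filter (fun c => c ∈ loopC ω) =
      ((range L).filter (fun i => lab ((nx ω)^[i] 0) ∉ E)).image
        (fun i => (nx ω)^[i] 0) := by
    ext c
    simp only [mem_filter, mem_image, BE, loopC, mem_range]
    constructor
    · rintro ⟨⟨hc1, hc2⟩, i, hi, rfl⟩
      exact ⟨i, ⟨hi, hc2⟩, rfl⟩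
    · rintro ⟨i, ⟨hi, hl⟩, rfl⟩
      exact ⟨⟨mem_CV.2 (hmem i), hl⟩, i, hi, rfl⟩
  rw [h3, Finset.sum_image]
  intro i hi j hj hij
  have hi := mem_filter.1 (mem_coe.1 hi)
  have hj := mem_filter.1 (mem_coe.1 hj)
  simp only [mem_range] at hi hj
  rcases lt_trichotomy i j with h' | h' | h'
  · exact absurd hij (hO.inj i j h' hj.1)
  · exact h'
  · exact absurd hij.symm (hO.inj j i h' hi.1)

/-- The identity. -/
lemma Dom.main_identity {E : Finset (ℤ × ℤ)} (hD : Dom E) (θ : ℤ → ℤ)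
    (hθ : ∀ k, θ (k + 2) = θ (k + 1) - θ k) (ι : ℤ × ℤ → ℤ)
    (hι : ∀ j < Lp E, lab ((nx E)^[j] 0) ∉ E → KK (nx E) (del E) 0 0 j = ι ((nx E)^[j] 0)) :
    ∑ c ∈ BE E, (θ (ι c) - θ (ι c + 1)) *
      ((E.powerset.filter (fun ω => c ∈ loopC ω)).card : ℤ) =
      (θ 0 - θ 4) * (E.powerset.card : ℤ) := by
  classical
  have h1 : ∑ ω ∈ E.powerset, (θ 0 - θ 4) =
      (∑ ω ∈ E.powerset, ∑ c ∈ BE E,
        if c ∈ loopC ω then θ (ι c) - θ (ι c + 1) else 0) +
      ∑ ω ∈ E.powerset,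
        ∑ e ∈ E, contrib θ (nx ω) (del ω) 0 0 (Lp ω) (in1 e) (in2 e) := by
    rw [← Finset.sum_add_distrib]
    apply Finset.sum_congr rfl
    intro ω hω
    exact hD.one_loop θ ι hι (mem_powerset.1 hω)
  have h2 : ∑ ω ∈ E.powerset,
        ∑ e ∈ E, contrib θ (nx ω) (del ω) 0 0 (Lp ω) (in1 e) (in2 e) = 0 := by
    rw [Finset.sum_comm]
    exact Finset.sum_eq_zero (fun e he => hD.sum_contrib θ hθ he)
  rw [h2, add_zero, Finset.sum_comm, Finset.sum_const, nsmul_eq_mul] at h1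
  rw [mul_comm, h1]
  apply Finset.sum_congr rfl
  intro c _
  rw [← Finset.sum_filter, Finset.sum_const, nsmul_eq_mul]
  ring

/-- Exploration of the cluster along a tree. -/
lemma Dom.tree {E : Finset (ℤ × ℤ)} (hD : Dom E) {ω : Finset (ℤ × ℤ)} (hω : ω ⊆ E) {v : ℤ × ℤ}
    (hv : Relation.ReflTransGen (Adj ω) 0 v) : ∃ ω' : Finset (ℤ × ℤ), ω' ⊆ ω ∧
      ∃ S : Finset (ℤ × ℤ), v ∈ S ∧ 0 ∈ S ∧ (∀ c, vx c ∈ S → InOrb (nx ω') 0 c) ∧
      (∀ e ∈ ω', vx (in1 e) ∈ S ∧ vx (in2 e) ∈ S) := by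
  classical
  induction hv with
  | refl =>
    refine ⟨∅, empty_subset _, {0}, by simp, by simp, ?_, by simp⟩
    intro c hc
    rw [mem_singleton] at hc
    exact iso_orbit (u := 0) (by simp) vx_zero hc
  | @tail b c _ hbc ih =>
    obtain ⟨ω', hsub, S, hb, h0, hall, hedge⟩ := ih
    by_cases hc : c ∈ S
    · exact ⟨ω', hsub, S, hc, h0, hall, hedge⟩
    obtain ⟨e, heω, he⟩ := hbc
    have heE := hω heω
    have hodd := hD.odd e heE
    have hen : e ∉ ω' := by
      intro h'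
      have := hedge e h'
      rcases he with h1 | h1
      · exact hc (h1.2 ▸ this.2)
      · exact hc (h1.2 ▸ this.1)
    have hω' : ω' ⊆ E := hsub.trans hω
    have hsw := swapped_insert ω' e hodd hen
    -- the loop stays over S
    have hstay : ∀ x, InOrb (nx ω') 0 x → vx x ∈ S := by
      rintro x ⟨i, rfl⟩
      induction i with
      | zero => simpa [vx_zero] using h0
      | succ i ih2 =>
        rw [Function.iterate_succ_apply']
        rcases vx_nx ω' ((nx ω')^[i] 0) with h' | h'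
        · rw [h']; exact ih2
        · obtain ⟨e', he', h2⟩ := h'
          rcases h2 with h2 | h2
          · rw [h2.2]; exact (hedge e' he').2
          · rw [h2.2]; exact (hedge e' he').1
    have hiso : ∀ x, vx x = c → lab x ∉ ω' := by
      intro x hx hl
      have := hedge _ hl
      rcases corner_in x with h' | h'
      · exact hc (by rw [← hx, h']; exact this.1)
      · exact hc (by rw [← hx, h']; exact this.2)
    obtain ⟨L, hO⟩ := orbE hω' 0 (vx_zero_VV E)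
    have fin : ∀ p q, Swapped (nx ω') (nx (insert e ω')) p q → b = vx p → c = vx q →
        vx q ∈ VV E → ∀ x, vx x ∈ insert c S → InOrb (nx (insert e ω')) 0 x := by
      intro p q hpq hbp hcq hqC x hx
      obtain ⟨M, hQ⟩ := orbE hω' q hqC
      obtain ⟨-, -, m3, m4⟩ := hpq.merge hO hQ (hall p (hbp ▸ hb)) (by
        intro h'; exact hc (hcq ▸ hstay q h'))
      rcases mem_insert.1 hx with h' | h'
      · exact m4 x (iso_orbit hiso hcq.symm h')
      · exact m3 x (hall x h')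
    refine ⟨insert e ω', ?_, insert c S, mem_insert_self _ _, mem_insert_of_mem h0, ?_, ?_⟩
    · intro x hx
      rcases mem_insert.1 hx with h' | h'
      · rw [h']; exact heω
      · exact hsub h'
    · rcases he with he | he
      · exact fin (in1 e) (in2 e) hsw he.1 he.2 (mem_VV heE).2
      · exact fin (in2 e) (in1 e) hsw.comm he.1 he.2 (mem_VV heE).1
    · intro e' he'
      rcases mem_insert.1 he' with h' | h'
      · rw [h']
        rcases he with he | he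
        · exact ⟨mem_insert_of_mem (he.1 ▸ hb), he.2 ▸ mem_insert_self _ _⟩
        · exact ⟨he.2 ▸ mem_insert_self _ _, mem_insert_of_mem (he.1 ▸ hb)⟩
      · exact ⟨mem_insert_of_mem (hedge e' h').1, mem_insert_of_mem (hedge e' h').2⟩

lemma Dom.keep {E : Finset (ℤ × ℤ)} (hD : Dom E) {c : ℤ × ℤ} (hc : vx c ∈ VV E) (hl : lab c ∉ E)
    {ω : Finset (ℤ × ℤ)} (hin : InOrb (nx ω) 0 c) (T : Finset (ℤ × ℤ)) :
    ω ∪ T ⊆ E → InOrb (nx (ω ∪ T)) 0 c := by
  classical
  induction T using Finset.induction_on with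
  | empty => intro _; rw [union_empty]; exact hin
  | insert a T _ ih =>
    intro hsub
    rw [union_insert] at hsub ⊢
    have h1 := ih ((subset_insert _ _).trans hsub)
    by_cases ha : a ∈ ω ∪ T
    · rw [insert_eq_of_mem ha]; exact h1
    · have hω' : ω ∪ T ⊆ E := (subset_insert _ _).trans hsub
      have hO := Dom.orb hω'
      have hO' := Dom.orb hsub
      obtain ⟨i, hi, hic⟩ := (hO.inOrb_iff c).1 h1
      obtain ⟨j, hj, hj1, -⟩ := hD.step hω' (hsub (mem_insert_self _ _)) ha hc hl hO hO' hi hic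
      exact ⟨j, hj1⟩

/-- Loop membership of boundary corners is connectivity. -/
lemma Dom.loop_iff {E : Finset (ℤ × ℤ)} (hD : Dom E) {ω : Finset (ℤ × ℤ)} (hω : ω ⊆ E)
    {c : ℤ × ℤ} (hc : vx c ∈ VV E) (hl : lab c ∉ E) :
    c ∈ loopC ω ↔ Co ω 0 (vx c) := by
  classical
  have hodd : ∀ e ∈ ω, (e.1 + e.2) % 2 = 1 := fun e he => hD.odd e (hω he)
  rw [Dom.mem_loopC hω, ← cn_iff_co hodd]
  constructor
  · exact loop_conn
  · intro hv
    obtain ⟨ω', hsub, S, hv', h0, hall, hedge⟩ := hD.tree hω hv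
    have := hD.keep hc hl (hall c hv') ω (by rw [union_eq_right.2 hsub]; exact hω)
    rwa [union_eq_right.2 hsub] at this

/-- The identity in terms of connection probabilities. -/
theorem Dom.identity {E : Finset (ℤ × ℤ)} (hD : Dom E) (θ : ℤ → ℤ)
    (hθ : ∀ k, θ (k + 2) = θ (k + 1) - θ k) (ι : ℤ × ℤ → ℤ)
    (hι : ∀ j < Lp E, lab ((nx E)^[j] 0) ∉ E → KK (nx E) (del E) 0 0 j = ι ((nx E)^[j] 0)) :
    ∑ c ∈ BE E, ((θ (ι c) - θ (ι c + 1) : ℤ) : ℝ) * Pr E (fun ω => Co ω 0 (vx c)) =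
      ((θ 0 - θ 4 : ℤ) : ℝ) := by
  classical
  have h := hD.main_identity θ hθ ι hι
  have hcard : (E.powerset.card : ℝ) = 2 ^ E.card := by rw [card_powerset]; push_cast; rfl
  have hpos : (0 : ℝ) < 2 ^ E.card := by positivity
  have h2 : ∀ c ∈ BE E, Pr E (fun ω => Co ω 0 (vx c)) * 2 ^ E.card =
      ((E.powerset.filter (fun ω => c ∈ loopC ω)).card : ℝ) := by
    intro c hc
    have hc' := mem_filter.1 hc
    have : Pr E (fun ω => Co ω 0 (vx c)) = Pr E (fun ω => c ∈ loopC ω) :=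
      Pr_congr fun ω hω => (hD.loop_iff hω (mem_CV.1 hc'.1) hc'.2).symm
    rw [this, Pr_eq, div_mul_cancel₀ _ hpos.ne']
  have h3 : (∑ c ∈ BE E, ((θ (ι c) - θ (ι c + 1) : ℤ) : ℝ) * Pr E (fun ω => Co ω 0 (vx c))) *
      2 ^ E.card = ((θ 0 - θ 4 : ℤ) : ℝ) * 2 ^ E.card := by
    rw [Finset.sum_mul, ← hcard]
    have h4 : (∑ c ∈ BE E, (((θ (ι c) - θ (ι c + 1)) *
      ((E.powerset.filter (fun ω => c ∈ loopC ω)).card : ℤ) : ℤ) : ℝ)) =
      (((θ 0 - θ 4) * (E.powerset.card : ℤ) : ℤ) : ℝ) := by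
      rw [← h]; push_cast; rfl
    push_cast at h4 ⊢
    rw [← h4]
    apply Finset.sum_congr rfl
    intro c hc
    rw [hcard, mul_assoc, h2 c hc]
  exact mul_right_cancel₀ hpos.ne' h3

end Pool.Agent.H75.Perc
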