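import Mathlib
import Pool.Agent.H75.Perc.Dom2

set_option autoImplicit false
open Finset

/-! Histogram domains `{(x,y) : 0 ≤ x ≤ w, 0 ≤ y ≤ f x}`. -/

namespace Pool.Agent.H75.Perc

/-- Vertices of the histogram. -/
def hh (w : ℕ) (f : ℕ → ℕ) (x y : ℤ) : Prop := 0 ≤ x ∧ x ≤ w ∧ 0 ≤ y ∧ y ≤ (f x.toNat : ℤ)

/-- Edges of the histogram. -/
noncomputable def EH (w : ℕ) (f : ℕ → ℕ) : Finset (ℤ × ℤ) :=
  @Finset.filter _ (fun e => hh w f (vx (in1 e)).1 (vx (in1 e)).2 ∧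
    hh w f (vx (in2 e)).1 (vx (in2 e)).2) (Classical.decPred _)
    (Bx 0 w 0 ((range (w + 1)).sup f : ℕ))

lemma mem_EH {w : ℕ} {f : ℕ → ℕ} {e : ℤ × ℤ} : e ∈ EH w f ↔ (e.1 + e.2) % 2 = 1 ∧
    hh w f (vx (in1 e)).1 (vx (in1 e)).2 ∧ hh w f (vx (in2 e)).1 (vx (in2 e)).2 := by
  unfold EH
  rw [@mem_filter _ _ (Classical.decPred _), mem_Bx]
  constructor
  · rintro ⟨h1, h2⟩; exact ⟨h1.2.2, h2⟩
  · rintro ⟨h1, h2, h3⟩
    refine ⟨?_, h2, h3⟩
    have hs := sum_ends h1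
    unfold hh at h2 h3
    have b1 : (f (vx (in1 e)).1.toNat : ℤ) ≤ ((range (w + 1)).sup f : ℕ) := by
      exact_mod_cast Finset.le_sup (f := f) (mem_range.2 (by omega))
    have b2 : (f (vx (in2 e)).1.toNat : ℤ) ≤ ((range (w + 1)).sup f : ℕ) := by
      exact_mod_cast Finset.le_sup (f := f) (mem_range.2 (by omega))
    omega

lemma mem_EH_h {w : ℕ} {f : ℕ → ℕ} (x y : ℤ) :
    ((2 * x + 1, 2 * y) : ℤ × ℤ) ∈ EH w f ↔ hh w f x y ∧ hh w f (x + 1) y := by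
  rw [mem_EH]
  rcases vx_in1 ((2 * x + 1, 2 * y) : ℤ × ℤ) (by simp only; omega) with
    ⟨g1, g2, g3, g4⟩ | ⟨g1, g2, g3, g4⟩
  · rw [g3, g4]
    have e1 : (2 * x + 1 - 1) / 2 = x := by omega
    have e2 : (2 * x + 1 + 1) / 2 = x + 1 := by omega
    have e3 : 2 * y / 2 = y := by omega
    simp only [e1, e2, e3]
    constructor
    · rintro ⟨-, h⟩; exact h
    · intro h; exact ⟨by omega, h⟩
  · simp only at g1; omega

lemma mem_EH_v {w : ℕ} {f : ℕ → ℕ} (x y : ℤ) :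
    ((2 * x, 2 * y + 1) : ℤ × ℤ) ∈ EH w f ↔ hh w f x y ∧ hh w f x (y + 1) := by
  rw [mem_EH]
  rcases vx_in1 ((2 * x, 2 * y + 1) : ℤ × ℤ) (by simp only; omega) with
    ⟨g1, g2, g3, g4⟩ | ⟨g1, g2, g3, g4⟩
  · simp only at g1; omega
  · rw [g3, g4]
    have e1 : (2 * y + 1 + 1) / 2 = y + 1 := by omega
    have e2 : (2 * y + 1 - 1) / 2 = y := by omega
    have e3 : 2 * x / 2 = x := by omega
    simp only [e1, e2, e3]
    constructor
    · rintro ⟨-, h1, h2⟩; exact ⟨h2, h1⟩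
    · intro h; exact ⟨by omega, h.2, h.1⟩

section corners

variable (w : Finset (ℤ × ℤ)) (x y : ℤ)

lemma nx_c0 : nx w (2 * x, 2 * y) = if ((2 * x, 2 * y - 1) : ℤ × ℤ) ∈ w then (2 * x, 2 * y - 1)
    else (2 * x + 1, 2 * y) := by
  unfold nx
  rcases ty_cases ((2 * x, 2 * y) : ℤ × ℤ) with ⟨h0, h1, h2, h3, h4, h5⟩ |
    ⟨h0, h1, h2, h3, h4, h5⟩ | ⟨h0, h1, h2, h3, h4, h5⟩ | ⟨h0, h1, h2, h3, h4, h5⟩ <;>
  simp only at h1 h2 h3 h4 h5
  · rw [h3, h4, h5]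
  all_goals omega

lemma nx_c1 : nx w (2 * x + 1, 2 * y) = if ((2 * x + 1, 2 * y) : ℤ × ℤ) ∈ w then
    (2 * x + 2, 2 * y) else (2 * x + 1, 2 * y + 1) := by
  unfold nx
  rcases ty_cases ((2 * x + 1, 2 * y) : ℤ × ℤ) with ⟨h0, h1, h2, h3, h4, h5⟩ |
    ⟨h0, h1, h2, h3, h4, h5⟩ | ⟨h0, h1, h2, h3, h4, h5⟩ | ⟨h0, h1, h2, h3, h4, h5⟩ <;>
  simp only at h1 h2 h3 h4 h5
  · omega
  · rw [h3, h4, h5]
    have : 2 * x + 1 + 1 = 2 * x + 2 := by ring
    rw [this]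
  all_goals omega

lemma nx_c2 : nx w (2 * x + 1, 2 * y + 1) = if ((2 * x, 2 * y + 1) : ℤ × ℤ) ∈ w then
    (2 * x + 1, 2 * y + 2) else (2 * x, 2 * y + 1) := by
  unfold nx
  rcases ty_cases ((2 * x + 1, 2 * y + 1) : ℤ × ℤ) with ⟨h0, h1, h2, h3, h4, h5⟩ |
    ⟨h0, h1, h2, h3, h4, h5⟩ | ⟨h0, h1, h2, h3, h4, h5⟩ | ⟨h0, h1, h2, h3, h4, h5⟩ <;>
  simp only at h1 h2 h3 h4 h5
  · omega
  · omega
  · rw [h3, h4, h5]
    have e1 : 2 * x + 1 - 1 = 2 * x := by ring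
    have e2 : 2 * y + 1 + 1 = 2 * y + 2 := by ring
    rw [e1, e2]
  · omega

lemma nx_c3 : nx w (2 * x, 2 * y + 1) = if ((2 * x - 1, 2 * y) : ℤ × ℤ) ∈ w then
    (2 * x - 1, 2 * y + 1) else (2 * x, 2 * y) := by
  unfold nx
  rcases ty_cases ((2 * x, 2 * y + 1) : ℤ × ℤ) with ⟨h0, h1, h2, h3, h4, h5⟩ |
    ⟨h0, h1, h2, h3, h4, h5⟩ | ⟨h0, h1, h2, h3, h4, h5⟩ | ⟨h0, h1, h2, h3, h4, h5⟩ <;>
  simp only at h1 h2 h3 h4 h5
  · omega
  · omega
  · omega
  · rw [h3, h4, h5]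
    have e1 : 2 * y + 1 - 1 = 2 * y := by ring
    rw [e1]

lemma lab_c0 : lab (2 * x, 2 * y) = (2 * x, 2 * y - 1) := by
  rcases ty_cases ((2 * x, 2 * y) : ℤ × ℤ) with ⟨h0, h1, h2, h3, h4, h5⟩ |
    ⟨h0, h1, h2, h3, h4, h5⟩ | ⟨h0, h1, h2, h3, h4, h5⟩ | ⟨h0, h1, h2, h3, h4, h5⟩ <;>
  simp only at h1 h2 h3
  · exact h3
  all_goals omega

lemma lab_c1 : lab (2 * x + 1, 2 * y) = (2 * x + 1, 2 * y) := by
  rcases ty_cases ((2 * x + 1, 2 * y) : ℤ × ℤ) with ⟨h0, h1, h2, h3, h4, h5⟩ |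
    ⟨h0, h1, h2, h3, h4, h5⟩ | ⟨h0, h1, h2, h3, h4, h5⟩ | ⟨h0, h1, h2, h3, h4, h5⟩ <;>
  simp only at h1 h2 h3
  · omega
  · exact h3
  all_goals omega

lemma lab_c2 : lab (2 * x + 1, 2 * y + 1) = (2 * x, 2 * y + 1) := by
  rcases ty_cases ((2 * x + 1, 2 * y + 1) : ℤ × ℤ) with ⟨h0, h1, h2, h3, h4, h5⟩ |
    ⟨h0, h1, h2, h3, h4, h5⟩ | ⟨h0, h1, h2, h3, h4, h5⟩ | ⟨h0, h1, h2, h3, h4, h5⟩ <;>
  simp only at h1 h2 h3
  · omega
  · omega
  · rw [h3]
    have e1 : 2 * x + 1 - 1 = 2 * x := by ring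
    rw [e1]
  · omega

lemma lab_c3 : lab (2 * x, 2 * y + 1) = (2 * x - 1, 2 * y) := by
  rcases ty_cases ((2 * x, 2 * y + 1) : ℤ × ℤ) with ⟨h0, h1, h2, h3, h4, h5⟩ |
    ⟨h0, h1, h2, h3, h4, h5⟩ | ⟨h0, h1, h2, h3, h4, h5⟩ | ⟨h0, h1, h2, h3, h4, h5⟩ <;>
  simp only at h1 h2 h3
  · omega
  · omega
  · omega
  · rw [h3]
    have e1 : 2 * y + 1 - 1 = 2 * y := by ring
    rw [e1]

lemma ty_c0 : ty (2 * x, 2 * y) = 0 := by
  rcases ty_cases ((2 * x, 2 * y) : ℤ × ℤ) with ⟨h0, h1, h2, h3, h4, h5⟩ |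
    ⟨h0, h1, h2, h3, h4, h5⟩ | ⟨h0, h1, h2, h3, h4, h5⟩ | ⟨h0, h1, h2, h3, h4, h5⟩ <;>
  simp only at h1 h2 <;> omega

lemma ty_c1 : ty (2 * x + 1, 2 * y) = 1 := by
  rcases ty_cases ((2 * x + 1, 2 * y) : ℤ × ℤ) with ⟨h0, h1, h2, h3, h4, h5⟩ |
    ⟨h0, h1, h2, h3, h4, h5⟩ | ⟨h0, h1, h2, h3, h4, h5⟩ | ⟨h0, h1, h2, h3, h4, h5⟩ <;>
  simp only at h1 h2 <;> omega

lemma ty_c2 : ty (2 * x + 1, 2 * y + 1) = 2 := by
  rcases ty_cases ((2 * x + 1, 2 * y + 1) : ℤ × ℤ) with ⟨h0, h1, h2, h3, h4, h5⟩ |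
    ⟨h0, h1, h2, h3, h4, h5⟩ | ⟨h0, h1, h2, h3, h4, h5⟩ | ⟨h0, h1, h2, h3, h4, h5⟩ <;>
  simp only at h1 h2 <;> omega

lemma ty_c3 : ty (2 * x, 2 * y + 1) = 3 := by
  rcases ty_cases ((2 * x, 2 * y + 1) : ℤ × ℤ) with ⟨h0, h1, h2, h3, h4, h5⟩ |
    ⟨h0, h1, h2, h3, h4, h5⟩ | ⟨h0, h1, h2, h3, h4, h5⟩ | ⟨h0, h1, h2, h3, h4, h5⟩ <;>
  simp only at h1 h2 <;> omega

end corners

lemma vx_c0 (x y : ℤ) : vx (2 * x, 2 * y) = (x, y) := by
  unfold vx; refine Prod.ext ?_ ?_ <;> simp only <;> omega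
lemma vx_c1 (x y : ℤ) : vx (2 * x + 1, 2 * y) = (x, y) := by
  unfold vx; refine Prod.ext ?_ ?_ <;> simp only <;> omega
lemma vx_c2 (x y : ℤ) : vx (2 * x + 1, 2 * y + 1) = (x, y) := by
  unfold vx; refine Prod.ext ?_ ?_ <;> simp only <;> omega
lemma vx_c3 (x y : ℤ) : vx (2 * x, 2 * y + 1) = (x, y) := by
  unfold vx; refine Prod.ext ?_ ?_ <;> simp only <;> omega

lemma corner_form (c : ℤ × ℤ) : ∃ x y : ℤ, c = (2 * x, 2 * y) ∨ c = (2 * x + 1, 2 * y) ∨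
    c = (2 * x + 1, 2 * y + 1) ∨ c = (2 * x, 2 * y + 1) := by
  refine ⟨c.1 / 2, c.2 / 2, ?_⟩
  obtain ⟨a, b⟩ := c
  simp only [Prod.mk.injEq]
  omega

/-- States of the full exploration with their indices. -/
def St (w : ℕ) (f : ℕ → ℕ) (c : ℤ × ℤ) (k : ℤ) : Prop :=
  ∃ x y : ℤ, hh w f x y ∧
    ((c = (2 * x, 2 * y) ∧ ((y = 0 ∧ k = 0) ∨ (1 ≤ y ∧ ¬ hh w f (x - 1) y ∧ k = 4))) ∨
    (c = (2 * x + 1, 2 * y) ∧ (y = 0 ∨ ¬ hh w f (x + 1) y) ∧ k = 1) ∨
    (c = (2 * x + 1, 2 * y + 1) ∧ (¬ hh w f (x + 1) (y + 1) ∨ ¬ hh w f x (y + 1)) ∧ k = 2) ∨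
    (c = (2 * x, 2 * y + 1) ∧ (¬ hh w f x (y + 1) ∨ ¬ hh w f (x - 1) (y + 1)) ∧ k = 3))

lemma St_step {w : ℕ} {f : ℕ → ℕ} {c : ℤ × ℤ} {k : ℤ} (h : St w f c k) :
    nx (EH w f) c = 0 ∨ St w f (nx (EH w f) c) (k + del (EH w f) c) := by
  obtain ⟨x, y, hxy, h⟩ := h
  rcases h with ⟨rfl, h⟩ | ⟨rfl, h, rfl⟩ | ⟨rfl, h, rfl⟩ | ⟨rfl, h, rfl⟩
  · have hm := mem_EH_v (w := w) (f := f) x (y - 1)
    have e1 : 2 * (y - 1) + 1 = 2 * y - 1 := by ring
    have e2 : y - 1 + 1 = y := by ring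
    rw [e1, e2] at hm
    rw [nx_c0]
    unfold del
    rw [lab_c0]
    rcases h with ⟨rfl, rfl⟩ | ⟨h1, h2, rfl⟩
    · have hn : ((2 * x, 2 * 0 - 1) : ℤ × ℤ) ∉ EH w f := by
        rw [hm]; unfold hh; omega
      rw [if_neg hn, if_neg hn]
      right
      exact ⟨x, 0, hxy, Or.inr (Or.inl ⟨rfl, Or.inl rfl, by norm_num⟩)⟩
    · have hn : ((2 * x, 2 * y - 1) : ℤ × ℤ) ∈ EH w f := by
        rw [hm]; unfold hh at hxy ⊢; omega
      rw [if_pos hn, if_pos hn]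
      right
      refine ⟨x, y - 1, by unfold hh at hxy ⊢; omega, Or.inr (Or.inr (Or.inr ⟨?_, ?_, by norm_num⟩))⟩
      · refine Prod.ext ?_ ?_ <;> simp only; ring
      · right; rw [e2]; exact h2
  · have hm := mem_EH_h (w := w) (f := f) x y
    rw [nx_c1]
    unfold del
    rw [lab_c1]
    by_cases hn : ((2 * x + 1, 2 * y) : ℤ × ℤ) ∈ EH w f
    · rw [if_pos hn, if_pos hn]
      right
      have h2 := (hm.1 hn).2
      have hy : y = 0 := by
        rcases h with h | h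
        · exact h
        · exact absurd h2 h
      refine ⟨x + 1, y, h2, Or.inl ⟨?_, Or.inl ⟨hy, by norm_num⟩⟩⟩
      refine Prod.ext ?_ ?_ <;> simp only; ring
    · rw [if_neg hn, if_neg hn]
      right
      refine ⟨x, y, hxy, Or.inr (Or.inr (Or.inl ⟨rfl, Or.inl ?_, by norm_num⟩))⟩
      have h2 : ¬ hh w f (x + 1) y := fun h' => hn (hm.2 ⟨hxy, h'⟩)
      unfold hh at hxy h2 ⊢; omega
  · have hm := mem_EH_v (w := w) (f := f) x y
    rw [nx_c2]
    unfold del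
    rw [lab_c2]
    by_cases hn : ((2 * x, 2 * y + 1) : ℤ × ℤ) ∈ EH w f
    · rw [if_pos hn, if_pos hn]
      right
      have h2 := (hm.1 hn).2
      refine ⟨x, y + 1, h2, Or.inr (Or.inl ⟨?_, Or.inr ?_, by norm_num⟩)⟩
      · refine Prod.ext ?_ ?_ <;> simp only; ring
      · rcases h with h | h
        · exact h
        · exact absurd h2 h
    · rw [if_neg hn, if_neg hn]
      right
      refine ⟨x, y, hxy, Or.inr (Or.inr (Or.inr ⟨rfl, Or.inl ?_, by norm_num⟩))⟩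
      exact fun h' => hn (hm.2 ⟨hxy, h'⟩)
  · have hm := mem_EH_h (w := w) (f := f) (x - 1) y
    have e1 : 2 * (x - 1) + 1 = 2 * x - 1 := by ring
    have e2 : x - 1 + 1 = x := by ring
    rw [e1, e2] at hm
    rw [nx_c3]
    unfold del
    rw [lab_c3]
    by_cases hn : ((2 * x - 1, 2 * y) : ℤ × ℤ) ∈ EH w f
    · rw [if_pos hn, if_pos hn]
      right
      have h2 := (hm.1 hn).1
      refine ⟨x - 1, y, h2, Or.inr (Or.inr (Or.inl ⟨?_, ?_, by norm_num⟩))⟩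
      · refine Prod.ext ?_ ?_ <;> simp only; ring
      · rw [e2]; exact h
    · rw [if_neg hn, if_neg hn]
      have h2 : ¬ hh w f (x - 1) y := fun h' => hn (hm.2 ⟨h', hxy⟩)
      by_cases hy : y = 0
      · left
        subst hy
        have hx : x = 0 := by unfold hh at hxy h2; omega
        subst hx; rfl
      · right
        refine ⟨x, y, hxy, Or.inl ⟨rfl, Or.inr ⟨?_, h2, by norm_num⟩⟩⟩
        unfold hh at hxy; omega

lemma hh_VV {w : ℕ} {f : ℕ → ℕ} (v : ℤ × ℤ) : v ∈ VV (EH w f) ↔ hh w f v.1 v.2 := by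
  unfold VV
  rw [mem_insert, mem_union, mem_image, mem_image]
  constructor
  · rintro (h | ⟨e, he, rfl⟩ | ⟨e, he, rfl⟩)
    · rw [h]; unfold hh; simp
    · exact (mem_EH.1 he).2.1
    · exact (mem_EH.1 he).2.2
  · intro h
    obtain ⟨x, y⟩ := v
    simp only at h
    by_cases hy : y = 0
    · by_cases hx : x = 0
      · left; rw [hx, hy]; rfl
      · right; right
        refine ⟨(2 * (x - 1) + 1, 2 * y), ?_, ?_⟩
        · rw [mem_EH_h]
          have e2 : x - 1 + 1 = x := by ring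
          rw [e2]
          unfold hh at h ⊢; omega
        · rcases vx_in1 ((2 * (x - 1) + 1, 2 * y) : ℤ × ℤ) (by simp only; omega) with
            ⟨g1, g2, g3, g4⟩ | ⟨g1, g2, g3, g4⟩
          · rw [g4]; refine Prod.ext ?_ ?_ <;> simp only <;> omega
          · simp only at g1; omega
    · right; left
      refine ⟨(2 * x, 2 * (y - 1) + 1), ?_, ?_⟩
      · rw [mem_EH_v]
        have e2 : y - 1 + 1 = y := by ring
        rw [e2]
        unfold hh at h ⊢; omega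
      · rcases vx_in1 ((2 * x, 2 * (y - 1) + 1) : ℤ × ℤ) (by simp only; omega) with
            ⟨g1, g2, g3, g4⟩ | ⟨g1, g2, g3, g4⟩
        · simp only at g1; omega
        · rw [g3]; refine Prod.ext ?_ ?_ <;> simp only <;> omega

lemma St_all {w : ℕ} {f : ℕ → ℕ} {L : ℕ} (hO : Orb (nx (EH w f)) 0 L) (j : ℕ) (hj : j < L) :
    St w f ((nx (EH w f))^[j] 0) (KK (nx (EH w f)) (del (EH w f)) 0 0 j) := by
  induction j with
  | zero =>
    refine ⟨0, 0, by unfold hh; omega, Or.inl ⟨rfl, Or.inl ⟨rfl, by simp [KK]⟩⟩⟩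
  | succ j ih =>
    rcases St_step (ih (by omega)) with h | h
    · exfalso
      have := hO.inj 0 (j + 1) (by omega) hj
      apply this
      rw [Function.iterate_succ_apply']
      exact h.symm
    · rw [Function.iterate_succ_apply', KK_succ]
      exact h

lemma hist_index {w : ℕ} {f : ℕ → ℕ} (j : ℕ) (hj : j < Lp (EH w f))
    (hl : lab ((nx (EH w f))^[j] 0) ∉ EH w f) :
    KK (nx (EH w f)) (del (EH w f)) 0 0 j = ty ((nx (EH w f))^[j] 0) := by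
  obtain ⟨x, y, hxy, h⟩ := St_all (Dom.orb (subset_refl (EH w f))) j hj
  rcases h with ⟨hc, h⟩ | ⟨hc, h, hk⟩ | ⟨hc, h, hk⟩ | ⟨hc, h, hk⟩
  · rw [hc, ty_c0]
    rcases h with ⟨h1, h2⟩ | ⟨h1, h2, h3⟩
    · exact h2
    · exfalso
      rw [hc, lab_c0] at hl
      apply hl
      have hm := mem_EH_v (w := w) (f := f) x (y - 1)
      have e1 : 2 * (y - 1) + 1 = 2 * y - 1 := by ring
      have e2 : y - 1 + 1 = y := by ring
      rw [e1, e2] at hm
      rw [hm]; unfold hh at hxy ⊢; omega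
  · rw [hc, ty_c1, hk]
  · rw [hc, ty_c2, hk]
  · rw [hc, ty_c3, hk]

/-- Membership in the outer loop. -/
def IO (w : ℕ) (f : ℕ → ℕ) (c : ℤ × ℤ) : Prop := InOrb (nx (EH w f)) 0 c

lemma IO_next {w : ℕ} {f : ℕ → ℕ} {c : ℤ × ℤ} (h : IO w f c) : IO w f (nx (EH w f) c) := by
  obtain ⟨i, hi⟩ := h
  exact ⟨i + 1, by rw [Function.iterate_succ_apply', hi]⟩

lemma IO_bottom {w : ℕ} {f : ℕ → ℕ} (x : ℕ) (hx : x ≤ w) :
    IO w f (2 * (x : ℤ), 2 * 0) ∧ IO w f (2 * (x : ℤ) + 1, 2 * 0) := by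
  have step : ∀ x : ℕ, IO w f (2 * (x : ℤ), 2 * 0) → IO w f (2 * (x : ℤ) + 1, 2 * 0) := by
    intro x h
    have := IO_next h
    rw [nx_c0, if_neg] at this
    · exact this
    · have hm := mem_EH_v (w := w) (f := f) x (-1)
      have e1 : (2 * (-1) + 1 : ℤ) = 2 * 0 - 1 := by ring
      rw [e1] at hm
      rw [hm]; unfold hh; omega
  induction x with
  | zero => exact ⟨⟨0, rfl⟩, step 0 ⟨0, rfl⟩⟩
  | succ x ih =>
    have h1 := IO_next (ih (by omega)).2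
    rw [nx_c1, if_pos] at h1
    · have h2 : IO w f (2 * ((x + 1 : ℕ) : ℤ), 2 * 0) := by
        have e : (2 * (x : ℤ) + 2) = 2 * ((x + 1 : ℕ) : ℤ) := by push_cast; ring
        rw [e] at h1; exact h1
      exact ⟨h2, step _ h2⟩
    · rw [mem_EH_h]; unfold hh; omega

/-- Going up along a wall facing east. -/
lemma IO_up {w : ℕ} {f : ℕ → ℕ} {x : ℕ} (hx : x ≤ w) {y0 : ℕ}
    (h0 : IO w f (2 * (x : ℤ) + 1, 2 * (y0 : ℤ) + 1))
    (hE : ∀ y : ℕ, y0 < y → ¬ hh w f ((x : ℤ) + 1) y) (y : ℕ) (h1 : y0 ≤ y) (h2 : y ≤ f x) :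
    IO w f (2 * (x : ℤ) + 1, 2 * (y : ℤ) + 1) ∧
      (y0 < y → IO w f (2 * (x : ℤ) + 1, 2 * (y : ℤ))) := by
  induction y, h1 using Nat.le_induction with
  | base => exact ⟨h0, fun h => absurd h (lt_irrefl _)⟩
  | succ y hy ih =>
    have h3 := IO_next (ih (by omega)).1
    rw [nx_c2, if_pos] at h3
    · have e : (2 * (y : ℤ) + 2) = 2 * ((y + 1 : ℕ) : ℤ) := by push_cast; ring
      rw [e] at h3
      have h4 := IO_next h3
      rw [nx_c1, if_neg] at h4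
      · exact ⟨h4, fun _ => h3⟩
      · rw [mem_EH_h]
        intro h5
        exact hE (y + 1) (by omega) h5.2
    · rw [mem_EH_v]; unfold hh
      have e : ((x : ℤ)).toNat = x := Int.toNat_natCast x
      rw [e]; omega

/-- Going down along a wall facing west. -/
lemma IO_down {w : ℕ} {f : ℕ → ℕ} {x : ℕ} (hx : x ≤ w) {y0 : ℕ} (hy0 : y0 ≤ f x)
    (h0 : IO w f (2 * (x : ℤ), 2 * (y0 : ℤ) + 1)) (y1 : ℕ)
    (hW : ∀ y : ℕ, y1 < y → ¬ hh w f ((x : ℤ) - 1) y) (d : ℕ) :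
    ∀ y : ℕ, y + d = y0 → y1 ≤ y → IO w f (2 * (x : ℤ), 2 * (y : ℤ) + 1) := by
  induction d with
  | zero =>
    intro y hy _
    have : y = y0 := by omega
    rw [this]; exact h0
  | succ d ih =>
    intro y hy hy1
    have h1 := IO_next (ih (y + 1) (by omega) (by omega))
    rw [nx_c3, if_neg] at h1
    · have h2 := IO_next h1
      rw [nx_c0, if_pos] at h2
      · have e : (2 * ((y + 1 : ℕ) : ℤ) - 1) = 2 * (y : ℤ) + 1 := by push_cast; ring
        rw [e] at h2; exact h2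
      · have hm := mem_EH_v (w := w) (f := f) x y
        have e1 : (2 * ((y + 1 : ℕ) : ℤ) - 1) = 2 * (y : ℤ) + 1 := by push_cast; ring
        rw [e1, hm]; unfold hh
        have e : ((x : ℤ)).toNat = x := Int.toNat_natCast x
        rw [e]; omega
    · have hm := mem_EH_h (w := w) (f := f) ((x : ℤ) - 1) ((y + 1 : ℕ) : ℤ)
      have e1 : 2 * ((x : ℤ) - 1) + 1 = 2 * (x : ℤ) - 1 := by ring
      rw [e1] at hm
      rw [hm]
      intro h5
      exact hW (y + 1) (by omega) h5.1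

/-- One column. -/
lemma IO_col {w : ℕ} {f : ℕ → ℕ} {x : ℕ} (hx : x + 1 ≤ w)
    (h : IO w f (2 * ((x + 1 : ℕ) : ℤ) + 1, 2 * (f (x + 1) : ℤ) + 1)) :
    IO w f (2 * (x : ℤ) + 1, 2 * (f x : ℤ) + 1) ∧
    (∀ y : ℕ, f (x + 1) < y → y ≤ f x → IO w f (2 * (x : ℤ) + 1, 2 * (y : ℤ))) ∧
    (∀ y : ℕ, f x < y → y ≤ f (x + 1) → IO w f (2 * ((x + 1 : ℕ) : ℤ), 2 * (y : ℤ) + 1)) := by
  have ex : ((x : ℤ)).toNat = x := Int.toNat_natCast x
  have ex1 : (((x + 1 : ℕ) : ℤ)).toNat = x + 1 := Int.toNat_natCast (x + 1)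
  have ex2 : ((x : ℤ) + 1).toNat = x + 1 := by omega
  have ex3 : (((x + 1 : ℕ) : ℤ) - 1) = (x : ℤ) := by push_cast; ring
  -- NW corner of the top of column x + 1
  have h1 := IO_next h
  rw [nx_c2, if_neg (by rw [mem_EH_v]; unfold hh; rw [ex1]; omega)] at h1
  by_cases hc : f (x + 1) ≤ f x
  · have h2 := IO_next h1
    rw [nx_c3, if_pos] at h2
    · have e : (2 * ((x + 1 : ℕ) : ℤ) - 1) = 2 * (x : ℤ) + 1 := by push_cast; ring
      rw [e] at h2
      have h3 := IO_up (f := f) (x := x) (by omega) h2 (by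
        intro y hy h5
        unfold hh at h5; rw [ex2] at h5; omega)
      refine ⟨(h3 (f x) hc le_rfl).1, fun y hy1 hy2 => (h3 y (by omega) hy2).2 hy1, ?_⟩
      intro y hy1 hy2; omega
    · have hm := mem_EH_h (w := w) (f := f) (x : ℤ) (f (x + 1) : ℤ)
      have e1 : 2 * (x : ℤ) + 1 = 2 * ((x + 1 : ℕ) : ℤ) - 1 := by push_cast; ring
      rw [e1] at hm
      rw [hm]; unfold hh; rw [ex, ex2]; omega
  · have h2 := IO_down (f := f) (x := x + 1) hx le_rfl h1 (f x) (by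
      intro y hy h5
      rw [ex3] at h5
      unfold hh at h5; rw [ex] at h5; omega)
    have h3 := h2 (f (x + 1) - f x) (f x) (by omega) le_rfl
    have h4 := IO_next h3
    rw [nx_c3, if_pos] at h4
    · have e : (2 * ((x + 1 : ℕ) : ℤ) - 1) = 2 * (x : ℤ) + 1 := by push_cast; ring
      rw [e] at h4
      refine ⟨h4, fun y hy1 hy2 => by omega, ?_⟩
      intro y hy1 hy2
      exact h2 (f (x + 1) - y) y (by omega) (by omega)
    · have hm := mem_EH_h (w := w) (f := f) (x : ℤ) (f x : ℤ)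
      have e1 : 2 * (x : ℤ) + 1 = 2 * ((x + 1 : ℕ) : ℤ) - 1 := by push_cast; ring
      rw [e1] at hm
      rw [hm]; unfold hh; rw [ex, ex2]; omega

lemma IO_top {w : ℕ} {f : ℕ → ℕ} (d : ℕ) : ∀ x : ℕ, x + d = w →
    IO w f (2 * (x : ℤ) + 1, 2 * (f x : ℤ) + 1) := by
  induction d with
  | zero =>
    intro x hx
    have hxw : x = w := by omega
    subst hxw
    have h1 := IO_next (IO_bottom (f := f) x le_rfl).2
    rw [nx_c1, if_neg (by rw [mem_EH_h]; unfold hh; omega)] at h1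
    have h2 := IO_up (f := f) (x := x) le_rfl (y0 := 0) (by simpa using h1) (by
      intro y hy h5
      unfold hh at h5; omega)
    exact (h2 (f x) (Nat.zero_le _) le_rfl).1
  | succ d ih =>
    intro x hx
    exact (IO_col (x := x) (by omega) (ih (x + 1) (by omega))).1

lemma hist_dom (w : ℕ) (f : ℕ → ℕ) : Dom (EH w f) where
  odd e he := (mem_EH.1 he).1
  base := by
    have e1 : lab 0 = ((2 * 0, 2 * (-1) + 1) : ℤ × ℤ) := by decide
    rw [e1, mem_EH_v]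
    unfold hh; omega
  loop := by
    intro c hc hl
    rw [hh_VV] at hc
    obtain ⟨x, y, h⟩ := corner_form c
    change IO w f c
    rcases h with rfl | rfl | rfl | rfl
    · rw [vx_c0] at hc
      simp only at hc
      rw [lab_c0] at hl
      have hm := mem_EH_v (w := w) (f := f) x (y - 1)
      have e1 : 2 * (y - 1) + 1 = 2 * y - 1 := by ring
      have e2 : y - 1 + 1 = y := by ring
      rw [e1, e2] at hm
      rw [hm] at hl
      have hy : y = 0 := by unfold hh at hc hl; omega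
      subst hy
      obtain ⟨x', rfl⟩ : ∃ x' : ℕ, x = x' := ⟨x.toNat, by unfold hh at hc; omega⟩
      exact (IO_bottom x' (by unfold hh at hc; omega)).1
    · rw [vx_c1] at hc
      simp only at hc
      rw [lab_c1, mem_EH_h] at hl
      obtain ⟨x', rfl⟩ : ∃ x' : ℕ, x = x' := ⟨x.toNat, by unfold hh at hc; omega⟩
      obtain ⟨y', rfl⟩ : ∃ y' : ℕ, y = y' := ⟨y.toNat, by unfold hh at hc; omega⟩
      have ex : ((x' : ℤ)).toNat = x' := Int.toNat_natCast x'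
      have ex2 : ((x' : ℤ) + 1).toNat = x' + 1 := by omega
      unfold hh at hc hl
      rw [ex] at hc hl
      rw [ex2] at hl
      by_cases hxw : x' = w
      · subst hxw
        have h1 := IO_next (IO_bottom (f := f) x' le_rfl).2
        rw [nx_c1, if_neg (by rw [mem_EH_h]; unfold hh; omega)] at h1
        have h2 := IO_up (f := f) (x := x') le_rfl (y0 := 0) (by simpa using h1) (by
          intro y hy h5
          unfold hh at h5; omega)
        rcases Nat.eq_zero_or_pos y' with h0 | h0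
        · subst h0
          have := (IO_bottom (f := f) x' le_rfl).2
          simpa using this
        · exact (h2 y' (Nat.zero_le _) (by omega)).2 h0
      · have h1 := (IO_col (w := w) (f := f) (x := x') (by omega)
          (IO_top (f := f) (w - (x' + 1)) (x' + 1) (by omega))).2.1
        exact h1 y' (by omega) (by omega)
    · rw [vx_c2] at hc
      simp only at hc
      rw [lab_c2, mem_EH_v] at hl
      obtain ⟨x', rfl⟩ : ∃ x' : ℕ, x = x' := ⟨x.toNat, by unfold hh at hc; omega⟩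
      have ex : ((x' : ℤ)).toNat = x' := Int.toNat_natCast x'
      unfold hh at hc hl
      rw [ex] at hc hl
      have hy : y = f x' := by omega
      subst hy
      exact IO_top (w - x') x' (by omega)
    · rw [vx_c3] at hc
      simp only at hc
      rw [lab_c3] at hl
      have hm := mem_EH_h (w := w) (f := f) (x - 1) y
      have e1 : 2 * (x - 1) + 1 = 2 * x - 1 := by ring
      have e2 : x - 1 + 1 = x := by ring
      rw [e1, e2] at hm
      rw [hm] at hl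
      obtain ⟨x', rfl⟩ : ∃ x' : ℕ, x = x' := ⟨x.toNat, by unfold hh at hc; omega⟩
      obtain ⟨y', rfl⟩ : ∃ y' : ℕ, y = y' := ⟨y.toNat, by unfold hh at hc; omega⟩
      have ex : ((x' : ℤ)).toNat = x' := Int.toNat_natCast x'
      rcases Nat.eq_zero_or_pos x' with h0 | h0
      · subst h0
        have h1 := IO_next (IO_top (w := w) (f := f) w 0 (by omega))
        rw [nx_c2, if_neg (by rw [mem_EH_v]; unfold hh; rw [ex]; omega)] at h1
        unfold hh at hc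
        rw [ex] at hc
        have h2 := IO_down (f := f) (x := 0) (by omega) le_rfl h1 0 (by
          intro y hy h5
          unfold hh at h5; omega)
        exact h2 (f 0 - y') y' (by omega) (by omega)
      · obtain ⟨x, rfl⟩ : ∃ x : ℕ, x' = x + 1 := ⟨x' - 1, by omega⟩
        have ex3 : (((x + 1 : ℕ) : ℤ) - 1) = (x : ℤ) := by push_cast; ring
        rw [ex3] at hl
        have exx : ((x : ℤ)).toNat = x := Int.toNat_natCast x
        unfold hh at hc hl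
        rw [ex] at hc hl
        rw [exx] at hl
        have h1 := (IO_col (w := w) (f := f) (x := x) (by omega)
          (IO_top (f := f) (w - (x + 1)) (x + 1) (by omega))).2.2
        exact h1 y' (by omega) (by omega)

end Pool.Agent.H75.Perc
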