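import Mathlib
import Pool.Agent.H75.Perc.Graph

set_option autoImplicit false
open Finset

/-! The exact identities for the corner cluster of critical bond percolation in a rectangle. -/

namespace Pool.Agent.H75.Perc

/-- First solution of the recursion. -/
def thA (k : ℤ) : ℤ := if k % 6 = 0 ∨ k % 6 = 1 then 1 else if k % 6 = 3 ∨ k % 6 = 4 then -1 else 0

/-- Second solution of the recursion. -/
def thB (k : ℤ) : ℤ := if k % 6 = 1 ∨ k % 6 = 2 then 1 else if k % 6 = 4 ∨ k % 6 = 5 then -1 else 0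

lemma thA_rec (k : ℤ) : thA (k + 2) = thA (k + 1) - thA k := by
  unfold thA; split_ifs <;> omega

lemma thB_rec (k : ℤ) : thB (k + 2) = thB (k + 1) - thB k := by
  unfold thB; split_ifs <;> omega

lemma vx_bottom {m n : ℕ} (x : Fin (m + 1)) :
    (2 * (x : ℤ), (0 : ℤ)) ∈ CC m n ∧ lab (2 * (x : ℤ), (0 : ℤ)) ∉ EE m n ∧
      vx (2 * (x : ℤ), (0 : ℤ)) = emb ((x, 0) : Fin (m + 1) × Fin (n + 1)) := by
  have := x.isLt
  refine ⟨?_, ?_, ?_⟩
  · rw [mem_CC]; simp only; omega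
  · rw [mem_EE]; unfold lab; simp
  · unfold vx emb; simp

lemma vx_right {m n : ℕ} (y : Fin (n + 1)) :
    (2 * (m : ℤ) + 1, 2 * (y : ℤ)) ∈ CC m n ∧ lab (2 * (m : ℤ) + 1, 2 * (y : ℤ)) ∉ EE m n ∧
      vx (2 * (m : ℤ) + 1, 2 * (y : ℤ)) =
        emb ((Fin.last m, y) : Fin (m + 1) × Fin (n + 1)) := by
  have := y.isLt
  refine ⟨?_, ?_, ?_⟩
  · rw [mem_CC]; simp only; omega
  · rw [mem_EE]; unfold lab; simp [Int.add_emod]
  · unfold vx emb; refine Prod.ext ?_ ?_ <;> simp only [Fin.val_last] <;> omega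

lemma vx_top {m n : ℕ} (x : Fin (m + 1)) :
    (2 * (x : ℤ) + 1, 2 * (n : ℤ) + 1) ∈ CC m n ∧
      lab (2 * (x : ℤ) + 1, 2 * (n : ℤ) + 1) ∉ EE m n ∧
      vx (2 * (x : ℤ) + 1, 2 * (n : ℤ) + 1) =
        emb ((x, Fin.last n) : Fin (m + 1) × Fin (n + 1)) := by
  have := x.isLt
  refine ⟨?_, ?_, ?_⟩
  · rw [mem_CC]; simp only; omega
  · rw [mem_EE]; unfold lab; simp [Int.add_emod]
  · unfold vx emb; refine Prod.ext ?_ ?_ <;> simp only [Fin.val_last] <;> omega

lemma vx_left {m n : ℕ} (y : Fin (n + 1)) :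
    ((0 : ℤ), 2 * (y : ℤ) + 1) ∈ CC m n ∧ lab ((0 : ℤ), 2 * (y : ℤ) + 1) ∉ EE m n ∧
      vx ((0 : ℤ), 2 * (y : ℤ) + 1) = emb ((0, y) : Fin (m + 1) × Fin (n + 1)) := by
  have := y.isLt
  refine ⟨?_, ?_, ?_⟩
  · rw [mem_CC]; simp only; omega
  · rw [mem_EE]; unfold lab; simp [Int.add_emod]
  · unfold vx emb; refine Prod.ext ?_ ?_ <;> simp <;> omega

/-- Number of spanning subgraphs of the grid in which `v` is connected to the corner. -/
noncomputable def NV (m n : ℕ) (v : Fin (m + 1) × Fin (n + 1)) : ℕ :=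
  {H : SimpleGraph (Fin (m + 1) × Fin (n + 1)) | H ≤ grid m n ∧ H.Reachable (0, 0) v}.ncard

/-- Number of spanning subgraphs of the grid. -/
noncomputable def NA (m n : ℕ) : ℕ :=
  {H : SimpleGraph (Fin (m + 1) × Fin (n + 1)) | H ≤ grid m n}.ncard

lemma identities (m n : ℕ) :
    (∑ y : Fin (n + 1), NV m n (Fin.last m, y)) + (∑ x : Fin (m + 1), NV m n (x, Fin.last n))
      = 2 * NA m n ∧
    (∑ x : Fin (m + 1), NV m n (x, Fin.last n)) + (∑ y : Fin (n + 1), NV m n (0, y))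
      = NA m n + ∑ x : Fin (m + 1), NV m n (x, 0) := by
  have hb : ∀ x : Fin (m + 1), NV m n (x, 0) = NC m n (2 * (x : ℤ), 0) := fun x =>
    count_conn _ _ (vx_bottom x).1 (vx_bottom x).2.1 (vx_bottom x).2.2
  have hr : ∀ y : Fin (n + 1), NV m n (Fin.last m, y) = NC m n (2 * (m : ℤ) + 1, 2 * (y : ℤ)) :=
    fun y => count_conn _ _ (vx_right y).1 (vx_right y).2.1 (vx_right y).2.2
  have ht : ∀ x : Fin (m + 1), NV m n (x, Fin.last n) =
      NC m n (2 * (x : ℤ) + 1, 2 * (n : ℤ) + 1) :=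
    fun x => count_conn _ _ (vx_top x).1 (vx_top x).2.1 (vx_top x).2.2
  have hl : ∀ y : Fin (n + 1), NV m n (0, y) = NC m n (0, 2 * (y : ℤ) + 1) :=
    fun y => count_conn _ _ (vx_left y).1 (vx_left y).2.1 (vx_left y).2.2
  have hA := main_identity thA thA_rec m n
  have hB := main_identity thB thB_rec m n
  have sA := sum_BB m n (fun k => thA k - thA (k + 1)) (fun c => (NC m n c : ℤ))
  have sB := sum_BB m n (fun k => thB k - thB (k + 1)) (fun c => (NC m n c : ℤ))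
  have a0 : thA 0 - thA (0 + 1) = 0 := by decide
  have a1 : thA 1 - thA (1 + 1) = 1 := by decide
  have a2 : thA 2 - thA (2 + 1) = 1 := by decide
  have a3 : thA 3 - thA (3 + 1) = 0 := by decide
  have a4 : thA 0 - thA 4 = 2 := by decide
  have b0 : thB 0 - thB (0 + 1) = -1 := by decide
  have b1 : thB 1 - thB (1 + 1) = 0 := by decide
  have b2 : thB 2 - thB (2 + 1) = 1 := by decide
  have b3 : thB 3 - thB (3 + 1) = 1 := by decide
  have b4 : thB 0 - thB 4 = 1 := by decide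
  simp only [a0, a1, a2, a3] at sA
  simp only [b0, b1, b2, b3] at sB
  have hA' : ∑ c ∈ BB m n, (thA (ty c) - thA (ty c + 1)) * (NC m n c : ℤ) =
      (thA 0 - thA 4) * ((EE m n).powerset.card : ℤ) := hA
  have hB' : ∑ c ∈ BB m n, (thB (ty c) - thB (ty c + 1)) * (NC m n c : ℤ) =
      (thB 0 - thB 4) * ((EE m n).powerset.card : ℤ) := hB
  rw [sA, a4] at hA'
  rw [sB, b4] at hB'
  have hall : NA m n = (EE m n).powerset.card := count_all m n
  simp only [hb, hr, ht, hl, hall]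
  constructor
  · zify
    linarith
  · zify
    linarith

end Pool.Agent.H75.Perc
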