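import Mathlib
import Pool.Agent.H75.Perc.Arms
import Pool.Agent.H75.Perc.Final
import Pool.Agent.H75.Perc.Prob

set_option autoImplicit false
open Finset

/-! The product of the quarter-plane and the half-plane one-arm probabilities. -/

namespace Pool.Agent.H75.Perc

/-- One-arm event at the corner of the box `[0,n]²`. -/
def armQ (n : ℕ) (ω : Finset (ℤ × ℤ)) : Prop := ∃ z : ℤ × ℤ, (z.1 = n ∨ z.2 = n) ∧ Cn ω 0 z

/-- One-arm event at the middle of the right side of the box `[0,n] × [0,2n]`. -/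
def armH (n : ℕ) (ω : Finset (ℤ × ℤ)) : Prop :=
  ∃ z : ℤ × ℤ, (z.1 = 0 ∨ z.2 = 0 ∨ z.2 = 2 * n) ∧ Cn ω (n, n) z

lemma armQ_inc (n : ℕ) : Inc (armQ n) := by
  rintro ω ω' h ⟨z, hz, hc⟩
  exact ⟨z, hz, hc.mono h⟩

lemma armH_inc (n : ℕ) : Inc (armH n) := by
  rintro ω ω' h ⟨z, hz, hc⟩
  exact ⟨z, hz, hc.mono h⟩

/-- Upper bound for the connection of the corner to a vertex of the opposite side. -/
lemma conn_bound (n : ℕ) (y : ℤ) (hy0 : 0 ≤ y) :
    Pr (EE (2 * n + 1) (2 * n + 1)) (fun ω => Cn ω 0 (2 * (n : ℤ) + 1, y)) ≤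
      Pr (EE n n) (armQ n) * Pr (EE n (2 * n)) (armH n) := by
  set E := EE (2 * n + 1) (2 * n + 1) with hE
  set t : ℤ × ℤ := ((n : ℤ) + 1, y - n) with ht
  set E2 := (EE n (2 * n)).map (sh t) with hE2
  -- the shifted event
  let B : Finset (ℤ × ℤ) → Prop := fun ω => ∃ z : ℤ × ℤ,
    (z.1 = (n : ℤ) + 1 ∨ z.2 = y - n ∨ z.2 = y + n) ∧ Cn ω (2 * (n : ℤ) + 1, y) z
  have hBinc : Inc B := by
    rintro ω ω' h ⟨z, hz, hc⟩
    exact ⟨z, hz, hc.mono h⟩
  have hEn : EE n n ⊆ E := by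
    intro e he
    rw [mem_EE] at he
    rw [hE, mem_EE]
    push_cast
    omega
  have hmem2 : ∀ e, e ∈ E2 ↔ (2 * n + 2 ≤ e.1 ∧ e.1 ≤ 4 * n + 2) ∧
      (2 * (y - n) ≤ e.2 ∧ e.2 ≤ 2 * (y + n)) ∧ (e.1 + e.2) % 2 = 1 := by
    intro e
    rw [hE2, mem_map]
    constructor
    · rintro ⟨e', he', rfl⟩
      rw [mem_EE] at he'
      rw [sh_apply, ht]
      push_cast at he' ⊢
      omega
    · intro h
      refine ⟨(e.1 - 2 * (n + 1), e.2 - 2 * (y - n)), ?_, ?_⟩
      · rw [mem_EE]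
        push_cast
        omega
      · rw [sh_apply, ht]
        refine Prod.ext ?_ ?_ <;> simp only <;> ring
  have hdisj : Disjoint (EE n n) (E2 ∩ E) := by
    rw [disjoint_left]
    intro e he he2
    have h1 := (mem_EE.1 he).1
    have h2 := ((hmem2 e).1 (mem_inter.1 he2).1).1
    omega
  -- step 1
  have h1 : Pr E (fun ω => Cn ω 0 (2 * (n : ℤ) + 1, y)) ≤
      Pr E (fun ω => armQ n (ω ∩ EE n n) ∧ B (ω ∩ (E2 ∩ E))) := by
    apply Pr_mono
    intro ω hω hc
    constructor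
    · -- exit from the small square
      obtain ⟨z, hz, z', hz', hadj, hcn⟩ := exit_set (X := {p : ℤ × ℤ | p.1 ≤ n ∧ p.2 ≤ n}) hc
        (by simp) (by simp only [Set.mem_ofPred_eq]; omega)
      have hends := adj_ends hω hadj
      refine ⟨z, ?_, ?_⟩
      · simp only [Set.mem_ofPred_eq] at hz hz'
        omega
      · refine hcn.mono ?_
        intro e he
        rw [mem_inside] at he
        obtain ⟨h2, h3, h4⟩ := he
        have h5 := mem_EE.1 (hω h2)
        have h6 := sum_ends h5.2.2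
        rw [mem_inter, mem_EE]
        simp only [Set.mem_ofPred_eq] at h3 h4
        refine ⟨h2, ?_⟩
        omega
    · obtain ⟨z, hz, z', hz', hadj, hcn⟩ := exit_set
        (X := {p : ℤ × ℤ | (n : ℤ) + 1 ≤ p.1 ∧ y - n ≤ p.2 ∧ p.2 ≤ y + n}) hc.symm
        (by simp only [Set.mem_ofPred_eq]; omega)
        (by simp only [Set.mem_ofPred_eq, Prod.fst_zero, Prod.snd_zero]; omega)
      have hends := adj_ends hω hadj
      refine ⟨z, ?_, ?_⟩
      · simp only [Set.mem_ofPred_eq] at hz hz'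
        omega
      · refine hcn.mono ?_
        intro e he
        rw [mem_inside] at he
        obtain ⟨h2, h3, h4⟩ := he
        have h5 := mem_EE.1 (hω h2)
        have h6 := sum_ends h5.2.2
        rw [mem_inter, mem_inter, hmem2]
        simp only [Set.mem_ofPred_eq] at h3 h4
        refine ⟨h2, ?_, hω h2⟩
        push_cast at h5
        omega
  -- step 2
  have h2 : Pr E (fun ω => armQ n (ω ∩ EE n n) ∧ B (ω ∩ (E2 ∩ E))) =
      Pr (EE n n) (armQ n) * Pr (E2 ∩ E) B :=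
    Pr_indep hEn inter_subset_right hdisj _ _
  have h3 : Pr (E2 ∩ E) B ≤ Pr E2 B := Pr_inc inter_subset_left hBinc
  have h4 : Pr E2 B = Pr (EE n (2 * n)) (armH n) := by
    rw [hE2, Pr_map]
    apply Pr_congr
    intro ω _
    constructor
    · rintro ⟨z, hz, hc⟩
      rw [cn_sh] at hc
      refine ⟨z - t, ?_, ?_⟩
      · rw [ht]; simp only [Prod.fst_sub, Prod.snd_sub]; omega
      · have : ((2 * (n : ℤ) + 1, y) : ℤ × ℤ) - t = ((n : ℤ), (n : ℤ)) := by
          rw [ht]; refine Prod.ext ?_ ?_ <;> simp only [Prod.fst_sub, Prod.snd_sub] <;> ring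
        rwa [this] at hc
    · rintro ⟨z, hz, hc⟩
      refine ⟨z + t, ?_, ?_⟩
      · rw [ht]; simp only [Prod.fst_add, Prod.snd_add]; omega
      · rw [cn_sh]
        have : ((2 * (n : ℤ) + 1, y) : ℤ × ℤ) - t = ((n : ℤ), (n : ℤ)) := by
          rw [ht]; refine Prod.ext ?_ ?_ <;> simp only [Prod.fst_sub, Prod.snd_sub] <;> ring
        rw [this]
        simpa using hc
  calc Pr E (fun ω => Cn ω 0 (2 * (n : ℤ) + 1, y))
      ≤ _ := h1
    _ = _ := h2
    _ ≤ Pr (EE n n) (armQ n) * Pr (EE n (2 * n)) (armH n) := by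
        apply mul_le_mul_of_nonneg_left _ (Pr_nonneg _ _)
        rw [← h4]; exact h3

/-- Connection of any two vertices, in terms of subgraphs. -/
lemma reach_iff' {m n : ℕ} {ω : Finset (ℤ × ℤ)} (hω : ω ⊆ EE m n)
    (u v : Fin (m + 1) × Fin (n + 1)) :
    (Hof m n ω).Reachable u v ↔ Cn ω (emb u) (emb v) := by
  rw [SimpleGraph.reachable_iff_reflTransGen]
  constructor
  · intro h
    exact Relation.ReflTransGen.lift (p := Adj ω) emb (fun a b (hab : (Hof m n ω).Adj a b) =>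
      (adj_iff hω a b).2 hab) _ _ h
  · intro h
    have key : ∀ z, Cn ω (emb u) z → ∃ v : Fin (m + 1) × Fin (n + 1),
        emb v = z ∧ Relation.ReflTransGen (Hof m n ω).Adj u v := by
      intro z hz
      induction hz with
      | refl => exact ⟨u, rfl, Relation.ReflTransGen.refl⟩
      | @tail b c _ hbc ih =>
        obtain ⟨vb, hvb, hr⟩ := ih
        obtain ⟨e, he, h'⟩ := id hbc
        obtain ⟨u1, v1, hu1, hv1⟩ := endpoint (hω he)
        rcases h' with ⟨h5, h6⟩ | ⟨h5, h6⟩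
        · refine ⟨v1, by rw [hv1, h6], hr.tail ?_⟩
          apply (adj_iff hω vb v1).1
          rw [hvb, hv1, ← h6]; exact hbc
        · refine ⟨u1, by rw [hu1, h6], hr.tail ?_⟩
          apply (adj_iff hω vb u1).1
          rw [hvb, hu1, ← h6]; exact hbc
    obtain ⟨v', hv', hr⟩ := key _ h
    rw [emb_injective hv'] at hr
    exact hr

/-- Connected vertices of the box have coordinates. -/
lemma cn_emb {m n : ℕ} {ω : Finset (ℤ × ℤ)} (hω : ω ⊆ EE m n)
    (u : Fin (m + 1) × Fin (n + 1)) {z : ℤ × ℤ} (h : Cn ω (emb u) z) :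
    ∃ v : Fin (m + 1) × Fin (n + 1), emb v = z := by
  induction h with
  | refl => exact ⟨u, rfl⟩
  | @tail b c _ hbc ih =>
    obtain ⟨e, he, h'⟩ := hbc
    obtain ⟨u1, v1, hu1, hv1⟩ := endpoint (hω he)
    rcases h' with ⟨h5, h6⟩ | ⟨h5, h6⟩
    · exact ⟨v1, by rw [hv1, h6]⟩
    · exact ⟨u1, by rw [hu1, h6]⟩

/-- Probabilities as proportions of subgraphs. -/
lemma Pr_grid (m n : ℕ) (P : SimpleGraph (Fin (m + 1) × Fin (n + 1)) → Prop) :
    Pr (EE m n) (fun ω => P (Hof m n ω)) =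
      ({H : SimpleGraph (Fin (m + 1) × Fin (n + 1)) | H ≤ grid m n ∧ P H}.ncard : ℝ) /
        ({H : SimpleGraph (Fin (m + 1) × Fin (n + 1)) | H ≤ grid m n}.ncard : ℝ) := by
  classical
  rw [Pr_eq, count_all, card_powerset]
  have h1 : {H : SimpleGraph (Fin (m + 1) × Fin (n + 1)) | H ≤ grid m n ∧ P H} = Hof m n ''
        ((EE m n).powerset.filter (fun ω => P (Hof m n ω)) : Finset (Finset (ℤ × ℤ))) := by
    ext H
    simp only [Set.mem_ofPred_eq, Set.mem_image, mem_coe, mem_filter]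
    constructor
    · rintro ⟨hH, hr⟩
      obtain ⟨ω, hω, rfl⟩ := Hof_surj H hH
      exact ⟨ω, ⟨hω, hr⟩, rfl⟩
    · rintro ⟨ω, ⟨hω, hloop⟩, rfl⟩
      exact ⟨Hof_le m n ω, hloop⟩
  rw [h1, Set.InjOn.ncard_image, Set.ncard_coe_finset]
  · push_cast; rfl
  · refine (Hof_injOn m n).mono ?_
    intro ω hω
    exact mem_coe.2 (mem_filter.1 (mem_coe.1 hω)).1

lemma NV_Pr (m n : ℕ) (v : Fin (m + 1) × Fin (n + 1)) :
    (NV m n v : ℝ) = Pr (EE m n) (fun ω => Cn ω 0 (emb v)) * (NA m n : ℝ) := by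
  have h1 : Pr (EE m n) (fun ω => Cn ω 0 (emb v)) =
      Pr (EE m n) (fun ω => (Hof m n ω).Reachable (0, 0) v) := by
    apply Pr_congr
    intro ω hω
    rw [reach_iff' hω, emb_zero]
  rw [h1, Pr_grid m n (fun H => H.Reachable (0, 0) v)]
  have h2 : (NA m n : ℝ) ≠ 0 := by
    have : NA m n = (EE m n).powerset.card := count_all m n
    rw [this, card_powerset]
    positivity
  unfold NA at h2 ⊢
  unfold NV
  field_simp

lemma NA_pos (m n : ℕ) : (0 : ℝ) < NA m n := by
  have : NA m n = (EE m n).powerset.card := count_all m n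
  rw [this, card_powerset]
  positivity

/-- Symmetry of the square. -/
lemma NV_swap (n : ℕ) (a b : Fin (n + 1)) : NV n n (a, b) = NV n n (b, a) := by
  unfold NV
  let e : (Fin (n + 1) × Fin (n + 1)) ≃ (Fin (n + 1) × Fin (n + 1)) := Equiv.prodComm _ _
  have hinv : ∀ H : SimpleGraph (Fin (n + 1) × Fin (n + 1)), (H.comap e).comap e = H := by
    intro H
    ext u v
    rfl
  have hle : ∀ H : SimpleGraph (Fin (n + 1) × Fin (n + 1)), H ≤ grid n n →
      H.comap e ≤ grid n n := by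
    intro H hH u v huv
    have h1 := (grid_adj _ _).1 (hH huv)
    rw [grid_adj]
    simp only [e, Equiv.prodComm_apply, Prod.fst_swap, Prod.snd_swap] at h1
    tauto
  have hreach : ∀ (H : SimpleGraph (Fin (n + 1) × Fin (n + 1))) (a b : Fin (n + 1)),
      H.Reachable (0, 0) (a, b) → (H.comap e).Reachable (0, 0) (b, a) := by
    intro H a b h
    have iso : H.comap e ≃g H := SimpleGraph.Iso.comap e H
    have := (SimpleGraph.Iso.reachable_iff (φ := SimpleGraph.Iso.comap e H) (u := (0, 0))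
      (v := (b, a))).1
    apply this
    exact h
  have himg : {H : SimpleGraph (Fin (n + 1) × Fin (n + 1)) |
      H ≤ grid n n ∧ H.Reachable (0, 0) (b, a)} = (fun H => H.comap e) ''
      {H : SimpleGraph (Fin (n + 1) × Fin (n + 1)) |
      H ≤ grid n n ∧ H.Reachable (0, 0) (a, b)} := by
    ext H
    constructor
    · rintro ⟨h1, h2⟩
      exact ⟨H.comap e, ⟨hle H h1, hreach H b a h2⟩, hinv H⟩
    · rintro ⟨H', ⟨h1, h2⟩, rfl⟩
      exact ⟨hle H' h1, hreach H' a b h2⟩
  rw [himg, Set.ncard_image_of_injective]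
  intro H H' h
  have := congrArg (fun K : SimpleGraph (Fin (n + 1) × Fin (n + 1)) => K.comap e) h
  simp only [hinv] at this
  exact this

/-- In the square the expected number of vertices of the right side connected to the corner
is one. -/
lemma square_one (n : ℕ) :
    ∑ y : Fin (n + 1), Pr (EE n n) (fun ω => Cn ω 0 (emb ((Fin.last n, y) :
      Fin (n + 1) × Fin (n + 1)))) = 1 := by
  have h1 := (identities n n).1
  have h2 : ∑ x : Fin (n + 1), NV n n (x, Fin.last n) =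
      ∑ y : Fin (n + 1), NV n n (Fin.last n, y) :=
    Finset.sum_congr rfl fun x _ => NV_swap n x (Fin.last n)
  rw [h2] at h1
  have h3 : ∑ y : Fin (n + 1), NV n n (Fin.last n, y) = NA n n := by omega
  have h4 : (∑ y : Fin (n + 1), Pr (EE n n) (fun ω => Cn ω 0 (emb ((Fin.last n, y) :
      Fin (n + 1) × Fin (n + 1))))) * (NA n n : ℝ) = NA n n := by
    rw [Finset.sum_mul]
    have : (∑ y : Fin (n + 1), (NV n n (Fin.last n, y) : ℝ)) = NA n n := by exact_mod_cast h3
    rw [← this]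
    apply Finset.sum_congr rfl
    intro y _
    rw [NV_Pr n n, this]
  have h5 := NA_pos n n
  have h6 : (∑ y : Fin (n + 1), Pr (EE n n) (fun ω => Cn ω 0 (emb ((Fin.last n, y) :
      Fin (n + 1) × Fin (n + 1))))) * (NA n n : ℝ) = 1 * NA n n := by rw [h4, one_mul]
  exact mul_right_cancel₀ h5.ne' h6

/-- The product bound. -/
lemma prod_bound (n : ℕ) :
    1 / (2 * (n : ℝ) + 2) ≤ Pr (EE n n) (armQ n) * Pr (EE n (2 * n)) (armH n) := by
  have h1 := square_one (2 * n + 1)
  have h2 : ∑ y : Fin (2 * n + 1 + 1), Pr (EE (2 * n + 1) (2 * n + 1)) (fun ω => Cn ω 0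
      (emb ((Fin.last (2 * n + 1), y) : Fin (2 * n + 1 + 1) × Fin (2 * n + 1 + 1)))) ≤
      ∑ _y : Fin (2 * n + 1 + 1), Pr (EE n n) (armQ n) * Pr (EE n (2 * n)) (armH n) := by
    apply Finset.sum_le_sum
    intro y _
    have := conn_bound n (y : ℤ) (by positivity)
    have he : emb ((Fin.last (2 * n + 1), y) : Fin (2 * n + 1 + 1) × Fin (2 * n + 1 + 1)) =
        (2 * (n : ℤ) + 1, (y : ℤ)) := by
      unfold emb; simp
    rw [he]
    exact this
  rw [h1, Finset.sum_const, card_univ, Fintype.card_fin, nsmul_eq_mul] at h2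
  push_cast at h2
  rw [div_le_iff₀ (by positivity)]
  linarith

end Pool.Agent.H75.Perc
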