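import Mathlib
import Pool.Agent.H75.Perc.RswD
import Pool.Agent.H75.Perc.ProdBound

set_option autoImplicit false
open Finset

/-! Upper bound for the product of the corner and the boundary one-arm probabilities. -/

namespace Pool.Agent.H75.Perc

/-- One-arm event at the boundary point `(a, y)` of the half-plane `x ≤ a`. -/
def AR (a y k : ℤ) (ω : Finset (ℤ × ℤ)) : Prop :=
  ∃ z : ℤ × ℤ, (z.1 = a - k ∨ z.2 = y - k ∨ z.2 = y + k) ∧
    Co (ω ∩ Bx (a - k) a (y - k) (y + k)) (a, y) z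

lemma AR_inc (a y k : ℤ) : Inc (AR a y k) := by
  rintro ω ω' h ⟨z, h1, h2⟩
  exact ⟨z, h1, h2.mono (inter_subset_inter_right h)⟩

/-- Boundary one-arm probability. -/
noncomputable def ph (k : ℤ) : ℝ := Pr (Bx 0 k 0 (2 * k)) (AR k k k)

lemma Pr_AR {E : Finset (ℤ × ℤ)} {a y k : ℤ} (h : Bx (a - k) a (y - k) (y + k) ⊆ E) :
    Pr E (AR a y k) = ph k := by
  have h1 : Pr E (AR a y k) = Pr (Bx (a - k) a (y - k) (y + k)) (AR a y k) := by
    rw [← Pr_restrict h]
    apply Pr_congr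
    intro ω _
    unfold AR
    rw [inter_assoc, inter_self]
  rw [h1]
  unfold ph
  have hE : ∀ e, e ∈ Bx (a - k) a (y - k) (y + k) ↔
      (syT (a - k, y - k)).G' e ∈ Bx 0 k 0 (2 * k) := by
    intro e
    rw [mem_Bx, mem_Bx]
    simp only [syT]
    omega
  have hE2 : ∀ e, e ∈ Bx (a - k) a (y - k) (y + k) ↔
      (syT (a - k, y - k)).G' e ∈ Bx (k - k) k (k - k) (k + k) := by
    intro e
    rw [mem_Bx, mem_Bx]
    simp only [syT]
    omega
  rw [(syT (a - k, y - k)).Pr hE]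
  apply Pr_congr
  intro ω _
  unfold AR
  rw [(syT (a - k, y - k)).map_inter ω hE2]
  have e0 : (syT (a - k, y - k)).g (k, k) = (a, y) := by
    simp only [syT]; refine Prod.ext ?_ ?_ <;> simp only [Prod.mk_add_mk] <;> ring
  constructor
  · rintro ⟨z, z1, z2⟩
    refine ⟨z - (a - k, y - k), ?_, ?_⟩
    · simp only [Prod.fst_sub, Prod.snd_sub]; omega
    · rw [← (syT (a - k, y - k)).co_iff, e0]
      simpa [syT] using z2
  · rintro ⟨z, z1, z2⟩
    refine ⟨z + (a - k, y - k), ?_, ?_⟩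
    · simp only [Prod.fst_add, Prod.snd_add]; omega
    · rw [← (syT (a - k, y - k)).co_iff, e0] at z2
      exact z2

/-- Arms to larger distance are less likely. -/
lemma ph_anti {k K : ℤ} (h0 : 0 ≤ k) (hk : k ≤ K) : ph K ≤ ph k := by
  have e1 : ph k = Pr (Bx 0 K 0 (2 * K)) (AR K K k) := by
    rw [Pr_AR (Bx_sub (by omega) le_rfl (by omega) (by omega))]
  rw [e1]
  apply Pr_mono
  rintro ω _ ⟨z, h1, h2⟩
  rcases eq_or_lt_of_le hk with he | hlt
  · subst he; exact ⟨z, h1, h2⟩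
  · obtain ⟨w, w', hw, hw', had, hcx, -⟩ := exit_co
      (X := inB (K - k) K (K - k) (K + k)) h2
      (by unfold inB; simp only; omega) (by unfold inB; omega)
    refine ⟨w, ?_, ?_⟩
    · have h5 := unit_cases had.1
      have h6 := (had.inB inter_subset_right).2
      unfold inB at hw hw' h6
      omega
    · exact (hcx.box (fun z hz => hz) (by unfold inB; simp only; omega)).mono
        (inter_subset_inter_right inter_subset_left)

lemma Pr_armH (n : ℕ) : Pr (EE n (2 * n)) (armH n) = ph n := by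
  have hB : EE n (2 * n) = Bx 0 n 0 (2 * n) := by rw [EE_eq_Bx]; push_cast; rfl
  unfold ph
  rw [hB]
  apply Pr_congr
  intro ω hω
  have hodd : ∀ e ∈ ω, (e.1 + e.2) % 2 = 1 := fun e he => (mem_Bx.1 (hω he)).2.2
  have e1 : ω ∩ Bx ((n : ℤ) - n) n (n - n) (n + n) = ω := by
    apply inter_eq_left.2
    refine hω.trans (Bx_sub (by omega) le_rfl (by omega) (by omega))
  unfold armH AR
  rw [e1]
  constructor
  · rintro ⟨z, h1, h2⟩
    exact ⟨z, by omega, (cn_iff_co hodd _ _).1 h2⟩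
  · rintro ⟨z, h1, h2⟩
    exact ⟨z, by omega, (cn_iff_co hodd _ _).2 h2⟩

/-- An arm, a half circuit and a long crossing give a connection to the left side. -/
lemma arm_extend {N y j : ℤ} (hj : 1 ≤ j) (h1 : 4 * j ≤ N) {ω : Finset (ℤ × ℤ)}
    (hy1 : 4 * j ≤ y) (hy2 : y ≤ N - 4 * j)
    (hA : AR N y (4 * j) ω) (hV : VC (N - 4 * j) (N - 2 * j) (y - 4 * j) (y + 4 * j) ω)
    (hT : HC (N - 4 * j) N (y + 2 * j) (y + 4 * j) ω)
    (hB : HC (N - 4 * j) N (y - 4 * j) (y - 2 * j) ω)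
    (hD : HC 0 (N - 2 * j) (y - 4 * j) (y + 4 * j) ω) :
    ∃ l : ℤ × ℤ, l.1 = 0 ∧ inB 0 N 0 N l ∧ Co (ω ∩ Bx 0 N 0 N) l (N, y) := by
  obtain ⟨z, z1, z2⟩ := hA
  obtain ⟨v, v', v1, v2, v3, v4⟩ := hV
  obtain ⟨t, t', t1, t2, t3, t4⟩ := hT
  obtain ⟨b, b', b1, b2, b3, b4⟩ := hB
  obtain ⟨d, d', d1, d2, d3, d4⟩ := hD
  have hbig : ∀ {a b' c d' : ℤ}, 0 ≤ a → b' ≤ N → 0 ≤ c → d' ≤ N →
      ω ∩ Bx a b' c d' ⊆ ω ∩ Bx 0 N 0 N := fun ha hb hc hd =>
    inter_subset_inter_left (Bx_sub ha hb hc hd)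
  -- the vertical crossing meets the long crossing
  obtain ⟨p, p1, p2⟩ := cross_co (a := 0) (b := N - 2 * j) (c := y - 4 * j) (d := y + 4 * j)
    inter_subset_right (ω2 := ω ∩ Bx (N - 4 * j) (N - 2 * j) (y - 4 * j) (y + 4 * j))
    (inter_subset_right.trans (Bx_sub (by omega) le_rfl le_rfl le_rfl)) d1
    (by unfold inB at v1 ⊢; omega) d4 v4 d2 d3 v2 v3
  have k1 : Co (ω ∩ Bx 0 N 0 N) d v :=
    (p1.mono (hbig (by omega) (by omega) (by omega) (by omega))).trans
      (p2.mono (hbig (by omega) (by omega) (by omega) (by omega))).symm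
  have hdl : inB 0 N 0 N d := by unfold inB at d1 ⊢; omega
  refine ⟨d, d2, hdl, k1.trans ?_⟩
  -- the big half box
  have s1 : ω ∩ Bx (N - 4 * j) (N - 2 * j) (y - 4 * j) (y + 4 * j) ⊆
      Bx (N - 4 * j) N (y - 4 * j) (y + 4 * j) :=
    inter_subset_right.trans (Bx_sub le_rfl (by omega) le_rfl le_rfl)
  have s2 : ω ∩ Bx (N - 4 * j) N (y + 2 * j) (y + 4 * j) ⊆
      Bx (N - 4 * j) N (y - 4 * j) (y + 4 * j) :=
    inter_subset_right.trans (Bx_sub le_rfl le_rfl (by omega) le_rfl)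
  have s3 : ω ∩ Bx (N - 4 * j) N (y - 4 * j) (y - 2 * j) ⊆
      Bx (N - 4 * j) N (y - 4 * j) (y + 4 * j) :=
    inter_subset_right.trans (Bx_sub le_rfl le_rfl le_rfl (by omega))
  have hcB : inB (N - 4 * j) N (y - 4 * j) (y + 4 * j) ((N, y) : ℤ × ℤ) := by
    unfold inB; simp only; omega
  rcases z1 with z1 | z1 | z1
  · -- left exit
    have hzB : inB (N - 4 * j) N (y - 4 * j) (y + 4 * j) z := z2.inB inter_subset_right hcB
    obtain ⟨q, q1, q2⟩ := cross_co inter_subset_right s1 hzB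
      (by unfold inB at v1 ⊢; omega) z2.symm v4 z1 rfl v2 v3
    have k2 : Co (ω ∩ Bx 0 N 0 N) v z :=
      (q2.mono (hbig (by omega) (by omega) (by omega) (by omega))).trans
        (q1.mono (hbig (by omega) (by omega) (by omega) (by omega))).symm
    exact k2.trans (z2.symm.mono (hbig (by omega) (by omega) (by omega) (by omega)))
  · -- exit at the bottom
    obtain ⟨w, w', hw, hw', had, hcx, -⟩ := exit_co (u := z) (v := ((N, y) : ℤ × ℤ))
      (X := inB (N - 4 * j) N (y - 4 * j) (y - 2 * j)) z2.symm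
      (by have := z2.inB inter_subset_right hcB; unfold inB at this ⊢; omega)
      (by unfold inB; simp only; omega)
    have hw2 : w.2 = y - 2 * j := by
      have h5 := unit_cases had.1
      have h6 := (had.inB inter_subset_right).2
      unfold inB at hw hw' h6
      omega
    have hzX : inB (N - 4 * j) N (y - 4 * j) (y - 2 * j) z := by
      have := z2.inB inter_subset_right hcB; unfold inB at this ⊢; omega
    have c1 : Co (ω ∩ Bx (N - 4 * j) N (y - 4 * j) (y - 2 * j)) z w :=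
      (hcx.box (fun z hz => hz) hzX).mono (inter_subset_inter_right inter_subset_left)
    obtain ⟨q, q1, q2⟩ := cross_co inter_subset_right inter_subset_right b1 hzX b4 c1 b2 b3 z1 hw2
    obtain ⟨r, r1, r2⟩ := cross_co s3 s1 (by unfold inB at b1 ⊢; omega)
      (by unfold inB at v1 ⊢; omega) b4 v4 b2 b3 v2 v3
    have k2 : Co (ω ∩ Bx 0 N 0 N) v b :=
      (r2.mono (hbig (by omega) (by omega) (by omega) (by omega))).trans
        (r1.mono (hbig (by omega) (by omega) (by omega) (by omega))).symm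
    have k3 : Co (ω ∩ Bx 0 N 0 N) b z :=
      (q1.mono (hbig (by omega) (by omega) (by omega) (by omega))).trans
        (q2.mono (hbig (by omega) (by omega) (by omega) (by omega))).symm
    exact (k2.trans k3).trans (z2.symm.mono (hbig (by omega) (by omega) (by omega) (by omega)))
  · -- exit at the top
    obtain ⟨w, w', hw, hw', had, hcx, -⟩ := exit_co (u := z) (v := ((N, y) : ℤ × ℤ))
      (X := inB (N - 4 * j) N (y + 2 * j) (y + 4 * j)) z2.symm
      (by have := z2.inB inter_subset_right hcB; unfold inB at this ⊢; omega)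
      (by unfold inB; simp only; omega)
    have hw2 : w.2 = y + 2 * j := by
      have h5 := unit_cases had.1
      have h6 := (had.inB inter_subset_right).2
      unfold inB at hw hw' h6
      omega
    have hzX : inB (N - 4 * j) N (y + 2 * j) (y + 4 * j) z := by
      have := z2.inB inter_subset_right hcB; unfold inB at this ⊢; omega
    have hwX : inB (N - 4 * j) N (y + 2 * j) (y + 4 * j) w := hw
    have c1 : Co (ω ∩ Bx (N - 4 * j) N (y + 2 * j) (y + 4 * j)) z w :=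
      (hcx.box (fun z hz => hz) hzX).mono (inter_subset_inter_right inter_subset_left)
    obtain ⟨q, q1, q2⟩ := cross_co inter_subset_right inter_subset_right t1 hwX t4 c1.symm
      t2 t3 hw2 z1
    obtain ⟨r, r1, r2⟩ := cross_co s2 s1 (by unfold inB at t1 ⊢; omega)
      (by unfold inB at v1 ⊢; omega) t4 v4 t2 t3 v2 v3
    have k2 : Co (ω ∩ Bx 0 N 0 N) v t :=
      (r2.mono (hbig (by omega) (by omega) (by omega) (by omega))).trans
        (r1.mono (hbig (by omega) (by omega) (by omega) (by omega))).symm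
    have k3 : Co (ω ∩ Bx 0 N 0 N) t z :=
      (q1.mono (hbig (by omega) (by omega) (by omega) (by omega))).trans
        ((c1.trans q2).mono (hbig (by omega) (by omega) (by omega) (by omega))).symm
    exact (k2.trans k3).trans (z2.symm.mono (hbig (by omega) (by omega) (by omega) (by omega)))

/-- Connection of a vertex of the right side to the left side. -/
def LR (N y : ℤ) (ω : Finset (ℤ × ℤ)) : Prop :=
  ∃ l : ℤ × ℤ, l.1 = 0 ∧ inB 0 N 0 N l ∧ Co (ω ∩ Bx 0 N 0 N) l (N, y)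

lemma LR_inc (N y : ℤ) : Inc (LR N y) := by
  rintro ω ω' h ⟨l, h1, h2, h3⟩
  exact ⟨l, h1, h2, h3.mono (inter_subset_inter_right h)⟩

lemma and_inc {α : Type*} {A B : Finset α → Prop} (hA : Inc A) (hB : Inc B) :
    Inc (fun ω => A ω ∧ B ω) := fun _ _ h h' => ⟨hA _ _ h h'.1, hB _ _ h h'.2⟩

lemma Pr_LR {N j y : ℤ} (hj : 1 ≤ j) (h1 : 16 * j ≤ N) (h2 : N ≤ 16 * j + 15)
    (hy1 : 4 * j ≤ y) (hy2 : y ≤ N - 4 * j) :
    1 / 2 ^ 124 * ph N ≤ Pr (Bx 0 N 0 N) (LR N y) := by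
  obtain ⟨i, rfl⟩ : ∃ i : ℕ, j = i := ⟨j.toNat, by omega⟩
  have hi : 1 ≤ i := by omega
  set E := Bx 0 N 0 N with hE
  have a1 : ph N ≤ Pr E (AR N y (4 * i)) := by
    rw [Pr_AR (Bx_sub (by omega) le_rfl (by omega) (by omega))]
    exact ph_anti (by omega) (by omega)
  have a2 : 1 / 2 ^ 47 ≤ Pr E (VC (N - 4 * i) (N - 2 * i) (y - 4 * i) (y + 4 * i)) := by
    rw [Pr_VC (Bx_sub (by omega) (by omega) (by omega) (by omega))]
    have := fc_eight hi
    have e1 : y + 4 * (i : ℤ) - (y - 4 * i) = 8 * i := by ring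
    have e2 : N - 2 * (i : ℤ) - (N - 4 * i) = 2 * i := by ring
    rw [e1, e2]; exact this
  have a3 : 1 / 2 ^ 15 ≤ Pr E (HC (N - 4 * i) N (y + 2 * i) (y + 4 * i)) := by
    rw [Pr_HC' (Bx_sub (by omega) (by omega) (by omega) (by omega))]
    have := fc_four hi
    have e1 : N - (N - 4 * (i : ℤ)) = 4 * i := by ring
    have e2 : y + 4 * (i : ℤ) - (y + 2 * i) = 2 * i := by ring
    rw [e1, e2]; exact this
  have a4 : 1 / 2 ^ 15 ≤ Pr E (HC (N - 4 * i) N (y - 4 * i) (y - 2 * i)) := by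
    rw [Pr_HC' (Bx_sub (by omega) (by omega) (by omega) (by omega))]
    have := fc_four hi
    have e1 : N - (N - 4 * (i : ℤ)) = 4 * i := by ring
    have e2 : y - 2 * (i : ℤ) - (y - 4 * i) = 2 * i := by ring
    rw [e1, e2]; exact this
  have a5 : 1 / 2 ^ 47 ≤ Pr E (HC 0 (N - 2 * i) (y - 4 * i) (y + 4 * i)) := by
    rw [Pr_HC' (Bx_sub (by omega) (by omega) (by omega) (by omega))]
    have h3 := fc_eight (n := 4 * i) (by omega)
    push_cast at h3
    have e1 : y + 4 * (i : ℤ) - (y - 4 * i) = 2 * (4 * i) := by ring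
    rw [e1]
    exact h3.trans (fc_anti (by omega) (by omega))
  have f1 := Pr_harris E (AR_inc N y (4 * i)) (VC_inc (N - 4 * i) (N - 2 * i) (y - 4 * i)
    (y + 4 * i))
  have f2 := Pr_harris E (and_inc (AR_inc N y (4 * i)) (VC_inc (N - 4 * i) (N - 2 * i)
    (y - 4 * i) (y + 4 * i))) (HC_inc (N - 4 * i) N (y + 2 * i) (y + 4 * i))
  have f3 := Pr_harris E (and_inc (and_inc (AR_inc N y (4 * i)) (VC_inc (N - 4 * i) (N - 2 * i)
    (y - 4 * i) (y + 4 * i))) (HC_inc (N - 4 * i) N (y + 2 * i) (y + 4 * i)))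
    (HC_inc (N - 4 * i) N (y - 4 * i) (y - 2 * i))
  have f4 := Pr_harris E (and_inc (and_inc (and_inc (AR_inc N y (4 * i)) (VC_inc (N - 4 * i)
    (N - 2 * i) (y - 4 * i) (y + 4 * i))) (HC_inc (N - 4 * i) N (y + 2 * i) (y + 4 * i)))
    (HC_inc (N - 4 * i) N (y - 4 * i) (y - 2 * i)))
    (HC_inc 0 (N - 2 * i) (y - 4 * i) (y + 4 * i))
  have f5 : Pr E (fun ω => (((AR N y (4 * i) ω ∧ VC (N - 4 * i) (N - 2 * i) (y - 4 * i)
      (y + 4 * i) ω) ∧ HC (N - 4 * i) N (y + 2 * i) (y + 4 * i) ω) ∧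
      HC (N - 4 * i) N (y - 4 * i) (y - 2 * i) ω) ∧
      HC 0 (N - 2 * i) (y - 4 * i) (y + 4 * i) ω) ≤ Pr E (LR N y) := by
    apply Pr_mono
    rintro ω _ ⟨⟨⟨⟨g1, g2⟩, g3⟩, g4⟩, g5⟩
    exact arm_extend hj (by omega) hy1 hy2 g1 g2 g3 g4 g5
  have p0 := Pr_nonneg (Bx 0 N 0 (2 * N)) (AR N N N)
  have hph0 : 0 ≤ ph N := p0
  have m1 : ph N * (1 / 2 ^ 47) ≤ Pr E (fun ω => AR N y (4 * i) ω ∧ VC (N - 4 * i) (N - 2 * i)
      (y - 4 * i) (y + 4 * i) ω) :=
    le_trans (mul_le_mul a1 a2 (by norm_num) (hph0.trans a1)) f1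
  have m2 := le_trans (mul_le_mul m1 a3 (by norm_num) (le_trans (by positivity) m1)) f2
  have m3 := le_trans (mul_le_mul m2 a4 (by norm_num) (le_trans (by positivity) m2)) f3
  have m4 := le_trans (mul_le_mul m3 a5 (by norm_num) (le_trans (by positivity) m3)) f4
  refine le_trans (le_of_eq ?_) (m4.trans f5)
  ring

/-- Connection of the corner to the top side. -/
def CT (N : ℤ) (ω : Finset (ℤ × ℤ)) : Prop :=
  ∃ t : ℤ × ℤ, t.2 = N ∧ Co (ω ∩ Bx 0 N 0 N) 0 t

lemma CT_inc (N : ℤ) : Inc (CT N) := by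
  rintro ω ω' h ⟨l, h1, h2⟩
  exact ⟨l, h1, h2.mono (inter_subset_inter_right h)⟩

lemma armQ_le (n : ℕ) : Pr (EE n n) (armQ n) ≤ 2 * Pr (Bx 0 n 0 n) (CT n) := by
  rw [EE_eq_Bx]
  have h1 : Pr (Bx 0 n 0 n) (armQ n) ≤ Pr (Bx 0 n 0 n) (fun ω => CT n ω ∨ CT n (ω.map syD.G)) := by
    apply Pr_mono
    rintro ω hω ⟨z, h1, h2⟩
    have hodd : ∀ e ∈ ω, (e.1 + e.2) % 2 = 1 := fun e he => (mem_Bx.1 (hω he)).2.2
    have h3 := (cn_iff_co hodd _ _).1 h2
    have e1 : ω ∩ Bx 0 n 0 n = ω := inter_eq_left.2 hω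
    rcases h1 with h1 | h1
    · right
      have hE : ∀ e, e ∈ Bx 0 n 0 n ↔ syD.G' e ∈ Bx 0 n 0 n := by
        intro e
        rw [mem_Bx, mem_Bx]
        simp only [syD]
        omega
      refine ⟨(z.2, z.1), h1, ?_⟩
      rw [syD.map_inter ω hE, e1]
      exact (syD.co_iff ω 0 z).2 h3
    · left
      exact ⟨z, h1, by rw [e1]; exact h3⟩
  have hE : ∀ e, e ∈ Bx 0 n 0 n ↔ syD.G' e ∈ Bx 0 n 0 n := by
    intro e
    rw [mem_Bx, mem_Bx]
    simp only [syD]
    omega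
  have h2 := syD.Pr hE (CT n)
  have h3 := Pr_or_le (Bx 0 n 0 n) (CT n) (fun ω => CT n (ω.map syD.G))
  linarith

/-- The product of the two connection probabilities. -/
lemma corner_conn {N y : ℤ} (hN : 0 ≤ N) :
    Pr (Bx 0 N 0 N) (CT N) * Pr (Bx 0 N 0 N) (LR N y) ≤
      Pr (Bx 0 N 0 N) (fun ω => Co ω 0 (N, y)) := by
  refine (Pr_harris _ (CT_inc N) (LR_inc N y)).trans ?_
  apply Pr_mono
  rintro ω hω ⟨⟨t, t1, t2⟩, l, l1, l2, l3⟩
  obtain ⟨z, z1, z2⟩ := cross_co inter_subset_right inter_subset_right l2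
    (r := 0) (by unfold inB; simp only [Prod.fst_zero, Prod.snd_zero]; omega) l3 t2 l1 rfl
    (by simp) t1
  exact ((z2.trans z1.symm).trans l3).mono inter_subset_left

/-- The upper bound. -/
theorem prod_upper (n : ℕ) (hn : 1 ≤ n) :
    Pr (EE n n) (armQ n) * Pr (EE n (2 * n)) (armH n) ≤ 2 ^ 126 / n := by
  have hn' : (0 : ℝ) < n := by exact_mod_cast hn
  rcases Nat.lt_or_ge n 16 with hlt | hge
  · have h1 := Pr_le_one (EE n n) (armQ n)
    have h2 := Pr_le_one (EE n (2 * n)) (armH n)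
    have h3 := Pr_nonneg (EE n n) (armQ n)
    have h4 := Pr_nonneg (EE n (2 * n)) (armH n)
    have h5 : Pr (EE n n) (armQ n) * Pr (EE n (2 * n)) (armH n) ≤ 1 := by nlinarith
    have h6 : (n : ℝ) ≤ 16 := by exact_mod_cast hlt.le
    rw [le_div_iff₀ hn']
    nlinarith
  · set j : ℕ := n / 16 with hj
    have hj1 : 1 ≤ j := by omega
    have hj2 : 16 * j ≤ n := by omega
    have hj3 : n ≤ 16 * j + 15 := by omega
    rw [Pr_armH]
    have hq := armQ_le n
    set T := Pr (Bx 0 n 0 n) (CT n) with hT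
    have hT0 : 0 ≤ T := Pr_nonneg _ _
    have hph0 : 0 ≤ ph n := Pr_nonneg _ _
    -- the sum over the right side
    have hsum := square_one n
    have hterm : ∀ y : Fin (n + 1), Pr (EE n n) (fun ω => Cn ω 0 (emb ((Fin.last n, y) :
        Fin (n + 1) × Fin (n + 1)))) = Pr (Bx 0 n 0 n) (fun ω => Co ω 0 ((n : ℤ), (y : ℤ))) := by
      intro y
      rw [EE_eq_Bx]
      apply Pr_congr
      intro ω hω
      have hodd : ∀ e ∈ ω, (e.1 + e.2) % 2 = 1 := fun e he => (mem_Bx.1 (hω he)).2.2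
      rw [cn_iff_co hodd]
      have : emb ((Fin.last n, y) : Fin (n + 1) × Fin (n + 1)) = ((n : ℤ), (y : ℤ)) := by
        unfold emb; simp
      rw [this]
    rw [Finset.sum_congr rfl (fun y _ => hterm y)] at hsum
    -- restrict to the middle
    have hmid : ∑ y ∈ (univ : Finset (Fin (n + 1))).filter
        (fun y => 4 * j ≤ y.val ∧ y.val ≤ n - 4 * j),
        Pr (Bx 0 n 0 n) (fun ω => Co ω 0 ((n : ℤ), (y : ℤ))) ≤ 1 := by
      rw [← hsum]
      apply Finset.sum_le_sum_of_subset_of_nonneg (filter_subset _ _)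
      intro y _ _
      exact Pr_nonneg _ _
    have hlow : ∀ y ∈ (univ : Finset (Fin (n + 1))).filter
        (fun y => 4 * j ≤ y.val ∧ y.val ≤ n - 4 * j),
        T * (1 / 2 ^ 124 * ph n) ≤ Pr (Bx 0 n 0 n) (fun ω => Co ω 0 ((n : ℤ), (y : ℤ))) := by
      intro y hy
      rw [mem_filter] at hy
      have h1 := Pr_LR (N := n) (j := j) (y := (y.val : ℤ)) (by omega) (by omega) (by omega)
        (by omega) (by omega)
      have h2 := corner_conn (N := n) (y := (y.val : ℤ)) (by omega)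
      exact (mul_le_mul_of_nonneg_left h1 hT0).trans h2
    have hcard := Finset.card_nsmul_le_sum _ _ _ hlow
    have hc : n / 2 ≤ ((univ : Finset (Fin (n + 1))).filter
        (fun y => 4 * j ≤ y.val ∧ y.val ≤ n - 4 * j)).card := by
      have : ((univ : Finset (Fin (n + 1))).filter
        (fun y => 4 * j ≤ y.val ∧ y.val ≤ n - 4 * j)).card = n - 4 * j + 1 - 4 * j := by
        rw [← Nat.card_Icc]
        apply card_bij (fun (y : Fin (n + 1)) _ => y.val)
        · intro y hy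
          rw [mem_filter] at hy
          rw [mem_Icc]; exact hy.2
        · intro y _ y' _ h; exact Fin.ext h
        · intro k hk
          rw [mem_Icc] at hk
          exact ⟨⟨k, by omega⟩, by rw [mem_filter]; exact ⟨mem_univ _, hk⟩, rfl⟩
      omega
    have hc' : (n : ℝ) / 2 ≤ (((univ : Finset (Fin (n + 1))).filter
        (fun y => 4 * j ≤ y.val ∧ y.val ≤ n - 4 * j)).card : ℝ) := by
      have : ((univ : Finset (Fin (n + 1))).filter
        (fun y => 4 * j ≤ y.val ∧ y.val ≤ n - 4 * j)).card = n - 4 * j + 1 - 4 * j := by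
        rw [← Nat.card_Icc]
        apply card_bij (fun (y : Fin (n + 1)) _ => y.val)
        · intro y hy
          rw [mem_filter] at hy
          rw [mem_Icc]; exact hy.2
        · intro y _ y' _ h; exact Fin.ext h
        · intro k hk
          rw [mem_Icc] at hk
          exact ⟨⟨k, by omega⟩, by rw [mem_filter]; exact ⟨mem_univ _, hk⟩, rfl⟩
      rw [this, div_le_iff₀ (by norm_num)]
      have h2 : n ≤ (n - 4 * j + 1 - 4 * j) * 2 := by omega
      exact_mod_cast h2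
    rw [nsmul_eq_mul] at hcard
    have hfin : (n : ℝ) / 2 * (T * (1 / 2 ^ 124 * ph n)) ≤ 1 := by
      have h0 : 0 ≤ T * (1 / 2 ^ 124 * ph n) := by positivity
      calc (n : ℝ) / 2 * (T * (1 / 2 ^ 124 * ph n)) ≤ _ := mul_le_mul_of_nonneg_right hc' h0
        _ ≤ _ := hcard
        _ ≤ 1 := hmid
    rw [le_div_iff₀ hn']
    have h7 : Pr (EE n n) (armQ n) * ph n ≤ 2 * T * ph n := mul_le_mul_of_nonneg_right hq hph0
    have h8 : Pr (EE n n) (armQ n) * ph n * n ≤ 2 * T * ph n * n :=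
      mul_le_mul_of_nonneg_right h7 hn'.le
    have h9 : 2 * T * ph n * n = 2 ^ 126 * ((n : ℝ) / 2 * (T * (1 / 2 ^ 124 * ph n))) := by
      ring
    rw [h9] at h8
    have h10 : (2 : ℝ) ^ 126 * ((n : ℝ) / 2 * (T * (1 / 2 ^ 124 * ph n))) ≤ 2 ^ 126 * 1 :=
      mul_le_mul_of_nonneg_left hfin (by positivity)
    linarith

end Pool.Agent.H75.Perc
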