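import Mathlib
import Pool.Agent.H75.Perc.Hist

set_option autoImplicit false
open Finset

/-! Symmetric histogram domains `{(x,y) : 0 ≤ x ≤ w, |y| ≤ f x}`, `f 0 = 0`. -/

namespace Pool.Agent.H75.Perc

/-- Vertices of the symmetric histogram. -/
def hs (w : ℕ) (f : ℕ → ℕ) (x y : ℤ) : Prop :=
  0 ≤ x ∧ x ≤ w ∧ -(f x.toNat : ℤ) ≤ y ∧ y ≤ (f x.toNat : ℤ)

/-- Edges of the symmetric histogram. -/
noncomputable def ES (w : ℕ) (f : ℕ → ℕ) : Finset (ℤ × ℤ) :=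
  @Finset.filter _ (fun e => hs w f (vx (in1 e)).1 (vx (in1 e)).2 ∧
    hs w f (vx (in2 e)).1 (vx (in2 e)).2) (Classical.decPred _)
    (Bx 0 w (-((range (w + 1)).sup f : ℕ)) ((range (w + 1)).sup f : ℕ))

lemma mem_ES {w : ℕ} {f : ℕ → ℕ} {e : ℤ × ℤ} : e ∈ ES w f ↔ (e.1 + e.2) % 2 = 1 ∧
    hs w f (vx (in1 e)).1 (vx (in1 e)).2 ∧ hs w f (vx (in2 e)).1 (vx (in2 e)).2 := by
  unfold ES
  rw [@mem_filter _ _ (Classical.decPred _), mem_Bx]
  constructor
  · rintro ⟨h1, h2⟩; exact ⟨h1.2.2, h2⟩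
  · rintro ⟨h1, h2, h3⟩
    refine ⟨?_, h2, h3⟩
    have hs' := sum_ends h1
    unfold hs at h2 h3
    have b1 : (f (vx (in1 e)).1.toNat : ℤ) ≤ ((range (w + 1)).sup f : ℕ) := by
      exact_mod_cast Finset.le_sup (f := f) (mem_range.2 (by omega))
    have b2 : (f (vx (in2 e)).1.toNat : ℤ) ≤ ((range (w + 1)).sup f : ℕ) := by
      exact_mod_cast Finset.le_sup (f := f) (mem_range.2 (by omega))
    omega

lemma mem_ES_h {w : ℕ} {f : ℕ → ℕ} (x y : ℤ) :
    ((2 * x + 1, 2 * y) : ℤ × ℤ) ∈ ES w f ↔ hs w f x y ∧ hs w f (x + 1) y := by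
  rw [mem_ES]
  rcases vx_in1 ((2 * x + 1, 2 * y) : ℤ × ℤ) (by simp only; omega) with
    ⟨g1, g2, g3, g4⟩ | ⟨g1, g2, g3, g4⟩
  · rw [g3, g4]
    have e1 : (2 * x + 1 - 1) / 2 = x := by omega
    have e2 : (2 * x + 1 + 1) / 2 = x + 1 := by omega
    have e3 : 2 * y / 2 = y := by omega
    simp only [e1, e2, e3]
    constructor
    · rintro ⟨-, h⟩; exact h
    · intro h; exact ⟨by omega, h⟩
  · simp only at g1; omega

lemma mem_ES_v {w : ℕ} {f : ℕ → ℕ} (x y : ℤ) :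
    ((2 * x, 2 * y + 1) : ℤ × ℤ) ∈ ES w f ↔ hs w f x y ∧ hs w f x (y + 1) := by
  rw [mem_ES]
  rcases vx_in1 ((2 * x, 2 * y + 1) : ℤ × ℤ) (by simp only; omega) with
    ⟨g1, g2, g3, g4⟩ | ⟨g1, g2, g3, g4⟩
  · simp only at g1; omega
  · rw [g3, g4]
    have e1 : (2 * y + 1 + 1) / 2 = y + 1 := by omega
    have e2 : (2 * y + 1 - 1) / 2 = y := by omega
    have e3 : 2 * x / 2 = x := by omega
    simp only [e1, e2, e3]
    constructor
    · rintro ⟨-, h1, h2⟩; exact ⟨h2, h1⟩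
    · intro h; exact ⟨by omega, h.2, h.1⟩

lemma mem_ES_v' {w : ℕ} {f : ℕ → ℕ} (x y : ℤ) :
    ((2 * x, 2 * y - 1) : ℤ × ℤ) ∈ ES w f ↔ hs w f x (y - 1) ∧ hs w f x y := by
  have hm := mem_ES_v (w := w) (f := f) x (y - 1)
  have e1 : 2 * (y - 1) + 1 = 2 * y - 1 := by ring
  have e2 : y - 1 + 1 = y := by ring
  rw [e1, e2] at hm
  exact hm

lemma mem_ES_h' {w : ℕ} {f : ℕ → ℕ} (x y : ℤ) :
    ((2 * x - 1, 2 * y) : ℤ × ℤ) ∈ ES w f ↔ hs w f (x - 1) y ∧ hs w f x y := by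
  have hm := mem_ES_h (w := w) (f := f) (x - 1) y
  have e1 : 2 * (x - 1) + 1 = 2 * x - 1 := by ring
  have e2 : x - 1 + 1 = x := by ring
  rw [e1, e2] at hm
  exact hm

/-- States of the full exploration with their indices. -/
def Ss (w : ℕ) (f : ℕ → ℕ) (c : ℤ × ℤ) (k : ℤ) : Prop :=
  ∃ x y : ℤ, hs w f x y ∧
    ((c = (2 * x, 2 * y) ∧ ((k = 0 ∧ y ≤ 0 ∧ (¬ hs w f x (y - 1) ∨ ¬ hs w f (x - 1) (y - 1))) ∨
        (k = 4 ∧ 1 ≤ y ∧ ¬ hs w f (x - 1) y))) ∨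
    (c = (2 * x + 1, 2 * y) ∧ k = 1 ∧ ((y ≤ 0 ∧ (¬ hs w f x (y - 1) ∨ ¬ hs w f (x + 1) (y - 1))) ∨
        (1 ≤ y ∧ ¬ hs w f (x + 1) y))) ∨
    (c = (2 * x + 1, 2 * y + 1) ∧ k = 2 ∧ ((y ≤ -1 ∧ ¬ hs w f (x + 1) y) ∨
        (0 ≤ y ∧ (¬ hs w f (x + 1) (y + 1) ∨ ¬ hs w f x (y + 1))))) ∨
    (c = (2 * x, 2 * y + 1) ∧ ((k = 3 ∧ 0 ≤ y ∧ (¬ hs w f x (y + 1) ∨ ¬ hs w f (x - 1) (y + 1))) ∨
        (k = -1 ∧ y ≤ -1 ∧ ¬ hs w f (x - 1) y))))

lemma Ss_step {w : ℕ} {f : ℕ → ℕ} {c : ℤ × ℤ} {k : ℤ} (h : Ss w f c k) :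
    nx (ES w f) c = 0 ∨ Ss w f (nx (ES w f) c) (k + del (ES w f) c) := by
  obtain ⟨x, y, hxy, h⟩ := h
  rcases h with ⟨rfl, h⟩ | ⟨rfl, rfl, h⟩ | ⟨rfl, rfl, h⟩ | ⟨rfl, h⟩
  · have hm := mem_ES_v' (w := w) (f := f) x y
    rw [nx_c0]
    unfold del
    rw [lab_c0]
    right
    by_cases hn : ((2 * x, 2 * y - 1) : ℤ × ℤ) ∈ ES w f
    · rw [if_pos hn, if_pos hn]
      have h1 := (hm.1 hn).1
      have e0 : ((2 * x, 2 * y - 1) : ℤ × ℤ) = (2 * x, 2 * (y - 1) + 1) := by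
        refine Prod.ext ?_ ?_ <;> simp only; ring
      rw [e0]
      refine ⟨x, y - 1, h1, Or.inr (Or.inr (Or.inr ⟨rfl, ?_⟩))⟩
      rcases h with ⟨rfl, h2, h3⟩ | ⟨rfl, h2, h3⟩
      · right
        refine ⟨by norm_num, by omega, ?_⟩
        rcases h3 with h3 | h3
        · exact absurd h1 h3
        · exact h3
      · left
        refine ⟨by norm_num, by omega, Or.inr ?_⟩
        have e2 : y - 1 + 1 = y := by ring
        rw [e2]; exact h3
    · rw [if_neg hn, if_neg hn]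
      have h1 : ¬ hs w f x (y - 1) := fun h' => hn (hm.2 ⟨h', hxy⟩)
      rcases h with ⟨rfl, h2, h3⟩ | ⟨rfl, h2, h3⟩
      · exact ⟨x, y, hxy, Or.inr (Or.inl ⟨rfl, by norm_num, Or.inl ⟨h2, Or.inl h1⟩⟩)⟩
      · exfalso; apply h1; unfold hs at hxy ⊢; omega
  · have hm := mem_ES_h (w := w) (f := f) x y
    rw [nx_c1]
    unfold del
    rw [lab_c1]
    right
    by_cases hn : ((2 * x + 1, 2 * y) : ℤ × ℤ) ∈ ES w f
    · rw [if_pos hn, if_pos hn]
      have h2 := (hm.1 hn).2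
      have e0 : ((2 * x + 2, 2 * y) : ℤ × ℤ) = (2 * (x + 1), 2 * y) := by
        refine Prod.ext ?_ ?_ <;> simp only; ring
      rw [e0]
      refine ⟨x + 1, y, h2, Or.inl ⟨rfl, Or.inl ⟨by norm_num, ?_⟩⟩⟩
      rcases h with ⟨h3, h4⟩ | ⟨h3, h4⟩
      · refine ⟨h3, ?_⟩
        have e2 : x + 1 - 1 = x := by ring
        rw [e2]
        exact h4.symm
      · exact absurd h2 h4
    · rw [if_neg hn, if_neg hn]
      have h2 : ¬ hs w f (x + 1) y := fun h' => hn (hm.2 ⟨hxy, h'⟩)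
      refine ⟨x, y, hxy, Or.inr (Or.inr (Or.inl ⟨rfl, by norm_num, ?_⟩))⟩
      by_cases hy : y ≤ -1
      · exact Or.inl ⟨hy, h2⟩
      · right
        refine ⟨by omega, Or.inl ?_⟩
        unfold hs at hxy h2 ⊢; omega
  · have hm := mem_ES_v (w := w) (f := f) x y
    rw [nx_c2]
    unfold del
    rw [lab_c2]
    right
    by_cases hn : ((2 * x, 2 * y + 1) : ℤ × ℤ) ∈ ES w f
    · rw [if_pos hn, if_pos hn]
      have h2 := (hm.1 hn).2
      have e0 : ((2 * x + 1, 2 * y + 2) : ℤ × ℤ) = (2 * x + 1, 2 * (y + 1)) := by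
        refine Prod.ext ?_ ?_ <;> simp only; ring
      rw [e0]
      refine ⟨x, y + 1, h2, Or.inr (Or.inl ⟨rfl, by norm_num, ?_⟩)⟩
      rcases h with ⟨h3, h4⟩ | ⟨h3, h4⟩
      · left
        refine ⟨by omega, Or.inr ?_⟩
        have e2 : y + 1 - 1 = y := by ring
        rw [e2]; exact h4
      · right
        refine ⟨by omega, ?_⟩
        rcases h4 with h4 | h4
        · exact h4
        · exact absurd h2 h4
    · rw [if_neg hn, if_neg hn]
      have h2 : ¬ hs w f x (y + 1) := fun h' => hn (hm.2 ⟨hxy, h'⟩)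
      refine ⟨x, y, hxy, Or.inr (Or.inr (Or.inr ⟨rfl, Or.inl ⟨by norm_num, ?_, Or.inl h2⟩⟩))⟩
      unfold hs at hxy h2; omega
  · have hm := mem_ES_h' (w := w) (f := f) x y
    rw [nx_c3]
    unfold del
    rw [lab_c3]
    by_cases hn : ((2 * x - 1, 2 * y) : ℤ × ℤ) ∈ ES w f
    · rw [if_pos hn, if_pos hn]
      right
      have h2 := (hm.1 hn).1
      have e0 : ((2 * x - 1, 2 * y + 1) : ℤ × ℤ) = (2 * (x - 1) + 1, 2 * y + 1) := by
        refine Prod.ext ?_ ?_ <;> simp only; ring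
      rw [e0]
      rcases h with ⟨rfl, h3, h4⟩ | ⟨rfl, h3, h4⟩
      · refine ⟨x - 1, y, h2, Or.inr (Or.inr (Or.inl ⟨rfl, by norm_num, Or.inr ⟨h3, ?_⟩⟩))⟩
        have e2 : x - 1 + 1 = x := by ring
        rw [e2]; exact h4
      · exact absurd h2 h4
    · rw [if_neg hn, if_neg hn]
      have h2 : ¬ hs w f (x - 1) y := fun h' => hn (hm.2 ⟨h', hxy⟩)
      rcases h with ⟨rfl, h3, h4⟩ | ⟨rfl, h3, h4⟩
      · by_cases hy : y = 0
        · left
          subst hy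
          have hx : x = 0 := by unfold hs at hxy h2; omega
          subst hx; rfl
        · right
          exact ⟨x, y, hxy, Or.inl ⟨rfl, Or.inr ⟨by norm_num, by omega, h2⟩⟩⟩
      · right
        refine ⟨x, y, hxy, Or.inl ⟨rfl, Or.inl ⟨by norm_num, by omega, Or.inr ?_⟩⟩⟩
        unfold hs at hxy h4 ⊢; omega

lemma hs_VV {w : ℕ} {f : ℕ → ℕ} (v : ℤ × ℤ) :
    v ∈ VV (ES w f) ↔ hs w f v.1 v.2 := by
  unfold VV
  rw [mem_insert, mem_union, mem_image, mem_image]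
  constructor
  · rintro (h | ⟨e, he, rfl⟩ | ⟨e, he, rfl⟩)
    · rw [h]; unfold hs; simp
    · exact (mem_ES.1 he).2.1
    · exact (mem_ES.1 he).2.2
  · intro h
    obtain ⟨x, y⟩ := v
    simp only at h
    rcases lt_trichotomy y 0 with hy | hy | hy
    · right; right
      refine ⟨(2 * x, 2 * y + 1), ?_, ?_⟩
      · rw [mem_ES_v]
        unfold hs at h ⊢; omega
      · rcases vx_in1 ((2 * x, 2 * y + 1) : ℤ × ℤ) (by simp only; omega) with
            ⟨g1, g2, g3, g4⟩ | ⟨g1, g2, g3, g4⟩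
        · simp only at g1; omega
        · rw [g4]; refine Prod.ext ?_ ?_ <;> simp only <;> omega
    · by_cases hx : x = 0
      · left; rw [hx, hy]; rfl
      · right; right
        refine ⟨(2 * (x - 1) + 1, 2 * y), ?_, ?_⟩
        · rw [mem_ES_h]
          have e2 : x - 1 + 1 = x := by ring
          rw [e2]
          unfold hs at h ⊢; omega
        · rcases vx_in1 ((2 * (x - 1) + 1, 2 * y) : ℤ × ℤ) (by simp only; omega) with
            ⟨g1, g2, g3, g4⟩ | ⟨g1, g2, g3, g4⟩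
          · rw [g4]; refine Prod.ext ?_ ?_ <;> simp only <;> omega
          · simp only at g1; omega
    · right; left
      refine ⟨(2 * x, 2 * (y - 1) + 1), ?_, ?_⟩
      · rw [mem_ES_v]
        have e2 : y - 1 + 1 = y := by ring
        rw [e2]
        unfold hs at h ⊢; omega
      · rcases vx_in1 ((2 * x, 2 * (y - 1) + 1) : ℤ × ℤ) (by simp only; omega) with
            ⟨g1, g2, g3, g4⟩ | ⟨g1, g2, g3, g4⟩
        · simp only at g1; omega
        · rw [g3]; refine Prod.ext ?_ ?_ <;> simp only <;> omega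

lemma Ss_all {w : ℕ} {f : ℕ → ℕ} (hf : f 0 = 0) {L : ℕ} (hO : Orb (nx (ES w f)) 0 L) (j : ℕ)
    (hj : j < L) :
    Ss w f ((nx (ES w f))^[j] 0) (KK (nx (ES w f)) (del (ES w f)) 0 0 j) := by
  induction j with
  | zero =>
    refine ⟨0, 0, by unfold hs; omega, Or.inl ⟨rfl, Or.inl ⟨by simp [KK], le_rfl, Or.inr ?_⟩⟩⟩
    unfold hs; omega
  | succ j ih =>
    rcases Ss_step (ih (by omega)) with h | h
    · exfalso
      have := hO.inj 0 (j + 1) (by omega) hj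
      apply this
      rw [Function.iterate_succ_apply']
      exact h.symm
    · rw [Function.iterate_succ_apply', KK_succ]
      exact h

/-- the index of a boundary corner -/
noncomputable def sI (c : ℤ × ℤ) : ℤ := if ty c = 3 ∧ (vx c).2 < 0 then -1 else ty c

lemma sym_index {w : ℕ} {f : ℕ → ℕ} (hf : f 0 = 0) (j : ℕ) (hj : j < Lp (ES w f))
    (hl : lab ((nx (ES w f))^[j] 0) ∉ ES w f) :
    KK (nx (ES w f)) (del (ES w f)) 0 0 j = sI ((nx (ES w f))^[j] 0) := by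
  obtain ⟨x, y, hxy, h⟩ := Ss_all hf (Dom.orb (subset_refl (ES w f))) j hj
  unfold sI
  rcases h with ⟨hc, h⟩ | ⟨hc, hk, h⟩ | ⟨hc, hk, h⟩ | ⟨hc, h⟩
  · rw [hc, ty_c0]
    rw [if_neg (by rintro ⟨h1, -⟩; norm_num at h1)]
    rcases h with ⟨h1, h2⟩ | ⟨h1, h2, h3⟩
    · exact h1
    · exfalso
      rw [hc, lab_c0] at hl
      apply hl
      rw [mem_ES_v']; unfold hs at hxy ⊢; omega
  · rw [hc, ty_c1, hk, if_neg (by rintro ⟨h1, -⟩; norm_num at h1)]
  · rw [hc, ty_c2, hk, if_neg (by rintro ⟨h1, -⟩; norm_num at h1)]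
  · rw [hc, ty_c3, vx_c3]
    simp only [true_and]
    rcases h with ⟨h1, h2, h3⟩ | ⟨h1, h2, h3⟩
    · rw [if_neg (by omega), h1]
    · rw [if_pos (by omega), h1]

/-- Membership in the outer loop. -/
def IS (w : ℕ) (f : ℕ → ℕ) (c : ℤ × ℤ) : Prop := InOrb (nx (ES w f)) 0 c

lemma IS_next {w : ℕ} {f : ℕ → ℕ} {c : ℤ × ℤ} (h : IS w f c) : IS w f (nx (ES w f) c) := by
  obtain ⟨i, hi⟩ := h
  exact ⟨i + 1, by rw [Function.iterate_succ_apply', hi]⟩

section steps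
variable {w : ℕ} {f : ℕ → ℕ} {x y : ℤ}

lemma IS_c0_open (h : IS w f (2 * x, 2 * y)) (h1 : hs w f x (y - 1)) (h2 : hs w f x y) :
    IS w f (2 * x, 2 * (y - 1) + 1) := by
  have := IS_next h
  rw [nx_c0, if_pos ((mem_ES_v' x y).2 ⟨h1, h2⟩)] at this
  have e : (2 * y - 1 : ℤ) = 2 * (y - 1) + 1 := by ring
  rw [e] at this; exact this

lemma IS_c0_closed (h : IS w f (2 * x, 2 * y)) (h1 : ¬ hs w f x (y - 1)) :
    IS w f (2 * x + 1, 2 * y) := by
  have := IS_next h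
  rwa [nx_c0, if_neg (fun h' => h1 ((mem_ES_v' x y).1 h').1)] at this

lemma IS_c1_open (h : IS w f (2 * x + 1, 2 * y)) (h1 : hs w f x y) (h2 : hs w f (x + 1) y) :
    IS w f (2 * (x + 1), 2 * y) := by
  have := IS_next h
  rw [nx_c1, if_pos ((mem_ES_h x y).2 ⟨h1, h2⟩)] at this
  have e : (2 * x + 2 : ℤ) = 2 * (x + 1) := by ring
  rw [e] at this; exact this

lemma IS_c1_closed (h : IS w f (2 * x + 1, 2 * y)) (h1 : ¬ hs w f (x + 1) y) :
    IS w f (2 * x + 1, 2 * y + 1) := by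
  have := IS_next h
  rwa [nx_c1, if_neg (fun h' => h1 ((mem_ES_h x y).1 h').2)] at this

lemma IS_c2_open (h : IS w f (2 * x + 1, 2 * y + 1)) (h1 : hs w f x y) (h2 : hs w f x (y + 1)) :
    IS w f (2 * x + 1, 2 * (y + 1)) := by
  have := IS_next h
  rw [nx_c2, if_pos ((mem_ES_v x y).2 ⟨h1, h2⟩)] at this
  have e : (2 * y + 2 : ℤ) = 2 * (y + 1) := by ring
  rw [e] at this; exact this

lemma IS_c2_closed (h : IS w f (2 * x + 1, 2 * y + 1)) (h1 : ¬ hs w f x (y + 1)) :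
    IS w f (2 * x, 2 * y + 1) := by
  have := IS_next h
  rwa [nx_c2, if_neg (fun h' => h1 ((mem_ES_v x y).1 h').2)] at this

lemma IS_c3_open (h : IS w f (2 * x, 2 * y + 1)) (h1 : hs w f (x - 1) y) (h2 : hs w f x y) :
    IS w f (2 * (x - 1) + 1, 2 * y + 1) := by
  have := IS_next h
  rw [nx_c3, if_pos ((mem_ES_h' x y).2 ⟨h1, h2⟩)] at this
  have e : (2 * x - 1 : ℤ) = 2 * (x - 1) + 1 := by ring
  rw [e] at this; exact this

lemma IS_c3_closed (h : IS w f (2 * x, 2 * y + 1)) (h1 : ¬ hs w f (x - 1) y) :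
    IS w f (2 * x, 2 * y) := by
  have := IS_next h
  rwa [nx_c3, if_neg (fun h' => h1 ((mem_ES_h' x y).1 h').1)] at this

/-- going down along a wall facing west in the lower half -/
lemma IS_dn (h0 : IS w f (2 * x, 2 * y)) (d : ℕ) (hd : ∀ i : ℕ, i ≤ d → hs w f x (y - i))
    (hW : ∀ i : ℕ, 1 ≤ i → i ≤ d → ¬ hs w f (x - 1) (y - i)) :
    IS w f (2 * x, 2 * (y - d)) ∧ (1 ≤ d → IS w f (2 * x, 2 * (y - d) + 1)) := by
  induction d with
  | zero => exact ⟨by simpa using h0, fun h => absurd h (by omega)⟩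
  | succ d ih =>
    have h1 := (ih (fun i hi => hd i (by omega)) (fun i h1 h2 => hW i h1 (by omega))).1
    have e : y - ((d + 1 : ℕ) : ℤ) = y - d - 1 := by push_cast; ring
    have h2 := hd (d + 1) le_rfl
    have h3 := hW (d + 1) (by omega) le_rfl
    rw [e] at h2 h3 ⊢
    have h4 := IS_c0_open h1 h2 (hd d (by omega))
    exact ⟨IS_c3_closed h4 h3, fun _ => h4⟩

/-- going up along a wall facing east in the lower half -/
lemma IS_upl (h0 : IS w f (2 * x + 1, 2 * y)) (d : ℕ) (hd : ∀ i : ℕ, i ≤ d → hs w f x (y + i))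
    (hE : ∀ i : ℕ, i < d → ¬ hs w f (x + 1) (y + i)) :
    IS w f (2 * x + 1, 2 * (y + d)) := by
  induction d with
  | zero => simpa using h0
  | succ d ih =>
    have h1 := ih (fun i hi => hd i (by omega)) (fun i h1 => hE i (by omega))
    have e : y + ((d + 1 : ℕ) : ℤ) = y + d + 1 := by push_cast; ring
    have h2 := hd (d + 1) le_rfl
    rw [e] at h2 ⊢
    exact IS_c2_open (IS_c1_closed h1 (hE d (by omega))) (hd d (by omega)) h2

/-- going up along a wall facing east in the upper half -/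
lemma IS_upu (h0 : IS w f (2 * x + 1, 2 * y + 1)) (d : ℕ) (hd : ∀ i : ℕ, i ≤ d → hs w f x (y + i))
    (hE : ∀ i : ℕ, 1 ≤ i → i ≤ d → ¬ hs w f (x + 1) (y + i)) :
    IS w f (2 * x + 1, 2 * (y + d) + 1) ∧ (1 ≤ d → IS w f (2 * x + 1, 2 * (y + d))) := by
  induction d with
  | zero => exact ⟨by simpa using h0, fun h => absurd h (by omega)⟩
  | succ d ih =>
    have h1 := (ih (fun i hi => hd i (by omega)) (fun i h1 h2 => hE i h1 (by omega))).1
    have e : y + ((d + 1 : ℕ) : ℤ) = y + d + 1 := by push_cast; ring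
    have h2 := hd (d + 1) le_rfl
    have h3 := hE (d + 1) (by omega) le_rfl
    rw [e] at h2 h3 ⊢
    have h4 := IS_c2_open h1 (hd d (by omega)) h2
    exact ⟨IS_c1_closed h4 h3, fun _ => h4⟩

/-- going down along a wall facing west in the upper half -/
lemma IS_dnu (h0 : IS w f (2 * x, 2 * y + 1)) (d : ℕ) (hd : ∀ i : ℕ, i ≤ d → hs w f x (y - i))
    (hW : ∀ i : ℕ, i < d → ¬ hs w f (x - 1) (y - i)) :
    IS w f (2 * x, 2 * (y - d) + 1) := by
  induction d with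
  | zero => simpa using h0
  | succ d ih =>
    have h1 := ih (fun i hi => hd i (by omega)) (fun i h1 => hW i (by omega))
    have e : y - ((d + 1 : ℕ) : ℤ) = y - d - 1 := by push_cast; ring
    have h2 := hd (d + 1) le_rfl
    rw [e] at h2 ⊢
    exact IS_c0_open (IS_c3_closed h1 (hW d (by omega))) h2 (hd d (by omega))

end steps

lemma hs_nat {w : ℕ} {f : ℕ → ℕ} {x : ℕ} {y : ℤ} :
    hs w f x y ↔ x ≤ w ∧ -(f x : ℤ) ≤ y ∧ y ≤ f x := by
  unfold hs
  rw [Int.toNat_natCast]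
  omega

lemma hs_nat1 {w : ℕ} {f : ℕ → ℕ} {x : ℕ} {y : ℤ} :
    hs w f ((x : ℤ) + 1) y ↔ x + 1 ≤ w ∧ -(f (x + 1) : ℤ) ≤ y ∧ y ≤ f (x + 1) := by
  have : ((x : ℤ) + 1) = ((x + 1 : ℕ) : ℤ) := by push_cast; rfl
  rw [this, hs_nat]

lemma hs_nat2 {w : ℕ} {f : ℕ → ℕ} {x : ℕ} {y : ℤ} :
    hs w f (((x + 1 : ℕ) : ℤ) - 1) y ↔ x ≤ w ∧ -(f x : ℤ) ≤ y ∧ y ≤ f x := by
  have : (((x + 1 : ℕ) : ℤ) - 1) = (x : ℤ) := by push_cast; ring
  rw [this, hs_nat]

/-- The bottom of every column is visited. -/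
lemma IS_bot {w : ℕ} {f : ℕ → ℕ} (hf : f 0 = 0) (x : ℕ) (hx : x ≤ w) :
    IS w f (2 * (x : ℤ), 2 * (-(f x : ℤ))) ∧ IS w f (2 * (x : ℤ) + 1, 2 * (-(f x : ℤ))) := by
  have step : ∀ x : ℕ, IS w f (2 * (x : ℤ), 2 * (-(f x : ℤ))) →
      IS w f (2 * (x : ℤ) + 1, 2 * (-(f x : ℤ))) := fun x h =>
    IS_c0_closed h (by rw [hs_nat]; omega)
  induction x with
  | zero =>
    have h0 : IS w f (2 * ((0 : ℕ) : ℤ), 2 * (-(f 0 : ℤ))) := ⟨0, by rw [hf]; rfl⟩
    exact ⟨h0, step 0 h0⟩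
  | succ x ih =>
    have h1 := (ih (by omega)).2
    have ex : ((x + 1 : ℕ) : ℤ) = (x : ℤ) + 1 := by push_cast; rfl
    have h2 : IS w f (2 * ((x + 1 : ℕ) : ℤ), 2 * (-(f (x + 1) : ℤ))) := by
      rcases le_total (f x) (f (x + 1)) with hc | hc
      · have h3 := IS_c1_open h1 (by rw [hs_nat]; omega) (by rw [hs_nat1]; omega)
        rw [← ex] at h3
        have h4 := (IS_dn h3 (f (x + 1) - f x) (fun i hi => by rw [hs_nat]; omega)
          (fun i hi hi' => by rw [hs_nat2]; omega)).1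
        have e : -(f x : ℤ) - ((f (x + 1) - f x : ℕ) : ℤ) = -(f (x + 1) : ℤ) := by omega
        rw [e] at h4; exact h4
      · have h3 := IS_upl h1 (f x - f (x + 1)) (fun i hi => by rw [hs_nat]; omega)
          (fun i hi => by rw [hs_nat1]; omega)
        have e : -(f x : ℤ) + ((f x - f (x + 1) : ℕ) : ℤ) = -(f (x + 1) : ℤ) := by omega
        rw [e] at h3
        have h4 := IS_c1_open h3 (by rw [hs_nat]; omega) (by rw [hs_nat1]; omega)
        rw [← ex] at h4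
        exact h4
    exact ⟨h2, step _ h2⟩

lemma IS_right {w : ℕ} {f : ℕ → ℕ} (hf : f 0 = 0) (y : ℤ) (h1 : -(f w : ℤ) ≤ y) (h2 : y ≤ f w) :
    IS w f (2 * (w : ℤ) + 1, 2 * y) := by
  have h3 := IS_upl (IS_bot hf w le_rfl).2 (y + f w).toNat (fun i hi => by rw [hs_nat]; omega)
    (fun i hi => by rw [hs_nat1]; omega)
  have e : -(f w : ℤ) + ((y + f w).toNat : ℤ) = y := by omega
  rw [e] at h3; exact h3

lemma IS_tp {w : ℕ} {f : ℕ → ℕ} (hf : f 0 = 0) (d : ℕ) : ∀ x : ℕ, x + d = w →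
    IS w f (2 * (x : ℤ) + 1, 2 * (f x : ℤ) + 1) := by
  induction d with
  | zero =>
    intro x hx
    have hxw : x = w := by omega
    subst hxw
    exact IS_c1_closed (IS_right hf (f x) (by omega) le_rfl) (by rw [hs_nat1]; omega)
  | succ d ih =>
    intro x hx
    have h0 := ih (x + 1) (by omega)
    have ex : ((x + 1 : ℕ) : ℤ) = (x : ℤ) + 1 := by push_cast; rfl
    have ex2 : (((x + 1 : ℕ) : ℤ) - 1) = (x : ℤ) := by push_cast; ring
    have h1 := IS_c2_closed h0 (by rw [hs_nat]; omega)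
    rcases le_total (f x) (f (x + 1)) with hc | hc
    · have h3 := IS_dnu h1 (f (x + 1) - f x) (fun i hi => by rw [hs_nat]; omega)
          (fun i hi => by rw [hs_nat2]; omega)
      have e : (f (x + 1) : ℤ) - ((f (x + 1) - f x : ℕ) : ℤ) = (f x : ℤ) := by omega
      rw [e] at h3
      have h4 := IS_c3_open h3 (by rw [hs_nat2]; omega) (by rw [hs_nat]; omega)
      rw [ex2] at h4; exact h4
    · have h4 := IS_c3_open h1 (by rw [hs_nat2]; omega) (by rw [hs_nat]; omega)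
      rw [ex2] at h4
      have h5 := (IS_upu h4 (f x - f (x + 1)) (fun i hi => by rw [hs_nat]; omega)
        (fun i hi hi' => by rw [hs_nat1]; omega)).1
      have e : (f (x + 1) : ℤ) + ((f x - f (x + 1) : ℕ) : ℤ) = (f x : ℤ) := by omega
      rw [e] at h5; exact h5

lemma IS_top {w : ℕ} {f : ℕ → ℕ} (hf : f 0 = 0) {x : ℕ} (hx : x ≤ w) :
    IS w f (2 * (x : ℤ) + 1, 2 * (f x : ℤ) + 1) := IS_tp hf (w - x) x (by omega)

/-- East facing walls. -/
lemma IS_E {w : ℕ} {f : ℕ → ℕ} (hf : f 0 = 0) {x : ℕ} (hx : x ≤ w) {y : ℤ} (h1 : hs w f x y)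
    (h2 : ¬ hs w f ((x : ℤ) + 1) y) : IS w f (2 * (x : ℤ) + 1, 2 * y) := by
  rw [hs_nat] at h1
  by_cases hw : x = w
  · subst hw; exact IS_right hf y h1.2.1 h1.2.2
  rw [hs_nat1] at h2
  have ex : ((x + 1 : ℕ) : ℤ) = (x : ℤ) + 1 := by push_cast; rfl
  have ex2 : (((x + 1 : ℕ) : ℤ) - 1) = (x : ℤ) := by push_cast; ring
  rcases lt_or_ge y 0 with hy | hy
  · have h3 := IS_upl (IS_bot hf x hx).2 (y + f x).toNat (fun i hi => by rw [hs_nat]; omega)
      (fun i hi => by rw [hs_nat1]; omega)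
    have e : -(f x : ℤ) + ((y + f x).toNat : ℤ) = y := by omega
    rw [e] at h3; exact h3
  · have h3 := IS_c2_closed (IS_top (w := w) hf (x := x + 1) (by omega)) (by rw [hs_nat]; omega)
    have h4 := IS_c3_open h3 (by rw [hs_nat2]; omega) (by rw [hs_nat]; omega)
    rw [ex2] at h4
    have h5 := (IS_upu h4 (y - f (x + 1)).toNat (fun i hi => by rw [hs_nat]; omega)
        (fun i hi hi' => by rw [hs_nat1]; omega)).2 (by omega)
    have e : (f (x + 1) : ℤ) + ((y - f (x + 1)).toNat : ℤ) = y := by omega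
    rw [e] at h5; exact h5

/-- West facing walls. -/
lemma IS_W {w : ℕ} {f : ℕ → ℕ} (hf : f 0 = 0) {x : ℕ} (hx : x ≤ w) {y : ℤ} (h1 : hs w f x y)
    (h2 : ¬ hs w f ((x : ℤ) - 1) y) : IS w f (2 * (x : ℤ), 2 * y + 1) := by
  rw [hs_nat] at h1
  rcases Nat.eq_zero_or_pos x with h0 | h0
  · subst h0
    rw [hf] at h1
    have hy : y = 0 := by push_cast at h1; omega
    have := IS_c2_closed (IS_top hf (x := 0) (by omega)) (by rw [hs_nat]; omega)
    rw [hf] at this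
    rw [hy]; exact this
  · obtain ⟨z, rfl⟩ : ∃ z : ℕ, x = z + 1 := ⟨x - 1, by omega⟩
    rw [hs_nat2] at h2
    have ex : ((z + 1 : ℕ) : ℤ) = (z : ℤ) + 1 := by push_cast; rfl
    rcases lt_or_ge y 0 with hy | hy
    · have h3 := IS_c1_open (IS_bot (w := w) hf z (by omega)).2 (by rw [hs_nat]; omega)
        (by rw [hs_nat1]; omega)
      rw [← ex] at h3
      have h4 := (IS_dn h3 (-(f z : ℤ) - y).toNat (fun i hi => by rw [hs_nat]; omega)
          (fun i hi hi' => by rw [hs_nat2]; omega)).2 (by omega)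
      have e : -(f z : ℤ) - ((-(f z : ℤ) - y).toNat : ℤ) = y := by omega
      rw [e] at h4; exact h4
    · have h3 := IS_c2_closed (IS_top hf (x := z + 1) (by omega)) (by rw [hs_nat]; omega)
      have h4 := IS_dnu h3 (f (z + 1) - y).toNat (fun i hi => by rw [hs_nat]; omega)
          (fun i hi => by rw [hs_nat2]; omega)
      have e : (f (z + 1) : ℤ) - ((f (z + 1) - y).toNat : ℤ) = y := by omega
      rw [e] at h4; exact h4

lemma sym_dom (w : ℕ) (f : ℕ → ℕ) (hf : f 0 = 0) : Dom (ES w f) where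
  odd e he := (mem_ES.1 he).1
  base := by
    have e1 : lab 0 = ((2 * 0, 2 * (-1) + 1) : ℤ × ℤ) := by decide
    rw [e1, mem_ES_v]
    unfold hs; simp [hf]
  loop := by
    intro c hc hl
    rw [hs_VV] at hc
    obtain ⟨x, y, h⟩ := corner_form c
    change IS w f c
    rcases h with rfl | rfl | rfl | rfl
    · rw [vx_c0] at hc
      simp only at hc
      obtain ⟨x', rfl⟩ : ∃ x' : ℕ, x = x' := ⟨x.toNat, by unfold hs at hc; omega⟩
      rw [lab_c0, mem_ES_v', hs_nat, hs_nat] at hl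
      rw [hs_nat] at hc
      have hy : y = -(f x' : ℤ) := by omega
      rw [hy]
      exact (IS_bot hf x' (by omega)).1
    · rw [vx_c1] at hc
      simp only at hc
      obtain ⟨x', rfl⟩ : ∃ x' : ℕ, x = x' := ⟨x.toNat, by unfold hs at hc; omega⟩
      rw [lab_c1, mem_ES_h] at hl
      exact IS_E hf (hs_nat.1 hc).1 hc (fun h => hl ⟨hc, h⟩)
    · rw [vx_c2] at hc
      simp only at hc
      obtain ⟨x', rfl⟩ : ∃ x' : ℕ, x = x' := ⟨x.toNat, by unfold hs at hc; omega⟩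
      rw [lab_c2, mem_ES_v, hs_nat, hs_nat] at hl
      rw [hs_nat] at hc
      have hy : y = f x' := by omega
      rw [hy]
      exact IS_top hf (by omega)
    · rw [vx_c3] at hc
      simp only at hc
      obtain ⟨x', rfl⟩ : ∃ x' : ℕ, x = x' := ⟨x.toNat, by unfold hs at hc; omega⟩
      rw [lab_c3, mem_ES_h'] at hl
      exact IS_W hf (hs_nat.1 hc).1 hc (fun h => hl ⟨h, hc⟩)

end Pool.Agent.H75.Perc
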