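import Mathlib
import Pool.Agent.H75.Perc.Sym

set_option autoImplicit false
open Finset

/-! The identity for symmetric histogram domains. -/

namespace Pool.Agent.H75.Perc

/-- the weight function -/
def th (k : ℤ) : ℤ :=
  if k % 6 = 0 then 1 else if k % 6 = 1 then 0 else if k % 6 = 2 then -1
    else if k % 6 = 3 then -1 else if k % 6 = 4 then 0 else 1

lemma th_rec (k : ℤ) : th (k + 2) = th (k + 1) - th k := by
  unfold th
  have h : k % 6 = 0 ∨ k % 6 = 1 ∨ k % 6 = 2 ∨ k % 6 = 3 ∨ k % 6 = 4 ∨ k % 6 = 5 := by omega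
  rcases h with h | h | h | h | h | h
  · have h1 : (k + 1) % 6 = 1 := by omega
    have h2 : (k + 2) % 6 = 2 := by omega
    simp [h, h1, h2]
  · have h1 : (k + 1) % 6 = 2 := by omega
    have h2 : (k + 2) % 6 = 3 := by omega
    simp [h, h1, h2]
  · have h1 : (k + 1) % 6 = 3 := by omega
    have h2 : (k + 2) % 6 = 4 := by omega
    simp [h, h1, h2]
  · have h1 : (k + 1) % 6 = 4 := by omega
    have h2 : (k + 2) % 6 = 5 := by omega
    simp [h, h1, h2]
  · have h1 : (k + 1) % 6 = 5 := by omega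
    have h2 : (k + 2) % 6 = 0 := by omega
    simp [h, h1, h2]
  · have h1 : (k + 1) % 6 = 0 := by omega
    have h2 : (k + 2) % 6 = 1 := by omega
    simp [h, h1, h2]

lemma sum_CV (E : Finset (ℤ × ℤ)) (G : ℤ × ℤ → ℝ) :
    ∑ c ∈ CV E, G c = ∑ v ∈ VV E, (G (2 * v.1, 2 * v.2) + G (2 * v.1 + 1, 2 * v.2) +
      G (2 * v.1 + 1, 2 * v.2 + 1) + G (2 * v.1, 2 * v.2 + 1)) := by
  classical
  rw [← Finset.sum_fiberwise_of_maps_to (t := VV E) (g := vx) (fun c hc => mem_CV.1 hc)]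
  apply Finset.sum_congr rfl
  rintro ⟨x, y⟩ hv
  have h : (CV E).filter (fun c => vx c = (x, y)) =
      {(2 * x, 2 * y), (2 * x + 1, 2 * y), (2 * x + 1, 2 * y + 1), (2 * x, 2 * y + 1)} := by
    ext c
    simp only [mem_filter, mem_insert, mem_singleton, mem_CV]
    constructor
    · rintro ⟨h1, h2⟩
      obtain ⟨x', y', h⟩ := corner_form c
      rcases h with rfl | rfl | rfl | rfl
      · rw [vx_c0] at h2; cases h2; simp
      · rw [vx_c1] at h2; cases h2; simp
      · rw [vx_c2] at h2; cases h2; simp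
      · rw [vx_c3] at h2; cases h2; simp
    · rintro (rfl | rfl | rfl | rfl)
      · rw [vx_c0]; exact ⟨hv, rfl⟩
      · rw [vx_c1]; exact ⟨hv, rfl⟩
      · rw [vx_c2]; exact ⟨hv, rfl⟩
      · rw [vx_c3]; exact ⟨hv, rfl⟩
  rw [h]
  rw [Finset.sum_insert, Finset.sum_insert, Finset.sum_insert, Finset.sum_singleton]
  · ring
  · simp only [mem_singleton, Prod.mk.injEq]; omega
  · simp only [mem_insert, mem_singleton, Prod.mk.injEq]; omega
  · simp only [mem_insert, mem_singleton, Prod.mk.injEq]; omega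

lemma sum_VV {w : ℕ} {f : ℕ → ℕ} (H : ℤ × ℤ → ℝ) :
    ∑ v ∈ VV (ES w f), H v =
      ∑ x ∈ range (w + 1), ∑ y ∈ Icc (-(f x : ℤ)) (f x), H ((x : ℤ), y) := by
  classical
  rw [Finset.sum_sigma']
  symm
  apply Finset.sum_nbij' (fun (p : Σ _ : ℕ, ℤ) => ((p.1 : ℤ), p.2))
    (fun (v : ℤ × ℤ) => (⟨v.1.toNat, v.2⟩ : Σ _ : ℕ, ℤ))
  · rintro ⟨x, y⟩ h
    simp only [mem_sigma, mem_range, mem_Icc] at h
    rw [hs_VV, hs_nat]
    simp only; omega
  · rintro ⟨x, y⟩ h
    rw [hs_VV] at h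
    simp only at h
    simp only [mem_sigma, mem_range, mem_Icc]
    unfold hs at h; omega
  · rintro ⟨x, y⟩ _; simp
  · rintro ⟨x, y⟩ h
    rw [hs_VV] at h
    simp only at h
    unfold hs at h
    have : ((x.toNat : ℕ) : ℤ) = x := by omega
    simp only [this]
  · rintro ⟨x, y⟩ _; rfl

/-- connection probability in the symmetric histogram -/
noncomputable def PS (w : ℕ) (f : ℕ → ℕ) (x y : ℤ) : ℝ := Pr (ES w f) (fun ω => Co ω 0 (x, y))

open Classical in
/-- The identity. -/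
theorem sym_identity (w : ℕ) (f : ℕ → ℕ) (hf : f 0 = 0) :
    ∑ x ∈ range (w + 1), ∑ y ∈ Icc (-(f x : ℤ)) (f x),
      ((if hs w f x (y - 1) then 0 else PS w f x y) +
       (if hs w f ((x : ℤ) + 1) y then 0 else PS w f x y) -
       (if hs w f ((x : ℤ) - 1) y ∨ y < 0 then 0 else PS w f x y)) = 1 := by
  have h := (sym_dom w f hf).identity th th_rec sI (fun j hj hl => sym_index hf j hj hl)
  have e0 : ((th 0 - th 4 : ℤ) : ℝ) = 1 := by norm_num [th]
  rw [e0] at h
  rw [← h]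
  have h1 : ∀ F : ℤ × ℤ → ℝ, ∑ c ∈ BE (ES w f), F c =
      ∑ c ∈ CV (ES w f), (if lab c ∉ ES w f then F c else 0) := by
    intro F
    unfold BE
    rw [Finset.sum_filter]
  rw [h1, sum_CV, sum_VV]
  apply Finset.sum_congr rfl
  intro x hx
  apply Finset.sum_congr rfl
  intro y hy
  rw [mem_range] at hx
  rw [mem_Icc] at hy
  have hxy : hs w f x y := by rw [hs_nat]; omega
  simp only [lab_c0, lab_c1, lab_c2, lab_c3, vx_c0, vx_c1, vx_c2, vx_c3, mem_ES_v', mem_ES_h,
    mem_ES_v, mem_ES_h', sI, ty_c0, ty_c1, ty_c2, ty_c3]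
  have t0 : th 0 = 1 := by norm_num [th]
  have t1 : th 1 = 0 := by norm_num [th]
  have t2 : th 2 = -1 := by norm_num [th]
  have t3 : th 3 = -1 := by norm_num [th]
  have t4 : th 4 = 0 := by norm_num [th]
  have t5 : th (-1) = 1 := by norm_num [th]
  unfold PS
  by_cases a : hs w f x (y - 1) <;> by_cases b : hs w f ((x : ℤ) + 1) y <;>
    by_cases c : hs w f ((x : ℤ) - 1) y <;> by_cases d : y < 0 <;>
    by_cases e : hs w f x (y + 1) <;>
    simp [a, b, c, d, e, hxy, t0, t1, t2, t3, t4, t5]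

end Pool.Agent.H75.Perc
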