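import Mathlib
import Pool.Agent.H75.Perc.SymId

set_option autoImplicit false
open Finset

/-! The identities for the quarter plane with diagonal sides and for the diamond. -/

namespace Pool.Agent.H75.Perc

lemma PS_neg (w : ℕ) (f : ℕ → ℕ) (x y : ℤ) : PS w f x (-y) = PS w f x y := by
  unfold PS
  have hE : ∀ e, e ∈ ES w f ↔ (syY 0).G' e ∈ ES w f := by
    intro e
    have hodd : ∀ e : ℤ × ℤ, (e.1 + e.2) % 2 = 1 → ∃ x y : ℤ, e = (2 * x + 1, 2 * y) ∨
        e = (2 * x, 2 * y + 1) := by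
      rintro ⟨a, b⟩ h
      refine ⟨a / 2, b / 2, ?_⟩
      simp only [Prod.mk.injEq] at h ⊢; omega
    have hsn : ∀ x y : ℤ, hs w f x (-y) ↔ hs w f x y := by
      intro x y; unfold hs; omega
    have key : ∀ e, e ∈ ES w f → (syY 0).G' e ∈ ES w f := by
      intro e he
      obtain ⟨x, y, h | h⟩ := hodd e (mem_ES.1 he).1
      · subst h
        have e1 : (syY 0).G' (2 * x + 1, 2 * y) = (2 * x + 1, 2 * (-y)) := by
          simp only [syY]; refine Prod.ext ?_ ?_ <;> simp only; ring
        rw [e1, mem_ES_h, hsn, hsn]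
        exact (mem_ES_h x y).1 he
      · subst h
        have e1 : (syY 0).G' (2 * x, 2 * y + 1) = (2 * x, 2 * (-(y + 1)) + 1) := by
          simp only [syY]; refine Prod.ext ?_ ?_ <;> simp only; ring
        have e2 : -(y + 1) + 1 = -y := by ring
        rw [e1, mem_ES_v, e2, hsn, hsn]
        exact ((mem_ES_v x y).1 he).symm
    constructor
    · exact key e
    · intro h
      have h2 := key _ h
      have e1 : (syY 0).G' ((syY 0).G' e) = e := by
        simp only [syY]; refine Prod.ext ?_ ?_ <;> simp only; ring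
      rwa [e1] at h2
  rw [(syY 0).Pr hE]
  apply Pr_congr
  intro ω _
  have := (syY 0).co_iff ω 0 (x, y)
  have e1 : (syY 0).g (x, y) = (x, -y) := by simp [syY]
  have e2 : (syY 0).g 0 = 0 := by simp [syY]
  rw [e1, e2] at this
  exact this

lemma PS_zero (w : ℕ) (f : ℕ → ℕ) : PS w f 0 0 = 1 := by
  unfold PS
  rw [← Pr_true (ES w f)]
  exact Pr_congr fun ω _ => ⟨fun _ => trivial, fun _ => Co.refl _ _⟩

lemma S0 {k : ℤ} {F : ℤ → ℝ} {p : ℤ → Prop} [DecidablePred p] (hp : ∀ y ∈ Icc (-k) k, p y) :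
    ∑ y ∈ Icc (-k) k, (if p y then 0 else F y) = 0 :=
  Finset.sum_eq_zero fun y hy => by rw [if_pos (hp y hy)]

lemma S1 {k c : ℤ} {F : ℤ → ℝ} {p : ℤ → Prop} [DecidablePred p] (hc : c ∈ Icc (-k) k)
    (hp : ∀ y ∈ Icc (-k) k, (p y ↔ y ≠ c)) :
    ∑ y ∈ Icc (-k) k, (if p y then 0 else F y) = F c := by
  rw [Finset.sum_eq_single c]
  · rw [if_neg]; rw [hp c hc]; simp
  · intro b hb hbc
    rw [if_pos ((hp b hb).2 hbc)]
  · intro h; exact absurd hc h

lemma S2 {k : ℤ} (hk : 1 ≤ k) {F : ℤ → ℝ} {p : ℤ → Prop} [DecidablePred p]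
    (hp : ∀ y ∈ Icc (-k) k, (p y ↔ y ≠ k ∧ y ≠ -k)) :
    ∑ y ∈ Icc (-k) k, (if p y then 0 else F y) = F k + F (-k) := by
  have h1 : ∑ y ∈ ({k, -k} : Finset ℤ), (if p y then 0 else F y) =
      ∑ y ∈ Icc (-k) k, (if p y then 0 else F y) := by
    apply Finset.sum_subset
    · intro y hy
      rw [mem_insert, mem_singleton] at hy
      rw [mem_Icc]; omega
    · intro y hy hy2
      rw [mem_insert, mem_singleton] at hy2
      rw [if_pos]
      rw [hp y hy]; omega
  rw [← h1, Finset.sum_pair (by omega), if_neg, if_neg]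
  · rw [hp (-k) (by rw [mem_Icc]; omega)]; omega
  · rw [hp k (by rw [mem_Icc]; omega)]; omega

/-- the diamond profile -/
def fD (m : ℕ) (x : ℕ) : ℕ := min x (2 * m - x)

/-- the quarter plane with diagonal sides, cut at `x = m` -/
noncomputable abbrev EV (m : ℕ) : Finset (ℤ × ℤ) := ES m (fun x => x)

/-- the diamond -/
noncomputable abbrev ED (m : ℕ) : Finset (ℤ × ℤ) := ES (2 * m) (fD m)

theorem V_identity (m : ℕ) :
    ∑ y ∈ Icc (-(m : ℤ)) m, PS m (fun x => x) m y = 1 := by
  classical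
  have h := sym_identity m (fun x => x) rfl
  rw [Finset.sum_range_succ] at h
  have h0 : ∑ x ∈ range m, ∑ y ∈ Icc (-(((fun x => x) x : ℕ) : ℤ)) (((fun x => x) x : ℕ) : ℤ),
      ((if hs m (fun x => x) x (y - 1) then 0 else PS m (fun x => x) x y) +
       (if hs m (fun x => x) ((x : ℤ) + 1) y then 0 else PS m (fun x => x) x y) -
       (if hs m (fun x => x) ((x : ℤ) - 1) y ∨ y < 0 then 0 else PS m (fun x => x) x y)) = 0 := by
    apply Finset.sum_eq_zero
    intro x hx
    rw [mem_range] at hx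
    rw [Finset.sum_sub_distrib, Finset.sum_add_distrib]
    simp only
    rw [S1 (c := -(x : ℤ)) (by rw [mem_Icc]; omega) (fun y hy => by
        rw [mem_Icc] at hy; rw [hs_nat]; omega),
      S0 (fun y hy => by rw [mem_Icc] at hy; rw [hs_nat1]; omega),
      S1 (c := (x : ℤ)) (by rw [mem_Icc]; omega) (fun y hy => by
        rw [mem_Icc] at hy
        unfold hs; simp only; omega)]
    rw [PS_neg]; ring
  have this : ∀ y : ℤ, (if hs m (fun x => x) ((m : ℤ) + 1) y then (0 : ℝ) else
      PS m (fun x => x) m y) = PS m (fun x => x) m y := by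
    intro y
    rw [if_neg]; rw [hs_nat1]; omega
  rw [h0, zero_add, Finset.sum_sub_distrib, Finset.sum_add_distrib,
    Finset.sum_congr rfl (fun y _ => this y)] at h
  rw [S1 (c := -(m : ℤ)) (p := fun y => hs m (fun x => x) m (y - 1)) (by rw [mem_Icc]; omega)
      (fun y hy => by rw [mem_Icc] at hy; rw [hs_nat]; omega),
      S1 (c := (m : ℤ)) (by rw [mem_Icc]; omega) (fun y hy => by
        rw [mem_Icc] at hy
        unfold hs; simp only; omega)] at h
  rw [PS_neg] at h
  rw [← h]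
  ring

theorem D_identity (m : ℕ) (hm : 1 ≤ m) :
    2 * PS (2 * m) (fD m) m m + 3 * ∑ x ∈ Ico (m + 1) (2 * m), PS (2 * m) (fD m) x (2 * m - x) +
      2 * PS (2 * m) (fD m) (2 * m) 0 = 1 := by
  classical
  have h := sym_identity (2 * m) (fD m) (by simp [fD])
  set G : ℕ → ℝ := fun x => ∑ y ∈ Icc (-(fD m x : ℤ)) (fD m x),
      ((if hs (2 * m) (fD m) x (y - 1) then 0 else PS (2 * m) (fD m) x y) +
       (if hs (2 * m) (fD m) ((x : ℤ) + 1) y then 0 else PS (2 * m) (fD m) x y) -
       (if hs (2 * m) (fD m) ((x : ℤ) - 1) y ∨ y < 0 then 0 else PS (2 * m) (fD m) x y)) with hG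
  have hsplit : ∑ x ∈ range (2 * m + 1), G x = ∑ x ∈ range m, G x + G m +
      ∑ x ∈ Ico (m + 1) (2 * m), G x + G (2 * m) := by
    rw [Finset.sum_range_succ, ← Finset.sum_range_add_sum_Ico G (show m + 1 ≤ 2 * m by omega),
      Finset.sum_range_succ]
  have hg0 : ∀ x ∈ range m, G x = 0 := by
    intro x hx
    rw [mem_range] at hx
    have e1 : fD m x = x := by unfold fD; omega
    have e2 : fD m (x + 1) = x + 1 := by unfold fD; omega
    rw [hG]
    simp only
    rw [Finset.sum_sub_distrib, Finset.sum_add_distrib, e1]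
    rw [S1 (c := -(x : ℤ)) (by rw [mem_Icc]; omega) (fun y hy => by
        rw [mem_Icc] at hy; rw [hs_nat, e1]; omega),
      S0 (fun y hy => by rw [mem_Icc] at hy; rw [hs_nat1, e2]; omega),
      S1 (c := (x : ℤ)) (by rw [mem_Icc]; omega) (fun y hy => by
        rw [mem_Icc] at hy
        unfold hs fD; omega)]
    rw [PS_neg]; ring
  have hgm : G m = 2 * PS (2 * m) (fD m) m m := by
    have e1 : fD m m = m := by unfold fD; omega
    have e2 : fD m (m + 1) = m - 1 := by unfold fD; omega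
    rw [hG]
    simp only
    rw [Finset.sum_sub_distrib, Finset.sum_add_distrib, e1]
    rw [S1 (c := -(m : ℤ)) (by rw [mem_Icc]; omega) (fun y hy => by
        rw [mem_Icc] at hy; rw [hs_nat, e1]; omega),
      S2 (by omega) (fun y hy => by rw [mem_Icc] at hy; rw [hs_nat1, e2]; omega),
      S1 (c := (m : ℤ)) (by rw [mem_Icc]; omega) (fun y hy => by
        rw [mem_Icc] at hy
        unfold hs fD; omega)]
    rw [PS_neg]; ring
  have hgx : ∀ x ∈ Ico (m + 1) (2 * m), G x = 3 * PS (2 * m) (fD m) x (2 * m - x) := by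
    intro x hx
    rw [mem_Ico] at hx
    have e1 : fD m x = 2 * m - x := by unfold fD; omega
    have e2 : fD m (x + 1) = 2 * m - x - 1 := by unfold fD; omega
    have e3 : ((2 * m - x : ℕ) : ℤ) = 2 * (m : ℤ) - x := by omega
    rw [hG]
    simp only
    rw [Finset.sum_sub_distrib, Finset.sum_add_distrib, e1, e3]
    rw [S1 (c := -(2 * (m : ℤ) - x)) (by rw [mem_Icc]; omega) (fun y hy => by
        rw [mem_Icc] at hy; rw [hs_nat, e1]; omega),
      S2 (by omega) (fun y hy => by rw [mem_Icc] at hy; rw [hs_nat1, e2]; omega),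
      S0 (fun y hy => by
        rw [mem_Icc] at hy
        unfold hs fD; omega)]
    rw [PS_neg]; ring
  have hg2 : G (2 * m) = 2 * PS (2 * m) (fD m) (2 * m) 0 := by
    have e1 : fD m (2 * m) = 0 := by unfold fD; omega
    rw [hG]
    simp only
    rw [Finset.sum_sub_distrib, Finset.sum_add_distrib, e1]
    rw [S1 (c := 0) (by rw [mem_Icc]; omega) (fun y hy => by
        rw [mem_Icc] at hy; rw [hs_nat, e1]; omega),
      S1 (c := 0) (by rw [mem_Icc]; omega) (fun y hy => by
        rw [mem_Icc] at hy; rw [hs_nat1]; omega),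
      S0 (fun y hy => by
        rw [mem_Icc] at hy
        unfold hs fD; omega)]
    push_cast
    ring
  rw [← h, hsplit, Finset.sum_eq_zero hg0, hgm, Finset.sum_congr rfl hgx, hg2, ← Finset.mul_sum]
  ring

end Pool.Agent.H75.Perc
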