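import Mathlib
import Pool.Agent.H75.Perc.VD
import Pool.Agent.H75.Perc.TwoSided

set_option autoImplicit false
open Finset

/-! Lower bounds: union bound and independence in the quarter plane with diagonal sides and in the
diamond. -/

namespace Pool.Agent.H75.Perc

lemma add_mem_ES {w : ℕ} {f : ℕ → ℕ} {u v : ℤ × ℤ} (h : IsUnit4 (v - u)) :
    u + v ∈ ES w f ↔ hs w f u.1 u.2 ∧ hs w f v.1 v.2 := by
  obtain ⟨a, b⟩ := u
  obtain ⟨c, d⟩ := v
  have h1 := unit_cases h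
  simp only at h1
  simp only [Prod.mk_add_mk]
  rcases h1 with ⟨h1, h2⟩ | ⟨h1, h2⟩ | ⟨h1, h2⟩ | ⟨h1, h2⟩
  · have e : ((a + c, b + d) : ℤ × ℤ) = (2 * a + 1, 2 * b) := by
      refine Prod.ext ?_ ?_ <;> simp only <;> omega
    rw [e, mem_ES_h, h1, h2]
  · have e : ((a + c, b + d) : ℤ × ℤ) = (2 * a, 2 * b + 1) := by
      refine Prod.ext ?_ ?_ <;> simp only <;> omega
    rw [e, mem_ES_v, h1, h2]
  · have e : ((a + c, b + d) : ℤ × ℤ) = (2 * c + 1, 2 * d) := by
      refine Prod.ext ?_ ?_ <;> simp only <;> omega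
    have e2 : a = c + 1 := by omega
    rw [e, mem_ES_h, e2, h2, and_comm]
  · have e : ((a + c, b + d) : ℤ × ℤ) = (2 * c, 2 * d + 1) := by
      refine Prod.ext ?_ ?_ <;> simp only <;> omega
    have e2 : b = d + 1 := by omega
    have e3 : a = c := by omega
    rw [e, mem_ES_v, e2, e3, and_comm]

lemma Ad.hs {w : ℕ} {f : ℕ → ℕ} {ω : Finset (ℤ × ℤ)} (hω : ω ⊆ ES w f) {u v : ℤ × ℤ}
    (h : Ad ω u v) : hs w f u.1 u.2 ∧ Perc.hs w f v.1 v.2 :=
  (add_mem_ES h.1).1 (hω h.2)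

/-- a connection inside `X` stays in a subdomain -/
lemma CoX.sub {ω E : Finset (ℤ × ℤ)} {X : ℤ × ℤ → Prop}
    (hX : ∀ a b, X a → X b → Ad ω a b → a + b ∈ E) {u v : ℤ × ℤ} (h : CoX ω X u v) (hu : X u) :
    Co (ω ∩ E) u v := by
  induction h with
  | refl => exact Co.refl _ _
  | @tail y z hab hbc ih =>
    exact Relation.ReflTransGen.tail ih ⟨hbc.1.1, mem_inter.2 ⟨hbc.1.2,
      hX y z (CoX.mem (X := X) hab hu) hbc.2 hbc.1⟩⟩

/-- arm of the quarter plane with diagonal sides -/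
def armV (k : ℤ) (ω : Finset (ℤ × ℤ)) : Prop := ∃ z : ℤ × ℤ, z.1 = k ∧ Co ω 0 z

lemma armV_inc (k : ℤ) : Inc (armV k) := by
  rintro ω ω' h ⟨z, h1, h2⟩
  exact ⟨z, h1, h2.mono h⟩

/-- its probability -/
noncomputable def pV (m : ℕ) : ℝ := Pr (EV m) (armV m)

lemma hs_V {m : ℕ} {x y : ℤ} : hs m (fun x => x) x y ↔ 0 ≤ x ∧ x ≤ m ∧ -x ≤ y ∧ y ≤ x := by
  unfold hs; simp only; omega

lemma hs_D {m : ℕ} {x y : ℤ} : hs (2 * m) (fD m) x y ↔
    0 ≤ x ∧ x ≤ 2 * m ∧ -x ≤ y ∧ y ≤ x ∧ x - 2 * m ≤ y ∧ y ≤ 2 * m - x := by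
  unfold hs fD; push_cast; omega

lemma EV_sub {k m : ℕ} (h : k ≤ m) : EV k ⊆ EV m := by
  intro e he
  rw [mem_ES] at he ⊢
  rw [hs_V, hs_V] at he ⊢
  omega

lemma EV_sub_ED {k m : ℕ} (h : k ≤ m) : EV k ⊆ ED m := by
  intro e he
  rw [mem_ES] at he ⊢
  rw [hs_V, hs_V] at he
  rw [hs_D, hs_D]
  omega

/-- the edges of the half plane `x + y ≤ a + b` in the box of radius `r` around `(a, b)` -/
noncomputable def BD (a b r : ℤ) : Finset (ℤ × ℤ) :=
  (Bx (a - r) (a + r) (b - r) (b + r)).filter (fun e => e.1 + e.2 ≤ 2 * (a + b) - 1)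

lemma mem_BD {a b r : ℤ} {e : ℤ × ℤ} : e ∈ BD a b r ↔
    (2 * (a - r) ≤ e.1 ∧ e.1 ≤ 2 * (a + r)) ∧ (2 * (b - r) ≤ e.2 ∧ e.2 ≤ 2 * (b + r)) ∧
      (e.1 + e.2) % 2 = 1 ∧ e.1 + e.2 ≤ 2 * (a + b) - 1 := by
  unfold BD
  rw [mem_filter, mem_Bx]
  tauto

/-- One-arm event at the boundary point `(a, b)` of the half-plane `x + y ≤ a + b`. -/
def AD (a b r : ℤ) (ω : Finset (ℤ × ℤ)) : Prop :=
  ∃ z : ℤ × ℤ, (z.1 = a - r ∨ z.1 = a + r ∨ z.2 = b - r ∨ z.2 = b + r) ∧
    Co (ω ∩ BD a b r) (a, b) z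

lemma AD_inc (a b r : ℤ) : Inc (AD a b r) := by
  rintro ω ω' h ⟨z, h1, h2⟩
  exact ⟨z, h1, h2.mono (inter_subset_inter_right h)⟩

/-- Diagonal boundary one-arm probability. -/
noncomputable def pd (r : ℤ) : ℝ := Pr (BD 0 0 r) (AD 0 0 r)

lemma Pr_AD {E : Finset (ℤ × ℤ)} {a b r : ℤ} (h : BD a b r ⊆ E) : Pr E (AD a b r) = pd r := by
  have h1 : Pr E (AD a b r) = Pr (BD a b r) (AD a b r) := by
    rw [← Pr_restrict h]
    apply Pr_congr
    intro ω _
    unfold AD
    rw [inter_assoc, inter_self]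
  rw [h1]
  unfold pd
  have hE : ∀ e, e ∈ BD a b r ↔ (syT (a, b)).G' e ∈ BD 0 0 r := by
    intro e
    rw [mem_BD, mem_BD]
    simp only [syT]
    omega
  rw [(syT (a, b)).Pr hE]
  apply Pr_congr
  intro ω _
  unfold AD
  rw [(syT (a, b)).map_inter ω hE]
  have e0 : (syT (a, b)).g (0, 0) = (a, b) := by simp [syT]
  constructor
  · rintro ⟨z, z1, z2⟩
    refine ⟨z - (a, b), ?_, ?_⟩
    · simp only [Prod.fst_sub, Prod.snd_sub]; omega
    · rw [← (syT (a, b)).co_iff, e0]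
      simpa [syT] using z2
  · rintro ⟨z, z1, z2⟩
    refine ⟨z + (a, b), ?_, ?_⟩
    · simp only [Prod.fst_add, Prod.snd_add]; omega
    · rw [← (syT (a, b)).co_iff, e0] at z2
      exact z2

/-- Lower bound in the quarter plane with diagonal sides. -/
lemma V_conn_le {k m : ℕ} {r : ℤ} (hr : 0 ≤ r) (hk : k + 1 + r = m) (y : ℤ) :
    PS m (fun x => x) m y ≤ pV k * ph r := by
  have hk' : k ≤ m := by omega
  have hdisj : Disjoint (EV k) (Bx (m - r) m (y - r) (y + r) ∩ EV m) := by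
    rw [disjoint_left]
    intro e he he2
    have h1 := mem_ES.1 he
    have h2 := mem_Bx.1 (mem_inter.1 he2).1
    have h3 := sum_ends h1.1
    rw [hs_V, hs_V] at h1
    omega
  have h1 : PS m (fun x => x) m y ≤
      Pr (EV m) (fun ω => armV k (ω ∩ EV k) ∧
        AR m y r (ω ∩ (Bx (m - r) m (y - r) (y + r) ∩ EV m))) := by
    apply Pr_mono
    intro ω hω hc
    constructor
    · obtain ⟨z, z', hz, hz', had, hcx, -⟩ := exit_co (X := fun z => z.1 ≤ (k : ℤ)) hc
        (by simp) (by simp only; omega)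
      refine ⟨z, ?_, ?_⟩
      · have := unit_cases had.1
        omega
      · refine hcx.sub (X := fun z => z.1 ≤ (k : ℤ)) ?_ (by simp)
        intro a b ha hb hab
        have := hab.hs hω
        rw [hs_V, hs_V] at this
        rw [add_mem_ES hab.1, hs_V, hs_V]
        omega
    · obtain ⟨z, z', hz, hz', had, hcx, -⟩ := exit_co
        (X := inB (m - r) m (y - r) (y + r)) hc.symm
        (by unfold inB; simp only; omega)
        (by unfold inB; simp only [Prod.fst_zero, Prod.snd_zero]; omega)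
      have hz2 := (had.hs hω)
      rw [hs_V, hs_V] at hz2
      refine ⟨z, ?_, ?_⟩
      · have := unit_cases had.1
        unfold inB at hz hz'
        omega
      · have h2 := hcx.sub (X := inB (m - r) m (y - r) (y + r))
          (E := Bx (m - r) m (y - r) (y + r) ∩ EV m) (fun a b ha hb hab => by
            rw [mem_inter]
            exact ⟨add_mem_Bx hab.1 ha hb, hω hab.2⟩) (by unfold inB; simp only; omega)
        refine h2.mono ?_
        intro e he
        rw [mem_inter, mem_inter] at he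
        rw [mem_inter, mem_inter, mem_inter]
        exact ⟨he, he.2.1⟩
  refine h1.trans ?_
  rw [Pr_indep (EV_sub hk') inter_subset_right hdisj]
  apply mul_le_mul_of_nonneg_left _ (Pr_nonneg _ _)
  refine (Pr_inc inter_subset_left (AR_inc m y r)).trans (le_of_eq ?_)
  exact Pr_AR (Finset.Subset.refl _)

/-- Lower bound in the diamond. -/
lemma D_conn_le {k m : ℕ} {r : ℤ} (hr : 0 ≤ r) (hk : k + 1 + r = m) (x : ℤ) (h1 : m ≤ x)
    (h2 : x ≤ 2 * m) : PS (2 * m) (fD m) x (2 * m - x) ≤ pV k * pd r := by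
  have hk' : k ≤ m := by omega
  have hdisj : Disjoint (EV k) (BD x (2 * m - x) r ∩ ED m) := by
    rw [disjoint_left]
    intro e he he2
    have h1 := mem_ES.1 he
    have h2 := mem_BD.1 (mem_inter.1 he2).1
    have h3 := sum_ends h1.1
    rw [hs_V, hs_V] at h1
    omega
  have h1 : PS (2 * m) (fD m) x (2 * m - x) ≤
      Pr (ED m) (fun ω => armV k (ω ∩ EV k) ∧
        AD x (2 * m - x) r (ω ∩ (BD x (2 * m - x) r ∩ ED m))) := by
    apply Pr_mono
    intro ω hω hc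
    constructor
    · obtain ⟨z, z', hz, hz', had, hcx, -⟩ := exit_co (X := fun z => z.1 ≤ (k : ℤ)) hc
        (by simp) (by simp only; omega)
      refine ⟨z, ?_, ?_⟩
      · have := unit_cases had.1
        omega
      · refine hcx.sub (X := fun z => z.1 ≤ (k : ℤ)) ?_ (by simp)
        intro a b ha hb hab
        have := hab.hs hω
        rw [hs_D, hs_D] at this
        rw [add_mem_ES hab.1, hs_V, hs_V]
        omega
    · obtain ⟨z, z', hz, hz', had, hcx, -⟩ := exit_co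
        (X := inB (x - r) (x + r) (2 * m - x - r) (2 * m - x + r)) hc.symm
        (by unfold inB; simp only; omega)
        (by unfold inB; simp only [Prod.fst_zero, Prod.snd_zero]; omega)
      refine ⟨z, ?_, ?_⟩
      · have := unit_cases had.1
        unfold inB at hz hz'
        omega
      · have h2 := hcx.sub (X := inB (x - r) (x + r) (2 * m - x - r) (2 * m - x + r))
          (E := BD x (2 * m - x) r ∩ ED m) (fun a b ha hb hab => by
            rw [mem_inter]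
            refine ⟨?_, hω hab.2⟩
            have h3 := mem_Bx.1 (add_mem_Bx hab.1 ha hb)
            have h4 := hab.hs hω
            rw [hs_D, hs_D] at h4
            have h5 := unit_cases hab.1
            rw [mem_BD]
            simp only [Prod.fst_add, Prod.snd_add] at h3 ⊢
            omega) (by unfold inB; simp only; omega)
        refine h2.mono ?_
        intro e he
        rw [mem_inter, mem_inter] at he
        rw [mem_inter, mem_inter, mem_inter]
        exact ⟨he, he.2.1⟩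
  refine h1.trans ?_
  rw [Pr_indep (EV_sub_ED hk') inter_subset_right hdisj]
  apply mul_le_mul_of_nonneg_left _ (Pr_nonneg _ _)
  refine (Pr_inc inter_subset_left (AD_inc x (2 * m - x) r)).trans (le_of_eq ?_)
  exact Pr_AD (Finset.Subset.refl _)

lemma pV_nonneg (k : ℕ) : 0 ≤ pV k := Pr_nonneg _ _
lemma ph_nonneg (r : ℤ) : 0 ≤ ph r := Pr_nonneg _ _
lemma pd_nonneg (r : ℤ) : 0 ≤ pd r := Pr_nonneg _ _
lemma ph_le_one (r : ℤ) : ph r ≤ 1 := Pr_le_one _ _
lemma pd_le_one (r : ℤ) : pd r ≤ 1 := Pr_le_one _ _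
lemma pV_le_one (r : ℕ) : pV r ≤ 1 := Pr_le_one _ _

theorem V_lower (k r : ℕ) : 1 ≤ (2 * (k + 1 + r) + 1 : ℝ) * (pV k * ph r) := by
  have h := V_identity (k + 1 + r)
  have h2 : ∑ y ∈ Icc (-((k + 1 + r : ℕ) : ℤ)) ((k + 1 + r : ℕ) : ℤ),
      PS (k + 1 + r) (fun x => x) ((k + 1 + r : ℕ) : ℤ) y ≤
      ∑ y ∈ Icc (-((k + 1 + r : ℕ) : ℤ)) ((k + 1 + r : ℕ) : ℤ), pV k * ph r :=
    Finset.sum_le_sum fun y _ => V_conn_le (by omega) (by push_cast; ring) y
  rw [h, Finset.sum_const, nsmul_eq_mul, Int.card_Icc] at h2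
  have e : ((((k + 1 + r : ℕ) : ℤ) + 1 - -((k + 1 + r : ℕ) : ℤ)).toNat : ℝ) =
      2 * (k + 1 + r) + 1 := by
    have : (((k + 1 + r : ℕ) : ℤ) + 1 - -((k + 1 + r : ℕ) : ℤ)).toNat = 2 * (k + 1 + r) + 1 := by
      omega
    rw [this]; push_cast; ring
  rwa [e] at h2

theorem D_lower (k r : ℕ) : 1 ≤ (3 * (k + 1 + r) + 3 : ℝ) * (pV k * pd r) := by
  set m := k + 1 + r with hm
  have h := D_identity m (by omega)
  have hb : ∀ x : ℕ, m ≤ x → x ≤ 2 * m → PS (2 * m) (fD m) x (2 * m - x) ≤ pV k * pd r :=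
    fun x h1 h2 => D_conn_le (m := m) (by omega) (by rw [hm]; push_cast; ring) x (by omega)
      (by omega)
  have hm0 := hb m le_rfl (by omega)
  have e0 : (2 * (m : ℤ) - m) = m := by ring
  rw [e0] at hm0
  have hm1 := hb (2 * m) (by omega) le_rfl
  have e1 : (2 * (m : ℤ) - ((2 * m : ℕ) : ℤ)) = 0 := by push_cast; ring
  rw [e1] at hm1
  push_cast at hm1
  have h3 : ∑ x ∈ Ico (m + 1) (2 * m), PS (2 * m) (fD m) x (2 * m - x) ≤
      ∑ x ∈ Ico (m + 1) (2 * m), pV k * pd r :=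
    Finset.sum_le_sum fun x hx => by
      rw [mem_Ico] at hx
      exact hb x (by omega) (by omega)
  rw [Finset.sum_const, nsmul_eq_mul, Nat.card_Ico] at h3
  have hP : 0 ≤ pV k * pd r := mul_nonneg (pV_nonneg _) (pd_nonneg _)
  have e2 : ((2 * m - (m + 1) : ℕ) : ℝ) ≤ (m : ℝ) - 1 + 0 := by
    have : 2 * m - (m + 1) = m - 1 := by omega
    rw [this, Nat.cast_sub (by omega)]; simp
  have e3 : ((2 * m - (m + 1) : ℕ) : ℝ) * (pV k * pd r) ≤ ((m : ℝ) - 1 + 0) * (pV k * pd r) :=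
    mul_le_mul_of_nonneg_right e2 hP
  have e4 : (m : ℝ) = k + 1 + r := by rw [hm]; push_cast; ring
  rw [← e4]
  nlinarith

end Pool.Agent.H75.Perc
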