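import Mathlib
import Pool.Agent.H63.Perc.Bridge
import Pool.Agent.H65.Perc.HalfDefs
import Pool.Agent.H75.Perc.VLow

set_option autoImplicit false
open Finset MeasureTheory

/-! One-arm events of general domains of `ℤ²` under the infinite product measure, and their finite
versions. -/

namespace Pool.Agent.H75.Perc

open Pool.Agent.H63.Perc (coins tr coins_tr coins_mono mem_tr)
open Pool.Agent.H65.Perc (PConf planeMeasure HalfArm halfGraph)

/-- the graph of the open edges with both ends in `D` -/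
def GD (D : ℤ × ℤ → Prop) (ω : PConf) : SimpleGraph (ℤ × ℤ) :=
  SimpleGraph.fromRel (fun u v => D u ∧ D v ∧
    ((v = (u.1 + 1, u.2) ∧ ω (u, true) = true) ∨ (v = (u.1, u.2 + 1) ∧ ω (u, false) = true)))

/-- the origin is connected inside `D` to sup-norm distance `n` -/
def armD (D : ℤ × ℤ → Prop) (n : ℕ) (ω : PConf) : Prop :=
  ∃ v : ℤ × ℤ, ((n : ℤ) ≤ |v.1| ∨ (n : ℤ) ≤ |v.2|) ∧ (GD D ω).Reachable (0, 0) v

/-- the index of the edge with label `e` -/
def phi (e : ℤ × ℤ) : (ℤ × ℤ) × Bool := ((e.1 / 2, e.2 / 2), decide (e.1 % 2 = 1))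

lemma phi_inj {E : Finset (ℤ × ℤ)} (hE : ∀ e ∈ E, (e.1 + e.2) % 2 = 1) : Set.InjOn phi E := by
  rintro ⟨a, b⟩ h1 ⟨c, d⟩ h2 h
  have h3 := hE _ h1
  have h4 := hE _ h2
  unfold phi at h
  simp only [Prod.mk.injEq, decide_eq_decide] at h h3 h4 ⊢
  omega

lemma phi_h (u : ℤ × ℤ) : phi (u + (u.1 + 1, u.2)) = (u, true) := by
  obtain ⟨a, b⟩ := u
  unfold phi
  simp only [Prod.mk_add_mk, Prod.mk.injEq, decide_eq_true_eq]
  omega

lemma phi_v (u : ℤ × ℤ) : phi (u + (u.1, u.2 + 1)) = (u, false) := by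
  obtain ⟨a, b⟩ := u
  unfold phi
  simp only [Prod.mk_add_mk, Prod.mk.injEq, decide_eq_false_iff_not]
  omega

lemma GD_adj {D : ℤ × ℤ → Prop} {ω : PConf} {u v : ℤ × ℤ} :
    (GD D ω).Adj u v ↔ IsUnit4 (v - u) ∧ D u ∧ D v ∧ ω (phi (u + v)) = true := by
  obtain ⟨a, b⟩ := u
  obtain ⟨c, d⟩ := v
  unfold GD
  rw [SimpleGraph.fromRel_adj]
  constructor
  · rintro ⟨hne, ⟨h1, h2, ⟨h3, h4⟩ | ⟨h3, h4⟩⟩ | ⟨h1, h2, ⟨h3, h4⟩ | ⟨h3, h4⟩⟩⟩
    · refine ⟨?_, h1, h2, by rw [h3, phi_h]; exact h4⟩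
      rw [h3]; unfold IsUnit4; simp
    · refine ⟨?_, h1, h2, by rw [h3, phi_v]; exact h4⟩
      rw [h3]; unfold IsUnit4; simp
    · refine ⟨?_, h2, h1, by rw [h3, add_comm, phi_h]; exact h4⟩
      rw [h3]; unfold IsUnit4; simp
    · refine ⟨?_, h2, h1, by rw [h3, add_comm, phi_v]; exact h4⟩
      rw [h3]; unfold IsUnit4; simp
  · rintro ⟨h1, h2, h3, h4⟩
    have h5 := unit_cases h1
    simp only at h5
    refine ⟨by intro h; simp only [Prod.mk.injEq] at h; omega, ?_⟩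
    rcases h5 with ⟨h5, h6⟩ | ⟨h5, h6⟩ | ⟨h5, h6⟩ | ⟨h5, h6⟩
    · have e : ((c, d) : ℤ × ℤ) = (((a, b) : ℤ × ℤ).1 + 1, ((a, b) : ℤ × ℤ).2) := by
        rw [h5, h6]
      left
      refine ⟨h2, h3, Or.inl ⟨e, ?_⟩⟩
      rw [e, phi_h] at h4; exact h4
    · have e : ((c, d) : ℤ × ℤ) = (((a, b) : ℤ × ℤ).1, ((a, b) : ℤ × ℤ).2 + 1) := by
        rw [h5, h6]
      left
      refine ⟨h2, h3, Or.inr ⟨e, ?_⟩⟩
      rw [e, phi_v] at h4; exact h4
    · have e : ((a, b) : ℤ × ℤ) = (((c, d) : ℤ × ℤ).1 + 1, ((c, d) : ℤ × ℤ).2) := by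
        rw [h5, h6]; simp
      right
      refine ⟨h3, h2, Or.inl ⟨e, ?_⟩⟩
      rw [e, add_comm, phi_h] at h4; exact h4
    · have e : ((a, b) : ℤ × ℤ) = (((c, d) : ℤ × ℤ).1, ((c, d) : ℤ × ℤ).2 + 1) := by
        rw [h5, h6]; simp
      right
      refine ⟨h3, h2, Or.inr ⟨e, ?_⟩⟩
      rw [e, add_comm, phi_v] at h4; exact h4

lemma exit_rel {α : Type*} {r : α → α → Prop} {X : α → Prop} {u v : α}
    (h : Relation.ReflTransGen r u v) (hu : X u) (hv : ¬ X v) :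
    ∃ z z', X z ∧ ¬ X z' ∧ r z z' ∧ Relation.ReflTransGen (fun a b => r a b ∧ X a ∧ X b) u z := by
  have key : ∀ v, Relation.ReflTransGen r u v →
      (X v ∧ Relation.ReflTransGen (fun a b => r a b ∧ X a ∧ X b) u v) ∨
      ∃ z z', X z ∧ ¬ X z' ∧ r z z' ∧
        Relation.ReflTransGen (fun a b => r a b ∧ X a ∧ X b) u z := by
    intro v hv
    induction hv with
    | refl => exact Or.inl ⟨hu, Relation.ReflTransGen.refl⟩
    | @tail b c hab hbc ih =>
      rcases ih with ⟨h1, h2⟩ | h1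
      · by_cases hc : X c
        · exact Or.inl ⟨hc, Relation.ReflTransGen.tail h2 ⟨hbc, h1, hc⟩⟩
        · exact Or.inr ⟨b, c, h1, hc, hbc, h2⟩
      · exact Or.inr h1
  rcases key v h with ⟨h1, _⟩ | h1
  · exact absurd h1 hv
  · exact h1

/-- the finite version of the one-arm event -/
def armF (n : ℕ) (ω : Finset (ℤ × ℤ)) : Prop :=
  ∃ z : ℤ × ℤ, (|z.1| = n ∨ |z.2| = n) ∧ Co ω 0 z

/-- connections of the finite configuration are connections in `D` -/
lemma co_reach {D : ℤ × ℤ → Prop} {E : Finset (ℤ × ℤ)} {ω : PConf}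
    (hE : ∀ u v, IsUnit4 (v - u) → u + v ∈ E → D u ∧ D v) {u v : ℤ × ℤ}
    (h : Co (tr E phi ω) u v) : (GD D ω).Reachable u v := by
  rw [SimpleGraph.reachable_iff_reflTransGen]
  refine Relation.ReflTransGen.mono (fun a b hab => ?_) _ _ h
  rw [GD_adj]
  have h1 := mem_tr.1 hab.2
  have h2 := hE a b hab.1 h1.1
  exact ⟨hab.1, h2.1, h2.2, h1.2⟩

lemma armD_iff {D : ℤ × ℤ → Prop} {E : Finset (ℤ × ℤ)} {n : ℕ}
    (hE : ∀ u v, IsUnit4 (v - u) → (u + v ∈ E ↔ D u ∧ D v ∧ inB (-n) n (-n) n u ∧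
      inB (-n) n (-n) n v)) (ω : PConf) : armD D n ω ↔ armF n (tr E phi ω) := by
  constructor
  · rintro ⟨v, h1, h2⟩
    rw [SimpleGraph.reachable_iff_reflTransGen] at h2
    rcases Nat.eq_zero_or_pos n with hn | hn
    · subst hn
      exact ⟨0, Or.inl (by simp), Co.refl _ _⟩
    · obtain ⟨z, z', hz, hz', had, hc⟩ := exit_rel (X := fun z : ℤ × ℤ => |z.1| < (n : ℤ) ∧ |z.2| < (n : ℤ)) h2
        (by simp only [abs_zero]; omega) (by intro h; omega)
      rw [GD_adj] at had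
      have h3 := unit_cases had.1
      have h4 : inB (-n) n (-n) n z := by
        unfold inB
        rw [abs_lt, abs_lt] at hz
        omega
      have h5 : inB (-n) n (-n) n z' := by
        unfold inB
        rw [abs_lt, abs_lt] at hz
        omega
      have h6 : |z'.1| = n ∨ |z'.2| = n := by
        rw [abs_lt, abs_lt] at hz
        rw [not_and_or, not_lt, not_lt, le_abs, le_abs] at hz'
        rw [abs_eq (by omega), abs_eq (by omega)]
        omega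
      refine ⟨z', h6, ?_⟩
      have h7 : Co (tr E phi ω) (0, 0) z := by
        refine Relation.ReflTransGen.mono (fun a b hab => ?_) _ _ hc
        obtain ⟨h8, h9, h10⟩ := hab
        rw [GD_adj] at h8
        refine ⟨h8.1, mem_tr.2 ⟨(hE a b h8.1).2 ⟨h8.2.1, h8.2.2.1, ?_, ?_⟩, h8.2.2.2⟩⟩
        · unfold inB
          rw [abs_lt, abs_lt] at h9
          omega
        · unfold inB
          rw [abs_lt, abs_lt] at h10
          omega
      exact Relation.ReflTransGen.tail h7 ⟨had.1, mem_tr.2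
        ⟨(hE z z' had.1).2 ⟨had.2.1, had.2.2.1, h4, h5⟩, had.2.2.2⟩⟩
  · rintro ⟨z, h1, h2⟩
    exact ⟨z, by omega, co_reach (fun u v h3 h4 => by
      have := (hE u v h3).1 h4
      exact ⟨this.1, this.2.1⟩) h2⟩

lemma planeMeasure_eq : planeMeasure = coins ((ℤ × ℤ) × Bool) := rfl

lemma armD_Pr {D : ℤ × ℤ → Prop} {E : Finset (ℤ × ℤ)} {n : ℕ}
    (hodd : ∀ e ∈ E, (e.1 + e.2) % 2 = 1)
    (hE : ∀ u v, IsUnit4 (v - u) → (u + v ∈ E ↔ D u ∧ D v ∧ inB (-n) n (-n) n u ∧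
      inB (-n) n (-n) n v)) : (planeMeasure {ω | armD D n ω}).toReal = Pr E (armF n) := by
  have h1 : {ω | armD D n ω} = {ω | armF n (tr E phi ω)} := by
    ext ω
    exact armD_iff hE ω
  rw [h1, planeMeasure_eq, coins_tr (phi_inj hodd)]

lemma add_mem_Bx_iff {a b c d : ℤ} {u v : ℤ × ℤ} (h : IsUnit4 (v - u)) :
    u + v ∈ Bx a b c d ↔ inB a b c d u ∧ inB a b c d v := by
  constructor
  · intro h2
    exact Ad.inB (Finset.Subset.refl _) ⟨h, h2⟩
  · rintro ⟨h1, h2⟩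
    exact add_mem_Bx h h1 h2

/-- the straight half plane `{x ≤ 0}` -/
lemma arm_half (n : ℕ) :
    (planeMeasure {ω | armD (fun v => v.1 ≤ 0) n ω}).toReal = ph n := by
  rw [armD_Pr (E := Bx (-n) 0 (-n) n) (fun e he => (mem_Bx.1 he).2.2) (fun u v h => by
    rw [add_mem_Bx_iff h]; unfold inB; omega)]
  have h1 : ph n = Pr (Bx (-n) 0 (-n) n) (AR 0 0 n) := by
    rw [Pr_AR]
    refine Bx_sub (by omega) le_rfl (by omega) (by omega)
  rw [h1]
  apply Pr_congr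
  intro ω hω
  have e1 : ω ∩ Bx (0 - n) 0 (0 - n) (0 + n) = ω := by
    apply inter_eq_left.2
    refine hω.trans (Bx_sub (by omega) le_rfl (by omega) (by omega))
  unfold armF AR
  rw [e1]
  rcases Nat.eq_zero_or_pos n with hn | hn
  · subst hn
    exact ⟨fun _ => ⟨0, by simp, Co.refl _ _⟩, fun _ => ⟨0, by simp, Co.refl _ _⟩⟩
  constructor
  · rintro ⟨z, h1, h2⟩
    have h3 : inB (-n) 0 (-n) n z := h2.inB hω (by
      unfold inB; simp only [Prod.fst_zero, Prod.snd_zero]; omega)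
    unfold inB at h3
    refine ⟨z, ?_, h2⟩
    rw [abs_eq (by omega), abs_eq (by omega)] at h1
    omega
  · rintro ⟨z, h1, h2⟩
    refine ⟨z, ?_, h2⟩
    rw [abs_eq (by omega), abs_eq (by omega)]
    omega

/-- the straight quarter plane -/
lemma arm_quarter (n : ℕ) :
    (planeMeasure {ω | armD (fun v => 0 ≤ v.1 ∧ 0 ≤ v.2) n ω}).toReal = Pr (EE n n) (armQ n) := by
  rw [armD_Pr (E := Bx 0 n 0 n) (fun e he => (mem_Bx.1 he).2.2) (fun u v h => by
    rw [add_mem_Bx_iff h]; unfold inB; omega), EE_eq_Bx]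
  apply Pr_congr
  intro ω hω
  have hodd : ∀ e ∈ ω, (e.1 + e.2) % 2 = 1 := fun e he => (mem_Bx.1 (hω he)).2.2
  unfold armF armQ
  constructor
  · rintro ⟨z, h1, h2⟩
    have h3 : inB 0 n 0 n z := h2.inB hω (by
      unfold inB; simp only [Prod.fst_zero, Prod.snd_zero]; omega)
    unfold inB at h3
    refine ⟨z, ?_, (cn_iff_co hodd _ _).2 h2⟩
    rw [abs_eq (by omega), abs_eq (by omega)] at h1
    omega
  · rintro ⟨z, h1, h2⟩
    refine ⟨z, ?_, (cn_iff_co hodd _ _).1 h2⟩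
    rw [abs_eq (by omega), abs_eq (by omega)]
    omega

lemma Co.hs {w : ℕ} {f : ℕ → ℕ} {ω : Finset (ℤ × ℤ)} (hω : ω ⊆ ES w f) {u v : ℤ × ℤ}
    (h : Co ω u v) (hu : Perc.hs w f u.1 u.2) : Perc.hs w f v.1 v.2 := by
  induction h with
  | refl => exact hu
  | tail _ hbc _ => exact (hbc.hs hω).2

/-- the quarter plane with diagonal sides -/
lemma arm_diag (n : ℕ) :
    (planeMeasure {ω | armD (fun v => -v.1 ≤ v.2 ∧ v.2 ≤ v.1) n ω}).toReal = pV n := by
  rw [armD_Pr (E := EV n) (fun e he => (mem_ES.1 he).1) (fun u v h => by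
    rw [add_mem_ES h, hs_V, hs_V]; unfold inB; omega)]
  unfold pV
  apply Pr_congr
  intro ω hω
  unfold armF armV
  constructor
  · rintro ⟨z, h1, h2⟩
    have h3 := h2.hs hω (by rw [hs_V]; simp)
    rw [hs_V] at h3
    refine ⟨z, ?_, h2⟩
    rw [abs_eq (by omega), abs_eq (by omega)] at h1
    omega
  · rintro ⟨z, h1, h2⟩
    refine ⟨z, ?_, h2⟩
    rw [abs_eq (by omega), abs_eq (by omega)]
    omega

/-- helper65's half plane -/
lemma armD_half65 (n : ℕ) (ω : PConf) :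
    armD (fun v => 0 ≤ v.1 + v.2) n ω ↔ HalfArm n ω := by
  have h : GD (fun v => 0 ≤ v.1 + v.2) ω = halfGraph ω := by
    unfold GD halfGraph
    congr 1
    funext u v
    apply propext
    constructor
    · rintro ⟨h1, _, h3⟩
      exact ⟨h1, h3⟩
    · rintro ⟨h1, h3⟩
      refine ⟨h1, ?_, h3⟩
      rcases h3 with ⟨rfl, _⟩ | ⟨rfl, _⟩ <;> simp only <;> omega
  unfold armD HalfArm
  rw [h]

end Pool.Agent.H75.Perc
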