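import Mathlib
import Pool.Agent.H75.Perc.Rect

set_option autoImplicit false
open Finset

/-! Geometric gluing lemmas. -/

namespace Pool.Agent.H75.Perc

lemma CoX.mono2 {ω : Finset (ℤ × ℤ)} {X Y : ℤ × ℤ → Prop} (h : ∀ z, X z → Y z) {u v : ℤ × ℤ}
    (hc : CoX ω X u v) : CoX ω Y u v := by
  induction hc with
  | refl => exact Relation.ReflTransGen.refl
  | tail _ hbc ih => exact Relation.ReflTransGen.tail ih ⟨hbc.1, h _ hbc.2⟩

lemma CoX.symm {ω : Finset (ℤ × ℤ)} {X : ℤ × ℤ → Prop} {u v : ℤ × ℤ} (h : CoX ω X u v)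
    (hu : X u) : CoX ω X v u := by
  induction h with
  | refl => exact Relation.ReflTransGen.refl
  | @tail b c hab hbc ih =>
    exact Relation.ReflTransGen.head ⟨hbc.1.symm, CoX.mem (X := X) hab hu⟩ ih

lemma CoX.self {ω : Finset (ℤ × ℤ)} {X : ℤ × ℤ → Prop} {u v : ℤ × ℤ} (h : CoX ω X u v) :
    Relation.ReflTransGen (fun a b => Ad ω a b ∧ CoX ω X u b) u v := by
  induction h with
  | refl => exact Relation.ReflTransGen.refl
  | tail hab hbc ih =>
    exact Relation.ReflTransGen.tail ih ⟨hbc.1, Relation.ReflTransGen.tail hab hbc⟩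

/-- First exit of a connection inside `X`. -/
lemma exit_cox {ω : Finset (ℤ × ℤ)} {X Y : ℤ × ℤ → Prop} {u v : ℤ × ℤ} (h : CoX ω X u v)
    (hu : Y u) (hv : ¬ Y v) : ∃ z z', Y z ∧ ¬ Y z' ∧ X z' ∧ Ad ω z z' ∧
      CoX ω (fun w => X w ∧ Y w) u z := by
  have key : ∀ v, CoX ω X u v → (Y v ∧ CoX ω (fun w => X w ∧ Y w) u v) ∨
      ∃ z z', Y z ∧ ¬ Y z' ∧ X z' ∧ Ad ω z z' ∧ CoX ω (fun w => X w ∧ Y w) u z := by
    intro v hv
    induction hv with
    | refl => exact Or.inl ⟨hu, Relation.ReflTransGen.refl⟩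
    | @tail b c hab hbc ih =>
      rcases ih with ⟨h1, h2⟩ | h1
      · by_cases hc : Y c
        · exact Or.inl ⟨hc, Relation.ReflTransGen.tail h2 ⟨hbc.1, hbc.2, hc⟩⟩
        · exact Or.inr ⟨b, c, h1, hc, hbc.2, hbc.1, h2⟩
      · exact Or.inr h1
  rcases key v h with ⟨h1, _⟩ | h1
  · exact absurd h1 hv
  · exact h1

/-- a path from the left of a strip to the right of it crosses it -/
lemma strip_piece {ω : Finset (ℤ × ℤ)} {s t : ℤ × ℤ} {a b : ℤ} (hab : a < b) (h : Co ω s t)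
    (hs : s.1 ≤ a) (ht : b ≤ t.1) :
    ∃ p q : ℤ × ℤ, p.1 = a ∧ q.1 = b ∧ CoX ω (fun z => a ≤ z.1 ∧ z.1 ≤ b) q p ∧ Co ω s q := by
  obtain ⟨z, q, hz, hq, had, hcx, hco⟩ := exit_co (X := fun z => z.1 ≤ b - 1) h
    (by show s.1 ≤ b - 1; omega) (by show ¬ t.1 ≤ b - 1; omega)
  have h1 := unit_cases had.1
  have hq1 : q.1 = b := by omega
  have h2 : CoX ω (fun z => z.1 ≤ b) s q :=
    Relation.ReflTransGen.tail (CoX.mono2 (fun z hz => by omega) hcx)
      ⟨had, by omega⟩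
  have h3 := CoX.symm h2 (by omega)
  obtain ⟨u, u', hu, hu', hX, had2, hc2⟩ := exit_cox (Y := fun z => a + 1 ≤ z.1) h3
    (by omega) (by omega)
  have h4 := unit_cases had2.1
  have hu1 : u'.1 = a := by omega
  refine ⟨u', q, hu1, hq1, ?_, hco⟩
  exact Relation.ReflTransGen.tail (CoX.mono2 (fun z hz => by omega) hc2)
    ⟨had2, by omega⟩

lemma col_path (A : ℤ × ℤ → Prop) (x y : ℤ) (k : ℕ) (h : ∀ i : ℕ, i ≤ k → A (x, y + i)) :
    Relation.ReflTransGen (fun u v => IsUnit4 (v - u) ∧ A v) (x, y) (x, y + k) := by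
  induction k with
  | zero => simp only [Nat.cast_zero, add_zero]; exact Relation.ReflTransGen.refl
  | succ k ih =>
    refine Relation.ReflTransGen.tail (ih (fun i hi => h i (by omega))) ⟨?_, h (k + 1) le_rfl⟩
    unfold IsUnit4
    simp only [Prod.mk_sub_mk, Prod.mk.injEq]
    push_cast
    omega

lemma row_path (A : ℤ × ℤ → Prop) (x y : ℤ) (k : ℕ) (h : ∀ i : ℕ, i ≤ k → A (x + i, y)) :
    Relation.ReflTransGen (fun u v => King (v - u) ∧ A v) (x, y) (x + k, y) := by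
  induction k with
  | zero => simp only [Nat.cast_zero, add_zero]; exact Relation.ReflTransGen.refl
  | succ k ih =>
    refine Relation.ReflTransGen.tail (ih (fun i hi => h i (by omega))) ⟨?_, h (k + 1) le_rfl⟩
    unfold King
    simp only [Prod.fst_sub, Prod.snd_sub]
    push_cast
    omega

/-- the strip of the quarter plane with diagonal sides -/
def VS (a b : ℤ) (v : ℤ × ℤ) : Prop := a ≤ v.1 ∧ v.1 ≤ b ∧ -v.1 ≤ v.2 ∧ v.2 ≤ v.1

/-- an open path between the two diagonal sides inside the strip -/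
def Bar (a b : ℤ) (ω : Finset (ℤ × ℤ)) : Prop :=
  ∃ u u' z z' : ℤ × ℤ, a ≤ u'.1 ∧ u'.1 ≤ b ∧ a ≤ z'.1 ∧ z'.1 ≤ b ∧ u'.2 < -u'.1 ∧ z'.1 < z'.2 ∧
    IsUnit4 (u - u') ∧ IsUnit4 (z' - z) ∧ VS a b u ∧ CoX ω (VS a b) u z

lemma CoX.monoω {ω ω' : Finset (ℤ × ℤ)} (hω : ω ⊆ ω') {X : ℤ × ℤ → Prop} {u v : ℤ × ℤ}
    (hc : CoX ω X u v) : CoX ω' X u v := by
  induction hc with
  | refl => exact Relation.ReflTransGen.refl
  | tail _ hbc ih => exact Relation.ReflTransGen.tail ih ⟨hbc.1.mono hω, hbc.2⟩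

lemma Bar_inc (a b : ℤ) : Inc (Bar a b) := by
  rintro ω ω' h ⟨u, u', z, z', h1, h2, h3, h4, h5, h6, h7, h8, h9, h10⟩
  exact ⟨u, u', z, z', h1, h2, h3, h4, h5, h6, h7, h8, h9, CoX.monoω h h10⟩

/-- the barrier meets every horizontal crossing of the strip -/
lemma bar_meets {ω : Finset (ℤ × ℤ)} {a b : ℤ} (_ha : 0 ≤ a)
    (hω : ∀ x y, Ad ω x y → y.1 ≤ b → -y.1 ≤ y.2 ∧ y.2 ≤ y.1)
    {u u' z z' p q : ℤ × ℤ} (h1 : a ≤ u'.1) (h2 : u'.1 ≤ b) (h3 : a ≤ z'.1) (h4 : z'.1 ≤ b)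
    (h5 : u'.2 < -u'.1) (h6 : z'.1 < z'.2) (h7 : IsUnit4 (u - u')) (h8 : IsUnit4 (z' - z))
    (h9 : VS a b u) (h10 : CoX ω (VS a b) u z) (hp : p.1 = a) (hq : q.1 = b)
    (hqV : -q.1 ≤ q.2 ∧ q.2 ≤ q.1) (hpq : CoX ω (fun z => a ≤ z.1 ∧ z.1 ≤ b) q p) :
    Co ω u q := by
  set A : ℤ × ℤ → Prop := fun w => CoX ω (fun z => a ≤ z.1 ∧ z.1 ≤ b) q w with hA
  set B : ℤ × ℤ → Prop := fun w => CoX ω (VS a b) u w ∨
    (a ≤ w.1 ∧ w.1 ≤ b ∧ (w.2 < -w.1 ∨ w.1 < w.2)) with hB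
  have hzV : VS a b z := CoX.mem (X := VS a b) h10 h9
  have hab : a ≤ b := h1.trans h2
  have hAV : ∀ w, A w → a ≤ w.1 ∧ w.1 ≤ b ∧ -w.1 ≤ w.2 ∧ w.2 ≤ w.1 := by
    intro w hw
    have hX : a ≤ w.1 ∧ w.1 ≤ b := CoX.mem (X := fun z => a ≤ z.1 ∧ z.1 ≤ b) hw
      (by omega)
    refine ⟨hX.1, hX.2, ?_⟩
    rcases Relation.ReflTransGen.cases_tail hw with h | ⟨w', _, h⟩
    · have h' : w = q := h
      rw [h']; exact hqV
    · exact hω _ _ h.1 hX.2
  have hP : Relation.ReflTransGen (fun u v => King (v - u) ∧ A v) p q := by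
    have h := CoX.symm hpq (by omega)
    have hbase : ∀ w, CoX ω (fun z => a ≤ z.1 ∧ z.1 ≤ b) p w →
        Relation.ReflTransGen (fun u v => King (v - u) ∧ A v) p w := by
      intro w hw
      induction hw with
      | refl => exact Relation.ReflTransGen.refl
      | tail hab' hbc ih =>
        exact Relation.ReflTransGen.tail ih ⟨hbc.1.1.king,
          Relation.ReflTransGen.trans hpq (Relation.ReflTransGen.tail hab' hbc)⟩
    exact hbase q h
  have hu1 := unit_cases h7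
  have hz1 := unit_cases h8
  have hQ : Relation.ReflTransGen (fun u v => IsUnit4 (v - u) ∧ B v) (u'.1, -(b + 1))
      (z'.1, b + 1) := by
    have c1 := col_path B u'.1 (-(b + 1)) (u'.2 + (b + 1)).toNat (by
      intro i hi
      right
      simp only
      unfold VS at h9
      omega)
    have e1 : (u'.1, -(b + 1) + ((u'.2 + (b + 1)).toNat : ℤ)) = u' := by
      refine Prod.ext rfl ?_
      simp only
      unfold VS at h9
      omega
    rw [e1] at c1
    have c2 : Relation.ReflTransGen (fun u v => IsUnit4 (v - u) ∧ B v) u' z := by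
      refine Relation.ReflTransGen.head ⟨h7, Or.inl Relation.ReflTransGen.refl⟩ ?_
      exact Relation.ReflTransGen.mono (fun a b hab => ⟨hab.1.1, Or.inl hab.2⟩) _ _ h10.self
    have c3 : Relation.ReflTransGen (fun u v => IsUnit4 (v - u) ∧ B v) z z' :=
      Relation.ReflTransGen.single ⟨h8, Or.inr ⟨h3, h4, Or.inr h6⟩⟩
    have c4 := col_path B z'.1 z'.2 ((b + 1) - z'.2).toNat (by
      intro i hi
      right
      simp only
      omega)
    have e4 : (z'.1, z'.2 + (((b + 1) - z'.2).toNat : ℤ)) = (z'.1, b + 1) := by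
      refine Prod.ext rfl ?_
      simp only
      unfold VS at hzV
      omega
    rw [e4] at c4
    exact (c1.trans c2).trans (c3.trans c4)
  obtain ⟨w, hwA, hwB⟩ := cross_set (A := A) (B := B) (a := a) (b := b) (c := -(b + 1))
    (d := b + 1) hP hpq hQ (Or.inr ⟨h1, h2, Or.inl (by simp only; omega)⟩)
    (fun w hw => by have := hAV w hw; omega)
    (fun w hw => by
      rcases hw with hw | hw
      · have := CoX.mem (X := VS a b) hw h9
        unfold VS at this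
        exact ⟨this.1, this.2.1⟩
      · exact ⟨hw.1, hw.2.1⟩) hp hq rfl rfl
  have hwV := hAV w hwA
  rcases hwB with hwB | hwB
  · exact hwB.co.trans (CoX.co hwA).symm
  · omega

/-- a vertical crossing contains a barrier -/
lemma vc_bar {ω E : Finset (ℤ × ℤ)} {a b : ℤ} (ha : 0 ≤ a)
    (hE : ∀ x y, VS a b x → VS a b y → IsUnit4 (y - x) → x + y ∈ E)
    (h : VC a b (-(b + 1)) (b + 1) ω) : Bar a b (ω ∩ E) := by
  obtain ⟨p, q, hp, hp2, hq2, hc⟩ := h
  set ω1 := ω ∩ Bx a b (-(b + 1)) (b + 1) with hω1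
  have hbox : ∀ w, Co ω1 p w → inB a b (-(b + 1)) (b + 1) w := fun w hw =>
    hw.inB inter_subset_right hp
  have hqB := hbox q hc
  obtain ⟨z, z', hz, hz', had, hcx, hco⟩ := exit_co (X := fun w => w.2 ≤ w.1) hc
    (by unfold inB at hp; show p.2 ≤ p.1; omega) (by unfold inB at hqB; show ¬ q.2 ≤ q.1; omega)
  have h1 := unit_cases had.1
  have hzB := hbox z hcx.co
  have hz'B := hbox z' hco
  unfold inB at hzB hz'B
  have h2 := CoX.symm hcx (by unfold inB at hp; omega)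
  obtain ⟨u, u', hu, hu', hX, had2, hc2⟩ := exit_cox (Y := fun w => -w.1 ≤ w.2) h2
    (by omega) (by unfold inB at hp; omega)
  have h3 := unit_cases had2.1
  have hzu : Co ω1 z u := hc2.co
  have huB := hbox u (hcx.co.trans hzu)
  have hu'B := hbox u' ((hcx.co.trans hzu).trans (Relation.ReflTransGen.single had2))
  unfold inB at huB hu'B
  have hVz : VS a b z := by unfold VS; omega
  -- the path stays in the strip
  have h4 : ∀ w, CoX ω1 (fun w => w.2 ≤ w.1 ∧ -w.1 ≤ w.2) z w →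
      VS a b w ∧ CoX (ω ∩ E) (VS a b) z w := by
    intro w hw
    induction hw with
    | refl => exact ⟨hVz, Relation.ReflTransGen.refl⟩
    | @tail x y hx hxy ih =>
      have hy := hbox y ((hcx.co.trans (CoX.co hx)).trans
        (Relation.ReflTransGen.single hxy.1))
      unfold inB at hy
      have hyV : VS a b y := by
        have := hxy.2
        unfold VS
        simp only at this
        omega
      refine ⟨hyV, Relation.ReflTransGen.tail ih.2 ⟨⟨hxy.1.1, mem_inter.2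
        ⟨(mem_inter.1 hxy.1.2).1, hE x y ih.1 hyV hxy.1.1⟩⟩, hyV⟩⟩
  obtain ⟨h5, h6⟩ := h4 u hc2
  refine ⟨u, u', z, z', hu'B.1.1, hu'B.1.2, hz'B.1.1, hz'B.1.2, by omega, by omega, ?_, had.1, h5,
    CoX.symm h6 hVz⟩
  have := isUnit4_neg had2.1
  rwa [neg_sub] at this

/-- Gluing through the barrier. -/
lemma bar_glue {ω : Finset (ℤ × ℤ)} {a b : ℤ} (ha : 0 ≤ a) (hab : a < b)
    (hω : ∀ x y, Ad ω x y → y.1 ≤ b → -y.1 ≤ y.2 ∧ y.2 ≤ y.1) (hB : Bar a b ω)
    {s l t : ℤ × ℤ} (h0s : Co ω 0 s) (hs : b ≤ s.1) (hlt : Co ω l t) (hl : l.1 ≤ a)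
    (ht : b ≤ t.1) : Co ω 0 t := by
  obtain ⟨u, u', z, z', h1, h2, h3, h4, h5, h6, h7, h8, h9, h10⟩ := hB
  have key : ∀ {s t : ℤ × ℤ}, Co ω s t → s.1 ≤ a → b ≤ t.1 → Co ω s u := by
    intro s t hst hs ht
    obtain ⟨p, q, hp, hq, hcx, hco⟩ := strip_piece hab hst hs ht
    have hqV : -q.1 ≤ q.2 ∧ q.2 ≤ q.1 := by
      rcases Relation.ReflTransGen.cases_tail hco with h | ⟨w', _, h⟩
      · rw [h] at hq; omega
      · exact hω _ _ h hq.le
    exact hco.trans (bar_meets ha hω h1 h2 h3 h4 h5 h6 h7 h8 h9 h10 hp hq hqV hcx).symm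
  exact (key h0s (by simpa using ha) hs).trans ((key hlt hl ht).symm.trans hlt)

end Pool.Agent.H75.Perc
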