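import Mathlib
import Pool.Agent.H75.Perc.VGeo
import Pool.Agent.H75.Perc.VLow

set_option autoImplicit false
open Finset

/-! Upper bound for the product of the one-arm probabilities of the quarter plane with diagonal
sides and of the straight half plane. -/

namespace Pool.Agent.H75.Perc

/-- An arm, a half circuit and a long crossing give a connection to the left side. -/
lemma arm_extend' {L N C D y j : ℤ} (hj : 1 ≤ j) (h1 : L ≤ N - 4 * j) {ω : Finset (ℤ × ℤ)}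
    (hy1 : C ≤ y - 4 * j) (hy2 : y + 4 * j ≤ D)
    (hA : AR N y (4 * j) ω) (hV : VC (N - 4 * j) (N - 2 * j) (y - 4 * j) (y + 4 * j) ω)
    (hT : HC (N - 4 * j) N (y + 2 * j) (y + 4 * j) ω)
    (hB : HC (N - 4 * j) N (y - 4 * j) (y - 2 * j) ω)
    (hD : HC L (N - 2 * j) (y - 4 * j) (y + 4 * j) ω) :
    ∃ l : ℤ × ℤ, l.1 = L ∧ inB L N C D l ∧ Co (ω ∩ Bx L N C D) l (N, y) := by
  obtain ⟨z, z1, z2⟩ := hA
  obtain ⟨v, v', v1, v2, v3, v4⟩ := hV
  obtain ⟨t, t', t1, t2, t3, t4⟩ := hT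
  obtain ⟨b, b', b1, b2, b3, b4⟩ := hB
  obtain ⟨d, d', d1, d2, d3, d4⟩ := hD
  have hbig : ∀ {a b' c d' : ℤ}, L ≤ a → b' ≤ N → C ≤ c → d' ≤ D →
      ω ∩ Bx a b' c d' ⊆ ω ∩ Bx L N C D := fun ha hb hc hd =>
    inter_subset_inter_left (Bx_sub ha hb hc hd)
  -- the vertical crossing meets the long crossing
  obtain ⟨p, p1, p2⟩ := cross_co (a := L) (b := N - 2 * j) (c := y - 4 * j) (d := y + 4 * j)
    inter_subset_right (ω2 := ω ∩ Bx (N - 4 * j) (N - 2 * j) (y - 4 * j) (y + 4 * j))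
    (inter_subset_right.trans (Bx_sub (by omega) le_rfl le_rfl le_rfl)) d1
    (by unfold inB at v1 ⊢; omega) d4 v4 d2 d3 v2 v3
  have k1 : Co (ω ∩ Bx L N C D) d v :=
    (p1.mono (hbig (by omega) (by omega) (by omega) (by omega))).trans
      (p2.mono (hbig (by omega) (by omega) (by omega) (by omega))).symm
  have hdl : inB L N C D d := by unfold inB at d1 ⊢; omega
  refine ⟨d, d2, hdl, k1.trans ?_⟩
  -- the big half box
  have s1 : ω ∩ Bx (N - 4 * j) (N - 2 * j) (y - 4 * j) (y + 4 * j) ⊆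
      Bx (N - 4 * j) N (y - 4 * j) (y + 4 * j) :=
    inter_subset_right.trans (Bx_sub le_rfl (by omega) le_rfl le_rfl)
  have s2 : ω ∩ Bx (N - 4 * j) N (y + 2 * j) (y + 4 * j) ⊆
      Bx (N - 4 * j) N (y - 4 * j) (y + 4 * j) :=
    inter_subset_right.trans (Bx_sub le_rfl le_rfl (by omega) le_rfl)
  have s3 : ω ∩ Bx (N - 4 * j) N (y - 4 * j) (y - 2 * j) ⊆
      Bx (N - 4 * j) N (y - 4 * j) (y + 4 * j) :=
    inter_subset_right.trans (Bx_sub le_rfl le_rfl le_rfl (by omega))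
  have hcB : inB (N - 4 * j) N (y - 4 * j) (y + 4 * j) ((N, y) : ℤ × ℤ) := by
    unfold inB; simp only; omega
  rcases z1 with z1 | z1 | z1
  · -- left exit
    have hzB : inB (N - 4 * j) N (y - 4 * j) (y + 4 * j) z := z2.inB inter_subset_right hcB
    obtain ⟨q, q1, q2⟩ := cross_co inter_subset_right s1 hzB
      (by unfold inB at v1 ⊢; omega) z2.symm v4 z1 rfl v2 v3
    have k2 : Co (ω ∩ Bx L N C D) v z :=
      (q2.mono (hbig (by omega) (by omega) (by omega) (by omega))).trans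
        (q1.mono (hbig (by omega) (by omega) (by omega) (by omega))).symm
    exact k2.trans (z2.symm.mono (hbig (by omega) (by omega) (by omega) (by omega)))
  · -- exit at the bottom
    obtain ⟨w, w', hw, hw', had, hcx, -⟩ := exit_co (u := z) (v := ((N, y) : ℤ × ℤ))
      (X := inB (N - 4 * j) N (y - 4 * j) (y - 2 * j)) z2.symm
      (by have := z2.inB inter_subset_right hcB; unfold inB at this ⊢; omega)
      (by unfold inB; simp only; omega)
    have hw2 : w.2 = y - 2 * j := by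
      have h5 := unit_cases had.1
      have h6 := (had.inB inter_subset_right).2
      unfold inB at hw hw' h6
      omega
    have hzX : inB (N - 4 * j) N (y - 4 * j) (y - 2 * j) z := by
      have := z2.inB inter_subset_right hcB; unfold inB at this ⊢; omega
    have c1 : Co (ω ∩ Bx (N - 4 * j) N (y - 4 * j) (y - 2 * j)) z w :=
      (hcx.box (fun z hz => hz) hzX).mono (inter_subset_inter_right inter_subset_left)
    obtain ⟨q, q1, q2⟩ := cross_co inter_subset_right inter_subset_right b1 hzX b4 c1 b2 b3 z1 hw2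
    obtain ⟨r, r1, r2⟩ := cross_co s3 s1 (by unfold inB at b1 ⊢; omega)
      (by unfold inB at v1 ⊢; omega) b4 v4 b2 b3 v2 v3
    have k2 : Co (ω ∩ Bx L N C D) v b :=
      (r2.mono (hbig (by omega) (by omega) (by omega) (by omega))).trans
        (r1.mono (hbig (by omega) (by omega) (by omega) (by omega))).symm
    have k3 : Co (ω ∩ Bx L N C D) b z :=
      (q1.mono (hbig (by omega) (by omega) (by omega) (by omega))).trans
        (q2.mono (hbig (by omega) (by omega) (by omega) (by omega))).symm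
    exact (k2.trans k3).trans (z2.symm.mono (hbig (by omega) (by omega) (by omega) (by omega)))
  · -- exit at the top
    obtain ⟨w, w', hw, hw', had, hcx, -⟩ := exit_co (u := z) (v := ((N, y) : ℤ × ℤ))
      (X := inB (N - 4 * j) N (y + 2 * j) (y + 4 * j)) z2.symm
      (by have := z2.inB inter_subset_right hcB; unfold inB at this ⊢; omega)
      (by unfold inB; simp only; omega)
    have hw2 : w.2 = y + 2 * j := by
      have h5 := unit_cases had.1
      have h6 := (had.inB inter_subset_right).2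
      unfold inB at hw hw' h6
      omega
    have hzX : inB (N - 4 * j) N (y + 2 * j) (y + 4 * j) z := by
      have := z2.inB inter_subset_right hcB; unfold inB at this ⊢; omega
    have hwX : inB (N - 4 * j) N (y + 2 * j) (y + 4 * j) w := hw
    have c1 : Co (ω ∩ Bx (N - 4 * j) N (y + 2 * j) (y + 4 * j)) z w :=
      (hcx.box (fun z hz => hz) hzX).mono (inter_subset_inter_right inter_subset_left)
    obtain ⟨q, q1, q2⟩ := cross_co inter_subset_right inter_subset_right t1 hwX t4 c1.symm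
      t2 t3 hw2 z1
    obtain ⟨r, r1, r2⟩ := cross_co s2 s1 (by unfold inB at t1 ⊢; omega)
      (by unfold inB at v1 ⊢; omega) t4 v4 t2 t3 v2 v3
    have k2 : Co (ω ∩ Bx L N C D) v t :=
      (r2.mono (hbig (by omega) (by omega) (by omega) (by omega))).trans
        (r1.mono (hbig (by omega) (by omega) (by omega) (by omega))).symm
    have k3 : Co (ω ∩ Bx L N C D) t z :=
      (q1.mono (hbig (by omega) (by omega) (by omega) (by omega))).trans
        ((c1.trans q2).mono (hbig (by omega) (by omega) (by omega) (by omega))).symm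
    exact (k2.trans k3).trans (z2.symm.mono (hbig (by omega) (by omega) (by omega) (by omega)))


lemma Bar_prob {a b : ℤ} (n : ℕ) (hn : 1 ≤ n) (ha : 0 ≤ a) (h1 : b = a + 2 * n)
    (h2 : 2 * b + 2 ≤ 8 * n) {E : Finset (ℤ × ℤ)}
    (hE : ∀ x y, VS a b x → VS a b y → IsUnit4 (y - x) → x + y ∈ E) :
    1 / 2 ^ 47 ≤ Pr E (Bar a b) := by
  have e1 : Pr (Bx a b (-(b + 1)) (b + 1) ∪ E) (fun ω => Bar a b (ω ∩ E)) = Pr E (Bar a b) :=
    Pr_restrict subset_union_right _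
  rw [← e1]
  have e2 : Pr (Bx a b (-(b + 1)) (b + 1) ∪ E) (VC a b (-(b + 1)) (b + 1)) =
      fc ((b + 1) - (-(b + 1))) (b - a) := Pr_VC subset_union_left
  have e3 : fc (8 * n) (2 * n) ≤ fc ((b + 1) - (-(b + 1))) (b - a) := by
    have : b - a = 2 * n := by omega
    rw [this]
    exact fc_anti (by omega) (by omega)
  refine ((fc_eight hn).trans e3).trans ?_
  rw [← e2]
  exact Pr_mono fun ω _ h => vc_bar ha hE h

/-- Connection from the barrier to a point of the right side. -/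
def LV (L m y : ℤ) (ω : Finset (ℤ × ℤ)) : Prop :=
  ∃ l : ℤ × ℤ, l.1 ≤ L ∧ Co ω l (m, y)

lemma LV_inc (L m y : ℤ) : Inc (LV L m y) := by
  rintro ω ω' h ⟨l, h1, h2⟩
  exact ⟨l, h1, h2.mono h⟩

lemma Bx_sub_EV {a b c d : ℤ} {m : ℕ} (h0 : 0 ≤ a) (h1 : b ≤ m) (h2 : -a ≤ c) (h3 : d ≤ a) :
    Bx a b c d ⊆ EV m := by
  intro e he
  have h := mem_Bx.1 he
  rw [mem_ES]
  have h4 := sum_ends h.2.2
  rcases vx_in1 e h.2.2 with ⟨h5, h6, h7, h8⟩ | ⟨h5, h6, h7, h8⟩ <;> rw [h7, h8] at h4 ⊢ <;>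
    rw [hs_V, hs_V] <;> simp only at h4 ⊢ <;> omega

lemma Pr_LV {m i : ℕ} {y : ℤ} (hi : 1 ≤ i) (h1 : 32 * i ≤ m) (h2 : m ≤ 42 * i)
    (hy1 : -(4 * i : ℤ) ≤ y) (hy2 : y ≤ 4 * i) :
    1 / 2 ^ 124 * ph m ≤ Pr (EV m) (LV (8 * i) m y) := by
  set E := EV m with hE
  obtain ⟨N, hN⟩ : ∃ N : ℤ, N = (m : ℤ) := ⟨_, rfl⟩
  rw [← hN]
  have a1 : ph N ≤ Pr E (AR N y (4 * i)) := by
    rw [Pr_AR (Bx_sub_EV (by omega) (by omega) (by omega) (by omega))]
    exact ph_anti (by omega) (by omega)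
  have a2 : 1 / 2 ^ 47 ≤ Pr E (VC (N - 4 * i) (N - 2 * i) (y - 4 * i) (y + 4 * i)) := by
    rw [Pr_VC (Bx_sub_EV (by omega) (by omega) (by omega) (by omega))]
    have := fc_eight hi
    have e1 : y + 4 * (i : ℤ) - (y - 4 * i) = 8 * i := by ring
    have e2 : N - 2 * (i : ℤ) - (N - 4 * i) = 2 * i := by ring
    rw [e1, e2]; exact this
  have a3 : 1 / 2 ^ 15 ≤ Pr E (HC (N - 4 * i) N (y + 2 * i) (y + 4 * i)) := by
    rw [Pr_HC' (Bx_sub_EV (by omega) (by omega) (by omega) (by omega))]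
    have := fc_four hi
    have e1 : N - (N - 4 * (i : ℤ)) = 4 * i := by ring
    have e2 : y + 4 * (i : ℤ) - (y + 2 * i) = 2 * i := by ring
    rw [e1, e2]; exact this
  have a4 : 1 / 2 ^ 15 ≤ Pr E (HC (N - 4 * i) N (y - 4 * i) (y - 2 * i)) := by
    rw [Pr_HC' (Bx_sub_EV (by omega) (by omega) (by omega) (by omega))]
    have := fc_four hi
    have e1 : N - (N - 4 * (i : ℤ)) = 4 * i := by ring
    have e2 : y - 2 * (i : ℤ) - (y - 4 * i) = 2 * i := by ring
    rw [e1, e2]; exact this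
  have a5 : 1 / 2 ^ 47 ≤ Pr E (HC (8 * i) (N - 2 * i) (y - 4 * i) (y + 4 * i)) := by
    rw [Pr_HC' (Bx_sub_EV (by omega) (by omega) (by omega) (by omega))]
    have h3 := fc_eight (n := 4 * i) (by omega)
    push_cast at h3
    have e1 : y + 4 * (i : ℤ) - (y - 4 * i) = 2 * (4 * i) := by ring
    rw [e1]
    exact h3.trans (fc_anti (by omega) (by omega))
  have f1 := Pr_harris E (AR_inc N y (4 * i)) (VC_inc (N - 4 * i) (N - 2 * i) (y - 4 * i)
    (y + 4 * i))
  have f2 := Pr_harris E (and_inc (AR_inc N y (4 * i)) (VC_inc (N - 4 * i) (N - 2 * i)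
    (y - 4 * i) (y + 4 * i))) (HC_inc (N - 4 * i) N (y + 2 * i) (y + 4 * i))
  have f3 := Pr_harris E (and_inc (and_inc (AR_inc N y (4 * i)) (VC_inc (N - 4 * i) (N - 2 * i)
    (y - 4 * i) (y + 4 * i))) (HC_inc (N - 4 * i) N (y + 2 * i) (y + 4 * i)))
    (HC_inc (N - 4 * i) N (y - 4 * i) (y - 2 * i))
  have f4 := Pr_harris E (and_inc (and_inc (and_inc (AR_inc N y (4 * i)) (VC_inc (N - 4 * i)
    (N - 2 * i) (y - 4 * i) (y + 4 * i))) (HC_inc (N - 4 * i) N (y + 2 * i) (y + 4 * i)))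
    (HC_inc (N - 4 * i) N (y - 4 * i) (y - 2 * i)))
    (HC_inc (8 * i) (N - 2 * i) (y - 4 * i) (y + 4 * i))
  have f5 : Pr E (fun ω => (((AR N y (4 * i) ω ∧ VC (N - 4 * i) (N - 2 * i) (y - 4 * i)
      (y + 4 * i) ω) ∧ HC (N - 4 * i) N (y + 2 * i) (y + 4 * i) ω) ∧
      HC (N - 4 * i) N (y - 4 * i) (y - 2 * i) ω) ∧
      HC (8 * i) (N - 2 * i) (y - 4 * i) (y + 4 * i) ω) ≤ Pr E (LV (8 * i) N y) := by
    apply Pr_mono
    rintro ω _ ⟨⟨⟨⟨g1, g2⟩, g3⟩, g4⟩, g5⟩
    obtain ⟨l, l1, _, l3⟩ := arm_extend' (L := 8 * i) (C := y - 4 * i) (D := y + 4 * i) (j := i)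
      (by omega) (by omega) le_rfl le_rfl g1 g2 g3 g4 g5
    exact ⟨l, l1.le, l3.mono inter_subset_left⟩
  have hph0 : 0 ≤ ph N := ph_nonneg _
  have m1 : ph N * (1 / 2 ^ 47) ≤ Pr E (fun ω => AR N y (4 * i) ω ∧ VC (N - 4 * i) (N - 2 * i)
      (y - 4 * i) (y + 4 * i) ω) :=
    le_trans (mul_le_mul a1 a2 (by norm_num) (hph0.trans a1)) f1
  have z1 : 0 ≤ ph N * (1 / 2 ^ 47) := mul_nonneg hph0 (by norm_num)
  have z2 : 0 ≤ ph N * (1 / 2 ^ 47) * (1 / 2 ^ 15) := mul_nonneg z1 (by norm_num)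
  have z3 : 0 ≤ ph N * (1 / 2 ^ 47) * (1 / 2 ^ 15) * (1 / 2 ^ 15) := mul_nonneg z2 (by norm_num)
  have m2 := le_trans (mul_le_mul m1 a3 (by norm_num) (le_trans z1 m1)) f2
  have m3 := le_trans (mul_le_mul m2 a4 (by norm_num) (le_trans z2 m2)) f3
  have m4 := le_trans (mul_le_mul m3 a5 (by norm_num) (le_trans z3 m3)) f4
  refine le_trans (le_of_eq ?_) (m4.trans f5)
  ring

lemma V_conn_ge {m i : ℕ} {y : ℤ} (hi : 1 ≤ i) (h1 : 32 * i ≤ m) (h2 : m ≤ 42 * i)
    (hy1 : -(4 * i : ℤ) ≤ y) (hy2 : y ≤ 4 * i) :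
    1 / 2 ^ 171 * (pV m * ph m) ≤ PS m (fun x => x) m y := by
  have b1 := Bar_prob (a := 8 * i) (b := 24 * i) (8 * i) (by omega) (by omega) (by push_cast; ring)
    (by push_cast; omega) (E := EV m) (by
      intro x y hx hy hxy
      rw [add_mem_ES hxy, hs_V, hs_V]
      unfold VS at hx hy
      omega)
  have b2 := Pr_LV hi h1 h2 hy1 hy2
  have f1 := Pr_harris (EV m) (armV_inc (m : ℤ)) (Bar_inc (8 * i) (24 * i))
  have f2 := Pr_harris (EV m) (and_inc (armV_inc (m : ℤ)) (Bar_inc (8 * i) (24 * i)))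
    (LV_inc (8 * i) m y)
  have f3 : Pr (EV m) (fun ω => (armV m ω ∧ Bar (8 * i) (24 * i) ω) ∧ LV (8 * i) m y ω) ≤
      PS m (fun x => x) m y := by
    apply Pr_mono
    rintro ω hω ⟨⟨⟨s, s1, s2⟩, g2⟩, l, l1, l2⟩
    refine bar_glue (a := 8 * i) (b := 24 * i) (by omega) (by omega) ?_ g2 s2 (by omega) l2 l1
      (by simp only; omega)
    intro x y hxy _
    have := (hxy.hs hω).2
    rw [hs_V] at this
    omega
  have p1 : 0 ≤ pV m := pV_nonneg m
  have p2 : 0 ≤ ph m := ph_nonneg _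
  have m1 := le_trans (mul_le_mul (le_refl (pV m)) b1 (by norm_num) p1) f1
  have m2 := le_trans (mul_le_mul m1 b2 (mul_nonneg (by norm_num) p2)
    (le_trans (mul_nonneg p1 (by norm_num)) m1)) f2
  refine le_trans (le_of_eq ?_) (m2.trans f3)
  ring

theorem V_upper (m : ℕ) (hm : 1 ≤ m) : pV m * ph m ≤ 2 ^ 174 / m := by
  have hm' : (0 : ℝ) < m := by exact_mod_cast hm
  have p1 : 0 ≤ pV m := pV_nonneg m
  have p2 : 0 ≤ ph m := ph_nonneg _
  rcases Nat.lt_or_ge m 128 with hlt | hge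
  · have h1 := pV_le_one m
    have h2 := ph_le_one m
    have h5 : pV m * ph m ≤ 1 := by nlinarith
    have h6 : (m : ℝ) ≤ 128 := by exact_mod_cast hlt.le
    rw [le_div_iff₀ hm']
    nlinarith
  · set i : ℕ := m / 32 with hi
    have h1 : 32 * i ≤ m := by omega
    have h2 : m ≤ 42 * i := by omega
    have hV := V_identity m
    have hsub : Icc (-(4 * i : ℤ)) (4 * i) ⊆ Icc (-(m : ℤ)) m := by
      intro y hy
      rw [mem_Icc] at hy ⊢
      omega
    have h3 : ∑ y ∈ Icc (-(4 * i : ℤ)) (4 * i), PS m (fun x => x) m y ≤ 1 := by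
      rw [← hV]
      exact Finset.sum_le_sum_of_subset_of_nonneg hsub fun _ _ _ => Pr_nonneg _ _
    have h4 := Finset.card_nsmul_le_sum (Icc (-(4 * i : ℤ)) (4 * i))
      (fun y => PS m (fun x => x) m y) (1 / 2 ^ 171 * (pV m * ph m)) (fun y hy => by
        rw [mem_Icc] at hy
        exact V_conn_ge (by omega) h1 h2 hy.1 hy.2)
    rw [nsmul_eq_mul, Int.card_Icc] at h4
    have h5 : (m : ℝ) / 8 ≤ (((4 * (i : ℤ) + 1 - -(4 * (i : ℤ))).toNat : ℕ) : ℝ) := by
      rw [div_le_iff₀ (by norm_num)]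
      have : m ≤ (4 * (i : ℤ) + 1 - -(4 * (i : ℤ))).toNat * 8 := by omega
      exact_mod_cast this
    have h6 : (m : ℝ) / 8 * (1 / 2 ^ 171 * (pV m * ph m)) ≤ 1 :=
      (mul_le_mul_of_nonneg_right h5 (mul_nonneg (by norm_num) (mul_nonneg p1 p2))).trans
        (h4.trans h3)
    rw [le_div_iff₀ hm']
    calc pV m * ph m * m = 2 ^ 174 * ((m : ℝ) / 8 * (1 / 2 ^ 171 * (pV m * ph m))) := by ring
      _ ≤ 2 ^ 174 * 1 := mul_le_mul_of_nonneg_left h6 (by norm_num)
      _ = 2 ^ 174 := by ring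

end Pool.Agent.H75.Perc
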