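import Mathlib
import Pool.Agent.H75.Perc.ArmD
import Pool.Agent.H75.Exact.Strip
import Pool.Agent.H75.Perc.VUp

set_option autoImplicit false
open Finset MeasureTheory

/-! Comparison of the corner one-arm probability of the half-infinite strip (exactly known) with the
one-arm probability of the quarter plane with diagonal sides. -/

namespace Pool.Agent.H75.Perc

open Pool.Agent.H63.Perc (coins tr coins_tr coins_mono mem_tr)
open Pool.Agent.H65.Perc (PConf planeMeasure)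
open Pool.Agent.H75.Exact (InS stripGraph StripArm)

lemma stripGraph_eq (n : ℕ) (ω : PConf) : stripGraph n ω = GD (InS n) ω := rfl

/-- the edges of the quarter plane truncated at the wall -/
noncomputable def ET (n a : ℕ) : Finset (ℤ × ℤ) :=
  (EV (2 * n + a)).filter (fun e => e.1 + e.2 ≤ 4 * n - 1)

lemma mem_ET {n a : ℕ} {u v : ℤ × ℤ} (h : IsUnit4 (v - u)) : u + v ∈ ET n a ↔
    (0 ≤ u.1 ∧ u.1 ≤ 2 * n + a ∧ -u.1 ≤ u.2 ∧ u.2 ≤ u.1) ∧
    (0 ≤ v.1 ∧ v.1 ≤ 2 * n + a ∧ -v.1 ≤ v.2 ∧ v.2 ≤ v.1) ∧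
    u.1 + u.2 ≤ 2 * n ∧ v.1 + v.2 ≤ 2 * n := by
  unfold ET
  rw [mem_filter, add_mem_ES h, hs_V, hs_V]
  have := unit_cases h
  simp only [Prod.fst_add, Prod.snd_add]
  push_cast
  omega

lemma ET_odd {n a : ℕ} : ∀ e ∈ ET n a, (e.1 + e.2) % 2 = 1 := fun _ he =>
  (mem_ES.1 (mem_filter.1 he).1).1

/-- the long crossing cut at the wall -/
def TW (n a : ℕ) (ω : Finset (ℤ × ℤ)) : Prop :=
  ∃ l t : ℤ × ℤ, l.1 = a ∧ t.1 + t.2 = 2 * n ∧ 2 * (n : ℤ) - a ≤ t.1 ∧ Co ω l t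

lemma TW_inc (n a : ℕ) : Inc (TW n a) := by
  rintro ω ω' h ⟨l, t, h1, h2, h3, h4⟩
  exact ⟨l, t, h1, h2, h3, h4.mono h⟩

lemma TW_prob {n a : ℕ} (ha : 1 ≤ a) (han : a + 1 ≤ n) (hn : n ≤ 4 * a) :
    1 / 2 ^ 47 ≤ Pr (ET n a) (TW n a) := by
  have e1 : Pr (EV (2 * n + a)) (fun ω => TW n a (ω ∩ ET n a)) = Pr (ET n a) (TW n a) :=
    Pr_restrict (filter_subset _ _) _
  rw [← e1]
  have e2 : Pr (EV (2 * n + a)) (HC a (2 * n + a) (-a) a) = fc (2 * n + a - a) (a - (-a)) :=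
    Pr_HC' (Bx_sub_EV (by omega) (by push_cast; omega) le_rfl le_rfl)
  have e3 := fc_eight ha
  have e4 : fc (8 * a) (2 * a) ≤ fc (2 * n + a - a) (a - (-a)) := by
    have : (a : ℤ) - (-a) = 2 * a := by ring
    rw [this]
    exact fc_anti (by omega) (by omega)
  refine (e3.trans e4).trans ?_
  rw [← e2]
  apply Pr_mono
  rintro ω hω ⟨p, q, h1, h2, h3, h4⟩
  have hbox : ∀ w, Co (ω ∩ Bx a (2 * n + a) (-a) a) p w → inB a (2 * n + a) (-a) a w :=
    fun w hw => hw.inB inter_subset_right h1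
  have hq := hbox q h4
  unfold inB at h1 hq
  obtain ⟨z, z', hz, hz', had, hcx, hco⟩ := exit_co (X := fun w => w.1 + w.2 ≤ 2 * (n : ℤ) - 1) h4
    (by omega) (by omega)
  have hu := unit_cases had.1
  have hzB := hbox z hcx.co
  have hz'B := hbox z' hco
  unfold inB at hzB hz'B
  have key : ∀ w, CoX (ω ∩ Bx a (2 * n + a) (-a) a) (fun w => w.1 + w.2 ≤ 2 * (n : ℤ) - 1) p w →
      Co (ω ∩ ET n a) p w := by
    intro w hw
    induction hw with
    | refl => exact Co.refl _ _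
    | @tail x y hx hxy ih =>
      have hxB := hbox x (CoX.co hx)
      have hyB := hbox y ((CoX.co hx).trans (Relation.ReflTransGen.single hxy.1))
      have hxX : x.1 + x.2 ≤ 2 * (n : ℤ) - 1 :=
        CoX.mem (X := fun w => w.1 + w.2 ≤ 2 * (n : ℤ) - 1) hx (by omega)
      have hyX := hxy.2
      unfold inB at hxB hyB
      refine Relation.ReflTransGen.tail ih ⟨hxy.1.1, mem_inter.2 ⟨(mem_inter.1 hxy.1.2).1, ?_⟩⟩
      rw [mem_ET hxy.1.1]
      omega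
  refine ⟨p, z', h2, by omega, by omega, Relation.ReflTransGen.tail (key z hcx)
    ⟨had.1, mem_inter.2 ⟨(mem_inter.1 had.2).1, ?_⟩⟩⟩
  rw [mem_ET had.1]
  omega

lemma strip_fin_lower {n a : ℕ} (ha : 1 ≤ a) (h1 : 3 * a ≤ n) (h2 : n ≤ 4 * a) :
    1 / 2 ^ 94 * pV n ≤ Pr (ET n a) (fun ω => ∃ z : ℤ × ℤ, z.1 + z.2 = 2 * n ∧ Co ω 0 z) := by
  have b1 : 1 / 2 ^ 47 ≤ Pr (ET n a) (Bar a (3 * a)) :=
    Bar_prob a ha (by omega) (by ring) (by omega) (by
      intro x y hx hy hxy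
      have := unit_cases hxy
      rw [mem_ET hxy]
      unfold VS at hx hy
      omega)
  have b2 := TW_prob (n := n) (a := a) ha (by omega) h2
  have b3 : pV n ≤ Pr (ET n a) (armV n) := by
    apply Pr_inc _ (armV_inc _)
    intro e he
    unfold ET
    rw [mem_filter]
    refine ⟨EV_sub (by omega) he, ?_⟩
    have h3 := mem_ES.1 he
    rw [hs_V, hs_V] at h3
    have h4 := sum_ends h3.1
    omega
  have f1 := Pr_harris (ET n a) (armV_inc (n : ℤ)) (Bar_inc a (3 * a))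
  have f2 := Pr_harris (ET n a) (and_inc (armV_inc (n : ℤ)) (Bar_inc a (3 * a))) (TW_inc n a)
  have f3 : Pr (ET n a) (fun ω => (armV n ω ∧ Bar a (3 * a) ω) ∧ TW n a ω) ≤
      Pr (ET n a) (fun ω => ∃ z : ℤ × ℤ, z.1 + z.2 = 2 * n ∧ Co ω 0 z) := by
    apply Pr_mono
    rintro ω hω ⟨⟨⟨s, s1, s2⟩, g2⟩, l, t, t1, t2, t3, t4⟩
    refine ⟨t, t2, ?_⟩
    refine bar_glue (a := a) (b := 3 * a) (by omega) (by omega) ?_ g2 s2 (by omega) t4 (by omega)
      (by omega)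
    intro x y hxy _
    have := (mem_ET hxy.1).1 (hω hxy.2)
    omega
  have p1 : 0 ≤ pV n := pV_nonneg n
  have m1 := le_trans (mul_le_mul b3 b1 (by norm_num) (Pr_nonneg _ _)) f1
  have m2 := le_trans (mul_le_mul m1 b2 (by norm_num) (Pr_nonneg _ _)) f2
  refine le_trans (le_of_eq ?_) (m2.trans f3)
  ring

/-- the strip probability dominates the quarter plane one, up to a constant -/
theorem strip_lower {n : ℕ} (hn : 6 ≤ n) :
    1 / 2 ^ 94 * pV n ≤ (planeMeasure {ω | StripArm n 1 ω}).toReal := by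
  obtain ⟨a, ha⟩ : ∃ a, a = n / 3 := ⟨_, rfl⟩
  have h1 := strip_fin_lower (n := n) (a := a) (by omega) (by omega) (by omega)
  refine h1.trans ?_
  rw [← coins_tr (phi_inj ET_odd), planeMeasure_eq]
  apply coins_mono
  rintro ω ⟨z, z1, z2⟩
  refine ⟨0, one_pos, z, z1, ?_⟩
  rw [stripGraph_eq]
  refine co_reach (E := ET n a) ?_ z2
  intro u v huv he
  have := (mem_ET huv).1 he
  unfold InS
  omega

/-- the edges of the quarter plane `{x + y ≥ -1, y ≤ x}` in a box -/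
noncomputable def EQ (n : ℕ) : Finset (ℤ × ℤ) :=
  (Bx (-n) n (-n) n).filter (fun e => -1 ≤ e.1 + e.2 ∧ 1 ≤ e.1 - e.2)

lemma mem_EQ {n : ℕ} {e : ℤ × ℤ} : e ∈ EQ n ↔ (2 * (-n : ℤ) ≤ e.1 ∧ e.1 ≤ 2 * n) ∧
    (2 * (-n : ℤ) ≤ e.2 ∧ e.2 ≤ 2 * n) ∧ (e.1 + e.2) % 2 = 1 ∧ -1 ≤ e.1 + e.2 ∧
      1 ≤ e.1 - e.2 := by
  unfold EQ
  rw [mem_filter, mem_Bx]
  tauto

lemma mem_EQ' {n : ℕ} {u v : ℤ × ℤ} (h : IsUnit4 (v - u)) : u + v ∈ EQ n ↔
    (-1 ≤ u.1 + u.2 ∧ u.2 ≤ u.1) ∧ (-1 ≤ v.1 + v.2 ∧ v.2 ≤ v.1) ∧ inB (-n) n (-n) n u ∧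
      inB (-n) n (-n) n v := by
  have := unit_cases h
  rw [mem_EQ]
  unfold inB
  simp only [Prod.fst_add, Prod.snd_add]
  omega

lemma strip_le_EQ (n : ℕ) :
    (planeMeasure {ω | StripArm n 1 ω}).toReal ≤ Pr (EQ n) (armF n) := by
  rw [← armD_Pr (D := fun v => -1 ≤ v.1 + v.2 ∧ v.2 ≤ v.1) (E := EQ n) (n := n)
    (fun e he => (mem_EQ.1 he).2.2.1) (fun u v h => by rw [mem_EQ' h])]
  apply coins_mono
  rintro ω ⟨j, hj, v, h1, h2⟩
  obtain rfl : j = 0 := by omega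
  refine ⟨v, ?_, ?_⟩
  · rw [le_abs, le_abs]; omega
  · refine SimpleGraph.Reachable.mono ?_ h2
    intro a b hab
    rw [stripGraph_eq, GD_adj] at hab
    rw [GD_adj]
    unfold InS at hab
    exact ⟨hab.1, ⟨hab.2.1.1, hab.2.1.2.2⟩, ⟨hab.2.2.1.1, hab.2.2.1.2.2⟩, hab.2.2.2⟩

lemma Pr_edge {E : Finset (ℤ × ℤ)} {e : ℤ × ℤ} (he : e ∈ E) : Pr E (fun ω => e ∈ ω) = 1 / 2 := by
  classical
  have h1 : Pr E (fun ω => e ∈ ω) = Pr {e} (fun ω => e ∈ ω) := by
    rw [← Pr_restrict (singleton_subset_iff.2 he)]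
    exact Pr_congr fun ω _ => by simp
  rw [h1, Pr_eq]
  have h2 : (({e} : Finset (ℤ × ℤ)).powerset.filter (fun ω => e ∈ ω)) = {{e}} := by
    ext s
    rw [mem_filter, mem_powerset, mem_singleton, subset_singleton_iff]
    constructor
    · rintro ⟨rfl | rfl, h⟩
      · simp at h
      · rfl
    · rintro rfl
      simp
  rw [h2]
  simp

lemma EQ_le (n : ℕ) : Pr (EQ n) (armF n) ≤ 2 * pV n := by
  rcases Nat.eq_zero_or_pos n with hn | hn
  · subst hn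
    have h1 : pV 0 = 1 := by
      unfold pV
      rw [← Pr_true (EV 0)]
      exact Pr_congr fun ω _ => ⟨fun _ => trivial, fun _ => ⟨0, by simp, Co.refl _ _⟩⟩
    rw [h1]
    have := Pr_le_one (EQ 0) (armF 0)
    linarith
  set E2 : Finset (ℤ × ℤ) := (EQ n).map (syT (1, 0)).G with hE2
  have hmem : ∀ e, e ∈ E2 ↔ (syT (1, 0)).G' e ∈ EQ n := fun e => Sy.mem_map _ _ _
  have hsub : E2 ⊆ EV (n + 1) := by
    intro e he
    rw [hmem, mem_EQ] at he
    simp only [syT] at he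
    rw [mem_ES]
    have hodd : (e.1 + e.2) % 2 = 1 := by omega
    refine ⟨hodd, ?_⟩
    rcases vx_in1 e hodd with ⟨h5, h6, h7, h8⟩ | ⟨h5, h6, h7, h8⟩ <;> rw [h7, h8] <;>
      rw [hs_V, hs_V] <;> simp only <;> push_cast <;> omega
  let A : Finset (ℤ × ℤ) → Prop := fun ω => ∃ z : ℤ × ℤ, (|z.1 - 1| = n ∨ |z.2| = n) ∧
    Co ω (1, 0) z
  have hA : Inc A := by
    rintro ω ω' h ⟨z, h1, h2⟩
    exact ⟨z, h1, h2.mono h⟩
  have h1 : Pr (EQ n) (armF n) = Pr E2 A := by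
    rw [(syT (1, 0)).Pr hmem]
    apply Pr_congr
    intro ω _
    have e0 : (syT (1, 0)).g 0 = (1, 0) := by simp [syT]
    constructor
    · rintro ⟨z, z1, z2⟩
      refine ⟨(syT (1, 0)).g z, ?_, ?_⟩
      · simpa [syT] using z1
      · have h := ((syT (1, 0)).co_iff ω 0 z).2 z2
        rwa [e0] at h
    · rintro ⟨z, z1, z2⟩
      refine ⟨(syT (1, 0)).g' z, ?_, ?_⟩
      · simpa [syT] using z1
      · rw [← (syT (1, 0)).co_iff, (syT (1, 0)).gg', e0]; exact z2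
  have h2 : Pr E2 A ≤ Pr E2 (fun ω => A (ω ∩ E2)) :=
    Pr_mono fun ω hω h => by rwa [inter_eq_left.2 hω]
  have hA2 : Inc (fun ω : Finset (ℤ × ℤ) => A (ω ∩ E2)) := by
    intro ω ω' h h'
    exact hA _ _ (inter_subset_inter_right h) h'
  have h3 : Pr E2 A ≤ Pr (EV (n + 1)) (fun ω => A (ω ∩ E2)) := by
    rw [Pr_restrict hsub]
  have hedge : ((1, 0) : ℤ × ℤ) ∈ EV (n + 1) := by
    have h4 : IsUnit4 (((1, 0) : ℤ × ℤ) - 0) := by unfold IsUnit4; simp
    have h5 := (add_mem_ES (w := n + 1) (f := fun x => x) h4).2 (by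
      rw [hs_V, hs_V]; push_cast
      refine ⟨by simp only [Prod.fst_zero, Prod.snd_zero]; omega, trivial, by omega, trivial,
        trivial⟩)
    rwa [zero_add] at h5
  have h4 := Pr_edge hedge
  have h5 := Pr_harris (EV (n + 1)) hA2 (B := fun ω => ((1, 0) : ℤ × ℤ) ∈ ω)
    (fun ω ω' h h' => h h')
  have h6 : Pr (EV (n + 1)) (fun ω => A (ω ∩ E2) ∧ ((1, 0) : ℤ × ℤ) ∈ ω) ≤
      Pr (EV (n + 1)) (fun ω => armV n (ω ∩ EV n)) := by
    apply Pr_mono
    rintro ω hω ⟨⟨z, z1, z2⟩, z3⟩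
    have h7 : Co ω 0 z := by
      refine Relation.ReflTransGen.head (b := (1, 0)) ⟨?_, ?_⟩ (z2.mono inter_subset_left)
      · unfold IsUnit4; simp
      · rw [zero_add]; exact z3
    have h8 : (n : ℤ) ≤ z.1 := by
      have h9 := z2.hs (inter_subset_right.trans hsub) (by
        rw [hs_V]; push_cast; exact ⟨trivial, by omega, trivial, trivial⟩)
      rw [hs_V] at h9
      rw [abs_eq (by omega), abs_eq (by omega)] at z1
      rcases Relation.ReflTransGen.cases_tail z2 with h10 | ⟨w, _, h10⟩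
      · rw [h10] at z1 ⊢
        simp only at z1 ⊢
        omega
      · have h11 := (mem_inter.1 h10.2).2
        rw [hmem, mem_EQ] at h11
        simp only [syT, Prod.fst_add, Prod.snd_add] at h11
        have := unit_cases h10.1
        omega
    obtain ⟨w, w', hw, hw', had, hcx, -⟩ := exit_co (X := fun w => w.1 ≤ (n : ℤ) - 1) h7
      (by simp only [Prod.fst_zero]; omega) (by omega)
    have h9 := unit_cases had.1
    have h10 := had.hs hω
    rw [hs_V, hs_V] at h10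
    refine ⟨w', by omega, ?_⟩
    have h11 : Co (ω ∩ EV n) 0 w := by
      refine hcx.sub (X := fun w => w.1 ≤ (n : ℤ) - 1) ?_ (by simp only [Prod.fst_zero]; omega)
      intro a b ha hb hab
      have h12 := hab.hs hω
      rw [hs_V, hs_V] at h12
      rw [add_mem_ES hab.1, hs_V, hs_V]
      omega
    refine Relation.ReflTransGen.tail h11 ⟨had.1, mem_inter.2 ⟨had.2, ?_⟩⟩
    rw [add_mem_ES had.1, hs_V, hs_V]
    omega
  rw [Pr_restrict (EV_sub (by omega))] at h6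
  have h7 : pV n = Pr (EV n) (armV n) := rfl
  rw [h1]
  rw [← h7] at h6
  rw [h4] at h5
  have h8 := mul_le_mul_of_nonneg_right h3 (by norm_num : (0 : ℝ) ≤ 1 / 2)
  linarith

theorem strip_upper (n : ℕ) : (planeMeasure {ω | StripArm n 1 ω}).toReal ≤ 2 * pV n :=
  (strip_le_EQ n).trans (EQ_le n)

end Pool.Agent.H75.Perc
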