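import Mathlib
import Pool.Agent.H75.Perc.StripCmp
import Pool.Agent.H75.Exact.StripExact
import Pool.Agent.H65.Perc.Final

set_option autoImplicit false
open Finset MeasureTheory

/-! One-arm exponents of half planes and quarter planes, of both orientations. -/

namespace Pool.Agent.H75.Perc

open Pool.Agent.H65.Perc (PConf planeMeasure HalfArm)
open Pool.Agent.H75.Exact (StripArm strip_exact hval hval_bounds)

/-- two-sided power bounds -/
def PB (s : ℝ) (f : ℕ → ℝ) : Prop :=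
  ∃ c C : ℝ, 0 < c ∧ 0 < C ∧ ∀ n : ℕ, 1 ≤ n → c * (n : ℝ) ^ (-s) ≤ f n ∧ f n ≤ C * (n : ℝ) ^ (-s)

lemma PB_of_prod {f g : ℕ → ℝ} {s t : ℝ} (hst : s + t = 1) (hf : PB s f) {a b : ℝ} (ha : 0 < a)
    (hb : 0 < b) (h1 : ∀ n : ℕ, 1 ≤ n → a / n ≤ f n * g n)
    (h2 : ∀ n : ℕ, 1 ≤ n → f n * g n ≤ b / n) : PB t g := by
  obtain ⟨c, C, hc, hC, h⟩ := hf
  refine ⟨a / C, b / c, by positivity, by positivity, fun n hn => ?_⟩
  have hn' : (0 : ℝ) < n := by exact_mod_cast hn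
  have hp : 0 < (n : ℝ) ^ (-s) := Real.rpow_pos_of_pos hn' _
  have hq : 0 < (n : ℝ) ^ (-t) := Real.rpow_pos_of_pos hn' _
  have hpq : (n : ℝ) ^ (-s) * (n : ℝ) ^ (-t) = 1 / n := by
    rw [← Real.rpow_add hn', show -s + -t = -1 by linarith, Real.rpow_neg_one, one_div]
  obtain ⟨h3, h4⟩ := h n hn
  have hfpos : 0 < f n := lt_of_lt_of_le (by positivity) h3
  have h5 := h1 n hn
  have h6 := h2 n hn
  have hgpos : 0 < g n := by
    have : 0 < f n * g n := lt_of_lt_of_le (by positivity) h5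
    exact (mul_pos_iff_of_pos_left hfpos).1 this
  constructor
  · -- a / C * n^(-t) ≤ g
    have h7 : f n * g n ≤ C * (n : ℝ) ^ (-s) * g n := mul_le_mul_of_nonneg_right h4 hgpos.le
    have h8 : a * ((n : ℝ) ^ (-s) * (n : ℝ) ^ (-t)) ≤ C * (n : ℝ) ^ (-s) * g n := by
      rw [hpq]; calc a * (1 / n) = a / n := by ring
        _ ≤ _ := h5.trans h7
    have h9 : (n : ℝ) ^ (-s) * (a * (n : ℝ) ^ (-t)) ≤ (n : ℝ) ^ (-s) * (C * g n) := by
      calc _ = a * ((n : ℝ) ^ (-s) * (n : ℝ) ^ (-t)) := by ring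
        _ ≤ _ := h8
        _ = _ := by ring
    have h10 := le_of_mul_le_mul_left h9 hp
    rw [div_mul_eq_mul_div, div_le_iff₀ hC]
    linarith
  · have h7 : c * (n : ℝ) ^ (-s) * g n ≤ f n * g n := mul_le_mul_of_nonneg_right h3 hgpos.le
    have h8 : c * (n : ℝ) ^ (-s) * g n ≤ b * ((n : ℝ) ^ (-s) * (n : ℝ) ^ (-t)) := by
      rw [hpq]; calc _ ≤ b / n := h7.trans h6
        _ = b * (1 / n) := by ring
    have h9 : (n : ℝ) ^ (-s) * (c * g n) ≤ (n : ℝ) ^ (-s) * (b * (n : ℝ) ^ (-t)) := by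
      calc _ = c * (n : ℝ) ^ (-s) * g n := by ring
        _ ≤ _ := h8
        _ = _ := by ring
    have h10 := le_of_mul_le_mul_left h9 hp
    rw [div_mul_eq_mul_div, le_div_iff₀ hc]
    linarith

theorem PB_pV : PB (2 / 3) (fun n => pV n) := by
  obtain ⟨c, C, hc, hC, h⟩ := hval_bounds
  refine ⟨c / 2, 2 ^ 94 * C + 6, by positivity, by positivity, fun n hn => ?_⟩
  have hn' : (1 : ℝ) ≤ n := by exact_mod_cast hn
  obtain ⟨h1, h2⟩ := h n hn
  have h3 := strip_upper n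
  rw [strip_exact] at h3
  have hp : 0 < (n : ℝ) ^ (-(2 / 3) : ℝ) := Real.rpow_pos_of_pos (by linarith) _
  constructor
  · have : c / 2 * (n : ℝ) ^ (-(2 / 3) : ℝ) = (c * (n : ℝ) ^ (-(2 / 3) : ℝ)) / 2 := by ring
    rw [this]
    linarith
  · rcases Nat.lt_or_ge n 6 with hlt | hge
    · have h4 : (n : ℝ) ^ (-1 : ℝ) ≤ (n : ℝ) ^ (-(2 / 3) : ℝ) :=
        Real.rpow_le_rpow_of_exponent_le hn' (by norm_num)
      rw [Real.rpow_neg_one] at h4
      have h5 : (1 : ℝ) / 6 ≤ (n : ℝ)⁻¹ := by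
        rw [← one_div]
        apply one_div_le_one_div_of_le (by linarith)
        exact_mod_cast hlt.le
      have h6 := pV_le_one n
      have h7 : 0 ≤ 2 ^ 94 * C * (n : ℝ) ^ (-(2 / 3) : ℝ) := by positivity
      calc pV n ≤ 6 * (n : ℝ) ^ (-(2 / 3) : ℝ) := by linarith
        _ ≤ _ := by linarith
    · have h4 := strip_lower hge
      rw [strip_exact] at h4
      have h5 : pV n ≤ 2 ^ 94 * hval n := by
        have : pV n = 2 ^ 94 * (1 / 2 ^ 94 * pV n) := by ring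
        rw [this]
        exact mul_le_mul_of_nonneg_left h4 (by positivity)
      have h6 : 2 ^ 94 * hval n ≤ 2 ^ 94 * (C * (n : ℝ) ^ (-(2 / 3) : ℝ)) :=
        mul_le_mul_of_nonneg_left h2 (by positivity)
      have h7 : (2 ^ 94 * C + 6) * (n : ℝ) ^ (-(2 / 3) : ℝ) =
          2 ^ 94 * (C * (n : ℝ) ^ (-(2 / 3) : ℝ)) + 6 * (n : ℝ) ^ (-(2 / 3) : ℝ) := by ring
      rw [h7]
      linarith

theorem PB_ph : PB (1 / 3) (fun n => ph (n : ℤ)) := by
  refine PB_of_prod (s := 2 / 3) (a := 1 / 7) (b := 2 ^ 174) (by norm_num) PB_pV (by norm_num)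
    (by norm_num) ?_ ?_
  · intro n hn
    have hn' : (1 : ℝ) ≤ n := by exact_mod_cast hn
    have h := V_lower n n
    have hP : 0 ≤ pV n * ph (n : ℤ) := mul_nonneg (pV_nonneg _) (ph_nonneg _)
    rw [div_le_iff₀ (by linarith)]
    nlinarith
  · intro n hn
    exact V_upper n hn

theorem PB_pq : PB (2 / 3) (fun n => Pr (EE n n) (armQ n)) := by
  refine PB_of_prod (s := 1 / 3) (a := 1 / 4) (b := 2 ^ 126) (by norm_num) PB_ph (by norm_num)
    (by norm_num) ?_ ?_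
  · intro n hn
    have hn' : (1 : ℝ) ≤ n := by exact_mod_cast hn
    have h := prod_bound n
    rw [Pr_armH] at h
    refine le_trans ?_ (h.trans (le_of_eq (mul_comm _ _)))
    rw [div_div]
    apply one_div_le_one_div_of_le (by positivity)
    linarith
  · intro n hn
    have h := prod_upper n hn
    rw [Pr_armH] at h
    exact (le_of_eq (mul_comm _ _)).trans h

theorem PB_half_diag : PB (1 / 3) (fun n =>
    (planeMeasure {ω | armD (fun v => 0 ≤ v.1 + v.2) n ω}).toReal) := by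
  obtain ⟨c, C, hc, hC, h⟩ := Pool.Agent.H65.Perc.halfPlane_oneArm
  refine ⟨c, C, hc, hC, fun n hn => ?_⟩
  have h1 : {ω | armD (fun v => 0 ≤ v.1 + v.2) n ω} = {ω | HalfArm n ω} := by
    ext ω
    exact armD_half65 n ω
  have h2 := h n hn
  rw [← h1] at h2
  exact h2

theorem wedge (W : ℤ × ℤ → Prop) (θ : ℝ)
    (hW : (θ = Real.pi ∧ ((∀ v, W v ↔ v.1 ≤ 0) ∨ (∀ v, W v ↔ 0 ≤ v.1 + v.2))) ∨
      (θ = Real.pi / 2 ∧ ((∀ v, W v ↔ 0 ≤ v.1 ∧ 0 ≤ v.2) ∨
        (∀ v, W v ↔ -v.1 ≤ v.2 ∧ v.2 ≤ v.1)))) :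
    PB (Real.pi / (3 * θ)) (fun n => (planeMeasure {ω | armD W n ω}).toReal) := by
  have hpi := Real.pi_ne_zero
  rcases hW with ⟨rfl, h | h⟩ | ⟨rfl, h | h⟩
  · obtain rfl : W = fun v => v.1 ≤ 0 := funext fun v => propext (h v)
    rw [show Real.pi / (3 * Real.pi) = 1 / 3 by field_simp]
    simp only [arm_half]
    exact PB_ph
  · obtain rfl : W = fun v => 0 ≤ v.1 + v.2 := funext fun v => propext (h v)
    rw [show Real.pi / (3 * Real.pi) = 1 / 3 by field_simp]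
    exact PB_half_diag
  · obtain rfl : W = fun v => 0 ≤ v.1 ∧ 0 ≤ v.2 := funext fun v => propext (h v)
    rw [show Real.pi / (3 * (Real.pi / 2)) = 2 / 3 by field_simp]
    simp only [arm_quarter]
    exact PB_pq
  · obtain rfl : W = fun v => -v.1 ≤ v.2 ∧ v.2 ≤ v.1 := funext fun v => propext (h v)
    rw [show Real.pi / (3 * (Real.pi / 2)) = 2 / 3 by field_simp]
    simp only [arm_diag]
    exact PB_pV

end Pool.Agent.H75.Perc
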